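import Mathlib

/-! A countable complete locally finite group: part 1, a rigid 3-Kronecker module over `𝔽₃`. -/

set_option autoImplicit false
open Polynomial

namespace Pool.Agent.H3.CLF

instance : Fact (Nat.Prime 3) := ⟨by norm_num⟩

abbrev K := ZMod 3
abbrev M := Polynomial K
abbrev E := K × K × K

def ph (p : M) : K := p.coeff 0 + p.coeff 1 - p.coeff 2

lemma ph_add (p q : M) : ph (p + q) = ph p + ph q := by simp [ph]; ring
lemma ph_smul (c : K) (p : M) : ph (c • p) = c * ph p := by simp [ph]; ring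
lemma ph_C (c : K) : ph (C c) = c := by simp [ph, coeff_C]

noncomputable def N (e : E) (p : M) : M := e.1 • p + e.2.1 • (X * p) + C (e.2.2 * ph p)

lemma N_add_left (e e' : E) (p : M) : N (e + e') p = N e p + N e' p := by
  simp only [N, Prod.fst_add, Prod.snd_add, add_smul, add_mul, C_add]; abel
lemma N_add_right (e : E) (p q : M) : N e (p + q) = N e p + N e q := by
  simp only [N, ph_add, smul_add, mul_add, C_add]; abel
lemma N_smul_left (c : K) (e : E) (p : M) : N (c • e) p = c • N e p := by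
  simp only [N, Prod.smul_fst, Prod.smul_snd, smul_eq_mul, mul_smul, smul_add, mul_assoc, C_mul, ← smul_eq_C_mul]
lemma N_smul_right (c : K) (e : E) (p : M) : N e (c • p) = c • N e p := by
  simp only [N, ph_smul, smul_add, mul_smul_comm, smul_comm c, ← smul_eq_C_mul, C_mul]

lemma N_e0 (p : M) : N (1, 0, 0) p = p := by simp [N]
lemma N_e1 (p : M) : N (0, 1, 0) p = X * p := by simp [N]
lemma N_e2 (p : M) : N (0, 0, 1) p = C (ph p) := by simp [N]

/-- the truncated recursion: coefficients 0,1,2 of `f (X^n)` -/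
def step (α β : K) (u : K) (x : K × K × K) : K × K × K :=
  (α * x.1 + u, α * x.2.1 + β * x.1, α * x.2.2 + β * x.2.1)

def q (x : K × K × K) : K := x.1 + x.2.1 - x.2.2

def s1 (a b' a' c c' μ : K) : K × K × K := step (a * a') (a * b') (a * (μ * (c' * 1 - c * 1))) (μ, 0, 0)
def s2 (a b' a' c c' μ : K) : K × K × K :=
  step (a * a') (a * b') (a * (μ * (c' * 1 - c * (-1)))) (s1 a b' a' c c' μ)
def s3 (a b' a' c c' μ : K) : K × K × K :=
  step (a * a') (a * b') (a * (μ * (c' * (-1) - c * 0))) (s2 a b' a' c c' μ)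
def s4 (a b' a' c c' μ : K) : K × K × K := step (a * a') (a * b') 0 (s3 a b' a' c c' μ)
def s5 (a b' a' c c' μ : K) : K × K × K := step (a * a') (a * b') 0 (s4 a b' a' c c' μ)

def chk (a b' a' c c' μ : K) : Bool :=
  (a == 0) || (b' == 0) || (μ == 0) || (a + c == 0) || (q (s1 a b' a' c c' μ) != μ) ||
  (q (s2 a b' a' c c' μ) != -μ) || (q (s3 a b' a' c c' μ) != 0) || (q (s4 a b' a' c c' μ) != 0) ||
  (q (s5 a b' a' c c' μ) != 0) || ((a' == 0) && (c' == 0) && (c == 0) && (b' == a))

lemma chk_all : ∀ a b' a' c c' μ : K, chk a b' a' c c' μ = true := by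
  decide +kernel

lemma finite_check (a b' a' c c' μ : K) (ha : a ≠ 0) (hb : b' ≠ 0) (hμ : μ ≠ 0) (hac : a + c ≠ 0)
    (h1 : q (s1 a b' a' c c' μ) = μ) (h2 : q (s2 a b' a' c c' μ) = -μ) (h3 : q (s3 a b' a' c c' μ) = 0)
    (h4 : q (s4 a b' a' c c' μ) = 0) (h5 : q (s5 a b' a' c c' μ) = 0) :
    a' = 0 ∧ c' = 0 ∧ c = 0 ∧ b' = a := by
  have h := chk_all a b' a' c c' μ
  simp only [chk, h1, h2, h3, h4, h5, bne_self_eq_false, Bool.or_false, Bool.or_eq_true, beq_iff_eq,
    Bool.and_eq_true, ha, hb, hμ, hac, false_or] at h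
  tauto


lemma q_coeff (p : M) : q (p.coeff 0, p.coeff 1, p.coeff 2) = ph p := rfl

theorem rigid (f h : M →+ M) (g : E →+ E) (hf : Function.Bijective f) (hh : Function.Bijective h)
    (hg : Function.Bijective g) (H : ∀ e p, h (N e p) = N (g e) (f p)) :
    ∃ κ a : K, κ ≠ 0 ∧ a ≠ 0 ∧ (∀ p, f p = κ • p) ∧ (∀ p, h p = (a * κ) • p) ∧ (∀ e, g e = a • e) := by
  have fs : ∀ (c : K) (p : M), f (c • p) = c • f p := fun c p => ZMod.map_smul f c p
  have hs : ∀ (c : K) (p : M), h (c • p) = c • h p := fun c p => ZMod.map_smul h c p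
  have gs : ∀ (c : K) (p : E), g (c • p) = c • g p := fun c p => ZMod.map_smul g c p
  obtain ⟨a, b, c, he0⟩ : ∃ a b c, g (1, 0, 0) = (a, b, c) := ⟨_, _, _, rfl⟩
  obtain ⟨a', b', c', he1⟩ : ∃ a b c, g (0, 1, 0) = (a, b, c) := ⟨_, _, _, rfl⟩
  obtain ⟨a'', b'', s, he2⟩ : ∃ a b c, g (0, 0, 1) = (a, b, c) := ⟨_, _, _, rfl⟩
  have H0 : ∀ p, h p = a • f p + b • (X * f p) + C (c * ph (f p)) := by
    intro p; have := H (1, 0, 0) p; rw [N_e0, he0] at this; exact this
  have H1 : ∀ p, h (X * p) = a' • f p + b' • (X * f p) + C (c' * ph (f p)) := by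
    intro p; have := H (0, 1, 0) p; rw [N_e1, he1] at this; exact this
  have H2 : ∀ p, h (C (ph p)) = a'' • f p + b'' • (X * f p) + C (s * ph (f p)) := by
    intro p; have := H (0, 0, 1) p; rw [N_e2, he2] at this; exact this
  have hC : ∀ k : K, h (C k) = k • h 1 := by
    intro k
    have : C k = k • (1 : M) := by rw [smul_eq_C_mul, mul_one]
    rw [this, hs]
  -- a'' = b'' = 0
  have hab : a'' = 0 ∧ b'' = 0 := by
    obtain ⟨p1, hp1⟩ := hf.2 (X ^ 3)
    obtain ⟨p2, hp2⟩ := hf.2 (X ^ 5)
    have k1 := H2 p1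
    have k2 := H2 p2
    rw [hC, hp1, ← pow_succ'] at k1
    rw [hC, hp2, ← pow_succ'] at k2
    have c1 := congrArg (fun p => coeff p 3) k1
    have c2 := congrArg (fun p => coeff p 3) k2
    have c3 := congrArg (fun p => coeff p 5) k1
    have c4 := congrArg (fun p => coeff p 5) k2
    have d1 := congrArg (fun p => coeff p 4) k1
    have d2 := congrArg (fun p => coeff p 4) k2
    have d3 := congrArg (fun p => coeff p 6) k1
    have d4 := congrArg (fun p => coeff p 6) k2
    simp [coeff_X_pow, coeff_C, ph] at c1 c2 c3 c4 d1 d2 d3 d4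
    constructor
    · rcases c2 with h | h
      · rw [← c4, h, zero_mul]
      · rw [← c1, h, mul_zero]
    · rcases d2 with h | h
      · rw [← d4, h, zero_mul]
      · rw [← d1, h, mul_zero]
  obtain ⟨ha'', hb''⟩ := hab
  subst ha'' hb''
  have hb : b = 0 := by
    by_contra hb
    obtain ⟨p, hp⟩ := hh.2 1
    have k := H0 p
    rw [hp] at k
    set r := f p with hr
    have hr0 : r ≠ 0 := by
      intro h0
      rw [h0] at k
      simp [ph] at k
    have k2 := congrArg (fun p => coeff p (r.natDegree + 1)) k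
    simp only [coeff_add, coeff_smul, coeff_X_mul, smul_eq_mul, coeff_C, Nat.add_eq_zero_iff, one_ne_zero, and_false, if_false,
      coeff_eq_zero_of_natDegree_lt (Nat.lt_succ_self r.natDegree), coeff_one, mul_zero, zero_add, add_zero] at k2
    have : r.coeff r.natDegree ≠ 0 := by
      rw [coeff_natDegree]; exact leadingCoeff_ne_zero.2 hr0
    exact (mul_ne_zero hb this) k2.symm
  subst hb
  have ha : a ≠ 0 := by
    rintro rfl
    obtain ⟨p, hp⟩ := hh.2 X
    have k := H0 p
    rw [hp] at k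
    have k2 := congrArg (fun p => coeff p 1) k
    simp [coeff_C] at k2
  have hb' : b' ≠ 0 := by
    rintro rfl
    obtain ⟨e, he⟩ := hg.2 (0, 1, 0)
    have : e = e.1 • ((1, 0, 0) : E) + e.2.1 • ((0, 1, 0) : E) + e.2.2 • ((0, 0, 1) : E) := by
      ext <;> simp
    rw [this, map_add, map_add, gs, gs, gs, he0, he1, he2] at he
    have := congrArg (fun x : E => x.2.1) he
    simp at this
  have hs0 : s ≠ 0 := by
    rintro rfl
    have : ((0, 0, 1) : E) = 0 := hg.1 (by rw [he2, map_zero]; rfl)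
    simp at this
  simp only [zero_smul, zero_add, add_zero] at H0 H2
  -- the constants
  have e1 : h 1 = C (s * ph (f 1)) := by
    have := H2 1
    rw [show ph (1 : M) = 1 from by simp [ph, coeff_one], C_1] at this
    exact this
  have f1 : f 1 ≠ 0 := by
    intro h0
    have := hf.1 (h0.trans (map_zero f).symm)
    exact one_ne_zero this
  obtain ⟨μ, hμ⟩ : ∃ μ, f 1 = C μ := by
    have := H0 1
    rw [e1] at this
    refine ⟨a⁻¹ * (s * ph (f 1) - c * ph (f 1)), ?_⟩
    have h2 : a • f 1 = C (s * ph (f 1) - c * ph (f 1)) := by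
      rw [C_sub, this]; ring
    rw [C_mul, ← h2, ← smul_eq_C_mul, smul_smul, inv_mul_cancel₀ ha, one_smul]
  have hμ0 : μ ≠ 0 := by
    rintro rfl; rw [C_0] at hμ; exact f1 hμ
  have phf1 : ph (f 1) = μ := by rw [hμ, ph_C]
  have hsac : s = a + c := by
    have := H0 1
    rw [e1, phf1, hμ, smul_C, smul_eq_mul, ← C_add] at this
    have := C_injective this
    have : s * μ = (a + c) * μ := by rw [this]; ring
    exact mul_right_cancel₀ hμ0 this
  have hA : ∀ p, ph (f p) = μ * ph p := by
    intro p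
    have := H2 p
    rw [hC, e1, phf1, smul_C, smul_eq_mul] at this
    have := C_injective this
    have h3 : s * ph (f p) = s * (μ * ph p) := by rw [← this]; ring
    exact mul_left_cancel₀ hs0 h3
  have hrec : ∀ p, f (X * p) = (a * a') • f p + (a * b') • (X * f p) + C (a * (μ * (c' * ph p - c * ph (X * p)))) := by
    intro p
    have k0 := H0 (X * p)
    have k1 := H1 p
    rw [k0, hA, hA] at k1
    have haa : a * a = 1 := by
      clear * - ha
      revert a; decide
    have : f (X * p) = a • (a • f (X * p)) := by rw [smul_smul, haa, one_smul]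
    rw [this, show a • f (X * p) = a' • f p + b' • (X * f p) + C (c' * (μ * ph p)) - C (c * (μ * ph (X * p))) from by
      rw [← k1]; ring]
    simp only [smul_eq_C_mul, C_mul, C_sub]
    ring
  have hphX : ∀ n, ph (X ^ n : M) = if n = 0 then 1 else if n = 1 then 1 else if n = 2 then -1 else 0 := by
    intro n
    simp only [ph, coeff_X_pow]
    rcases n with _ | _ | _ | n <;> simp
  have hstep : ∀ n, ((f (X ^ (n+1))).coeff 0, (f (X ^ (n+1))).coeff 1, (f (X ^ (n+1))).coeff 2)
      = step (a * a') (a * b') (a * (μ * (c' * ph (X ^ n) - c * ph (X ^ (n+1)))))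
        ((f (X ^ n)).coeff 0, (f (X ^ n)).coeff 1, (f (X ^ n)).coeff 2) := by
    intro n
    have : f (X ^ (n+1)) = f (X * X ^ n) := by rw [pow_succ']
    rw [this, hrec, ← pow_succ']
    have t0 : ∀ r : M, (X * r).coeff 0 = 0 := fun r => coeff_X_mul_zero r
    have t1 : ∀ r : M, (X * r).coeff 1 = r.coeff 0 := fun r => coeff_X_mul r 0
    have t2 : ∀ r : M, (X * r).coeff 2 = r.coeff 1 := fun r => coeff_X_mul r 1
    simp only [step, coeff_add, coeff_smul, t0, t1, t2, coeff_C, smul_eq_mul]
    simp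
  set y : ℕ → K × K × K := fun n => ((f (X ^ n)).coeff 0, (f (X ^ n)).coeff 1, (f (X ^ n)).coeff 2) with hy
  have y0 : y 0 = (μ, 0, 0) := by
    simp [hy, hμ, coeff_C]
  have y1 : y 1 = s1 a b' a' c c' μ := by
    have := hstep 0
    rw [hphX, hphX] at this
    simp only [if_true, zero_add, one_ne_zero, if_false] at this
    show ((f (X ^ 1)).coeff 0, (f (X ^ 1)).coeff 1, (f (X ^ 1)).coeff 2) = _
    rw [this]; unfold s1; rw [← y0]
  have y2 : y 2 = s2 a b' a' c c' μ := by
    have := hstep 1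
    rw [hphX, hphX] at this
    unfold s2; rw [← y1]
    exact this
  have y3 : y 3 = s3 a b' a' c c' μ := by
    have := hstep 2
    rw [hphX, hphX] at this
    unfold s3; rw [← y2]
    exact this
  have y4 : y 4 = s4 a b' a' c c' μ := by
    have := hstep 3
    rw [hphX, hphX] at this
    unfold s4; rw [← y3]
    simpa using this
  have y5 : y 5 = s5 a b' a' c c' μ := by
    have := hstep 4
    rw [hphX, hphX] at this
    unfold s5; rw [← y4]
    simpa using this
  have hq : ∀ n, q (y n) = μ * ph (X ^ n) := fun n => (q_coeff _).trans (hA _)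
  have hac : a + c ≠ 0 := by rw [← hsac]; exact hs0
  obtain ⟨z1, z2, z3, z4⟩ := finite_check a b' a' c c' μ ha hb' hμ0 hac
    (by rw [← y1, hq, hphX]; simp) (by rw [← y2, hq, hphX]; simp) (by rw [← y3, hq, hphX]; simp)
    (by rw [← y4, hq, hphX]; simp) (by rw [← y5, hq, hphX]; simp)
  subst z1 z2 z3 z4
  have haa : b' * b' = 1 := by
    clear * - ha
    revert b'; decide
  have hfX : ∀ p, f (X * p) = X * f p := by
    intro p; rw [hrec, haa]; simp
  have hfXn : ∀ n : ℕ, f (X ^ n) = C μ * X ^ n := by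
    intro n
    induction n with
    | zero => simp [hμ]
    | succ n ih => rw [pow_succ', hfX, ih]; ring
  have hfin : ∀ p, f p = μ • p := by
    intro p
    induction p using Polynomial.induction_on' with
    | add p q hp hq => rw [map_add, hp, hq, smul_add]
    | monomial n k =>
      rw [← C_mul_X_pow_eq_monomial, ← smul_eq_C_mul, fs, hfXn, ← smul_eq_C_mul, smul_comm]
  refine ⟨μ, b', hμ0, ha, hfin, fun p => ?_, fun e => ?_⟩
  · rw [H0, hfin, smul_smul]; simp
  · have : e = e.1 • ((1, 0, 0) : E) + e.2.1 • ((0, 1, 0) : E) + e.2.2 • ((0, 0, 1) : E) := by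
      ext <;> simp
    rw [this, map_add, map_add, gs, gs, gs, he0, he1, he2, hsac]
    ext <;> simp [mul_comm]

end Pool.Agent.H3.CLF
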