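import Pool.Agent.H3.CLF

/-! A countable complete locally finite group: part 2, the group. -/

set_option autoImplicit false
open Polynomial

namespace Pool.Agent.H3.CLF

@[ext] structure G where
  v : M
  w : M
  e : E
  s : Kˣ
  t : Kˣ

namespace G

noncomputable instance : Mul G := ⟨fun x y =>
  ⟨x.v + (x.t : K) • y.v, x.w + (x.s * x.t : K) • y.w + N x.e ((x.t : K) • y.v), x.e + (x.s : K) • y.e, x.s * y.s, x.t * y.t⟩⟩
noncomputable instance : One G := ⟨⟨0, 0, 0, 1, 1⟩⟩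
noncomputable instance : Inv G := ⟨fun x =>
  ⟨-((x.t⁻¹ : Kˣ) : K) • x.v, (((x.s⁻¹ : Kˣ) : K) * ((x.t⁻¹ : Kˣ) : K)) • (N x.e x.v - x.w), -((x.s⁻¹ : Kˣ) : K) • x.e, x.s⁻¹, x.t⁻¹⟩⟩

lemma mul_v (x y : G) : (x * y).v = x.v + (x.t : K) • y.v := rfl
lemma mul_w (x y : G) : (x * y).w = x.w + (x.s * x.t : K) • y.w + N x.e ((x.t : K) • y.v) := rfl
lemma mul_e (x y : G) : (x * y).e = x.e + (x.s : K) • y.e := rfl
lemma mul_s (x y : G) : (x * y).s = x.s * y.s := rfl
lemma mul_t (x y : G) : (x * y).t = x.t * y.t := rfl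
lemma one_v : (1 : G).v = 0 := rfl
lemma one_w : (1 : G).w = 0 := rfl
lemma one_e : (1 : G).e = 0 := rfl
lemma one_s : (1 : G).s = 1 := rfl
lemma one_t : (1 : G).t = 1 := rfl
lemma inv_v (x : G) : (x⁻¹).v = -((x.t⁻¹ : Kˣ) : K) • x.v := rfl
lemma inv_w (x : G) : (x⁻¹).w = (((x.s⁻¹ : Kˣ) : K) * ((x.t⁻¹ : Kˣ) : K)) • (N x.e x.v - x.w) := rfl
lemma inv_e (x : G) : (x⁻¹).e = -((x.s⁻¹ : Kˣ) : K) • x.e := rfl
lemma inv_s (x : G) : (x⁻¹).s = x.s⁻¹ := rfl
lemma inv_t (x : G) : (x⁻¹).t = x.t⁻¹ := rfl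

lemma N_zero_left (p : M) : N 0 p = 0 := by simp [N]
lemma N_zero_right (e : E) : N e 0 = 0 := by simp [N, ph]

noncomputable instance : Group G := Group.ofLeftAxioms
  (by
    intro x y z
    ext1
    · simp only [mul_v, mul_t, Units.val_mul, smul_add, mul_smul]; abel
    · simp only [mul_w, mul_v, mul_e, mul_s, mul_t, Units.val_mul, smul_add, N_add_left, N_add_right,
        N_smul_left, N_smul_right, smul_smul]
      have e1 : ((x.s : K) * (y.s : K) * ((x.t : K) * (y.t : K))) = (x.s : K) * (x.t : K) * ((y.s : K) * (y.t : K)) := by ring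
      have e2 : ((x.t : K) * (y.t : K) * (x.s : K)) = (x.s : K) * (x.t : K) * (y.t : K) := by ring
      rw [e1, e2]
      abel
    · simp only [mul_e, mul_s, Units.val_mul, smul_add, mul_smul]; abel
    · simp only [mul_s, mul_assoc]
    · simp only [mul_t, mul_assoc])
  (by
    intro x
    ext1
    · simp [mul_v, one_v, one_t]
    · simp [mul_w, one_w, one_s, one_t, one_e, N_zero_left]
    · simp [mul_e, one_e, one_s]
    · simp [mul_s, one_s]
    · simp [mul_t, one_t])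
  (by
    intro x
    ext1
    · simp only [mul_v, inv_v, inv_t, one_v]
      rw [neg_smul, neg_add_cancel]
    · simp only [mul_w, inv_w, inv_e, inv_s, inv_t, one_w, N_smul_left, N_smul_right]
      module
    · simp only [mul_e, inv_e, inv_s, one_e]
      rw [neg_smul, neg_add_cancel]
    · simp [mul_s, inv_s, one_s]
    · simp [mul_t, inv_t, one_t])

end G

end Pool.Agent.H3.CLF
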