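import Pool.Agent.H3.CLF2

/-! A countable complete locally finite group: part 3, automorphisms. -/

set_option autoImplicit false
open Polynomial

namespace Pool.Agent.H3.CLF

lemma unit_cases : ∀ u : Kˣ, u = 1 ∨ u = -1 := by decide
lemma unit_sq : ∀ u : Kˣ, u * u = 1 := by decide
lemma unit_cube : ∀ u : Kˣ, u ^ 3 = 1 → u = 1 := by decide
lemma three_smul_M (p : M) : p + p + p = 0 := by
  have : (3 : K) • p = 0 := by rw [show (3 : K) = 0 from rfl, zero_smul]
  have h : (3 : K) • p = p + p + p := by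
    rw [show (3 : K) = 1 + 1 + 1 from by norm_num, add_smul, add_smul, one_smul]
  rw [← h, this]
lemma three_smul_E (p : E) : p + p + p = 0 := by
  have : (3 : K) • p = 0 := by rw [show (3 : K) = 0 from rfl, zero_smul]
  have h : (3 : K) • p = p + p + p := by
    rw [show (3 : K) = 1 + 1 + 1 from by norm_num, add_smul, add_smul, one_smul]
  rw [← h, this]

namespace G

noncomputable def δ (s t : Kˣ) : G := ⟨0, 0, 0, s, t⟩
noncomputable def iv (v : M) : G := ⟨v, 0, 0, 1, 1⟩
noncomputable def iw (w : M) : G := ⟨0, w, 0, 1, 1⟩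
noncomputable def ie (e : E) : G := ⟨0, 0, e, 1, 1⟩

lemma decomp (x : G) : x = iv x.v * iw x.w * ie x.e * δ x.s x.t := by
  ext1 <;> simp [mul_v, mul_w, mul_e, mul_s, mul_t, iv, iw, ie, δ, N_zero_left, N_zero_right]

lemma δ_mul (s t s' t' : Kˣ) : δ s t * δ s' t' = δ (s * s') (t * t') := by
  ext1 <;> simp [mul_v, mul_w, mul_e, mul_s, mul_t, δ, N_zero_left]
lemma δ_sq (s t : Kˣ) : δ s t * δ s t = 1 := by
  rw [δ_mul, unit_sq, unit_sq]; rfl
lemma δ_inj {s t s' t' : Kˣ} (h : δ s t = δ s' t') : s = s' ∧ t = t' :=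
  ⟨congrArg G.s h, congrArg G.t h⟩

lemma cube_s (x : G) : (x ^ 3).s = x.s ^ 3 := by
  rw [pow_succ, pow_two, mul_s, mul_s, pow_succ, pow_two]
lemma cube_t (x : G) : (x ^ 3).t = x.t ^ 3 := by
  rw [pow_succ, pow_two, mul_t, mul_t, pow_succ, pow_two]

lemma cube_iff (x : G) : x ^ 3 = 1 ↔ x.s = 1 ∧ x.t = 1 := by
  constructor
  · intro h
    constructor
    · apply unit_cube; rw [← cube_s, h]; rfl
    · apply unit_cube; rw [← cube_t, h]; rfl
  · rintro ⟨hs, ht⟩
    rw [pow_succ, pow_two]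
    ext1
    · simp only [mul_v, mul_t, ht, hs, Units.val_one, one_smul, mul_one, one_v]
      exact three_smul_M _
    · simp only [mul_w, mul_v, mul_e, mul_s, mul_t, ht, hs, Units.val_one, one_smul, mul_one, one_w, N_add_left]
      have e : x.w + x.w + N x.e x.v + x.w + (N x.e x.v + N x.e x.v) = (x.w + x.w + x.w) + (N x.e x.v + N x.e x.v + N x.e x.v) := by abel
      rw [e, three_smul_M, three_smul_M, add_zero]
    · simp only [mul_e, mul_s, ht, hs, Units.val_one, one_smul, mul_one, one_e]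
      exact three_smul_E _
    · simp [mul_s, hs, one_s]
    · simp [mul_t, ht, one_t]

lemma comm_iff (s t : Kˣ) (x : G) (hs : x.s = 1) (ht : x.t = 1) :
    δ s t * x = x * δ s t ↔ (t : K) • x.v = x.v ∧ (s * t : K) • x.w = x.w ∧ (s : K) • x.e = x.e := by
  constructor
  · intro h
    have h1 := congrArg G.v h
    have h2 := congrArg G.w h
    have h3 := congrArg G.e h
    simp [mul_v, mul_w, mul_e, δ, N_zero_left, N_zero_right] at h1 h2 h3
    exact ⟨h1, h2, h3⟩
  · rintro ⟨h1, h2, h3⟩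
    ext1
    · simp [mul_v, δ, h1]
    · simp [mul_w, δ, h2, N_zero_left, N_zero_right]
    · simp [mul_e, δ, h3]
    · simp [mul_s, δ, hs]
    · simp [mul_t, δ, ht]

lemma neg_one_M (p : M) (h : ((-1 : Kˣ) : K) • p = p) : p = 0 := by
  simp only [Units.val_neg, Units.val_one, neg_smul, one_smul] at h
  have h2 : p + p = 0 := by
    nth_rewrite 1 [← h]; exact neg_add_cancel p
  have := three_smul_M p
  rw [h2, zero_add] at this; exact this
lemma neg_one_E (p : E) (h : ((-1 : Kˣ) : K) • p = p) : p = 0 := by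
  simp only [Units.val_neg, Units.val_one, neg_smul, one_smul] at h
  have h2 : p + p = 0 := by
    nth_rewrite 1 [← h]; exact neg_add_cancel p
  have := three_smul_E p
  rw [h2, zero_add] at this; exact this

/-- elements of order 3 commuting with z = δ 1 (-1) -/
lemma C_z (x : G) (h3 : x ^ 3 = 1) (hc : δ 1 (-1) * x = x * δ 1 (-1)) : x = ie x.e := by
  obtain ⟨hs, ht⟩ := (cube_iff x).1 h3
  obtain ⟨h1, h2, h3⟩ := (comm_iff 1 (-1) x hs ht).1 hc
  have a1 := neg_one_M _ h1
  have a2 := neg_one_M x.w (by simpa using h2)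
  ext1 <;> simp [ie, a1, a2, hs, ht]
lemma C_τ (x : G) (h3 : x ^ 3 = 1) (hc : δ (-1) 1 * x = x * δ (-1) 1) : x = iv x.v := by
  obtain ⟨hs, ht⟩ := (cube_iff x).1 h3
  obtain ⟨h1, h2, h3⟩ := (comm_iff (-1) 1 x hs ht).1 hc
  have a1 := neg_one_E _ h3
  have a2 := neg_one_M x.w (by simpa using h2)
  ext1 <;> simp [iv, a1, a2, hs, ht]
lemma C_zτ (x : G) (h3 : x ^ 3 = 1) (hc : δ (-1) (-1) * x = x * δ (-1) (-1)) : x = iw x.w := by
  obtain ⟨hs, ht⟩ := (cube_iff x).1 h3
  obtain ⟨h1, h2, h3⟩ := (comm_iff (-1) (-1) x hs ht).1 hc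
  have a1 := neg_one_E _ h3
  have a2 := neg_one_M _ h1
  ext1 <;> simp [iw, a1, a2, hs, ht]

lemma iv_cube (v : M) : (iv v) ^ 3 = 1 := (cube_iff _).2 ⟨rfl, rfl⟩
lemma iw_cube (v : M) : (iw v) ^ 3 = 1 := (cube_iff _).2 ⟨rfl, rfl⟩
lemma ie_cube (v : E) : (ie v) ^ 3 = 1 := (cube_iff _).2 ⟨rfl, rfl⟩
lemma ie_comm (t : Kˣ) (e : E) : δ 1 t * ie e = ie e * δ 1 t :=
  (comm_iff _ _ _ rfl rfl).2 (by simp [ie])
lemma iv_comm (s : Kˣ) (v : M) : δ s 1 * iv v = iv v * δ s 1 :=
  (comm_iff _ _ _ rfl rfl).2 (by simp [iv])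
lemma iw_comm (v : M) : δ (-1) (-1) * iw v = iw v * δ (-1) (-1) :=
  (comm_iff _ _ _ rfl rfl).2 (by simp [iw])

lemma conj_invol {H : Type*} [Group H] (q d : H) (hq : q ^ 3 = 1) (hd : d * d = 1) (h : (q * d) * (q * d) = 1) :
    q * (q * d) * q⁻¹ = d := by
  have h1 : d⁻¹ = d := inv_eq_of_mul_eq_one_left hd
  have h2 : d * q = q⁻¹ * d := by
    have : q * (d * q) * d = 1 := by rw [← h]; group
    have h3 : d * q = q⁻¹ * d⁻¹ := by
      calc d * q = q⁻¹ * (q * (d * q) * d) * d⁻¹ := by group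
        _ = _ := by rw [this]; group
    rw [h3, h1]
  have h3 : d * q⁻¹ = q * d := by
    calc d * q⁻¹ = q * (q⁻¹ * d) * q⁻¹ := by group
      _ = q * (d * q) * q⁻¹ := by rw [h2]
      _ = q * d := by group
  calc q * (q * d) * q⁻¹ = q * q * (d * q⁻¹) := by group
    _ = q ^ 3 * d := by rw [h3, pow_succ, pow_two]; simp only [mul_assoc]
    _ = d := by rw [hq, one_mul]

lemma δ_cases (s t : Kˣ) : δ s t = 1 ∨ δ s t = δ 1 (-1) ∨ δ s t = δ (-1) 1 ∨ δ s t = δ (-1) (-1) := by
  rcases unit_cases s with rfl | rfl <;> rcases unit_cases t with rfl | rfl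
  · left; rfl
  · right; left; rfl
  · right; right; left; rfl
  · right; right; right; rfl

lemma z_ne : δ 1 (-1) ≠ 1 := by
  intro h; have := congrArg G.t h; simp [δ, one_t] at this; revert this; decide
lemma τ_ne : δ (-1) 1 ≠ 1 := by
  intro h; have := congrArg G.s h; simp [δ, one_s] at this; revert this; decide
lemma zτ_ne : δ (-1) 1 ≠ δ 1 (-1) := by
  intro h; have := congrArg G.s h; simp [δ] at this; revert this; decide

lemma iv_inj {v v' : M} (h : iv v = iv v') : v = v' := congrArg G.v h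
lemma iw_inj {v v' : M} (h : iw v = iw v') : v = v' := congrArg G.w h

/-- if `α` maps `z` to some `δ`, then to `z` itself -/
lemma fix_z (α : G ≃* G) (s t : Kˣ) (h : α (δ 1 (-1)) = δ s t) : α (δ 1 (-1)) = δ 1 (-1) := by
  have key : ∀ (j : M → G), Function.Injective j → (∀ v, j v ^ 3 = 1) → (∀ v, δ s t * j v = j v * δ s t) → False := by
    intro j hj h3 hc
    have h1 : ∀ v, α.symm (j v) = ie (α.symm (j v)).e := by
      intro v
      apply C_z
      · rw [← map_pow, h3, map_one]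
      · have := congrArg α.symm (hc v)
        rw [map_mul, map_mul, ← h, MulEquiv.symm_apply_apply] at this
        exact this
    have hinj : Function.Injective (fun v => (α.symm (j v)).e) := by
      intro v v' hv
      simp only at hv
      apply hj
      apply α.symm.injective
      rw [h1 v, h1 v', hv]
    have := Finite.of_injective _ hinj
    exact not_finite M
  rcases δ_cases s t with h1 | h1 | h1 | h1
  · rw [h1] at h
    exact absurd (α.injective (h.trans (map_one α).symm)) z_ne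
  · rw [h, h1]
  · exfalso
    refine key iv (fun _ _ => iv_inj) iv_cube ?_
    intro v; rw [h1]; exact iv_comm _ _
  · exfalso
    refine key iw (fun _ _ => iw_inj) iw_cube ?_
    intro v; rw [h1]; exact iw_comm _

lemma map_ie (α : G ≃* G) (hz : α (δ 1 (-1)) = δ 1 (-1)) (e : E) : α (ie e) = ie (α (ie e)).e := by
  apply C_z
  · rw [← map_pow, ie_cube, map_one]
  · rw [← hz, ← map_mul, ← map_mul, ie_comm]

lemma ie_mul_iv (e : E) (v : M) : ie e * iv v = iv v * ie e * iw (N e v) := by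
  ext1 <;> simp [mul_v, mul_w, mul_e, mul_s, mul_t, iv, iw, ie, N_zero_left, N_zero_right]

lemma fix_τ (α : G ≃* G) (hz : α (δ 1 (-1)) = δ 1 (-1)) (s t : Kˣ) (h : α (δ (-1) 1) = δ s t) :
    α (δ (-1) 1) = δ (-1) 1 := by
  rcases δ_cases s t with h1 | h1 | h1 | h1
  · rw [h1] at h
    exact absurd (α.injective (h.trans (map_one α).symm)) τ_ne
  · rw [h1, ← hz] at h
    exact absurd (α.injective h) zτ_ne
  · rw [h, h1]
  · exfalso
    rw [h1] at h
    have hv : α (iv 1) = iw (α (iv 1)).w := by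
      apply C_zτ
      · rw [← map_pow, iv_cube, map_one]
      · rw [← h, ← map_mul, ← map_mul, iv_comm]
    have he := map_ie α hz (1, 0, 0)
    have hcomm : α (ie (1, 0, 0)) * α (iv 1) = α (iv 1) * α (ie (1, 0, 0)) := by
      rw [hv, he]
      ext1 <;> simp [mul_v, mul_w, mul_e, mul_s, mul_t, iw, ie, N_zero_left, N_zero_right]
    rw [← map_mul, ← map_mul] at hcomm
    have := congrArg G.w (α.injective hcomm)
    simp [mul_w, iv, ie, N_zero_left, N_zero_right, N_e0] at this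

lemma map_iv (α : G ≃* G) (hτ : α (δ (-1) 1) = δ (-1) 1) (v : M) : α (iv v) = iv (α (iv v)).v := by
  apply C_τ
  · rw [← map_pow, iv_cube, map_one]
  · rw [← hτ, ← map_mul, ← map_mul, iv_comm]

lemma map_iw (α : G ≃* G) (hz : α (δ 1 (-1)) = δ 1 (-1)) (hτ : α (δ (-1) 1) = δ (-1) 1) (v : M) :
    α (iw v) = iw (α (iw v)).w := by
  have hzτ : α (δ (-1) (-1)) = δ (-1) (-1) := by
    have : δ (-1) (-1) = δ 1 (-1) * δ (-1) 1 := by rw [δ_mul]; simp
    rw [this, map_mul, hz, hτ]
  apply C_zτ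
  · rw [← map_pow, iw_cube, map_one]
  · rw [← hzτ, ← map_mul, ← map_mul, iw_comm]

lemma iv_add (v v' : M) : iv (v + v') = iv v * iv v' := by
  ext1 <;> simp [mul_v, mul_w, mul_e, mul_s, mul_t, iv, N_zero_left]
lemma iw_add (v v' : M) : iw (v + v') = iw v * iw v' := by
  ext1 <;> simp [mul_v, mul_w, mul_e, mul_s, mul_t, iw, N_zero_left]
lemma ie_add (v v' : E) : ie (v + v') = ie v * ie v' := by
  ext1 <;> simp [mul_v, mul_w, mul_e, mul_s, mul_t, ie, N_zero_right]

theorem inner2 (α : G ≃* G) (hz : α (δ 1 (-1)) = δ 1 (-1)) (hτ : α (δ (-1) 1) = δ (-1) 1) :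
    ∃ s t : Kˣ, ∀ x, α x = δ s t * x * (δ s t)⁻¹ := by
  have hz' : α.symm (δ 1 (-1)) = δ 1 (-1) := by rw [MulEquiv.symm_apply_eq, hz]
  have hτ' : α.symm (δ (-1) 1) = δ (-1) 1 := by rw [MulEquiv.symm_apply_eq, hτ]
  have hD : ∀ s t : Kˣ, α (δ s t) = δ s t := by
    intro s t
    rcases δ_cases s t with h | h | h | h
    · rw [h, map_one]
    · rw [h, hz]
    · rw [h, hτ]
    · rw [h]
      have : δ (-1) (-1) = δ 1 (-1) * δ (-1) 1 := by rw [δ_mul]; simp
      rw [this, map_mul, hz, hτ]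
  let f : M →+ M := AddMonoidHom.mk' (fun v => (α (iv v)).v) (fun a b => by
    rw [iv_add, map_mul, map_iv α hτ a, map_iv α hτ b, ← iv_add]; rfl)
  let h : M →+ M := AddMonoidHom.mk' (fun v => (α (iw v)).w) (fun a b => by
    rw [iw_add, map_mul, map_iw α hz hτ a, map_iw α hz hτ b, ← iw_add]; rfl)
  let g : E →+ E := AddMonoidHom.mk' (fun v => (α (ie v)).e) (fun a b => by
    rw [ie_add, map_mul, map_ie α hz a, map_ie α hz b, ← ie_add]; rfl)
  have hf : ∀ v, α (iv v) = iv (f v) := fun v => map_iv α hτ v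
  have hh : ∀ v, α (iw v) = iw (h v) := fun v => map_iw α hz hτ v
  have hg : ∀ v, α (ie v) = ie (g v) := fun v => map_ie α hz v
  have bf : Function.Bijective f := by
    constructor
    · intro a b hab
      apply iv_inj
      apply α.injective
      rw [hf, hf, hab]
    · intro b
      refine ⟨(α.symm (iv b)).v, ?_⟩
      have := map_iv α.symm hτ' b
      apply iv_inj
      rw [← hf, ← this, MulEquiv.apply_symm_apply]
  have bh : Function.Bijective h := by
    constructor
    · intro a b hab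
      apply iw_inj
      apply α.injective
      rw [hh, hh, hab]
    · intro b
      refine ⟨(α.symm (iw b)).w, ?_⟩
      have := map_iw α.symm hz' hτ' b
      apply iw_inj
      rw [← hh, ← this, MulEquiv.apply_symm_apply]
  have ie_inj : ∀ {v v' : E}, ie v = ie v' → v = v' := fun h => congrArg G.e h
  have bg : Function.Bijective g := by
    constructor
    · intro a b hab
      apply ie_inj
      apply α.injective
      rw [hg, hg, hab]
    · intro b
      refine ⟨(α.symm (ie b)).e, ?_⟩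
      have := map_ie α.symm hz' b
      apply ie_inj
      rw [← hg, ← this, MulEquiv.apply_symm_apply]
  have H : ∀ e p, h (N e p) = N (g e) (f p) := by
    intro e p
    have := congrArg α (ie_mul_iv e p)
    rw [map_mul, map_mul, map_mul, hf, hg, hh, ie_mul_iv] at this
    have := mul_left_cancel this
    exact (iw_inj this).symm
  obtain ⟨κ, a, hκ, ha, r1, r2, r3⟩ := rigid f h g bf bh bg H
  refine ⟨Units.mk0 a ha, Units.mk0 κ hκ, fun x => ?_⟩
  rw [eq_mul_inv_iff_mul_eq]
  rw [decomp x, map_mul, map_mul, map_mul, hf, hh, hg, hD, r1, r2, r3]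
  ext1
  · simp [mul_v, mul_w, mul_e, mul_s, mul_t, iv, iw, ie, δ, N_zero_left, N_zero_right]
  · simp [mul_v, mul_w, mul_e, mul_s, mul_t, iv, iw, ie, δ, N_zero_left, N_zero_right]
  · simp [mul_v, mul_w, mul_e, mul_s, mul_t, iv, iw, ie, δ, N_zero_left, N_zero_right]
  · simp [mul_v, mul_w, mul_e, mul_s, mul_t, iv, iw, ie, δ, N_zero_left, N_zero_right, mul_comm]
  · simp [mul_v, mul_w, mul_e, mul_s, mul_t, iv, iw, ie, δ, N_zero_left, N_zero_right, mul_comm]

/-- an involution is conjugate into `D` by an explicit element of order 3 -/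
lemma invol (x : G) (hx : x * x = 1) :
    ∃ q : G, q = x * (δ x.s x.t)⁻¹ ∧ q ^ 3 = 1 ∧ q * x * q⁻¹ = δ x.s x.t := by
  refine ⟨_, rfl, ?_, ?_⟩
  · rw [cube_iff]
    constructor
    · rw [mul_s, inv_s]; simp [δ]
    · rw [mul_t, inv_t]; simp [δ]
  · have h3 : (x * (δ x.s x.t)⁻¹) ^ 3 = 1 := by
      rw [cube_iff]
      constructor
      · rw [mul_s, inv_s]; simp [δ]
      · rw [mul_t, inv_t]; simp [δ]
    have := conj_invol (x * (δ x.s x.t)⁻¹) (δ x.s x.t) h3 (δ_sq _ _) (by simpa using hx)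
    simpa using this

theorem inner (α : G ≃* G) : ∃ g : G, α = MulAut.conj g := by
  -- first step
  have hzz : δ 1 (-1) * δ 1 (-1) = (1 : G) := δ_sq _ _
  have hττ : δ (-1) 1 * δ (-1) 1 = (1 : G) := δ_sq _ _
  obtain ⟨q1, -, -, hq1⟩ := invol (α (δ 1 (-1))) (by rw [← map_mul, hzz, map_one])
  set s1 := (α (δ 1 (-1))).s
  set t1 := (α (δ 1 (-1))).t
  set α1 : G ≃* G := α.trans (MulAut.conj q1) with hα1
  have e1 : ∀ x, α1 x = q1 * α x * q1⁻¹ := fun x => rfl
  have z1 : α1 (δ 1 (-1)) = δ s1 t1 := by rw [e1, hq1]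
  obtain ⟨q2, hq2d, -, hq2⟩ := invol (α1 (δ (-1) 1)) (by rw [← map_mul, hττ, map_one])
  set s2 := (α1 (δ (-1) 1)).s
  set t2 := (α1 (δ (-1) 1)).t
  set α2 : G ≃* G := α1.trans (MulAut.conj q2) with hα2
  have e2 : ∀ x, α2 x = q2 * α1 x * q2⁻¹ := fun x => rfl
  have τ2 : α2 (δ (-1) 1) = δ s2 t2 := by rw [e2, hq2]
  have hDc : ∀ s t s' t' : Kˣ, Commute (δ s t) (δ s' t') := by
    intro s t s' t'
    show δ s t * δ s' t' = δ s' t' * δ s t
    rw [δ_mul, δ_mul, mul_comm s, mul_comm t]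
  have z2 : α2 (δ 1 (-1)) = δ s1 t1 := by
    rw [e2, z1]
    have c1 : Commute (α1 (δ (-1) 1)) (δ s1 t1) := by
      rw [← z1]; exact (hDc _ _ _ _).map α1.toMonoidHom
    have c2 : Commute q2 (δ s1 t1) := by
      rw [hq2d]
      exact c1.mul_left ((hDc _ _ _ _).inv_left)
    rw [c2.eq, mul_inv_cancel_right]
  have z3 := fix_z α2 s1 t1 z2
  have τ3 := fix_τ α2 z3 s2 t2 τ2
  obtain ⟨s, t, h⟩ := inner2 α2 z3 τ3
  refine ⟨q1⁻¹ * q2⁻¹ * δ s t, ?_⟩
  ext1 x
  have := h x
  rw [e2, e1] at this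
  rw [MulAut.conj_apply]
  calc α x = q1⁻¹ * q2⁻¹ * (q2 * (q1 * α x * q1⁻¹) * q2⁻¹) * q2 * q1 := by group
    _ = _ := by rw [this]; group

theorem center_triv : Subgroup.center G = ⊥ := by
  rw [eq_bot_iff]
  intro x hx
  rw [Subgroup.mem_center_iff] at hx
  rw [Subgroup.mem_bot]
  have h1 := hx (δ 1 (-1))
  have h2 := hx (δ (-1) 1)
  have v0 : x.v = 0 := by
    have := congrArg G.v h1
    simp [mul_v, δ] at this
    exact neg_one_M _ (by simpa using this)
  have w0 : x.w = 0 := by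
    have := congrArg G.w h1
    simp [mul_w, δ, N_zero_left, N_zero_right] at this
    exact neg_one_M _ (by simpa using this)
  have e0 : x.e = 0 := by
    have := congrArg G.e h2
    simp only [mul_e, δ, zero_add, smul_zero, add_zero] at this
    exact neg_one_E _ this
  have t0 : x.t = 1 := by
    have := congrArg G.v (hx (iv 1))
    simp [mul_v, iv, v0] at this
    rcases unit_cases x.t with h | h
    · exact h
    · rw [h] at this
      exact absurd (neg_one_M 1 this.symm) one_ne_zero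
  have s0 : x.s = 1 := by
    have := congrArg G.e (hx (ie (1, 0, 0)))
    simp only [mul_e, ie, e0, smul_zero, add_zero, zero_add] at this
    rcases unit_cases x.s with h | h
    · exact h
    · rw [h] at this
      have := neg_one_E _ this.symm
      simp at this
  ext1
  · exact v0
  · exact w0
  · exact e0
  · exact s0
  · exact t0

end G

end Pool.Agent.H3.CLF
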