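import Mathlib

set_option autoImplicit false

open MeasureTheory Set Filter Topology

namespace Pool.Agent.H3.CM

/-- `c` is admissible: for every compact `E ⊆ ℝ` and all radii `δ x > 0` (`x ∈ E`) there are
finitely or countably many points of `E` whose intervals `(x - δ x, x + δ x)` are pairwise disjoint
and have total length at least `c |E|`. -/
def Admissible (c : ℝ) : Prop :=
  ∀ (E : Set ℝ) (δ : ℝ → ℝ), IsCompact E → (∀ x ∈ E, 0 < δ x) →
    ∃ S : Set ℝ, S ⊆ E ∧ S.Countable ∧
      S.PairwiseDisjoint (fun x => Ioo (x - δ x) (x + δ x)) ∧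
      ENNReal.ofReal c * volume E ≤ ∑' x : S, volume (Ioo ((x : ℝ) - δ x) (x + δ x))

/-- The weak type (1,1) inequality with constant `C` for the centred Hardy–Littlewood maximal
operator on the real line. -/
def WeakType (C : ℝ) : Prop :=
  ∀ f : ℝ → ℝ, Integrable f → ∀ l : ℝ, 0 < l →
    volume {x : ℝ | ∃ r > 0, l < (2 * r)⁻¹ * ∫ y in Ioo (x - r) (x + r), |f y|} ≤
      ENNReal.ofReal (C * (∫ y, |f y|) / l)

end Pool.Agent.H3.CM
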