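import Mathlib
import Pool.Agent.H3.CMDefs

set_option autoImplicit false

open MeasureTheory Set Filter Topology

namespace Pool.Agent.H3.CM

/-- auxiliary reformulation for monotone functions -/
def Good (c : ℝ) : Prop :=
  ∀ (E : Set ℝ) (V : ℝ → ℝ) (s : ℝ), IsCompact E → Monotone V → (∀ t, 0 ≤ V t ∧ V t ≤ s) →
    (∀ x ∈ E, ∃ d > 0, 2 * d ≤ V (x + d) - V (x - d)) → c * (volume E).toReal ≤ s

/-! ### telescoping -/

lemma telescope {ι : Type*} (a b : ι → ℝ) (V : ℝ → ℝ) (hV : Monotone V) (h0 : ∀ t, 0 ≤ V t) :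
    ∀ (n : ℕ) (S : Finset ι), S.card = n → (∀ i ∈ S, a i < b i) →
      (S : Set ι).PairwiseDisjoint (fun i => Ioo (a i) (b i)) →
      ∀ t, (∀ i ∈ S, b i ≤ t) → ∑ i ∈ S, (V (b i) - V (a i)) ≤ V t := by
  classical
  intro n
  induction n with
  | zero =>
    intro S hS _ _ t _
    rw [Finset.card_eq_zero] at hS
    subst hS
    simp [h0 t]
  | succ n ih =>
    intro S hS hab hd t ht
    have hne : S.Nonempty := by
      rw [← Finset.card_pos]; omega
    obtain ⟨i, hi, hmax⟩ := S.exists_max_image b hne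
    rw [← Finset.add_sum_erase S _ hi]
    have h1 : ∑ j ∈ S.erase i, (V (b j) - V (a j)) ≤ V (a i) := by
      apply ih (S.erase i) (by rw [Finset.card_erase_of_mem hi]; omega)
      · intro j hj; exact hab j (Finset.mem_of_mem_erase hj)
      · exact hd.subset (by simpa using Finset.erase_subset i S)
      · intro j hj
        have hj' := Finset.mem_of_mem_erase hj
        have hji := Finset.ne_of_mem_erase hj
        have h2 := hd hj' hi hji
        simp only [Function.onFun] at h2
        rw [Ioo_disjoint_Ioo] at h2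
        have h3 := hmax j hj'
        have h4 := hab j hj'
        rw [min_eq_left h3] at h2
        rcases le_max_iff.mp h2 with h5 | h5
        · linarith
        · exact h5
    have h2 := hV (ht i hi)
    linarith

/-! ### Admissible ⇒ Good -/

lemma s_nonneg {V : ℝ → ℝ} {s : ℝ} (hs : ∀ t, 0 ≤ V t ∧ V t ≤ s) : 0 ≤ s := (hs 0).1.trans (hs 0).2

lemma vol_Ioo (x d : ℝ) : volume (Ioo (x - d) (x + d)) = ENNReal.ofReal (2 * d) := by
  rw [Real.volume_Ioo]; congr 1; ring

lemma good_of_admissible {c : ℝ} (hc : Admissible c) : Good c := by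
  classical
  intro E V s hE hV hs hP
  rcases le_or_gt c 0 with hc0 | hc0
  · have h1 : c * (volume E).toReal ≤ 0 := mul_nonpos_of_nonpos_of_nonneg hc0 ENNReal.toReal_nonneg
    exact h1.trans (s_nonneg hs)
  choose! δ hδ0 hδ using hP
  obtain ⟨S, hSE, _, hSd, hSum⟩ := hc E δ hE hδ0
  have hle : ∑' x : S, volume (Ioo ((x : ℝ) - δ x) (x + δ x)) ≤ ENNReal.ofReal s := by
    apply ENNReal.summable.tsum_le_of_sum_le
    intro F
    have h1 : ∑ x ∈ F, volume (Ioo ((x : ℝ) - δ x) (x + δ x)) = ENNReal.ofReal (∑ x ∈ F, 2 * δ x) := by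
      rw [ENNReal.ofReal_sum_of_nonneg (fun x _ => by have := hδ0 x (hSE x.2); positivity)]
      exact Finset.sum_congr rfl fun x _ => vol_Ioo _ _
    rw [h1]
    apply ENNReal.ofReal_le_ofReal
    calc ∑ x ∈ F, 2 * δ x ≤ ∑ x ∈ F, (V (x + δ x) - V (x - δ x)) :=
          Finset.sum_le_sum fun x _ => hδ x (hSE x.2)
      _ ≤ V (∑ x ∈ F, |(x : ℝ) + δ x|) := by
          apply telescope (fun x : S => (x : ℝ) - δ x) (fun x : S => (x : ℝ) + δ x) V hV
            (fun t => (hs t).1) _ F rfl
          · intro i _; have := hδ0 i (hSE i.2); linarith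
          · intro i _ j _ hij
            exact hSd i.2 j.2 (fun h => hij (Subtype.ext h))
          · intro i hi
            refine (le_abs_self _).trans ?_
            exact Finset.single_le_sum (f := fun x : S => |(x : ℝ) + δ x|) (fun j _ => abs_nonneg _) hi
      _ ≤ s := (hs _).2
  have hfin : volume E ≠ ⊤ := hE.measure_lt_top.ne
  have h2 := hSum.trans hle
  rw [← ENNReal.ofReal_toReal hfin, ← ENNReal.ofReal_mul hc0.le] at h2
  exact (ENNReal.ofReal_le_ofReal_iff (s_nonneg hs)).mp h2

/-! ### No extremiser -/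

lemma strict {c : ℝ} (hc : Good c) {E : Set ℝ} {V : ℝ → ℝ} {s : ℝ} (hE : IsCompact E)
    (hne : E.Nonempty) (hV : Monotone V) (hs : ∀ t, 0 ≤ V t ∧ V t ≤ s)
    (hP : ∀ x ∈ E, ∃ d > 0, 2 * d ≤ V (x + d) - V (x - d)) (hc0 : 0 < c) :
    c * (volume E).toReal < s := by
  obtain ⟨r, hrE, hr⟩ := hE.exists_isGreatest hne
  obtain ⟨g, hg0, hg⟩ := hP r hrE
  set T : ℝ := 2 * r + g with hT
  let E' : Set ℝ := E ∪ Icc r (r + g) ∪ (fun x => T - x) ⁻¹' E
  let V' : ℝ → ℝ := fun t => V t + (s - V (T - t))
  have hpre : (fun x => T - x) ⁻¹' E = (fun x => T - x) '' E := by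
    ext y; simp only [mem_preimage, mem_image]
    constructor
    · intro h; exact ⟨T - y, h, by ring⟩
    · rintro ⟨x, hx, rfl⟩; rwa [sub_sub_cancel]
  have hE' : IsCompact E' := by
    refine (hE.union isCompact_Icc).union ?_
    rw [hpre]
    exact hE.image (by fun_prop)
  have hV' : Monotone V' := by
    intro x y hxy
    have h1 := hV hxy
    have h2 := hV (show T - y ≤ T - x by linarith)
    simp only [V']; linarith
  have hs' : ∀ t, 0 ≤ V' t ∧ V' t ≤ 2 * s := by
    intro t
    have h1 := hs t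
    have h2 := hs (T - t)
    simp only [V']
    constructor <;> linarith
  have hP' : ∀ x ∈ E', ∃ d > 0, 2 * d ≤ V' (x + d) - V' (x - d) := by
    rintro x ((hx | hx) | hx)
    · obtain ⟨d, hd0, hd⟩ := hP x hx
      refine ⟨d, hd0, ?_⟩
      have h2 := hV (show T - (x + d) ≤ T - (x - d) by linarith)
      simp only [V']; linarith
    · refine ⟨2 * g, by positivity, ?_⟩
      obtain ⟨h1, h2⟩ := hx
      have a1 := hV (show r + g ≤ x + 2 * g by linarith)
      have a2 := hV (show x - 2 * g ≤ r - g by linarith)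
      have a3 := hV (show r + g ≤ T - (x - 2 * g) by rw [hT]; linarith)
      have a4 := hV (show T - (x + 2 * g) ≤ r - g by rw [hT]; linarith)
      simp only [V']; linarith
    · obtain ⟨d, hd0, hd⟩ := hP (T - x) hx
      refine ⟨d, hd0, ?_⟩
      have h2 := hV (show x - d ≤ x + d by linarith)
      have e1 : T - (x + d) = T - x - d := by ring
      have e2 : T - (x - d) = T - x + d := by ring
      simp only [V']
      rw [e1, e2]; linarith
  have hfin : volume E ≠ ⊤ := hE.measure_lt_top.ne
  have key := hc E' V' (2 * s) hE' hV' hs' hP'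
  have hvol : 2 * (volume E).toReal + g ≤ (volume E').toReal := by
    have hm : MeasurableSet E := hE.measurableSet
    have hpv : volume ((fun x => T - x) ⁻¹' E) = volume E :=
      (Measure.measurePreserving_sub_left volume T).measure_preimage hm.nullMeasurableSet
    have hdis1 : Disjoint E (Ioo r (r + g)) := by
      rw [Set.disjoint_left]
      intro x hx hx2
      exact absurd (hr hx) (not_le.mpr hx2.1)
    have hdis2 : Disjoint (E ∪ Ioo r (r + g)) ((fun x => T - x) ⁻¹' E) := by
      rw [Set.disjoint_left]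
      intro x hx hx2
      have h3 : T - x ≤ r := hr hx2
      rcases hx with hx | hx
      · have := hr hx; rw [hT] at h3; linarith
      · have := hx.2; rw [hT] at h3; linarith
    have h4 : volume (E ∪ Ioo r (r + g) ∪ (fun x => T - x) ⁻¹' E) =
        volume E + ENNReal.ofReal g + volume E := by
      rw [measure_union hdis2 (by rw [hpre]; exact (hE.image (by fun_prop)).measurableSet),
        measure_union hdis1 measurableSet_Ioo, hpv, Real.volume_Ioo]
      congr 3; ring
    have h5 : volume E + ENNReal.ofReal g + volume E ≤ volume E' := by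
      rw [← h4]
      apply measure_mono
      exact union_subset_union_left _ (union_subset_union_right _ Ioo_subset_Icc_self)
    have h6 := ENNReal.toReal_mono hE'.measure_lt_top.ne h5
    rw [ENNReal.toReal_add (by simp [hfin]) hfin, ENNReal.toReal_add hfin (by simp),
      ENNReal.toReal_ofReal hg0.le] at h6
    linarith
  nlinarith [mul_le_mul_of_nonneg_left hvol hc0.le, mul_pos hc0 hg0]

/-! ### Good ⇒ Admissible -/

lemma admissible_of_good {c : ℝ} (hc : Good c) : Admissible c := by
  classical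
  intro E δ hE hδ
  by_contra hno
  have hno' : ∀ S : Set ℝ, S ⊆ E → S.Countable →
      S.PairwiseDisjoint (fun x => Ioo (x - δ x) (x + δ x)) →
      ∑' x : S, volume (Ioo ((x : ℝ) - δ x) (x + δ x)) < ENNReal.ofReal c * volume E := by
    intro S h1 h2 h3
    by_contra h4
    exact hno ⟨S, h1, h2, h3, not_lt.mp h4⟩
  have hpos : 0 < ENNReal.ofReal c * volume E :=
    lt_of_le_of_lt zero_le (hno' ∅ (empty_subset _) countable_empty (pairwiseDisjoint_empty))
  have hc0 : 0 < c := by
    by_contra h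
    rw [ENNReal.ofReal_of_nonpos (not_lt.mp h), zero_mul] at hpos
    exact lt_irrefl _ hpos
  have hne : E.Nonempty := by
    by_contra h
    rw [not_nonempty_iff_eq_empty] at h
    rw [h, measure_empty, mul_zero] at hpos
    exact lt_irrefl _ hpos
  have hfin : volume E ≠ ⊤ := hE.measure_lt_top.ne
  set s : ℝ := c * (volume E).toReal with hsdef
  have hF : ∀ F : Finset ℝ, (F : Set ℝ) ⊆ E →
      (F : Set ℝ).PairwiseDisjoint (fun x => Ioo (x - δ x) (x + δ x)) → ∑ x ∈ F, 2 * δ x ≤ s := by
    intro F h1 h2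
    have h3 := hno' F h1 F.countable_toSet h2
    rw [Finset.tsum_subtype' F (fun x => volume (Ioo (x - δ x) (x + δ x)))] at h3
    have h4 : ∑ x ∈ F, volume (Ioo (x - δ x) (x + δ x)) = ENNReal.ofReal (∑ x ∈ F, 2 * δ x) := by
      rw [ENNReal.ofReal_sum_of_nonneg (fun x hx => by have := hδ x (h1 hx); positivity)]
      exact Finset.sum_congr rfl fun x _ => vol_Ioo _ _
    rw [h4, ← ENNReal.ofReal_toReal hfin, ← ENNReal.ofReal_mul hc0.le] at h3
    exact ((ENNReal.ofReal_lt_ofReal_iff_of_nonneg (Finset.sum_nonneg fun x hx => by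
      have := hδ x (h1 hx); positivity)).mp h3).le
  let A : ℝ → Set ℝ := fun t => {v | ∃ F : Finset ℝ, (F : Set ℝ) ⊆ E ∧
    (F : Set ℝ).PairwiseDisjoint (fun x => Ioo (x - δ x) (x + δ x)) ∧ (∀ x ∈ F, x + δ x ≤ t) ∧
    v = ∑ x ∈ F, 2 * δ x}
  let V : ℝ → ℝ := fun t => sSup (A t)
  have hA0 : ∀ t, (0 : ℝ) ∈ A t := fun t => ⟨∅, by simp, by simp, by simp, by simp⟩
  have hbdd : ∀ t, BddAbove (A t) := by
    intro t
    refine ⟨s, ?_⟩
    rintro v ⟨F, h1, h2, _, rfl⟩
    exact hF F h1 h2
  have hV : Monotone V := by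
    intro x y hxy
    apply csSup_le_csSup (hbdd y) ⟨0, hA0 x⟩
    rintro v ⟨F, h1, h2, h3, rfl⟩
    exact ⟨F, h1, h2, fun z hz => (h3 z hz).trans hxy, rfl⟩
  have hs : ∀ t, 0 ≤ V t ∧ V t ≤ s := by
    intro t
    refine ⟨le_csSup (hbdd t) (hA0 t), csSup_le ⟨0, hA0 t⟩ ?_⟩
    rintro v ⟨F, h1, h2, _, rfl⟩
    exact hF F h1 h2
  have hP : ∀ x ∈ E, ∃ d > 0, 2 * d ≤ V (x + d) - V (x - d) := by
    intro x hx
    refine ⟨δ x, hδ x hx, ?_⟩
    have h1 : V (x - δ x) ≤ V (x + δ x) - 2 * δ x := by
      apply csSup_le ⟨0, hA0 _⟩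
      rintro v ⟨F, h1, h2, h3, rfl⟩
      have hxF : x ∉ F := by
        intro h
        have := h3 x h
        have := hδ x hx
        linarith
      have h4 : ∑ y ∈ insert x F, 2 * δ y ∈ A (x + δ x) := by
        refine ⟨insert x F, ?_, ?_, ?_, rfl⟩
        · rw [Finset.coe_insert]; exact insert_subset hx h1
        · rw [Finset.coe_insert]
          apply h2.insert
          intro y hy hyx
          rw [Ioo_disjoint_Ioo]
          have h5 := h3 y hy
          exact (min_le_right _ _).trans (h5.trans (le_max_left _ _))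
        · intro y hy
          rcases Finset.mem_insert.mp hy with rfl | hy
          · exact le_rfl
          · have := h3 y hy
            have := hδ x hx
            linarith
      have h5 := le_csSup (hbdd _) h4
      rw [Finset.sum_insert hxF] at h5
      simp only [V]
      linarith
    linarith
  have := strict hc hE hne hV hs hP hc0
  exact lt_irrefl _ this

lemma admissible_iff_good (c : ℝ) : Admissible c ↔ Good c := ⟨good_of_admissible, admissible_of_good⟩


lemma good_mono {c c' : ℝ} (hc : Good c) (h : c' ≤ c) : Good c' := by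
  intro E V s hE hV hs hP
  exact (mul_le_mul_of_nonneg_right h ENNReal.toReal_nonneg).trans (hc E V s hE hV hs hP)

lemma good_bdd {c : ℝ} (hc : Good c) : c ≤ 3 := by
  have h := hc (Icc 0 1) (fun t => max 0 (min (t + 1) 3)) 3 isCompact_Icc ?_ ?_ ?_
  · simpa using h
  · intro x y hxy
    apply max_le_max le_rfl
    apply min_le_min _ le_rfl
    linarith
  · intro t
    exact ⟨le_max_left _ _, max_le (by norm_num) (min_le_right _ _)⟩
  · rintro x ⟨h0, h1⟩
    refine ⟨1, one_pos, ?_⟩
    have e1 : max (0:ℝ) (min (x + 1 + 1) 3) = x + 2 := by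
      rw [min_eq_left (by linarith), max_eq_right (by linarith)]; ring
    have e2 : max (0:ℝ) (min (x - 1 + 1) 3) = x := by
      rw [min_eq_left (by linarith), max_eq_right (by linarith)]; ring
    rw [e1, e2]; linarith

lemma good_quarter : Good (1/5) := by
  classical
  intro E V s hE hV hs hP
  choose! δ hδ0 hδ using hP
  have hR : ∀ a ∈ E, δ a ≤ s := by
    intro a ha
    have h1 := hδ a ha
    have h2 := (hs (a + δ a)).2
    have h3 := (hs (a - δ a)).1
    have := hδ0 a ha
    linarith
  obtain ⟨u, huE, hud, hu⟩ := Vitali.exists_disjoint_subfamily_covering_enlargement_closedBall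
    E (fun x => x) δ s hR 5 (by norm_num)
  have hcount : u.Countable := by
    apply hud.countable_of_nonempty_interior
    intro a ha
    rw [Real.closedBall_eq_Icc, interior_Icc]
    have := hδ0 a (huE ha)
    exact ⟨a, by constructor <;> linarith⟩
  have hcov : E ⊆ ⋃ b ∈ u, Metric.closedBall b (5 * δ b) := by
    intro a ha
    obtain ⟨b, hb, hsub⟩ := hu a ha
    exact mem_iUnion₂.mpr ⟨b, hb, hsub (Metric.mem_closedBall_self (hδ0 a ha).le)⟩
  have h1 : volume E ≤ ∑' b : u, ENNReal.ofReal (10 * δ b) := by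
    refine (measure_mono hcov).trans ((measure_biUnion_le _ hcount _).trans ?_)
    apply ENNReal.tsum_le_tsum
    intro b
    rw [Real.volume_closedBall]
    apply ENNReal.ofReal_le_ofReal
    linarith
  have h2 : ∑' b : u, ENNReal.ofReal (10 * δ b) ≤ ENNReal.ofReal (5 * s) := by
    apply ENNReal.summable.tsum_le_of_sum_le
    intro F
    rw [← ENNReal.ofReal_sum_of_nonneg (fun x _ => by have := hδ0 x (huE x.2); positivity)]
    apply ENNReal.ofReal_le_ofReal
    have h3 : ∑ x ∈ F, (V (x + δ x) - V (x - δ x)) ≤ V (∑ x ∈ F, |(x : ℝ) + δ x|) := by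
      apply telescope (fun x : u => (x : ℝ) - δ x) (fun x : u => (x : ℝ) + δ x) V hV
        (fun t => (hs t).1) _ F rfl
      · intro i _; have := hδ0 i (huE i.2); linarith
      · intro i _ j _ hij
        have := hud i.2 j.2 (fun h => hij (Subtype.ext h))
        simp only [Function.onFun] at this ⊢
        rw [Real.closedBall_eq_Icc, Real.closedBall_eq_Icc] at this
        exact this.mono Ioo_subset_Icc_self Ioo_subset_Icc_self
      · intro i hi
        refine (le_abs_self _).trans ?_
        exact Finset.single_le_sum (f := fun x : u => |(x : ℝ) + δ x|) (fun j _ => abs_nonneg _) hi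
    have h4 : ∑ x ∈ F, 2 * δ x ≤ ∑ x ∈ F, (V (x + δ x) - V (x - δ x)) :=
      Finset.sum_le_sum fun x _ => hδ x (huE x.2)
    have h5 := (hs (∑ x ∈ F, |(x : ℝ) + δ x|)).2
    have h6 : ∑ x ∈ F, 10 * δ x = 5 * ∑ x ∈ F, 2 * δ x := by
      rw [Finset.mul_sum]; exact Finset.sum_congr rfl fun x _ => by ring
    rw [h6]; linarith
  have h3 := ENNReal.toReal_mono ENNReal.ofReal_ne_top (h1.trans h2)
  rw [ENNReal.toReal_ofReal (by have := s_nonneg hs; positivity)] at h3
  linarith

/-- the optimal constant -/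
noncomputable def c₁ : ℝ := sSup {c | Good c}

lemma bddAbove_good : BddAbove {c | Good c} := ⟨3, fun _ hc => good_bdd hc⟩

lemma c₁_pos : 0 < c₁ := lt_of_lt_of_le (by norm_num) (le_csSup bddAbove_good good_quarter)

lemma good_c₁ : Good c₁ := by
  intro E V s hE hV hs hP
  rcases (ENNReal.toReal_nonneg (a := volume E)).eq_or_lt with h0 | h0
  · rw [← h0, mul_zero]; exact s_nonneg hs
  · rw [← le_div_iff₀ h0]
    apply csSup_le ⟨_, good_quarter⟩
    intro c hc
    rw [le_div_iff₀ h0]
    exact hc E V s hE hV hs hP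

lemma good_iff (c : ℝ) : Good c ↔ c ≤ c₁ :=
  ⟨fun h => le_csSup bddAbove_good h, fun h => good_mono good_c₁ h⟩

/-! ### Good ⇒ weak type -/

lemma weak_of_good {c : ℝ} (hc0 : 0 < c) (hc : Good c) : WeakType c⁻¹ := by
  intro f hf l hl
  have hg : Integrable (fun y => |f y|) := hf.abs
  set F : ℝ → ℝ := fun t => ∫ y in (0:ℝ)..t, |f y| with hF
  have hFc : Continuous F := intervalIntegral.continuous_primitive (fun a b => hg.intervalIntegrable) 0
  have hIoo : ∀ x r : ℝ, 0 < r → ∫ y in Ioo (x - r) (x + r), |f y| = F (x + r) - F (x - r) := by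
    intro x r hr
    rw [hF]
    simp only
    rw [intervalIntegral.integral_interval_sub_left hg.intervalIntegrable hg.intervalIntegrable,
      intervalIntegral.integral_of_le (by linarith), integral_Ioc_eq_integral_Ioo]
  have hopen : IsOpen {x : ℝ | ∃ r > 0, l < (2 * r)⁻¹ * ∫ y in Ioo (x - r) (x + r), |f y|} := by
    have : {x : ℝ | ∃ r > 0, l < (2 * r)⁻¹ * ∫ y in Ioo (x - r) (x + r), |f y|} =
        ⋃ (r : ℝ) (_ : 0 < r), {x : ℝ | l < (2 * r)⁻¹ * (F (x + r) - F (x - r))} := by
      ext x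
      simp only [Set.mem_ofPred_eq, mem_iUnion]
      constructor
      · rintro ⟨r, hr, h⟩
        exact ⟨r, hr, by rwa [hIoo x r hr] at h⟩
      · rintro ⟨r, hr, h⟩
        exact ⟨r, hr, by rwa [hIoo x r hr]⟩
    rw [this]
    apply isOpen_iUnion; intro r
    apply isOpen_iUnion; intro _
    exact isOpen_lt continuous_const (by fun_prop)
  rw [hopen.measure_eq_iSup_isCompact]
  apply iSup₂_le
  intro K hKU
  apply iSup_le
  intro hK
  have hnn : 0 ≤ ∫ y, |f y| := integral_nonneg fun _ => abs_nonneg _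
  let V : ℝ → ℝ := fun t => l⁻¹ * ∫ y in Iic t, |f y|
  have hVd : ∀ a b : ℝ, a ≤ b → V b - V a = l⁻¹ * ∫ y in Ioc a b, |f y| := by
    intro a b hab
    simp only [V]
    rw [← mul_sub, intervalIntegral.integral_Iic_sub_Iic hg.integrableOn hg.integrableOn,
      intervalIntegral.integral_of_le hab]
  have hV : Monotone V := by
    intro a b hab
    have h1 := hVd a b hab
    have h2 : 0 ≤ l⁻¹ * ∫ y in Ioc a b, |f y| :=
      mul_nonneg (inv_nonneg.mpr hl.le) (integral_nonneg fun _ => abs_nonneg _)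
    linarith
  have hs : ∀ t, 0 ≤ V t ∧ V t ≤ l⁻¹ * ∫ y, |f y| := by
    intro t
    refine ⟨mul_nonneg (inv_nonneg.mpr hl.le) (integral_nonneg fun _ => abs_nonneg _), ?_⟩
    apply mul_le_mul_of_nonneg_left _ (inv_nonneg.mpr hl.le)
    exact setIntegral_le_integral hg (Eventually.of_forall fun _ => abs_nonneg _)
  have hP : ∀ x ∈ K, ∃ d > 0, 2 * d ≤ V (x + d) - V (x - d) := by
    intro x hx
    obtain ⟨r, hr, h⟩ := hKU hx
    refine ⟨r, hr, ?_⟩
    rw [hVd _ _ (by linarith), integral_Ioc_eq_integral_Ioo]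
    rw [inv_mul_eq_div, lt_div_iff₀ (by positivity)] at h
    rw [inv_mul_eq_div, le_div_iff₀ hl]
    linarith
  have key := hc K V _ hK hV hs hP
  rw [← ENNReal.ofReal_toReal hK.measure_lt_top.ne]
  apply ENNReal.ofReal_le_ofReal
  rw [mul_comm, ← le_div_iff₀ hc0] at key
  refine key.trans (le_of_eq ?_)
  field_simp


/-! ### weak type ⇒ Good -/

lemma int_bounds {V : ℝ → ℝ} (hV : Monotone V) {a b : ℝ} (hab : a ≤ b) :
    (b - a) * V a ≤ ∫ x in a..b, V x ∧ ∫ x in a..b, V x ≤ (b - a) * V b := by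
  have hi : IntervalIntegrable V volume a b := hV.intervalIntegrable
  constructor
  · have h := intervalIntegral.integral_mono_on hab (intervalIntegrable_const (c := V a)) hi
      (fun x hx => hV hx.1)
    rwa [intervalIntegral.integral_const, smul_eq_mul] at h
  · have h := intervalIntegral.integral_mono_on hab hi (intervalIntegrable_const (c := V b))
      (fun x hx => hV hx.2)
    rwa [intervalIntegral.integral_const, smul_eq_mul] at h

noncomputable def fe (V : ℝ → ℝ) (ε : ℝ) (x : ℝ) : ℝ := (2 * ε)⁻¹ * (V (x + ε) - V (x - ε))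

lemma fe_nonneg {V : ℝ → ℝ} (hV : Monotone V) {ε : ℝ} (hε : 0 < ε) (x : ℝ) : 0 ≤ fe V ε x := by
  unfold fe
  have := hV (show x - ε ≤ x + ε by linarith)
  have h1 : 0 ≤ V (x + ε) - V (x - ε) := by linarith
  positivity

lemma mono_shift {V : ℝ → ℝ} (hV : Monotone V) (e : ℝ) : Monotone (fun x => V (x + e)) :=
  fun _ _ h => hV (by linarith)

lemma fe_interval {V : ℝ → ℝ} (hV : Monotone V) {ε : ℝ} (a b : ℝ) :
    ∫ x in a..b, fe V ε x = (2 * ε)⁻¹ * ((∫ x in (b - ε)..(b + ε), V x) - ∫ x in (a - ε)..(a + ε), V x) := by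
  unfold fe
  rw [intervalIntegral.integral_const_mul]
  congr 1
  have i1 : IntervalIntegrable (fun x => V (x + ε)) volume a b := (mono_shift hV ε).intervalIntegrable
  have i2 : IntervalIntegrable (fun x => V (x - ε)) volume a b := by
    have := (mono_shift hV (-ε)).intervalIntegrable (a := a) (b := b) (μ := volume)
    simpa [sub_eq_add_neg] using this
  rw [intervalIntegral.integral_sub i1 i2, intervalIntegral.integral_comp_add_right,
    intervalIntegral.integral_comp_sub_right]
  have j : ∀ p q : ℝ, IntervalIntegrable V volume p q := fun p q => hV.intervalIntegrable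
  have h1 := intervalIntegral.integral_add_adjacent_intervals (j (a - ε) (b - ε)) (j (b - ε) (b + ε))
  have h2 := intervalIntegral.integral_add_adjacent_intervals (j (a - ε) (a + ε)) (j (a + ε) (b + ε))
  linarith

lemma fe_integrable {V : ℝ → ℝ} (hV : Monotone V) {s : ℝ} (hs : ∀ t, 0 ≤ V t ∧ V t ≤ s) {ε : ℝ}
    (hε : 0 < ε) : Integrable (fe V ε) ∧ ∫ x, fe V ε x ≤ s := by
  have hb : ∀ n : ℕ, ∫ x in (-(n:ℝ))..(n:ℝ), ‖fe V ε x‖ ≤ s := by
    intro n
    have h0 : ∀ x, ‖fe V ε x‖ = fe V ε x := fun x => Real.norm_of_nonneg (fe_nonneg hV hε x)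
    simp only [h0]
    rw [fe_interval hV]
    have h1 := (int_bounds hV (show (n:ℝ) - ε ≤ n + ε by linarith)).2
    have h2 := (int_bounds hV (show -(n:ℝ) - ε ≤ -n + ε by linarith)).1
    have h3 := (hs ((n:ℝ) + ε)).2
    have h4 := (hs (-(n:ℝ) - ε)).1
    rw [inv_mul_le_iff₀ (by positivity)]
    have h5 : ((n:ℝ) + ε - (n - ε)) * V (n + ε) ≤ 2 * ε * s := by nlinarith
    have h6 : 0 ≤ (-(n:ℝ) + ε - (-n - ε)) * V (-n - ε) := by
      apply mul_nonneg _ h4; linarith
    linarith
  have ht1 : Tendsto (fun n : ℕ => -(n:ℝ)) atTop atBot :=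
    tendsto_neg_atTop_atBot.comp tendsto_natCast_atTop_atTop
  have ht2 : Tendsto (fun n : ℕ => (n:ℝ)) atTop atTop := tendsto_natCast_atTop_atTop
  have hint : Integrable (fe V ε) := by
    apply integrable_of_intervalIntegral_norm_bounded s _ ht1 ht2 (Eventually.of_forall hb)
    intro n
    have i1 : IntervalIntegrable (fun x => V (x + ε)) volume (-(n:ℝ)) n := (mono_shift hV ε).intervalIntegrable
    have i2 : IntervalIntegrable (fun x => V (x - ε)) volume (-(n:ℝ)) n := by
      have := (mono_shift hV (-ε)).intervalIntegrable (a := -(n:ℝ)) (b := n) (μ := volume)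
      simpa [sub_eq_add_neg] using this
    have i3 := (i1.sub i2).const_mul (2 * ε)⁻¹
    exact (intervalIntegrable_iff_integrableOn_Ioc_of_le (by have : (0:ℝ) ≤ n := Nat.cast_nonneg n; linarith)).mp i3
  refine ⟨hint, ?_⟩
  apply le_of_tendsto (intervalIntegral_tendsto_integral hint ht1 ht2)
  refine Eventually.of_forall fun n => ?_
  have h0 : ∀ x, ‖fe V ε x‖ = fe V ε x := fun x => Real.norm_of_nonneg (fe_nonneg hV hε x)
  have := hb n
  simpa only [h0] using this

lemma good_of_weak {C : ℝ} (hC0 : 0 < C) (hC : WeakType C) : Good C⁻¹ := by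
  intro E V s hE hV hs hP
  have hs0 := s_nonneg hs
  have step : ∀ l : ℝ, 0 < l → l < 1 → volume E ≤ ENNReal.ofReal (C * s / l) := by
    intro l hl0 hl1
    let A : ℕ → Set ℝ := fun n => {x | x ∈ E ∧ ∃ d > 0, 2 * d ≤ V (x + d) - V (x - d) ∧
      l * (1 / ((n:ℝ) + 1)) < d * (1 - l)}
    have hA : Monotone A := by
      intro m n hmn x hx
      obtain ⟨hxE, d, hd0, hd, hd2⟩ := hx
      refine ⟨hxE, d, hd0, hd, lt_of_le_of_lt ?_ hd2⟩
      apply mul_le_mul_of_nonneg_left _ hl0.le
      apply one_div_le_one_div_of_le (by positivity)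
      have : (m:ℝ) ≤ n := by exact_mod_cast hmn
      linarith
    have hU : E ⊆ ⋃ n, A n := by
      intro x hx
      obtain ⟨d, hd0, hd⟩ := hP x hx
      have hpos : 0 < d * (1 - l) / l := by
        have : 0 < 1 - l := by linarith
        positivity
      obtain ⟨n, hn⟩ := exists_nat_one_div_lt hpos
      refine mem_iUnion.mpr ⟨n, hx, d, hd0, hd, ?_⟩
      rw [lt_div_iff₀ hl0] at hn
      linarith
    have hAn : ∀ n, volume (A n) ≤ ENNReal.ofReal (C * s / l) := by
      intro n
      set ε : ℝ := 1 / ((n:ℝ) + 1) with hεd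
      have hε : 0 < ε := by positivity
      obtain ⟨hint, hle⟩ := fe_integrable hV hs hε
      have habs : ∀ x, |fe V ε x| = fe V ε x := fun x => abs_of_nonneg (fe_nonneg hV hε x)
      have h1 := hC (fe V ε) hint l hl0
      simp only [habs] at h1
      refine (measure_mono ?_).trans (h1.trans ?_)
      · rintro x ⟨_, d, hd0, hd, hd2⟩
        refine ⟨d + ε, by positivity, ?_⟩
        rw [← integral_Ioc_eq_integral_Ioo, ← intervalIntegral.integral_of_le (by linarith),
          fe_interval hV]
        have e1 := (int_bounds hV (show x + (d + ε) - ε ≤ x + (d + ε) + ε by linarith)).1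
        have e2 := (int_bounds hV (show x - (d + ε) - ε ≤ x - (d + ε) + ε by linarith)).2
        have e3 : x + (d + ε) - ε = x + d := by ring
        have e4 : x - (d + ε) + ε = x - d := by ring
        rw [e3] at e1 ⊢
        rw [e4] at e2 ⊢
        have e5 : 2 * ε * (V (x + d) - V (x - d)) ≤ (∫ x in (x + d)..(x + (d + ε) + ε), V x) -
            ∫ x in (x - (d + ε) - ε)..(x - d), V x := by
          have e6 : (x + (d + ε) + ε - (x + d)) = 2 * ε := by ring
          have e7 : (x - d - (x - (d + ε) - ε)) = 2 * ε := by ring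
          rw [e6] at e1; rw [e7] at e2
          linarith
        have e8 : V (x + d) - V (x - d) ≤ (2 * ε)⁻¹ * ((∫ x in (x + d)..(x + (d + ε) + ε), V x) -
            ∫ x in (x - (d + ε) - ε)..(x - d), V x) := by
          rw [inv_mul_eq_div, le_div_iff₀ (by positivity)]; linarith
        rw [inv_mul_eq_div (2 * (d + ε)), lt_div_iff₀ (by positivity)]
        refine lt_of_lt_of_le ?_ e8
        nlinarith
      · apply ENNReal.ofReal_le_ofReal
        apply div_le_div_of_nonneg_right _ hl0.le
        exact mul_le_mul_of_nonneg_left hle hC0.le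
    calc volume E ≤ volume (⋃ n, A n) := measure_mono hU
      _ = ⨆ n, volume (A n) := hA.measure_iUnion
      _ ≤ _ := iSup_le hAn
  have step2 : ∀ l : ℝ, 0 < l → l < 1 → l * (volume E).toReal ≤ C * s := by
    intro l h0 h1
    have h2 := ENNReal.toReal_mono ENNReal.ofReal_ne_top (step l h0 h1)
    rw [ENNReal.toReal_ofReal (by positivity), le_div_iff₀ h0] at h2
    linarith
  rw [inv_mul_le_iff₀ hC0]
  by_contra hlt
  push Not at hlt
  set m := (volume E).toReal with hm
  have hm0 : 0 < m := lt_of_le_of_lt (by positivity) hlt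
  have h3 := step2 ((C * s / m + 1) / 2) (by positivity) (by
    have : C * s / m < 1 := by rw [div_lt_one hm0]; exact hlt
    linarith)
  have h4 : (C * s / m + 1) / 2 * m = (C * s + m) / 2 := by field_simp
  rw [h4] at h3
  linarith

theorem main :
    0 < c₁ ∧ (∀ c, Admissible c ↔ c ≤ c₁) ∧ IsLeast {C : ℝ | 0 < C ∧ WeakType C} c₁⁻¹ := by
  refine ⟨c₁_pos, fun c => (admissible_iff_good c).trans (good_iff c), ?_, ?_⟩
  · exact ⟨inv_pos.mpr c₁_pos, weak_of_good c₁_pos good_c₁⟩
  · rintro C ⟨hC0, hC⟩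
    have h := (good_iff _).mp (good_of_weak hC0 hC)
    exact inv_le_of_inv_le₀ hC0 h



end Pool.Agent.H3.CM
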