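import Mathlib

set_option autoImplicit false

namespace Pool.Agent.H3.CoPrefixTM

/-- The Thue-Morse sequence. -/
def t (n : ℕ) : Bool :=
  if h : n = 0 then false else xor (t (n / 2)) (decide (n % 2 = 1))
termination_by n
decreasing_by omega

lemma t_zero : t 0 = false := by rw [t]; simp

lemma t_even (n : ℕ) : t (2 * n) = t n := by
  rcases Nat.eq_zero_or_pos n with h | h
  · subst h; rfl
  · rw [t]
    have h1 : 2 * n ≠ 0 := by omega
    have h2 : 2 * n / 2 = n := by omega
    have h3 : ¬ (2 * n % 2 = 1) := by omega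
    simp [h1, h2]

lemma t_odd (n : ℕ) : t (2 * n + 1) = !t n := by
  rw [t]
  have h1 : 2 * n + 1 ≠ 0 := by omega
  have h2 : (2 * n + 1) / 2 = n := by omega
  have h3 : (2 * n + 1) % 2 = 1 := by omega
  simp [h2, h3]

/-- No long periodic stretch. -/
lemma no_period (p : ℕ) : ∀ m : ℕ, 1 ≤ p → (∀ j, m ≤ j → j < m + 5 * p → t j = t (j + p)) → False := by
  induction p using Nat.strong_induction_on with
  | _ p ih =>
    intro m hp h
    rcases Nat.even_or_odd' p with ⟨q, hq | hq⟩
    · refine ih q (by omega) ((m + 1) / 2) (by omega) ?_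
      intro i hi1 hi2
      have := h (2 * i) (by omega) (by omega)
      rw [t_even, hq, show 2 * i + 2 * q = 2 * (i + q) by ring, t_even] at this
      exact this
    · have key : ∀ j, m + p ≤ j → j < m + 6 * p - 1 → t j ≠ t (j + 1) := by
        intro j h1 h2
        rcases Nat.even_or_odd' j with ⟨i, hi | hi⟩
        · rw [hi, t_even, t_odd]
          cases t i <;> simp
        · have e1 := h (j - p) (by omega) (by omega)
          have e2 := h (j - p + 1) (by omega) (by omega)
          rw [show j - p + p = j by omega] at e1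
          rw [show j - p + 1 + p = j + 1 by omega] at e2
          rw [← e1, ← e2]
          have : j - p = 2 * (i - q) := by omega
          rw [this, t_even, t_odd]
          cases t (i - q) <;> simp
      obtain ⟨i, hi1, hi2⟩ : ∃ i, m + p ≤ 4 * i + 1 ∧ 4 * i + 1 < m + p + 4 :=
        ⟨(m + p + 2) / 4, by omega, by omega⟩
      apply key (4 * i + 1) hi1 (by omega)
      rw [show 4 * i + 1 = 2 * (2 * i) + 1 by ring, t_odd, t_even,
        show 2 * (2 * i) + 1 + 1 = 2 * (2 * i + 1) by ring, t_even, t_odd]

/-- Being a prefix of the Thue-Morse word. -/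
def P (z : List Bool) : Prop := ∀ i, i < z.length → z[i]? = some (t i)

/-- The language: words which are not prefixes of the Thue-Morse word. -/
def L : Language Bool := {z | ¬ P z}

lemma mem_L (z : List Bool) : z ∈ L ↔ ¬ P z := Iff.rfl

/-- structural description -/
def Q (z : List Bool) : Prop :=
  (∃ w, z = true :: w) ∨
  (∃ (α β γ : List Bool) (a : Bool), α.length = β.length ∧ z = α ++ a :: (β ++ a :: γ)) ∨
  (∃ (c : Bool) (α β γ : List Bool) (a : Bool), α.length = β.length ∧
    z = c :: (α ++ a :: (β ++ (!a) :: γ)))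

lemma decomp (z : List Bool) (i j : ℕ) (hij : i < j) (hj : j < z.length) :
    ∃ (α β γ : List Bool) (a b : Bool), α.length = i ∧ β.length = j - i - 1 ∧
      z = α ++ a :: (β ++ b :: γ) ∧ z[i]? = some a ∧ z[j]? = some b := by
  refine ⟨z.take i, (z.drop (i+1)).take (j - i - 1), z.drop (j+1), z[i]'(by omega), z[j], ?_, ?_, ?_, ?_, ?_⟩
  · simp; omega
  · simp; omega
  · have h1 : z.drop (j+1) = (z.drop (i+1)).drop (j - i) := by
      rw [List.drop_drop]; congr 1; omega
    have h2 : z.drop (i+1) = (z.drop (i+1)).take (j-i-1) ++ (z.drop (i+1)).drop (j-i-1) :=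
      (List.take_append_drop _ _).symm
    have h3 : (z.drop (i+1)).drop (j-i-1) = z[j] :: z.drop (j+1) := by
      rw [List.drop_drop, show (i + 1 + (j - i - 1)) = j by omega]
      exact List.drop_eq_getElem_cons hj
    rw [h3] at h2
    rw [← h2]
    have h4 : z.drop i = z[i]'(by omega) :: z.drop (i+1) := List.drop_eq_getElem_cons (by omega)
    rw [← h4, List.take_append_drop]
  · rw [List.getElem?_eq_getElem (by omega)]
  · rw [List.getElem?_eq_getElem hj]

lemma notP_of_Q (z : List Bool) (h : Q z) : ¬ P z := by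
  intro hP
  rcases h with ⟨w, rfl⟩ | ⟨α, β, γ, a, hl, rfl⟩ | ⟨c, α, β, γ, a, hl, rfl⟩
  · have := hP 0 (by simp)
    rw [t_zero] at this
    simp at this
  · have h1 := hP α.length (by simp)
    have h2 := hP (2 * α.length + 1) (by simp; omega)
    rw [List.getElem?_append_right (le_refl _)] at h1
    rw [List.getElem?_append_right (by omega)] at h2
    rw [show 2 * α.length + 1 - α.length = β.length + 1 by omega] at h2
    simp at h1 h2
    rw [t_odd, ← h1] at h2
    cases a <;> simp at h2
  · have h1 := hP (α.length + 1) (by simp)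
    have h2 := hP (2 * (α.length + 1)) (by simp; omega)
    rw [t_even] at h2
    simp only [List.getElem?_cons_succ] at h1
    rw [show 2 * (α.length + 1) = (2 * α.length + 1) + 1 by ring] at h2
    simp only [List.getElem?_cons_succ] at h2
    rw [List.getElem?_append_right (le_refl _)] at h1
    rw [List.getElem?_append_right (by omega)] at h2
    rw [show 2 * α.length + 1 - α.length = β.length + 1 by omega] at h2
    simp at h1 h2
    rw [← h1] at h2
    cases a <;> simp at h2

lemma P_of_notQ (z : List Bool) (h : ¬ Q z) : P z := by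
  intro n
  induction n using Nat.strong_induction_on with
  | _ n ih =>
    intro hn
    rcases Nat.eq_zero_or_pos n with h0 | h0
    · subst h0
      cases z with
      | nil => simp at hn
      | cons b w =>
        cases b with
        | false => simp [t_zero]
        | true => exact absurd (Or.inl ⟨w, rfl⟩) h
    · rcases Nat.even_or_odd' n with ⟨i, hi | hi⟩
      · obtain ⟨α, β, γ, a, b, h1, h2, h3, h4, h5⟩ := decomp z i n (by omega) hn
        have e := ih i (by omega) (by omega)
        rw [h4] at e
        rw [h5, hi, t_even]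
        by_cases hab : b = a
        · rw [hab]; exact e
        · exfalso
          apply h
          right; right
          cases α with
          | nil => simp at h1; omega
          | cons c α =>
            refine ⟨c, α, β, γ, a, ?_, ?_⟩
            · simp at h1; omega
            · rw [h3]
              have : b = !a := by cases a <;> cases b <;> simp_all
              rw [this]; rfl
      · obtain ⟨α, β, γ, a, b, h1, h2, h3, h4, h5⟩ := decomp z i n (by omega) hn
        have e := ih i (by omega) (by omega)
        rw [h4] at e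
        rw [h5, hi, t_odd]
        simp at e
        rw [← e]
        by_cases hab : b = a
        · exfalso
          apply h
          right; left
          refine ⟨α, β, γ, a, by omega, ?_⟩
          rw [h3, hab]
        · cases a <;> cases b <;> simp_all

lemma mem_L_iff (z : List Bool) : z ∈ L ↔ Q z := by
  rw [mem_L]
  constructor
  · intro h
    by_contra h2
    exact h (P_of_notQ z h2)
  · exact notP_of_Q z

/-! ### the grammar -/

inductive NT | S | M (a : Bool) | A
  deriving DecidableEq

inductive Idx | s1 | s2 (a : Bool) | s3 (c a : Bool) | m0 (a : Bool) | m1 (a c d : Bool) | a0 | a1 (c : Bool)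
  deriving DecidableEq, Fintype

abbrev T (b : Bool) : Symbol Bool NT := Symbol.terminal b
abbrev N (x : NT) : Symbol Bool NT := Symbol.nonterminal x

def rule : Idx → ContextFreeRule Bool NT
  | .s1 => ⟨.S, [T true, N .A]⟩
  | .s2 a => ⟨.S, [N (.M a), T a, N .A]⟩
  | .s3 c a => ⟨.S, [T c, N (.M a), T (!a), N .A]⟩
  | .m0 a => ⟨.M a, [T a]⟩
  | .m1 a c d => ⟨.M a, [T c, N (.M a), T d]⟩
  | .a0 => ⟨.A, []⟩
  | .a1 c => ⟨.A, [T c, N .A]⟩

abbrev g : ContextFreeGrammar Bool := ⟨NT, NT.S, Finset.univ.image rule⟩

def I : NT → Set (List Bool)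
  | .S => {z | Q z}
  | .M a => {z | ∃ α β : List Bool, α.length = β.length ∧ z = α ++ a :: β}
  | .A => Set.univ

def interp : List (Symbol Bool NT) → Set (List Bool)
  | [] => {[]}
  | Symbol.terminal b :: s => {w | ∃ w', w = b :: w' ∧ w' ∈ interp s}
  | Symbol.nonterminal x :: s => {w | ∃ w1 w2, w = w1 ++ w2 ∧ w1 ∈ I x ∧ w2 ∈ interp s}

lemma interp_append (s1 s2 : List (Symbol Bool NT)) (w : List Bool) :
    w ∈ interp (s1 ++ s2) ↔ ∃ w1 w2, w = w1 ++ w2 ∧ w1 ∈ interp s1 ∧ w2 ∈ interp s2 := by
  induction s1 generalizing w with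
  | nil =>
    simp [interp]
  | cons x s ih =>
    cases x with
    | terminal b =>
      simp only [List.cons_append, interp, Set.mem_ofPred_eq]
      constructor
      · rintro ⟨w', rfl, hw⟩
        obtain ⟨w1, w2, rfl, h1, h2⟩ := (ih w').1 hw
        exact ⟨b :: w1, w2, rfl, ⟨w1, rfl, h1⟩, h2⟩
      · rintro ⟨w1, w2, rfl, ⟨w1', rfl, h1⟩, h2⟩
        exact ⟨w1' ++ w2, rfl, (ih _).2 ⟨w1', w2, rfl, h1, h2⟩⟩
    | nonterminal y =>
      simp only [List.cons_append, interp, Set.mem_ofPred_eq]
      constructor
      · rintro ⟨u1, u2, rfl, hu1, hu2⟩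
        obtain ⟨w1, w2, rfl, h1, h2⟩ := (ih u2).1 hu2
        exact ⟨u1 ++ w1, w2, by simp, ⟨u1, w1, rfl, hu1, h1⟩, h2⟩
      · rintro ⟨w1, w2, rfl, ⟨u1, u2, rfl, h1, h1'⟩, h2⟩
        exact ⟨u1, u2 ++ w2, by simp, h1, (ih _).2 ⟨u2, w2, rfl, h1', h2⟩⟩

lemma rule_sound (i : Idx) (w : List Bool) (h : w ∈ interp (rule i).output) :
    w ∈ I (rule i).input := by
  cases i with
  | s1 =>
    simp only [rule, interp, I, Set.mem_ofPred_eq] at h ⊢
    obtain ⟨w', rfl, _⟩ := h
    exact Or.inl ⟨w', rfl⟩
  | s2 a =>
    simp only [rule, interp, I, Set.mem_ofPred_eq] at h ⊢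
    obtain ⟨w1, w2, rfl, ⟨α, β, hl, rfl⟩, w3, rfl, _⟩ := h
    exact Or.inr (Or.inl ⟨α, β, w3, a, hl, by simp⟩)
  | s3 c a =>
    simp only [rule, interp, I, Set.mem_ofPred_eq] at h ⊢
    obtain ⟨w', rfl, w1, w2, rfl, ⟨α, β, hl, rfl⟩, w3, rfl, _⟩ := h
    exact Or.inr (Or.inr ⟨c, α, β, w3, a, hl, by simp⟩)
  | m0 a =>
    simp only [rule, interp, I, Set.mem_ofPred_eq] at h ⊢
    obtain ⟨w', rfl, rfl⟩ := h
    exact ⟨[], [], rfl, rfl⟩
  | m1 a c d =>
    simp only [rule, interp, I, Set.mem_ofPred_eq] at h ⊢
    obtain ⟨w', rfl, w1, w2, rfl, ⟨α, β, hl, rfl⟩, w3, rfl, rfl⟩ := h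
    exact ⟨c :: α, β ++ [d], by simp [hl], by simp⟩
  | a0 => exact Set.mem_univ _
  | a1 c => exact Set.mem_univ _

lemma rewrites_sound (r : ContextFreeRule Bool NT) (hr : ∀ w, w ∈ interp r.output → w ∈ I r.input)
    (u v : List (Symbol Bool NT)) (h : r.Rewrites u v) (w : List Bool) (hw : w ∈ interp v) :
    w ∈ interp u := by
  obtain ⟨p, q, rfl, rfl⟩ := h.exists_parts
  rw [interp_append] at hw
  obtain ⟨w12, w3, rfl, h12, h3⟩ := hw
  rw [interp_append] at h12
  obtain ⟨w1, w2, rfl, h1, h2⟩ := h12
  rw [interp_append]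
  refine ⟨w1 ++ w2, w3, rfl, ?_, h3⟩
  rw [interp_append]
  refine ⟨w1, w2, rfl, h1, ?_⟩
  exact ⟨w2, [], by simp, hr _ h2, rfl⟩

lemma derives_sound (u v : List (Symbol Bool NT)) (h : g.Derives u v) (w : List Bool)
    (hw : w ∈ interp v) : w ∈ interp u := by
  induction h with
  | refl => exact hw
  | tail _ hstep ih =>
    obtain ⟨r, hr, hrw⟩ := hstep
    apply ih
    refine rewrites_sound r ?_ _ _ hrw w hw
    have hr' : r ∈ Finset.univ.image rule := hr
    rw [Finset.mem_image] at hr'
    obtain ⟨i, _, rfl⟩ := hr'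
    exact rule_sound i

lemma interp_terminal (w : List Bool) : w ∈ interp (w.map Symbol.terminal) := by
  induction w with
  | nil => rfl
  | cons b w ih => exact ⟨w, rfl, ih⟩

lemma produces_rule (i : Idx) : g.Produces [N (rule i).input] (rule i).output :=
  ⟨rule i, Finset.mem_image_of_mem _ (Finset.mem_univ i), ContextFreeRule.Rewrites.input_output⟩

lemma derives_rule (i : Idx) (x : NT) (s : List (Symbol Bool NT)) (hx : (rule i).input = x)
    (hs : (rule i).output = s) : g.Derives [N x] s := by
  subst hx hs
  exact (produces_rule i).single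

lemma derives_append (u v u' v' : List (Symbol Bool NT)) (h1 : g.Derives u u') (h2 : g.Derives v v') :
    g.Derives (u ++ v) (u' ++ v') :=
  (h1.append_right v).trans (h2.append_left u')

lemma derives_A (w : List Bool) : g.Derives [N .A] (w.map Symbol.terminal) := by
  induction w with
  | nil => exact derives_rule .a0 _ _ rfl rfl
  | cons c w ih =>
    have h1 : g.Derives [N .A] ([T c] ++ [N .A]) := derives_rule (.a1 c) _ _ rfl rfl
    have h2 : g.Derives ([T c] ++ [N .A]) ([T c] ++ w.map Symbol.terminal) :=
      ih.append_left [T c]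
    exact h1.trans h2

lemma derives_M (a : Bool) (n : ℕ) : ∀ (α β : List Bool), α.length = n → β.length = n →
    g.Derives [N (.M a)] ((α ++ a :: β).map Symbol.terminal) := by
  induction n with
  | zero =>
    intro α β h1 h2
    rw [List.length_eq_zero_iff] at h1 h2
    subst h1 h2
    exact derives_rule (.m0 a) _ _ rfl rfl
  | succ n ih =>
    intro α β h1 h2
    cases α with
    | nil => simp at h1
    | cons c α =>
      obtain ⟨β', d, rfl⟩ : ∃ β' d, β = β' ++ [d] := by
        rcases List.eq_nil_or_concat β with h | ⟨β', d, h⟩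
        · subst h; simp at h2
        · exact ⟨β', d, by simpa using h⟩
      have e1 : g.Derives [N (.M a)] ([T c] ++ ([N (.M a)] ++ [T d])) :=
        derives_rule (.m1 a c d) _ _ rfl rfl
      have e2 := ih α β' (by simpa using h1) (by simpa using h2)
      have e3 : g.Derives ([T c] ++ ([N (.M a)] ++ [T d]))
          ([T c] ++ ((α ++ a :: β').map Symbol.terminal ++ [T d])) :=
        (e2.append_right [T d]).append_left [T c]
      have e4 := e1.trans e3
      have e5 : ([T c] ++ ((α ++ a :: β').map Symbol.terminal ++ [T d])) =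
          ((c :: α ++ a :: (β' ++ [d])).map Symbol.terminal) := by simp
      rw [e5] at e4
      exact e4

lemma complete (z : List Bool) (h : Q z) : g.Derives [N .S] (z.map Symbol.terminal) := by
  rcases h with ⟨w, rfl⟩ | ⟨α, β, γ, a, hl, rfl⟩ | ⟨c, α, β, γ, a, hl, rfl⟩
  · have e1 : g.Derives [N .S] ([T true] ++ [N .A]) := derives_rule .s1 _ _ rfl rfl
    have e2 : g.Derives ([T true] ++ [N .A]) ([T true] ++ w.map Symbol.terminal) :=
      (derives_A w).append_left _
    exact e1.trans e2
  · have e1 : g.Derives [N .S] ([N (.M a)] ++ ([T a] ++ [N .A])) := derives_rule (.s2 a) _ _ rfl rfl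
    have e2 := derives_append _ _ _ _ (derives_M a α.length α β rfl hl.symm)
      ((derives_A γ).append_left [T a])
    have e4 := e1.trans e2
    have e5 : ((α ++ a :: β).map Symbol.terminal ++ ([T a] ++ γ.map Symbol.terminal)) =
        ((α ++ a :: (β ++ a :: γ)).map Symbol.terminal) := by simp
    rw [e5] at e4
    exact e4
  · have e1 : g.Derives [N .S] ([T c] ++ ([N (.M a)] ++ ([T (!a)] ++ [N .A]))) :=
      derives_rule (.s3 c a) _ _ rfl rfl
    have e2 := (derives_append _ _ _ _ (derives_M a α.length α β rfl hl.symm)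
      ((derives_A γ).append_left [T (!a)])).append_left [T c]
    have e4 := e1.trans e2
    have e5 : ([T c] ++ ((α ++ a :: β).map Symbol.terminal ++ ([T (!a)] ++ γ.map Symbol.terminal))) =
        ((c :: (α ++ a :: (β ++ (!a) :: γ))).map Symbol.terminal) := by simp
    rw [e5] at e4
    exact e4

theorem L_contextFree : L.IsContextFree := by
  refine ⟨g, ?_⟩
  ext z
  rw [mem_L_iff, ContextFreeGrammar.mem_language_iff]
  constructor
  · intro h
    have := derives_sound _ _ h z (interp_terminal z)
    obtain ⟨w1, w2, hw, h1, h2⟩ := this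
    have h2' : w2 = [] := h2
    subst h2'
    simp at hw
    subst hw
    exact h1
  · exact complete z

/-! ### powers -/

lemma getElem?_rep_period (u : List Bool) (N : ℕ) (j : ℕ) (hj : j < N * u.length) :
    ((List.replicate (N+1) u).flatten)[j]? = ((List.replicate (N+1) u).flatten)[j + u.length]? := by
  have h1 : (List.replicate (N+1) u).flatten = (List.replicate N u).flatten ++ u := by
    rw [List.replicate_succ']; simp
  have h2 : (List.replicate (N+1) u).flatten = u ++ (List.replicate N u).flatten := by
    rw [List.replicate_succ]; simp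
  have hlen : ((List.replicate N u).flatten).length = N * u.length := by simp
  conv_lhs => rw [h1, List.getElem?_append_left (by rw [hlen]; exact hj)]
  rw [h2, List.getElem?_append_right (by omega)]
  congr 1
  omega

lemma no_power (x u z : List Bool) (hu : u ≠ []) (N : ℕ) (hN : 6 ≤ N)
    (hP : P (x ++ ((List.replicate N u).flatten ++ z))) : False := by
  obtain ⟨K, rfl⟩ : ∃ K, N = K + 1 := ⟨N - 1, by omega⟩
  have hup : 1 ≤ u.length := by
    rcases Nat.eq_zero_or_pos u.length with h | h
    · rw [List.length_eq_zero_iff] at h; exact absurd h hu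
    · exact h
  have hlen : ((List.replicate (K+1) u).flatten).length = (K+1) * u.length := by simp
  apply no_period u.length x.length hup
  intro j hj1 hj2
  have h5 : 5 * u.length ≤ K * u.length := Nat.mul_le_mul_right _ (by omega)
  have h6 : (K + 1) * u.length = K * u.length + u.length := by ring
  have e1 := hP j (by simp only [List.length_append, hlen]; omega)
  have e2 := hP (j + u.length) (by simp only [List.length_append, hlen]; omega)
  rw [List.getElem?_append_right (by omega), List.getElem?_append_left (by rw [hlen]; omega)] at e1 e2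
  rw [show j + u.length - x.length = (j - x.length) + u.length by omega] at e2
  rw [← getElem?_rep_period u K (j - x.length) (by omega), e1] at e2
  simpa using e2

lemma P_prefix (n : ℕ) : P ((List.range n).map t) := by
  intro i hi
  simp at hi
  simp [hi]

theorem L_not_regular : ¬ L.IsRegular := by
  intro h
  have h2 := h.compl
  obtain ⟨σ, hσ, M, hM⟩ := h2
  have hx : ((List.range (Fintype.card σ)).map t) ∈ M.accepts := by
    rw [hM]
    intro h3
    exact h3 (P_prefix _)
  obtain ⟨a, b, c, _, _, hb, hsub⟩ := M.pumping_lemma hx (by simp)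
  have h4' : a ++ (List.replicate 6 b).flatten ++ c ∈ (({a} : Language Bool) * KStar.kstar ({b} : Language Bool) * ({c} : Language Bool)) := by
    rw [Language.mem_mul]
    refine ⟨a ++ (List.replicate 6 b).flatten, ?_, c, rfl, rfl⟩
    rw [Language.mem_mul]
    refine ⟨a, rfl, (List.replicate 6 b).flatten, ?_, rfl⟩
    rw [Language.mem_kstar]
    refine ⟨List.replicate 6 b, rfl, ?_⟩
    intro y hy
    rw [List.mem_replicate] at hy
    exact hy.2
  have h4 : a ++ (List.replicate 6 b).flatten ++ c ∈ M.accepts := hsub h4'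
  rw [hM] at h4
  have h5 : P (a ++ (List.replicate 6 b).flatten ++ c) := by
    by_contra h6
    exact h4 h6
  rw [List.append_assoc] at h5
  exact no_power a b c hb 6 le_rfl h5

theorem main :
    ∃ L : Language Bool, L.IsContextFree ∧ ¬ L.IsRegular ∧
      ∀ x u y v z : List Bool, u ++ v ≠ [] → ∀ n m : ℕ, 1 ≤ n → 1 ≤ m →
        x ++ (List.replicate (6 * n) u).flatten ++ y ++ (List.replicate (6 * m) v).flatten ++ z ∈ L := by
  refine ⟨L, L_contextFree, L_not_regular, ?_⟩
  intro x u y v z huv n m hn hm
  rw [mem_L]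
  intro hP
  by_cases hu : u = []
  · have hv : v ≠ [] := by
      intro hv; apply huv; simp [hu, hv]
    have : P ((x ++ (List.replicate (6 * n) u).flatten ++ y) ++ ((List.replicate (6 * m) v).flatten ++ z)) := by
      simpa [List.append_assoc] using hP
    exact no_power _ v z hv (6 * m) (by omega) this
  · have : P (x ++ ((List.replicate (6 * n) u).flatten ++ (y ++ (List.replicate (6 * m) v).flatten ++ z))) := by
      simpa [List.append_assoc] using hP
    exact no_power x u _ hu (6 * n) (by omega) this

end Pool.Agent.H3.CoPrefixTM
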