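import Mathlib

set_option autoImplicit false

namespace Pool.Agent.H3.Colorful

open Module

/-- Bárány's colourful Carathéodory theorem (point `0`). -/
theorem colorful {V : Type} [NormedAddCommGroup V] [InnerProductSpace ℝ V] [FiniteDimensional ℝ V]
    {ι : Type} [Fintype ι] [DecidableEq ι] (hι : Fintype.card ι = finrank ℝ V + 1)
    (C : ι → Finset V) (hC : ∀ i, (0 : V) ∈ convexHull ℝ (C i : Set V)) :
    ∃ v : ι → V, (∀ i, v i ∈ C i) ∧ (0 : V) ∈ convexHull ℝ (Set.range v) := by
  classical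
  have hne : (Fintype.piFinset C).Nonempty := by
    rw [Fintype.piFinset_nonempty]
    intro i
    have h1 : (convexHull ℝ (C i : Set V)).Nonempty := ⟨0, hC i⟩
    rw [convexHull_nonempty_iff] at h1
    exact_mod_cast h1
  set D : (ι → V) → ℝ := fun v => ⨅ w : convexHull ℝ (Set.range v), ‖(0 : V) - w‖ with hD
  obtain ⟨v, hv, hmin⟩ := Finset.exists_min_image (Fintype.piFinset C) D hne
  rw [Fintype.mem_piFinset] at hv
  refine ⟨v, hv, ?_⟩
  have hιne : Nonempty ι := by
    rw [← Fintype.card_pos_iff, hι]; omega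
  have hcomp : ∀ v : ι → V, IsCompact (convexHull ℝ (Set.range v)) := fun v =>
    (Set.finite_range v).isCompact_convexHull (𝕜 := ℝ)
  have hKne : ∀ v : ι → V, (convexHull ℝ (Set.range v)).Nonempty := fun v =>
    ⟨v (Classical.arbitrary ι), subset_convexHull ℝ _ ⟨_, rfl⟩⟩
  obtain ⟨x, hxK, hx⟩ := exists_norm_eq_iInf_of_complete_convex (hKne v) (hcomp v).isComplete
    (convex_convexHull ℝ _) (0 : V)
  by_contra h0
  have hx0 : x ≠ 0 := by rintro rfl; exact h0 hxK
  have hxpos : 0 < ‖x‖ := norm_pos_iff.2 hx0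
  have hobt := (norm_eq_iInf_iff_real_inner_le_zero (convex_convexHull ℝ _) hxK).1 hx
  have hge : ∀ y ∈ convexHull ℝ (Set.range v), ‖x‖ ^ 2 ≤ inner ℝ x y := by
    intro y hy
    have h1 := hobt y hy
    rw [zero_sub, inner_neg_left, inner_sub_right, real_inner_self_eq_norm_sq] at h1
    linarith
  obtain ⟨κ, _, z, w, hz, hz2, hw, hw1, hzx⟩ := eq_pos_convex_span_of_mem_convexHull hxK
  have hzin : ∀ i, inner ℝ x (z i) = ‖x‖ ^ 2 := by
    have hsum : ∑ i, w i * (inner ℝ x (z i) - ‖x‖ ^ 2) = 0 := by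
      have h1 : (inner ℝ x (∑ i, w i • z i) : ℝ) = ∑ i, w i * inner ℝ x (z i) := by
        rw [inner_sum]
        exact Finset.sum_congr rfl fun i _ => inner_smul_right _ _ _
      rw [hzx, real_inner_self_eq_norm_sq] at h1
      simp only [mul_sub]
      rw [Finset.sum_sub_distrib, ← h1, ← Finset.sum_mul, hw1]
      ring
    intro i
    have hnn : ∀ i ∈ Finset.univ, 0 ≤ w i * (inner ℝ x (z i) - ‖x‖ ^ 2) := by
      intro i _
      apply mul_nonneg (hw i).le
      have := hge (z i) (subset_convexHull ℝ _ (hz ⟨i, rfl⟩))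
      linarith
    have h2 := (Finset.sum_eq_zero_iff_of_nonneg hnn).1 hsum i (Finset.mem_univ i)
    rcases mul_eq_zero.1 h2 with h3 | h3
    · exact absurd h3 (hw i).ne'
    · linarith
  have hcard : Fintype.card κ ≤ finrank ℝ V := by
    have h1 := hz2.card_le_finrank_succ
    have h2 : vectorSpan ℝ (Set.range z) ≤ (Submodule.span ℝ {x})ᗮ := by
      rw [vectorSpan_def, Submodule.span_le]
      rintro _ ⟨_, ⟨i, rfl⟩, _, ⟨j, rfl⟩, rfl⟩
      rw [SetLike.mem_coe, Submodule.mem_orthogonal_singleton_iff_inner_right]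
      show inner ℝ x (z i -ᵥ z j) = 0
      rw [vsub_eq_sub, inner_sub_right, hzin, hzin, sub_self]
    have h3 := Submodule.finrank_mono h2
    have h4 := Submodule.finrank_add_finrank_orthogonal (Submodule.span ℝ {x})
    rw [finrank_span_singleton hx0] at h4
    omega
  have hc : ∀ i, ∃ c, v c = z i := fun i => hz ⟨i, rfl⟩
  choose c hc using hc
  have hnsurj : ¬ Function.Surjective c := by
    intro hs
    have := Fintype.card_le_of_surjective c hs
    omega
  obtain ⟨j, hj⟩ : ∃ j, ∀ i, c i ≠ j := by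
    by_contra hcon
    push Not at hcon
    exact hnsurj (fun j => hcon j)
  obtain ⟨y, hyC, hy⟩ : ∃ y ∈ C j, (inner ℝ x y : ℝ) ≤ 0 := by
    by_contra hcon
    push Not at hcon
    have hsub : convexHull ℝ (C j : Set V) ⊆ {y | 0 < (inner ℝ x y : ℝ)} := by
      apply convexHull_min
      · intro y hy; exact hcon y hy
      · exact convex_halfSpace_gt (f := fun y => (inner ℝ x y : ℝ))
          ⟨fun a b => inner_add_right _ _ _, fun r a => inner_smul_right _ _ _⟩ 0
    have := hsub (hC j)
    have h2 : 0 < (inner ℝ x (0 : V) : ℝ) := this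
    rw [inner_zero_right] at h2
    exact lt_irrefl _ h2
  set v' := Function.update v j y with hv'
  have hv'C : v' ∈ Fintype.piFinset C := by
    rw [Fintype.mem_piFinset]
    intro i
    by_cases hij : i = j
    · subst hij; rw [hv', Function.update_self]; exact hyC
    · rw [hv', Function.update_of_ne hij]; exact hv i
  have hxK' : x ∈ convexHull ℝ (Set.range v') := by
    rw [← hzx]
    apply (convex_convexHull ℝ _).sum_mem (fun i _ => (hw i).le) hw1
    intro i _
    apply subset_convexHull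
    refine ⟨c i, ?_⟩
    rw [hv', Function.update_of_ne (hj i), hc]
  have hyK' : y ∈ convexHull ℝ (Set.range v') := by
    apply subset_convexHull
    exact ⟨j, by rw [hv', Function.update_self]⟩
  have h1 : D v ≤ D v' := hmin v' hv'C
  have hbdd : BddBelow (Set.range fun w : convexHull ℝ (Set.range v') => ‖(0 : V) - w‖) :=
    ⟨0, by rintro _ ⟨w, rfl⟩; exact norm_nonneg _⟩
  have h2 : D v' ≤ ‖(0 : V) - x‖ := ciInf_le hbdd (⟨x, hxK'⟩ : convexHull ℝ (Set.range v'))
  have h3 : ‖(0 : V) - x‖ = D v' := le_antisymm (by rw [hx]; exact h1) h2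
  have h4 := (norm_eq_iInf_iff_real_inner_le_zero (convex_convexHull ℝ _) hxK').1 h3 y hyK'
  rw [zero_sub, inner_neg_left, inner_sub_right, real_inner_self_eq_norm_sq] at h4
  have : 0 < ‖x‖ ^ 2 := by positivity
  linarith

end Pool.Agent.H3.Colorful
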