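import Mathlib

set_option autoImplicit false

namespace Pool.Agent.H3.Congr

open Module

/-- Equal Gram matrices give a linear isometry. -/
theorem exists_linearIsometry {F : Type} [NormedAddCommGroup F] [InnerProductSpace ℝ F]
    [FiniteDimensional ℝ F] {ι : Type} [Fintype ι] (v w : ι → F)
    (h : ∀ i j, (inner ℝ (v i) (v j) : ℝ) = inner ℝ (w i) (w j)) :
    ∃ L : F ≃ₗᵢ[ℝ] F, ∀ i, L (v i) = w i := by
  classical
  set A : (ι → ℝ) →ₗ[ℝ] F := Fintype.linearCombination ℝ v with hA
  set B : (ι → ℝ) →ₗ[ℝ] F := Fintype.linearCombination ℝ w with hB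
  have hnorm : ∀ c : ι → ℝ, ‖A c‖ = ‖B c‖ := by
    intro c
    have h1 : (inner ℝ (A c) (A c) : ℝ) = inner ℝ (B c) (B c) := by
      rw [hA, hB, Fintype.linearCombination_apply, Fintype.linearCombination_apply,
        sum_inner, sum_inner]
      refine Finset.sum_congr rfl fun i _ => ?_
      rw [inner_sum, inner_sum]
      refine Finset.sum_congr rfl fun j _ => ?_
      rw [inner_smul_left, inner_smul_right, inner_smul_left, inner_smul_right, h]
    rw [real_inner_self_eq_norm_sq, real_inner_self_eq_norm_sq] at h1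
    exact (pow_left_inj₀ (norm_nonneg _) (norm_nonneg _) two_ne_zero).1 h1
  have hker : LinearMap.ker A ≤ LinearMap.ker B := by
    intro c hc
    rw [LinearMap.mem_ker] at hc ⊢
    rw [← norm_eq_zero, ← hnorm, hc, norm_zero]
  let L0 : LinearMap.range A →ₗ[ℝ] F :=
    ((LinearMap.ker A).liftQ B hker).comp A.quotKerEquivRange.symm.toLinearMap
  have hL0 : ∀ c : ι → ℝ, L0 ⟨A c, LinearMap.mem_range_self A c⟩ = B c := by
    intro c
    show (LinearMap.ker A).liftQ B hker (A.quotKerEquivRange.symm ⟨A c, _⟩) = B c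
    rw [LinearMap.quotKerEquivRange_symm_apply_image]
    rfl
  let L1 : LinearMap.range A →ₗᵢ[ℝ] F :=
    { L0 with
      norm_map' := by
        rintro ⟨_, ⟨c, rfl⟩⟩
        show ‖L0 ⟨A c, _⟩‖ = ‖A c‖
        rw [hL0, hnorm] }
  refine ⟨(L1.extend).toLinearIsometryEquiv rfl, ?_⟩
  intro i
  have hv : A (Pi.single i 1) = v i := by
    rw [hA, Fintype.linearCombination_apply_single, one_smul]
  have hw : B (Pi.single i 1) = w i := by
    rw [hB, Fintype.linearCombination_apply_single, one_smul]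
  show L1.extend (v i) = w i
  rw [← hv, ← hw]
  have := L1.extend_apply ⟨A (Pi.single i 1), LinearMap.mem_range_self A _⟩
  rw [this]
  exact hL0 _

/-- Congruent finite families differ by an isometry. -/
theorem exists_isometry {F : Type} [NormedAddCommGroup F] [InnerProductSpace ℝ F]
    [FiniteDimensional ℝ F] {ι : Type} [Fintype ι] (i0 : ι) (v w : ι → F)
    (h : ∀ i j, dist (v i) (v j) = dist (w i) (w j)) :
    ∃ T : F ≃ᵢ F, ∀ i, w i = T (v i) := by
  obtain ⟨L, hL⟩ := exists_linearIsometry (fun i => v i - v i0) (fun i => w i - w i0) (by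
    intro i j
    have e : ∀ x y : F, (inner ℝ x y : ℝ) = (‖x‖ ^ 2 + ‖y‖ ^ 2 - ‖x - y‖ ^ 2) / 2 := by
      intro x y
      rw [norm_sub_sq_real]
      ring
    rw [e, e, sub_sub_sub_cancel_right, sub_sub_sub_cancel_right, ← dist_eq_norm, ← dist_eq_norm,
      ← dist_eq_norm, ← dist_eq_norm, ← dist_eq_norm, ← dist_eq_norm, h, h, h])
  refine ⟨(IsometryEquiv.subRight (v i0)).trans
    (L.toIsometryEquiv.trans (IsometryEquiv.addRight (w i0))), ?_⟩
  intro i
  show w i = L (v i - v i0) + w i0
  rw [hL]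
  simp

end Pool.Agent.H3.Congr
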