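import Mathlib

set_option autoImplicit false

namespace Pool.Agent.H3.Expansive

variable {V E : Type} [MetricSpace E] {G : SimpleGraph V} {p : V → E}

/-- The placements `q` (in the metric space `E`) with the same edge lengths as `p`. -/
def Cfg (G : SimpleGraph V) (p : V → E) : Type :=
  {q : V → E // ∀ i j, G.Adj i j → dist (q i) (q j) = dist (p i) (p j)}

instance : TopologicalSpace (Cfg G p) := instTopologicalSpaceSubtype

/-- Two placements are equivalent when they differ by an isometry of `E`. -/
def Equi (q q' : Cfg G p) : Prop := ∃ T : E ≃ᵢ E, ∀ i, q'.1 i = T (q.1 i)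

theorem equi_equivalence : Equivalence (Equi (G := G) (p := p)) :=
  { refl := fun q => ⟨IsometryEquiv.refl _, fun _ => rfl⟩
    symm := fun {q q'} h => by
      obtain ⟨T, hT⟩ := h
      exact ⟨T.symm, fun i => by rw [hT i, IsometryEquiv.symm_apply_apply]⟩
    trans := fun {q q' q''} h h' => by
      obtain ⟨T, hT⟩ := h
      obtain ⟨T', hT'⟩ := h'
      exact ⟨T.trans T', fun i => by rw [hT' i, hT i]; rfl⟩ }

def cfgSetoid (G : SimpleGraph V) (p : V → E) : Setoid (Cfg G p) := ⟨Equi, equi_equivalence⟩

/-- The configuration space `C`: placements with the edge lengths of `p`, modulo isometries, with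
the quotient topology. -/
def ConfigSpace (G : SimpleGraph V) (p : V → E) : Type := Quotient (cfgSetoid G p)

instance : TopologicalSpace (ConfigSpace G p) := instTopologicalSpaceQuotient

/-- The class of a placement. -/
def cls (q : Cfg G p) : ConfigSpace G p := Quotient.mk (cfgSetoid G p) q

/-- The given placement `p` itself. -/
def base (G : SimpleGraph V) (p : V → E) : Cfg G p := ⟨p, fun _ _ _ => rfl⟩

/-- A homeomorphism `x ↦ φ x` of an open neighbourhood `U` of the class of `p` onto an open
interval. `(G, p)` is a 1DOF mechanism exactly when such a chart exists; the two half-branches are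
the parts of `U` mapped to the left and to the right of the image of the class of `p`. -/
structure Chart (G : SimpleGraph V) (p : V → E) where
  U : Set (ConfigSpace G p)
  isOpen : IsOpen U
  mem : cls (base G p) ∈ U
  φ : ConfigSpace G p → ℝ
  a : ℝ
  b : ℝ
  emb : Topology.IsEmbedding fun x : U => φ x
  img : φ '' U = Set.Ioo a b

/-- A motion `P(t)`, `t ∈ [0, 1]`, starting at `p`, with nondecreasing distances, not all constant,
whose classes injectively run inside one half-branch. -/
structure IsExpansiveMotion (c : Chart G p) (P : unitInterval → Cfg G p) : Prop where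
  cont : Continuous P
  start : P 0 = base G p
  mono : ∀ i j, Monotone fun t => dist ((P t).1 i) ((P t).1 j)
  nonconst : ∃ i j t, dist ((P t).1 i) ((P t).1 j) ≠ dist (p i) (p j)
  inj : Function.Injective fun t => cls (P t)
  half : (∀ t, t ≠ 0 → cls (P t) ∈ c.U ∧ c.φ (cls (base G p)) < c.φ (cls (P t))) ∨
    (∀ t, t ≠ 0 → cls (P t) ∈ c.U ∧ c.φ (cls (P t)) < c.φ (cls (base G p)))

/-- The placement `q` is symmetric with respect to `(Γ, θ)`. -/
def IsSymmetric (Γ : Subgroup (E ≃ᵢ E)) (θ : Γ →* (G ≃g G)) (q : V → E) : Prop :=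
  ∀ (γ : Γ) (i : V), γ.1 (q i) = q (θ γ i)

/-- The motion `P` preserves the symmetry `(Γ, θ)`. -/
def PreservesSymmetry (Γ : Subgroup (E ≃ᵢ E)) (θ : Γ →* (G ≃g G))
    (P : unitInterval → Cfg G p) : Prop :=
  ∃ T : unitInterval → (E ≃ᵢ E), T 0 = 1 ∧
    (∀ x, Continuous fun t => T t x) ∧ ∀ t, IsSymmetric Γ θ (fun i => T t ((P t).1 i))

/-- The framework `(G, p)` is `(Γ, θ)`-symmetric, is a 1DOF mechanism and has an expansive motion
`P` that does not preserve the symmetry; moreover no placement `P t`, `t ≠ 0`, is congruent to a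
`(Γ, θ)`-symmetric one. -/
def IsCounterexample (G : SimpleGraph V) (p : V → E) (Γ : Subgroup (E ≃ᵢ E))
    (θ : Γ →* (G ≃g G)) : Prop :=
  Finite Γ ∧ Function.Injective p ∧ IsSymmetric Γ θ p ∧
    ∃ (c : Chart G p) (P : unitInterval → Cfg G p), IsExpansiveMotion c P ∧
      (∀ t, t ≠ 0 → ∀ T : E ≃ᵢ E, ¬ IsSymmetric Γ θ (fun i => T ((P t).1 i))) ∧
      ¬ PreservesSymmetry Γ θ P

/-- There is a counterexample in the space `E` with `n` vertices. -/
def HasCounterexample (E : Type) [MetricSpace E] (n : ℕ) : Prop :=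
  ∃ (G : SimpleGraph (Fin n)) (p : Fin n → E) (Γ : Subgroup (E ≃ᵢ E)) (θ : Γ →* (G ≃g G)),
    IsCounterexample G p Γ θ

end Pool.Agent.H3.Expansive
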