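import Mathlib
import Pool.Agent.H3.ExpansiveDefs
import Pool.Agent.H3.Congr

set_option autoImplicit false

namespace Pool.Agent.H3.Expansive

abbrev E2 := EuclideanSpace ℝ (Fin 2)

lemma dist_sq (u v : E2) : dist u v ^ 2 = (u 0 - v 0) ^ 2 + (u 1 - v 1) ^ 2 := by
  rw [EuclideanSpace.dist_eq, Real.sq_sqrt (Finset.sum_nonneg fun _ _ => sq_nonneg _),
    Fin.sum_univ_two, Real.dist_eq, Real.dist_eq, sq_abs, sq_abs]

lemma dist_eq_of_sq {u v : E2} {x : ℝ} (hx : 0 ≤ x) (h : (u 0 - v 0) ^ 2 + (u 1 - v 1) ^ 2 = x ^ 2) :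
    dist u v = x := by
  rw [← dist_sq] at h
  exact (pow_left_inj₀ dist_nonneg hx two_ne_zero).1 h

lemma continuous_vec {X : Type} [TopologicalSpace X] {f g : X → ℝ} (hf : Continuous f)
    (hg : Continuous g) : Continuous fun x => (!₂[f x, g x] : E2) := by
  refine (PiLp.continuous_toLp 2 _).comp (continuous_pi ?_)
  intro i
  fin_cases i
  · simpa using hf
  · simpa using hg

/-! ### the 4-bar linkage -/

abbrev G4 : SimpleGraph (Fin 4) := SimpleGraph.cycleGraph 4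

/-- `p₀ = (-1,0), (1,0), (-4,0), (4,0)`. -/
noncomputable def p0 : Fin 4 → E2 := ![!₂[-1, 0], !₂[1, 0], !₂[-4, 0], !₂[4, 0]]

/-- configuration with parameters `p`, `r`. -/
noncomputable def conf (p r : ℝ) : Fin 4 → E2 :=
  ![!₂[-1, 0], !₂[1, 0], !₂[1 - 5 * (1 - r ^ 2) / (1 + r ^ 2), -(10 * r) / (1 + r ^ 2)],
    !₂[-1 + 5 * (1 - p ^ 2) / (1 + p ^ 2), (10 * p) / (1 + p ^ 2)]]

lemma edges (q : Fin 4 → E2) : (∀ i j, G4.Adj i j → dist (q i) (q j) = dist (p0 i) (p0 j)) ↔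
    dist (q 0) (q 1) = 2 ∧ dist (q 1) (q 2) = 5 ∧ dist (q 2) (q 3) = 8 ∧ dist (q 3) (q 0) = 5 := by
  have h01 : dist (p0 0) (p0 1) = 2 := dist_eq_of_sq (by norm_num) (by simp [p0]; norm_num)
  have h12 : dist (p0 1) (p0 2) = 5 := dist_eq_of_sq (by norm_num) (by simp [p0]; norm_num)
  have h23 : dist (p0 2) (p0 3) = 8 := dist_eq_of_sq (by norm_num) (by simp [p0]; norm_num)
  have h30 : dist (p0 3) (p0 0) = 5 := dist_eq_of_sq (by norm_num) (by simp [p0]; norm_num)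
  constructor
  · intro h
    refine ⟨?_, ?_, ?_, ?_⟩
    · rw [h 0 1 (by decide), h01]
    · rw [h 1 2 (by decide), h12]
    · rw [h 2 3 (by decide), h23]
    · rw [h 3 0 (by decide), h30]
  · rintro ⟨e1, e2, e3, e4⟩ i j hij
    have hcases : (i = 0 ∧ j = 1) ∨ (i = 1 ∧ j = 0) ∨ (i = 1 ∧ j = 2) ∨ (i = 2 ∧ j = 1) ∨
        (i = 2 ∧ j = 3) ∨ (i = 3 ∧ j = 2) ∨ (i = 3 ∧ j = 0) ∨ (i = 0 ∧ j = 3) := by
      revert i j; decide
    rcases hcases with ⟨rfl, rfl⟩ | ⟨rfl, rfl⟩ | ⟨rfl, rfl⟩ | ⟨rfl, rfl⟩ | ⟨rfl, rfl⟩ |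
      ⟨rfl, rfl⟩ | ⟨rfl, rfl⟩ | ⟨rfl, rfl⟩
    · rw [e1, h01]
    · rw [dist_comm, e1, dist_comm, h01]
    · rw [e2, h12]
    · rw [dist_comm, e2, dist_comm, h12]
    · rw [e3, h23]
    · rw [dist_comm, e3, dist_comm, h23]
    · rw [e4, h30]
    · rw [dist_comm, e4, dist_comm, h30]

lemma conf_edges {p r : ℝ} (h : 3 * p ^ 2 + 3 * r ^ 2 - 10 * p * r = 4 * p ^ 2 * r ^ 2) :
    ∀ i j, G4.Adj i j → dist (conf p r i) (conf p r j) = dist (p0 i) (p0 j) := by
  have hp : (1 + p ^ 2) ≠ 0 := by positivity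
  have hr : (1 + r ^ 2) ≠ 0 := by positivity
  rw [edges]
  refine ⟨dist_eq_of_sq (by norm_num) ?_, dist_eq_of_sq (by norm_num) ?_,
    dist_eq_of_sq (by norm_num) ?_, dist_eq_of_sq (by norm_num) ?_⟩
  · simp [conf]; norm_num
  · simp [conf]; field_simp; ring
  · simp [conf]; field_simp; linear_combination (-20) * (1 + p ^ 2) * (1 + r ^ 2) * h
  · simp [conf]; field_simp; ring

lemma conf_D1 (p r : ℝ) : dist (conf p r 0) (conf p r 2) ^ 2 = (9 + 49 * r ^ 2) / (1 + r ^ 2) := by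
  have hr : (1 + r ^ 2) ≠ 0 := by positivity
  rw [dist_sq]
  simp [conf]; field_simp; ring

lemma conf_D2 (p r : ℝ) : dist (conf p r 1) (conf p r 3) ^ 2 = (9 + 49 * p ^ 2) / (1 + p ^ 2) := by
  have hp : (1 + p ^ 2) ≠ 0 := by positivity
  rw [dist_sq]
  simp [conf]; field_simp; ring

/-! ### the parametrisation -/

noncomputable def Q (s : ℝ) : ℝ := Real.sqrt (1 + 3 * s ^ 2)
noncomputable def W (s : ℝ) : ℝ := Real.sqrt (s ^ 2 - 2 + 2 * Q s)
noncomputable def pp (s : ℝ) : ℝ := (W s - s) / 2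
noncomputable def rr (s : ℝ) : ℝ := (W s + s) / 2

lemma Q_sq (s : ℝ) : Q s ^ 2 = 1 + 3 * s ^ 2 := Real.sq_sqrt (by positivity)

lemma one_le_Q (s : ℝ) : 1 ≤ Q s := by
  rw [Q, Real.one_le_sqrt]; nlinarith [sq_nonneg s]

lemma W_sq (s : ℝ) : W s ^ 2 = s ^ 2 - 2 + 2 * Q s :=
  Real.sq_sqrt (by nlinarith [one_le_Q s, sq_nonneg s])

lemma W_nonneg (s : ℝ) : 0 ≤ W s := Real.sqrt_nonneg _

lemma abs_le_W (s : ℝ) : |s| ≤ W s := by
  apply Real.le_sqrt_of_sq_le
  rw [sq_abs]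
  linarith [one_le_Q s]

lemma pp_nonneg (s : ℝ) : 0 ≤ pp s := by
  have := abs_le_W s
  have := le_abs_self s
  rw [pp]; linarith

lemma rr_nonneg (s : ℝ) : 0 ≤ rr s := by
  have := abs_le_W s
  have := neg_abs_le s
  rw [rr]; linarith

lemma rel (s : ℝ) : 3 * pp s ^ 2 + 3 * rr s ^ 2 - 10 * pp s * rr s = 4 * pp s ^ 2 * rr s ^ 2 := by
  have h1 := W_sq s
  have h2 := Q_sq s
  have e1 : pp s * rr s = (Q s - 1) / 2 := by
    rw [pp, rr]; linear_combination h1 / 4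
  have e2 : rr s - pp s = s := by rw [pp, rr]; ring
  have e3 : 3 * pp s ^ 2 + 3 * rr s ^ 2 - 10 * pp s * rr s =
    3 * (rr s - pp s) ^ 2 - 4 * (pp s * rr s) := by ring
  have e4 : 4 * pp s ^ 2 * rr s ^ 2 = 4 * (pp s * rr s) ^ 2 := by ring
  rw [e3, e4, e2, e1]
  linear_combination -h2

lemma W_le (s : ℝ) : W s ≤ 2 * |s| := by
  rw [W]
  apply Real.sqrt_le_iff.2
  refine ⟨by positivity, ?_⟩
  rw [mul_pow, sq_abs]
  have h2 := Q_sq s
  nlinarith [one_le_Q s, sq_nonneg s, sq_nonneg (Q s - 1)]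

lemma continuous_W : Continuous W := by
  unfold W Q
  fun_prop

lemma W_mono_aux {s t : ℝ} (hs : 0 ≤ s) (hst : s ≤ t) (ht : t ≤ 1) : t - s ≤ W t - W s := by
  have hWs := W_le s
  have hWt := W_le t
  rw [abs_of_nonneg hs] at hWs
  rw [abs_of_nonneg (hs.trans hst)] at hWt
  have hQs : Q s ≤ 2 := by
    rw [Q]; apply Real.sqrt_le_iff.2; constructor
    · norm_num
    · nlinarith
  have hQt : Q t ≤ 2 := by
    rw [Q]; apply Real.sqrt_le_iff.2; constructor
    · norm_num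
    · nlinarith
  have hQ1 := one_le_Q s
  have hQ2 := one_le_Q t
  -- Q t - Q s ≥ 3/4 (t^2 - s^2)
  have h1 : 3 * (t ^ 2 - s ^ 2) = (Q t - Q s) * (Q t + Q s) := by
    have := Q_sq s; have := Q_sq t; ring_nf; ring_nf at *; linarith
  have hQmono : 0 ≤ Q t - Q s := by
    by_contra hneg
    push Not at hneg
    have : (Q t - Q s) * (Q t + Q s) < 0 := mul_neg_of_neg_of_pos hneg (by linarith)
    nlinarith
  have h2 : 3 * (t ^ 2 - s ^ 2) ≤ (Q t - Q s) * 4 := by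
    rw [h1]; apply mul_le_mul_of_nonneg_left _ hQmono; linarith
  have h3 : (W t - W s) * (W t + W s) = t ^ 2 - s ^ 2 + 2 * (Q t - Q s) := by
    have := W_sq s; have := W_sq t; ring_nf; ring_nf at *; linarith
  have h4 : (W t - W s) * (W t + W s) ≥ (5 / 2) * (t - s) * (t + s) := by
    rw [h3]; nlinarith
  by_contra hlt
  push Not at hlt
  have hts : 0 < t - s := by
    by_contra h0
    push Not at h0
    have : t = s := le_antisymm (by linarith) hst
    subst this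
    linarith
  have hsum : 0 ≤ W t + W s := add_nonneg (W_nonneg t) (W_nonneg s)
  have h5 : (W t - W s) * (W t + W s) ≤ (t - s) * (W t + W s) :=
    mul_le_mul_of_nonneg_right hlt.le hsum
  have h6 : (t - s) * (W t + W s) ≤ (t - s) * (2 * (t + s)) :=
    mul_le_mul_of_nonneg_left (by linarith) hts.le
  have h7 : 0 < (t - s) * (t + s) := mul_pos hts (by linarith)
  nlinarith

lemma pp_mono {s t : ℝ} (hs : 0 ≤ s) (hst : s ≤ t) (ht : t ≤ 1) : pp s ≤ pp t := by
  have := W_mono_aux hs hst ht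
  rw [pp, pp]; linarith

lemma rr_mono {s t : ℝ} (hs : 0 ≤ s) (hst : s ≤ t) (ht : t ≤ 1) : rr s ≤ rr t := by
  have := W_mono_aux hs hst ht
  rw [rr, rr]; linarith

lemma W_zero : W 0 = 0 := by
  have := W_le 0
  rw [abs_zero, mul_zero] at this
  exact le_antisymm this (W_nonneg 0)

lemma conf_zero : conf (pp 0) (rr 0) = p0 := by
  have h1 : pp 0 = 0 := by rw [pp, W_zero]; simp
  have h2 : rr 0 = 0 := by rw [rr, W_zero]; simp
  rw [h1, h2]
  ext i j
  fin_cases i <;> fin_cases j <;> simp [conf, p0] <;> norm_num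

/-- the path of configurations -/
noncomputable def S (s : ℝ) : Cfg G4 p0 := ⟨conf (pp s) (rr s), conf_edges (rel s)⟩

lemma continuous_S : Continuous S := by
  apply Continuous.subtype_mk
  apply continuous_pi
  have hW := continuous_W
  have hpp : Continuous pp := by unfold pp; fun_prop
  have hrr : Continuous rr := by unfold rr; fun_prop
  have h1 : ∀ s, (1 + pp s ^ 2) ≠ 0 := fun s => by positivity
  have h2 : ∀ s, (1 + rr s ^ 2) ≠ 0 := fun s => by positivity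
  intro i
  fin_cases i
  · exact continuous_const
  · exact continuous_const
  · show Continuous fun s => (!₂[1 - 5 * (1 - rr s ^ 2) / (1 + rr s ^ 2),
      -(10 * rr s) / (1 + rr s ^ 2)] : E2)
    apply continuous_vec
    · exact continuous_const.sub (Continuous.div (by fun_prop) (by fun_prop) h2)
    · exact Continuous.div (by fun_prop) (by fun_prop) h2
  · show Continuous fun s => (!₂[-1 + 5 * (1 - pp s ^ 2) / (1 + pp s ^ 2),
      (10 * pp s) / (1 + pp s ^ 2)] : E2)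
    apply continuous_vec
    · exact continuous_const.add (Continuous.div (by fun_prop) (by fun_prop) h1)
    · exact Continuous.div (by fun_prop) (by fun_prop) h1

end Pool.Agent.H3.Expansive
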