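import Mathlib
import Pool.Agent.H3.ExpansiveDefs
import Pool.Agent.H3.Expansive
import Pool.Agent.H3.Congr

set_option autoImplicit false

namespace Pool.Agent.H3.Expansive

open Topology

/-! ### invariants -/

noncomputable def D1 : ConfigSpace G4 p0 → ℝ :=
  Quotient.lift (fun q : Cfg G4 p0 => dist (q.1 0) (q.1 2)) (by
    rintro q q' ⟨T, hT⟩
    show dist (q.1 0) (q.1 2) = dist (q'.1 0) (q'.1 2)
    rw [hT, hT, T.isometry.dist_eq])

noncomputable def D2 : ConfigSpace G4 p0 → ℝ :=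
  Quotient.lift (fun q : Cfg G4 p0 => dist (q.1 1) (q.1 3)) (by
    rintro q q' ⟨T, hT⟩
    show dist (q.1 1) (q.1 3) = dist (q'.1 1) (q'.1 3)
    rw [hT, hT, T.isometry.dist_eq])

lemma continuous_D1 : Continuous D1 := by
  apply Continuous.quotient_lift
  exact ((continuous_apply 0).comp continuous_subtype_val).dist
    ((continuous_apply 2).comp continuous_subtype_val)

lemma continuous_D2 : Continuous D2 := by
  apply Continuous.quotient_lift
  exact ((continuous_apply 1).comp continuous_subtype_val).dist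
    ((continuous_apply 3).comp continuous_subtype_val)

noncomputable def rho (x : ℝ) : ℝ := Real.sqrt ((min (x ^ 2) 29 - 9) / (49 - min (x ^ 2) 29))

lemma continuous_rho : Continuous rho := by
  unfold rho
  apply Real.continuous_sqrt.comp
  apply Continuous.div (by fun_prop) (by fun_prop)
  intro x
  have := min_le_right (x ^ 2) 29
  linarith

noncomputable def gg (x : ConfigSpace G4 p0) : ℝ := rho (D1 x) - rho (D2 x)

lemma continuous_gg : Continuous gg :=
  (continuous_rho.comp continuous_D1).sub (continuous_rho.comp continuous_D2)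

def UU : Set (ConfigSpace G4 p0) := {x | D1 x ^ 2 < 29 ∧ D2 x ^ 2 < 29 ∧ |gg x| < 1 / 2}

lemma isOpen_UU : IsOpen UU := by
  have h1 : IsOpen {x : ConfigSpace G4 p0 | D1 x ^ 2 < 29} :=
    isOpen_lt (continuous_D1.pow 2) continuous_const
  have h2 : IsOpen {x : ConfigSpace G4 p0 | D2 x ^ 2 < 29} :=
    isOpen_lt (continuous_D2.pow 2) continuous_const
  have h3 : IsOpen {x : ConfigSpace G4 p0 | |gg x| < 1 / 2} :=
    isOpen_lt continuous_gg.abs continuous_const
  exact h1.inter (h2.inter h3)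

/-- Cayley-Menger relation between the two diagonals. -/
lemma gram (a b c d : E2) (X Y : ℝ) (h1 : dist a b = 2) (h2 : dist b c = 5) (h3 : dist c d = 8)
    (h4 : dist d a = 5) (hX : dist a c ^ 2 = X) (hY : dist b d ^ 2 = Y) :
    (3 * (X - 9) * (49 - Y) + 3 * (Y - 9) * (49 - X) - 4 * (X - 9) * (Y - 9)) ^ 2 =
      100 * (X - 9) * (Y - 9) * (49 - X) * (49 - Y) := by
  have e1 := dist_sq a b
  have e2 := dist_sq b c
  have e3 := dist_sq c d
  have e4 := dist_sq d a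
  have e5 := dist_sq a c
  have e6 := dist_sq b d
  rw [h1] at e1
  rw [h2] at e2
  rw [h3] at e3
  rw [h4] at e4
  rw [hX] at e5
  rw [hY] at e6
  obtain ⟨u0, hu0⟩ : ∃ t, t = b 0 - a 0 := ⟨_, rfl⟩
  obtain ⟨u1, hu1⟩ : ∃ t, t = b 1 - a 1 := ⟨_, rfl⟩
  obtain ⟨v0, hv0⟩ : ∃ t, t = c 0 - a 0 := ⟨_, rfl⟩
  obtain ⟨v1, hv1⟩ : ∃ t, t = c 1 - a 1 := ⟨_, rfl⟩
  obtain ⟨w0, hw0⟩ : ∃ t, t = d 0 - a 0 := ⟨_, rfl⟩
  obtain ⟨w1, hw1⟩ : ∃ t, t = d 1 - a 1 := ⟨_, rfl⟩
  have uu : (4:ℝ) = u0 * u0 + u1 * u1 := by rw [hu0, hu1]; linear_combination e1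
  have vv : X = v0 * v0 + v1 * v1 := by rw [hv0, hv1]; linear_combination e5
  have ww : (25:ℝ) = w0 * w0 + w1 * w1 := by rw [hw0, hw1]; linear_combination e4
  have uv : (X - 21) / 2 = u0 * v0 + u1 * v1 := by
    rw [hu0, hu1, hv0, hv1]; linear_combination (e5 + e1 - e2) / 2
  have vw : (X - 39) / 2 = v0 * w0 + v1 * w1 := by
    rw [hw0, hw1, hv0, hv1]; linear_combination (e5 + e4 - e3) / 2
  have uw : (29 - Y) / 2 = u0 * w0 + u1 * w1 := by
    rw [hu0, hu1, hw0, hw1]; linear_combination (e1 + e4 - e6) / 2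
  have hG : 4 * (X * 25 - ((X - 39) / 2) * ((X - 39) / 2)) -
      ((X - 21) / 2) * (((X - 21) / 2) * 25 - ((X - 39) / 2) * ((29 - Y) / 2)) +
      ((29 - Y) / 2) * (((X - 21) / 2) * ((X - 39) / 2) - X * ((29 - Y) / 2)) = 0 := by
    rw [uv, vw, uw, uu, vv, ww]
    ring
  linear_combination (-6400) * hG

lemma solve {X Y : ℝ} (hX9 : 9 ≤ X) (hX29 : X < 29) (hY9 : 9 ≤ Y) (hY29 : Y < 29)
    (h : (3 * (X - 9) * (49 - Y) + 3 * (Y - 9) * (49 - X) - 4 * (X - 9) * (Y - 9)) ^ 2 =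
      100 * (X - 9) * (Y - 9) * (49 - X) * (49 - Y)) (r p : ℝ)
    (hr : r = Real.sqrt ((X - 9) / (49 - X))) (hp : p = Real.sqrt ((Y - 9) / (49 - Y))) :
    pp (r - p) = p ∧ rr (r - p) = r ∧ X = (9 + 49 * r ^ 2) / (1 + r ^ 2) ∧
      Y = (9 + 49 * p ^ 2) / (1 + p ^ 2) := by
  have hr0 : 0 ≤ r := hr ▸ Real.sqrt_nonneg _
  have hp0 : 0 ≤ p := hp ▸ Real.sqrt_nonneg _
  have hrs : r ^ 2 = (X - 9) / (49 - X) := by
    rw [hr]; exact Real.sq_sqrt (div_nonneg (by linarith) (by linarith))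
  have hps : p ^ 2 = (Y - 9) / (49 - Y) := by
    rw [hp]; exact Real.sq_sqrt (div_nonneg (by linarith) (by linarith))
  have hXn : (49 - X) ≠ 0 := by linarith
  have hYn : (49 - Y) ≠ 0 := by linarith
  have hrX : r ^ 2 * (49 - X) = X - 9 := by rw [hrs]; field_simp
  have hpY : p ^ 2 * (49 - Y) = Y - 9 := by rw [hps]; field_simp
  have hX' : X = (9 + 49 * r ^ 2) / (1 + r ^ 2) := by
    rw [eq_div_iff (by positivity)]; linear_combination -hrX
  have hY' : Y = (9 + 49 * p ^ 2) / (1 + p ^ 2) := by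
    rw [eq_div_iff (by positivity)]; linear_combination -hpY
  have hr1 : r < 1 := by
    by_contra hge
    push Not at hge
    have : 1 ≤ r ^ 2 := by nlinarith
    nlinarith
  have hp1 : p < 1 := by
    by_contra hge
    push Not at hge
    have : 1 ≤ p ^ 2 := by nlinarith
    nlinarith
  have hmul : 0 < (49 - X) * (49 - Y) := mul_pos (by linarith) (by linarith)
  have hrel2 : (3 * p ^ 2 + 3 * r ^ 2 - 4 * p ^ 2 * r ^ 2) ^ 2 = (10 * p * r) ^ 2 := by
    have h1 : (3 * p ^ 2 + 3 * r ^ 2 - 4 * p ^ 2 * r ^ 2) ^ 2 * ((49 - X) * (49 - Y)) ^ 2 =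
        (10 * p * r) ^ 2 * ((49 - X) * (49 - Y)) ^ 2 := by
      rw [← hrX, ← hpY] at h
      linear_combination h
    exact mul_right_cancel₀ (by positivity) h1
  have hrel : 3 * p ^ 2 + 3 * r ^ 2 - 4 * p ^ 2 * r ^ 2 = 10 * p * r := by
    rcases sq_eq_sq_iff_eq_or_eq_neg.1 hrel2 with h1 | h1
    · exact h1
    · have hpr : 0 ≤ p * r := mul_nonneg hp0 hr0
      have hpr1 : p * r ≤ 1 := by nlinarith
      have h2 : (p * r) * (p * r) ≤ 1 * (p * r) := mul_le_mul_of_nonneg_right hpr1 hpr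
      have h3 : p ^ 2 + r ^ 2 ≤ 0 := by nlinarith
      have hp2 : p = 0 := by nlinarith [sq_nonneg p, sq_nonneg r]
      have hr2 : r = 0 := by nlinarith [sq_nonneg p, sq_nonneg r]
      rw [hp2, hr2]; ring
  have hQ : Q (r - p) = 1 + 2 * (p * r) := by
    rw [Q]
    rw [show 1 + 3 * (r - p) ^ 2 = (1 + 2 * (p * r)) ^ 2 by linear_combination hrel]
    exact Real.sqrt_sq (by nlinarith [mul_nonneg hp0 hr0])
  have hW : W (r - p) = r + p := by
    rw [W, hQ, show (r - p) ^ 2 - 2 + 2 * (1 + 2 * (p * r)) = (r + p) ^ 2 by ring]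
    exact Real.sqrt_sq (by linarith)
  refine ⟨?_, ?_, hX', hY'⟩
  · rw [pp, hW]; ring
  · rw [rr, hW]; ring

lemma rho_of {x r : ℝ} (hr0 : 0 ≤ r) (hr1 : r < 1) (h : x ^ 2 = (9 + 49 * r ^ 2) / (1 + r ^ 2)) :
    x ^ 2 < 29 ∧ rho x = r := by
  have hlt : x ^ 2 < 29 := by
    rw [h, div_lt_iff₀ (by positivity)]; nlinarith
  refine ⟨hlt, ?_⟩
  rw [rho, min_eq_left hlt.le, h]
  have : ((9 + 49 * r ^ 2) / (1 + r ^ 2) - 9) / (49 - (9 + 49 * r ^ 2) / (1 + r ^ 2)) = r ^ 2 := by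
    have hr : (1 + r ^ 2) ≠ 0 := by positivity
    have e1 : (9 + 49 * r ^ 2) / (1 + r ^ 2) - 9 = 40 * r ^ 2 / (1 + r ^ 2) := by
      field_simp; ring
    have e2 : 49 - (9 + 49 * r ^ 2) / (1 + r ^ 2) = 40 / (1 + r ^ 2) := by
      field_simp; ring
    rw [e1, e2]
    field_simp
  rw [this, Real.sqrt_sq hr0]

lemma W_lt {s : ℝ} (hs : |s| < 1 / 2) : W s < 1 := by
  have := W_le s
  linarith

lemma pp_lt {s : ℝ} (hs : |s| < 1 / 2) : pp s < 1 := by
  have := W_lt hs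
  have := neg_abs_le s
  rw [pp]; linarith

lemma rr_lt {s : ℝ} (hs : |s| < 1 / 2) : rr s < 1 := by
  have := W_lt hs
  have := le_abs_self s
  rw [rr]; linarith

lemma D1_S (s : ℝ) : D1 (cls (S s)) ^ 2 = (9 + 49 * rr s ^ 2) / (1 + rr s ^ 2) :=
  conf_D1 (pp s) (rr s)

lemma S_D1 (s : ℝ) : dist ((S s).1 0) ((S s).1 2) ^ 2 = (9 + 49 * rr s ^ 2) / (1 + rr s ^ 2) :=
  conf_D1 (pp s) (rr s)

lemma S_D2 (s : ℝ) : dist ((S s).1 1) ((S s).1 3) ^ 2 = (9 + 49 * pp s ^ 2) / (1 + pp s ^ 2) :=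
  conf_D2 (pp s) (rr s)

lemma D2_S (s : ℝ) : D2 (cls (S s)) ^ 2 = (9 + 49 * pp s ^ 2) / (1 + pp s ^ 2) :=
  conf_D2 (pp s) (rr s)

lemma gg_S {s : ℝ} (hs : |s| < 1 / 2) : gg (cls (S s)) = s := by
  rw [gg, (rho_of (rr_nonneg s) (rr_lt hs) (D1_S s)).2, (rho_of (pp_nonneg s) (pp_lt hs) (D2_S s)).2,
    pp, rr]
  ring

lemma S_mem {s : ℝ} (hs : |s| < 1 / 2) : cls (S s) ∈ UU :=
  ⟨(rho_of (rr_nonneg s) (rr_lt hs) (D1_S s)).1, (rho_of (pp_nonneg s) (pp_lt hs) (D2_S s)).1, by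
    rw [gg_S hs]; exact hs⟩

lemma eq_S_of_mem {x : ConfigSpace G4 p0} (hx : x ∈ UU) : cls (S (gg x)) = x := by
  induction x using Quotient.inductionOn with
  | h q =>
  obtain ⟨h1, h2, h3⟩ := hx
  have hed := (edges q.1).1 q.2
  obtain ⟨e1, e2, e3, e4⟩ := hed
  have hD1 : D1 (Quotient.mk (cfgSetoid G4 p0) q) = dist (q.1 0) (q.1 2) := rfl
  have hD2 : D2 (Quotient.mk (cfgSetoid G4 p0) q) = dist (q.1 1) (q.1 3) := rfl
  have hd1 : 3 ≤ dist (q.1 0) (q.1 2) := by
    have := dist_triangle (q.1 1) (q.1 0) (q.1 2)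
    rw [e2, dist_comm (q.1 1) (q.1 0), e1] at this
    linarith
  have hd2 : 3 ≤ dist (q.1 1) (q.1 3) := by
    have := dist_triangle (q.1 0) (q.1 1) (q.1 3)
    rw [dist_comm (q.1 0) (q.1 3), e4, e1] at this
    linarith
  rw [hD1] at h1
  rw [hD2] at h2
  have hX9 : 9 ≤ dist (q.1 0) (q.1 2) ^ 2 := by nlinarith
  have hY9 : 9 ≤ dist (q.1 1) (q.1 3) ^ 2 := by nlinarith
  have hgr := gram (q.1 0) (q.1 1) (q.1 2) (q.1 3) _ _ e1 e2 e3 e4 rfl rfl
  obtain ⟨s1, s2, s3, s4⟩ := solve hX9 h1 hY9 h2 hgr _ _ rfl rfl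
  have hgg : gg (Quotient.mk (cfgSetoid G4 p0) q) =
      Real.sqrt ((dist (q.1 0) (q.1 2) ^ 2 - 9) / (49 - dist (q.1 0) (q.1 2) ^ 2)) -
      Real.sqrt ((dist (q.1 1) (q.1 3) ^ 2 - 9) / (49 - dist (q.1 1) (q.1 3) ^ 2)) := by
    show rho (dist (q.1 0) (q.1 2)) - rho (dist (q.1 1) (q.1 3)) = _
    rw [rho, rho, min_eq_left h1.le, min_eq_left h2.le]
  rw [← hgg] at s1 s2
  set s := gg (Quotient.mk (cfgSetoid G4 p0) q) with hs
  apply Quotient.sound
  obtain ⟨T, hT⟩ := Pool.Agent.H3.Congr.exists_isometry (0 : Fin 4) (S s).1 q.1 (by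
    intro i j
    by_cases hadj : G4.Adj i j
    · rw [(S s).2 i j hadj, q.2 i j hadj]
    · have hcases : i = j ∨ (i = 0 ∧ j = 2) ∨ (i = 2 ∧ j = 0) ∨ (i = 1 ∧ j = 3) ∨
          (i = 3 ∧ j = 1) := by
        revert i j; decide
      have hc1 : dist ((S s).1 0) ((S s).1 2) = dist (q.1 0) (q.1 2) := by
        refine (pow_left_inj₀ dist_nonneg dist_nonneg two_ne_zero).1 ?_
        have := conf_D1 (pp s) (rr s)
        rw [show (S s).1 = conf (pp s) (rr s) from rfl, this, s2, ← s3]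
      have hc2 : dist ((S s).1 1) ((S s).1 3) = dist (q.1 1) (q.1 3) := by
        refine (pow_left_inj₀ dist_nonneg dist_nonneg two_ne_zero).1 ?_
        have := conf_D2 (pp s) (rr s)
        rw [show (S s).1 = conf (pp s) (rr s) from rfl, this, s1, ← s4]
      rcases hcases with rfl | ⟨rfl, rfl⟩ | ⟨rfl, rfl⟩ | ⟨rfl, rfl⟩ | ⟨rfl, rfl⟩
      · rw [dist_self, dist_self]
      · exact hc1
      · rw [dist_comm, hc1, dist_comm]
      · exact hc2
      · rw [dist_comm, hc2, dist_comm])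
  exact ⟨T, hT⟩

/-! ### the chart -/

lemma base_eq : S 0 = base G4 p0 := Subtype.ext conf_zero

lemma continuous_clsS : Continuous fun s => cls (S s) :=
  continuous_quotient_mk'.comp continuous_S

lemma embedding_gg : IsEmbedding (fun x : UU => gg x) := by
  have h : IsEmbedding ((fun s => cls (S s)) ∘ fun x : UU => gg x) := by
    have : ((fun s => cls (S s)) ∘ fun x : UU => gg x) = Subtype.val := by
      funext x
      exact eq_S_of_mem x.2
    rw [this]
    exact IsEmbedding.subtypeVal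
  exact IsEmbedding.of_comp (continuous_gg.comp continuous_subtype_val) continuous_clsS h

lemma image_gg : gg '' UU = Set.Ioo (-(1/2) : ℝ) (1/2) := by
  ext s
  constructor
  · rintro ⟨x, hx, rfl⟩
    exact abs_lt.1 hx.2.2
  · intro hs
    exact ⟨cls (S s), S_mem (abs_lt.2 hs), gg_S (abs_lt.2 hs)⟩

noncomputable def chart : Chart G4 p0 where
  U := UU
  isOpen := isOpen_UU
  mem := by rw [← base_eq]; exact S_mem (by norm_num)
  φ := gg
  a := -(1/2)
  b := 1/2
  emb := embedding_gg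
  img := image_gg

/-! ### the expansive motion -/

noncomputable def PP : unitInterval → Cfg G4 p0 := fun t => S (t.1 / 4)

lemma t_abs (t : unitInterval) : |t.1 / 4| < 1 / 2 := by
  have h1 := t.2.1
  have h2 := t.2.2
  rw [abs_lt]; constructor <;> linarith

lemma frac_mono {x y : ℝ} (hx : 0 ≤ x) (hxy : x ≤ y) :
    (9 + 49 * x ^ 2) / (1 + x ^ 2) ≤ (9 + 49 * y ^ 2) / (1 + y ^ 2) := by
  rw [div_le_div_iff₀ (by positivity) (by positivity)]
  nlinarith

lemma expansive : IsExpansiveMotion chart PP where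
  cont := continuous_S.comp (continuous_subtype_val.div_const 4)
  start := by
    show S (((0 : unitInterval) : ℝ) / 4) = _
    rw [Set.Icc.coe_zero, zero_div, base_eq]
  mono := by
    intro i j t t' htt
    show dist ((S (t.1 / 4)).1 i) ((S (t.1 / 4)).1 j) ≤
      dist ((S (t'.1 / 4)).1 i) ((S (t'.1 / 4)).1 j)
    have ht0 := t.2.1
    have ht1 := t'.2.2
    have htt' : t.1 ≤ t'.1 := htt
    have hs0 : 0 ≤ t.1 / 4 := by linarith
    have hss : t.1 / 4 ≤ t'.1 / 4 := by linarith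
    have hs1 : t'.1 / 4 ≤ 1 := by linarith
    by_cases hadj : G4.Adj i j
    · rw [(S (t.1 / 4)).2 i j hadj, (S (t'.1 / 4)).2 i j hadj]
    · have hcases : i = j ∨ (i = 0 ∧ j = 2) ∨ (i = 2 ∧ j = 0) ∨ (i = 1 ∧ j = 3) ∨
          (i = 3 ∧ j = 1) := by
        revert i j; decide
      have hc1 : dist ((S (t.1 / 4)).1 0) ((S (t.1 / 4)).1 2) ≤
          dist ((S (t'.1 / 4)).1 0) ((S (t'.1 / 4)).1 2) := by
        refine (pow_le_pow_iff_left₀ dist_nonneg dist_nonneg two_ne_zero).1 ?_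
        rw [S_D1, S_D1]
        exact frac_mono (rr_nonneg _) (rr_mono hs0 hss hs1)
      have hc2 : dist ((S (t.1 / 4)).1 1) ((S (t.1 / 4)).1 3) ≤
          dist ((S (t'.1 / 4)).1 1) ((S (t'.1 / 4)).1 3) := by
        refine (pow_le_pow_iff_left₀ dist_nonneg dist_nonneg two_ne_zero).1 ?_
        rw [S_D2, S_D2]
        exact frac_mono (pp_nonneg _) (pp_mono hs0 hss hs1)
      rcases hcases with rfl | ⟨rfl, rfl⟩ | ⟨rfl, rfl⟩ | ⟨rfl, rfl⟩ | ⟨rfl, rfl⟩
      · rw [dist_self, dist_self]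
      · exact hc1
      · rw [dist_comm, dist_comm ((S (t'.1 / 4)).1 2)]; exact hc1
      · exact hc2
      · rw [dist_comm, dist_comm ((S (t'.1 / 4)).1 3)]; exact hc2
  nonconst := by
    refine ⟨0, 2, 1, ?_⟩
    intro h
    have h1 : dist ((S (1 / 4)).1 0) ((S (1 / 4)).1 2) = dist (p0 0) (p0 2) := h
    have h2 := conf_D1 (pp (1 / 4)) (rr (1 / 4))
    have h3 : dist (conf (pp (1 / 4)) (rr (1 / 4)) 0) (conf (pp (1 / 4)) (rr (1 / 4)) 2) =
      dist (p0 0) (p0 2) := h1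
    have h4 := conf_D1 (pp 0) (rr 0)
    rw [conf_zero] at h4
    rw [h3, h4] at h2
    have hr0 : rr 0 = 0 := by rw [rr, W_zero]; simp
    have hr1 : 1 / 4 ≤ rr (1 / 4) := by
      have := abs_le_W (1 / 4)
      rw [abs_of_pos (by norm_num)] at this
      rw [rr]; linarith
    rw [hr0] at h2
    rw [div_eq_div_iff (by positivity) (by positivity)] at h2
    nlinarith
  inj := by
    intro t t' h
    have h1 : cls (S (t.1 / 4)) = cls (S (t'.1 / 4)) := h
    have h2 := congrArg gg h1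
    rw [gg_S (t_abs t), gg_S (t_abs t')] at h2
    apply Subtype.ext
    linarith
  half := by
    left
    intro t ht
    refine ⟨S_mem (t_abs t), ?_⟩
    show gg (cls (base G4 p0)) < gg (cls (S (t.1 / 4)))
    rw [← base_eq, gg_S (by norm_num), gg_S (t_abs t)]
    have h1 : t.1 ≠ 0 := fun h => ht (Subtype.ext h)
    have h2 : 0 < t.1 := lt_of_le_of_ne t.2.1 (Ne.symm h1)
    linarith

/-! ### the symmetry -/

noncomputable def refl : E2 ≃ᵢ E2 :=
  IsometryEquiv.mk' (fun v => !₂[-(v 0), v 1]) (fun v => !₂[-(v 0), v 1])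
    (by intro v; ext i; fin_cases i <;> simp)
    (by
      apply Isometry.of_dist_eq
      intro u v
      refine dist_eq_of_sq dist_nonneg ?_
      rw [dist_sq]
      simp
      ring)

lemma refl_apply (v : E2) : refl v = !₂[-(v 0), v 1] := rfl

lemma refl_mul_refl : refl * refl = 1 := by
  ext v i
  show refl (refl v) i = v i
  rw [refl_apply, refl_apply]
  fin_cases i <;> simp

lemma refl_ne_one : refl ≠ 1 := by
  intro h
  have h1 : refl !₂[1, 0] = (!₂[1, 0] : E2) := by rw [h]; rfl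
  rw [refl_apply] at h1
  have h2 := congrArg (fun v : E2 => v 0) h1
  simp at h2
  linarith

def Gam : Subgroup (E2 ≃ᵢ E2) where
  carrier := {1, refl}
  mul_mem' := by
    rintro a b (rfl | rfl) (rfl | rfl)
    · left; rw [mul_one]
    · right; rw [one_mul]; rfl
    · right; rw [mul_one]; rfl
    · left; exact refl_mul_refl
  one_mem' := by left; rfl
  inv_mem' := by
    rintro a (rfl | rfl)
    · left; rw [inv_one]
    · right; exact inv_eq_of_mul_eq_one_right refl_mul_refl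

/-- the graph automorphism `i ↦ 1 - i`. -/
def sig : G4 ≃g G4 where
  toFun i := 1 - i
  invFun i := 1 - i
  left_inv := by intro i; simp
  right_inv := by intro i; simp
  map_rel_iff' := by
    intro a b
    revert a b
    decide

lemma sig_mul_sig : sig * sig = 1 := by
  ext i
  show ((1 - (1 - i) : Fin 4) : ℕ) = i
  rw [sub_sub_cancel]

open Classical in
noncomputable def thet : Gam →* (G4 ≃g G4) where
  toFun γ := if γ.1 = 1 then 1 else sig
  map_one' := by simp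
  map_mul' := by
    rintro ⟨a, (rfl | rfl)⟩ ⟨b, (rfl | rfl)⟩
    · simp
    · simp [refl_ne_one]
    · simp [refl_ne_one]
    · simp [refl_ne_one, refl_mul_refl, sig_mul_sig]

open Classical in
lemma thet_refl (h : refl ∈ Gam) : thet ⟨refl, h⟩ = sig := by
  show (if refl = 1 then 1 else sig) = sig
  rw [if_neg refl_ne_one]

lemma symm_p0 : IsSymmetric Gam thet p0 := by
  rintro ⟨a, (rfl | rfl)⟩ i
  · show p0 i = p0 (thet 1 i)
    rw [map_one]
    rfl
  · rw [show (thet ⟨refl, Or.inr rfl⟩) = sig from thet_refl _]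
    show refl (p0 i) = p0 (1 - i)
    rw [refl_apply]
    fin_cases i
    · ext j; fin_cases j <;> simp [p0]
    · ext j; fin_cases j <;> simp [p0]
    · ext j; fin_cases j <;> simp [p0]
    · ext j; fin_cases j <;> simp [p0]

lemma not_symm {t : unitInterval} (ht : t ≠ 0) (T : E2 ≃ᵢ E2) :
    ¬ IsSymmetric Gam thet (fun i => T ((PP t).1 i)) := by
  intro h
  have h0 := h ⟨refl, Or.inr rfl⟩ 0
  have h2 := h ⟨refl, Or.inr rfl⟩ 2
  rw [show (thet ⟨refl, Or.inr rfl⟩) = sig from thet_refl _] at h0 h2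
  have h0' : refl (T ((PP t).1 0)) = T ((PP t).1 1) := h0
  have h2' : refl (T ((PP t).1 2)) = T ((PP t).1 3) := h2
  have h3 : dist ((PP t).1 1) ((PP t).1 3) = dist ((PP t).1 0) ((PP t).1 2) := by
    rw [← T.isometry.dist_eq, ← h0', ← h2', refl.isometry.dist_eq, T.isometry.dist_eq]
  have h4 : D2 (cls (S (t.1 / 4))) = D1 (cls (S (t.1 / 4))) := h3
  have h5 := gg_S (t_abs t)
  rw [gg, h4, sub_self] at h5
  apply ht
  apply Subtype.ext
  show t.1 = 0
  linarith

theorem main : HasCounterexample (EuclideanSpace ℝ (Fin 2)) 4 := by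
  refine ⟨G4, p0, Gam, thet, ?_, ?_, symm_p0, chart, PP, expansive, fun t ht T => not_symm ht T, ?_⟩
  · have : (({1, refl} : Set (E2 ≃ᵢ E2))).Finite := Set.toFinite _
    exact this.to_subtype
  · intro i j hij
    have h1 := congrArg (fun v : E2 => v 0) hij
    fin_cases i <;> fin_cases j <;> first | rfl | (exfalso; simp [p0] at h1; done) |
      (exfalso; simp [p0] at h1; norm_num at h1)
  · rintro ⟨T, _, _, hT⟩
    exact not_symm (t := 1) (by norm_num) (T 1) (hT 1)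

end Pool.Agent.H3.Expansive
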