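import Mathlib

set_option autoImplicit false

namespace Pool.Agent.H3.FriedSq

open MeasureTheory

/-- the open square -/
def Sq : Set ℂ := {z : ℂ | |z.re| < 1 ∧ |z.im| < 1}

lemma Sq_eq : Sq = Complex.measurableEquivRealProd ⁻¹' (Set.Ioo (-1 : ℝ) 1 ×ˢ Set.Ioo (-1 : ℝ) 1) := by
  ext z
  simp only [Sq, Set.mem_preimage, Set.mem_prod, Set.mem_Ioo, Complex.measurableEquivRealProd_apply]
  constructor
  · rintro ⟨h1, h2⟩; exact ⟨abs_lt.1 h1, abs_lt.1 h2⟩
  · rintro ⟨h1, h2⟩; exact ⟨abs_lt.2 h1, abs_lt.2 h2⟩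

lemma int_pow (a : ℕ) : ∫ x in Set.Ioo (-1 : ℝ) 1, x ^ a = (1 - (-1) ^ (a + 1)) / (a + 1) := by
  rw [← integral_Ioc_eq_integral_Ioo, ← intervalIntegral.integral_of_le (by norm_num), integral_pow]
  simp

lemma integrableOn_mono (a b : ℕ) : IntegrableOn (fun z : ℂ => z.re ^ a * z.im ^ b) Sq := by
  have hsub : Sq ⊆ Metric.closedBall 0 2 := by
    intro z hz
    have h1 := Complex.norm_le_abs_re_add_abs_im z
    have h2 := hz.1
    have h3 := hz.2
    simp only [Metric.mem_closedBall, dist_zero_right]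
    linarith
  have hc : Continuous (fun z : ℂ => z.re ^ a * z.im ^ b) :=
    (Complex.continuous_re.pow a).mul (Complex.continuous_im.pow b)
  exact (hc.continuousOn.integrableOn_compact (isCompact_closedBall 0 2)).mono_set hsub

lemma int_mono (a b : ℕ) : ∫ z in Sq, z.re ^ a * z.im ^ b =
    ((1 - (-1) ^ (a + 1)) / (a + 1)) * ((1 - (-1) ^ (b + 1)) / (b + 1)) := by
  rw [Sq_eq]
  have h := Complex.volume_preserving_equiv_real_prod.setIntegral_preimage_emb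
    Complex.measurableEquivRealProd.measurableEmbedding
    (fun p : ℝ × ℝ => p.1 ^ a * p.2 ^ b) (Set.Ioo (-1 : ℝ) 1 ×ˢ Set.Ioo (-1 : ℝ) 1)
  have e : (fun z : ℂ => z.re ^ a * z.im ^ b) =
      fun z => (fun p : ℝ × ℝ => p.1 ^ a * p.2 ^ b) (Complex.measurableEquivRealProd z) := by
    funext z; simp [Complex.measurableEquivRealProd_apply]
  rw [e, h, Measure.volume_eq_prod, setIntegral_prod_mul (fun x : ℝ => x ^ a) (fun y : ℝ => y ^ b),
    int_pow, int_pow]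

lemma int_poly (n : ℕ) (c : Fin n → ℝ) (a b : Fin n → ℕ) (F : ℂ → ℝ)
    (hF : ∀ z, F z = ∑ i, c i * (z.re ^ a i * z.im ^ b i)) :
    IntegrableOn F Sq ∧ ∫ z in Sq, F z = ∑ i, c i *
      (((1 - (-1) ^ (a i + 1)) / (a i + 1)) * ((1 - (-1) ^ (b i + 1)) / (b i + 1))) := by
  have e : F = fun z => ∑ i, c i * (z.re ^ a i * z.im ^ b i) := funext hF
  have hint : ∀ i, IntegrableOn (fun z : ℂ => c i * (z.re ^ a i * z.im ^ b i)) Sq := fun i =>
    (integrableOn_mono (a i) (b i)).const_mul (c i)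
  constructor
  · rw [e]
    exact integrable_finset_sum _ (fun i _ => hint i)
  · rw [e, integral_finset_sum _ (fun i _ => hint i)]
    refine Finset.sum_congr rfl (fun i _ => ?_)
    rw [integral_const_mul, int_mono]

noncomputable def w (z : ℂ) : ℂ := -Complex.I * (z ^ 2 - (1 / 10 : ℝ) * z ^ 6)

lemma w_re (z : ℂ) : (w z).re = 2 * z.re * z.im - 1 / 10 * (6 * z.re ^ 5 * z.im
    - 20 * z.re ^ 3 * z.im ^ 3 + 6 * z.re * z.im ^ 5) := by
  unfold w
  obtain ⟨x, y⟩ := z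
  simp only [pow_succ, pow_zero, one_mul, Complex.mul_re, Complex.mul_im, Complex.sub_re,
    Complex.sub_im, Complex.neg_re, Complex.neg_im, Complex.I_re, Complex.I_im, Complex.ofReal_re,
    Complex.ofReal_im]
  ring

lemma w_im (z : ℂ) : (w z).im = -(z.re ^ 2 - z.im ^ 2) + 1 / 10 * (z.re ^ 6
    - 15 * z.re ^ 4 * z.im ^ 2 + 15 * z.re ^ 2 * z.im ^ 4 - z.im ^ 6) := by
  unfold w
  obtain ⟨x, y⟩ := z
  simp only [pow_succ, pow_zero, one_mul, Complex.mul_re, Complex.mul_im, Complex.sub_re,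
    Complex.sub_im, Complex.neg_re, Complex.neg_im, Complex.I_re, Complex.I_im, Complex.ofReal_re,
    Complex.ofReal_im]
  ring

lemma f1 : IntegrableOn (fun z => (w z).re) Sq ∧ ∫ z in Sq, (w z).re = 0 := by
  have h := int_poly 4 ![2 / 1, -3 / 5, 2 / 1, -3 / 5] ![1, 1, 3, 5] ![1, 5, 3, 1]
    (fun z => (w z).re) (by
      intro z
      rw [w_re]
      simp only [Fin.sum_univ_succ, Matrix.cons_val_zero, Matrix.cons_val_succ, Finset.univ_eq_empty,
        Finset.sum_empty, Fin.sum_univ_zero]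
      ring)
  refine ⟨h.1, h.2.trans ?_⟩
  simp only [Fin.sum_univ_succ, Matrix.cons_val_zero, Matrix.cons_val_succ, Fin.sum_univ_zero]
  norm_num

lemma f2 : IntegrableOn (fun z => (w z).re ^ 2) Sq ∧ ∫ z in Sq, (w z).re ^ 2 = 53104 / 24255 := by
  have h := int_poly 9 ![4 / 1, -12 / 5, 9 / 25, 8 / 1, -12 / 5, -12 / 5, 118 / 25, -12 / 5, 9 / 25]
    ![2, 2, 2, 4, 4, 6, 6, 8, 10] ![2, 6, 10, 4, 8, 2, 6, 4, 2]
    (fun z => (w z).re ^ 2) (by
      intro z
      rw [w_re]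
      simp only [Fin.sum_univ_succ, Matrix.cons_val_zero, Matrix.cons_val_succ, Fin.sum_univ_zero]
      ring)
  refine ⟨h.1, h.2.trans ?_⟩
  simp only [Fin.sum_univ_succ, Matrix.cons_val_zero, Matrix.cons_val_succ, Fin.sum_univ_zero]
  norm_num

lemma g2 : IntegrableOn (fun z => (w z).im ^ 2) Sq ∧ ∫ z in Sq, (w z).im ^ 2 = 28384 / 35035 := by
  have h := int_poly 15 ![1 / 1, -1 / 5, 1 / 100, -2 / 1, 16 / 5, -3 / 10, 1 / 1, -6 / 1, 51 / 20,
      16 / 5, -113 / 25, -1 / 5, 51 / 20, -3 / 10, 1 / 100]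
    ![0, 0, 0, 2, 2, 2, 4, 4, 4, 6, 6, 8, 8, 10, 12] ![4, 8, 12, 2, 6, 10, 0, 4, 8, 2, 6, 0, 4, 2, 0]
    (fun z => (w z).im ^ 2) (by
      intro z
      rw [w_im]
      simp only [Fin.sum_univ_succ, Matrix.cons_val_zero, Matrix.cons_val_succ, Fin.sum_univ_zero]
      ring)
  refine ⟨h.1, h.2.trans ?_⟩
  simp only [Fin.sum_univ_succ, Matrix.cons_val_zero, Matrix.cons_val_succ, Fin.sum_univ_zero]
  norm_num

lemma w_diff : DifferentiableOn ℂ w Sq := by
  unfold w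
  fun_prop

end Pool.Agent.H3.FriedSq
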