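import Mathlib

/-! Explicit fundamental system of `y'' = q y`, `q = i ψ'' - ψ'^2`, `ψ = arctan (√3 cos x)`. -/

set_option autoImplicit false
open Complex

namespace Pool.Agent.H3.Hill

noncomputable def r : ℝ := Real.sqrt 3
lemma r_sq : r * r = 3 := Real.mul_self_sqrt (by norm_num)
lemma r_pos : 0 < r := Real.sqrt_pos.2 (by norm_num)
lemma r_lt : r < 2 := by nlinarith [r_sq, r_pos]

noncomputable def D (x : ℝ) : ℝ := 1 + 3 * Real.cos x ^ 2
lemma D_pos (x : ℝ) : 0 < D x := by unfold D; positivity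
lemma D_ge (x : ℝ) : 1 ≤ D x := by unfold D; nlinarith [sq_nonneg (Real.cos x)]

noncomputable def ψ (x : ℝ) : ℝ := Real.arctan (r * Real.cos x)
noncomputable def ψ1 (x : ℝ) : ℝ := -(r * Real.sin x) / D x
noncomputable def ψ2 (x : ℝ) : ℝ :=
  -(r * (Real.cos x * D x + 6 * Real.sin x ^ 2 * Real.cos x)) / D x ^ 2

lemma hD (x : ℝ) : HasDerivAt D (-(6 * Real.cos x * Real.sin x)) x := by
  unfold D
  have h := (((Real.hasDerivAt_cos x).pow 2).const_mul 3).const_add 1
  refine h.congr_deriv ?_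
  simp; ring

lemma hψ (x : ℝ) : HasDerivAt ψ (ψ1 x) x := by
  unfold ψ
  have h := ((Real.hasDerivAt_cos x).const_mul r).arctan
  refine h.congr_deriv ?_
  unfold ψ1 D
  have h1 : (r * Real.cos x) ^ 2 = 3 * Real.cos x ^ 2 := by rw [mul_pow, pow_two r, r_sq]
  rw [h1]; field_simp

lemma hψ1 (x : ℝ) : HasDerivAt ψ1 (ψ2 x) x := by
  unfold ψ1
  have h := (((Real.hasDerivAt_sin x).const_mul r).neg).div (hD x) (D_pos x).ne'
  refine h.congr_deriv ?_
  unfold ψ2
  congr 1
  simp; ring

noncomputable def A (x : ℝ) : ℝ := -Real.arctan (Real.sin x * Real.cos x / (1 + Real.cos x ^ 2))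
noncomputable def B (x : ℝ) : ℝ := (Real.log (2 + r * Real.sin x) - Real.log (2 - r * Real.sin x)) / 2

lemma rs_lt (x : ℝ) : |r * Real.sin x| < 2 := by
  rw [abs_mul, abs_of_pos r_pos]
  calc r * |Real.sin x| ≤ r * 1 := mul_le_mul_of_nonneg_left (Real.abs_sin_le_one x) r_pos.le
    _ < 2 := by linarith [r_lt]
lemma pos1 (x : ℝ) : 0 < 2 + r * Real.sin x := by linarith [(abs_lt.1 (rs_lt x)).1]
lemma pos2 (x : ℝ) : 0 < 2 - r * Real.sin x := by linarith [(abs_lt.1 (rs_lt x)).2]

lemma hA (x : ℝ) : HasDerivAt A ((1 - 3 * Real.cos x ^ 2) / D x) x := by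
  unfold A
  have h1 : HasDerivAt (fun x => 1 + Real.cos x ^ 2) (-(2 * Real.cos x * Real.sin x)) x := by
    refine (((Real.hasDerivAt_cos x).pow 2).const_add 1).congr_deriv ?_
    simp
  have hp : (1 + Real.cos x ^ 2) ≠ 0 := by positivity
  have h := ((((Real.hasDerivAt_sin x).mul (Real.hasDerivAt_cos x)).div h1 hp).arctan).neg
  refine h.congr_deriv ?_
  have hs : Real.sin x ^ 2 = 1 - Real.cos x ^ 2 := by rw [Real.sin_sq]
  have hD' := (D_pos x).ne'
  unfold D at hD' ⊢
  have e1 : 1 + ((Real.sin * Real.cos) x / (1 + Real.cos x ^ 2)) ^ 2 = (1 + 3 * Real.cos x ^ 2) / (1 + Real.cos x ^ 2) ^ 2 := by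
    simp only [Pi.mul_apply]
    field_simp
    rw [hs]; ring
  simp only [Pi.div_apply]
  rw [e1]
  simp only [Pi.mul_apply]
  field_simp
  rw [hs]; ring

lemma hB (x : ℝ) : HasDerivAt B (2 * r * Real.cos x / D x) x := by
  unfold B
  have h1 := (((Real.hasDerivAt_sin x).const_mul r).const_add 2).log (pos1 x).ne'
  have h2 := (((Real.hasDerivAt_sin x).const_mul r).const_sub 2).log (pos2 x).ne'
  refine ((h1.sub h2).div_const 2).congr_deriv ?_
  have hs : Real.sin x ^ 2 = 1 - Real.cos x ^ 2 := by rw [Real.sin_sq]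
  have hD' := (D_pos x).ne'
  have e : D x = (2 + r * Real.sin x) * (2 - r * Real.sin x) := by
    have : (2 + r * Real.sin x) * (2 - r * Real.sin x) = 4 - (r * r) * Real.sin x ^ 2 := by ring
    rw [this, r_sq, hs]; unfold D; ring
  rw [e]
  have := (pos1 x).ne'
  have := (pos2 x).ne'
  field_simp
  ring

noncomputable def F (x : ℝ) : ℂ := A x - I * B x

lemma trig2 (x : ℝ) : Real.cos (2 * ψ x) = (1 - 3 * Real.cos x ^ 2) / D x ∧
    Real.sin (2 * ψ x) = 2 * r * Real.cos x / D x := by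
  have h1 : (r * Real.cos x) ^ 2 = 3 * Real.cos x ^ 2 := by rw [mul_pow, pow_two r, r_sq]
  have hc : Real.cos (ψ x) ^ 2 = 1 / D x := by
    unfold ψ; rw [Real.cos_sq_arctan, h1]; rfl
  have hsq : Real.sqrt (D x) * Real.sqrt (D x) = D x := Real.mul_self_sqrt (D_pos x).le
  have hsc : Real.sin (ψ x) * Real.cos (ψ x) = r * Real.cos x / D x := by
    unfold ψ; rw [Real.sin_arctan, Real.cos_arctan, h1]
    change r * Real.cos x / Real.sqrt (D x) * (1 / Real.sqrt (D x)) = _
    rw [div_mul_div_comm, hsq, mul_one]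
  constructor
  · rw [Real.cos_two_mul, hc]
    have := (D_pos x).ne'
    unfold D at this ⊢
    field_simp; ring
  · rw [Real.sin_two_mul, mul_assoc, hsc]; ring

lemma exp_id (x : ℝ) : cexp (-(2 * I * ψ x)) = ((1 - 3 * Real.cos x ^ 2) / D x : ℝ) - I * (2 * r * Real.cos x / D x : ℝ) := by
  have e0 : cexp (-(2 * I * ψ x)) = Complex.cos (2 * ψ x) - Complex.sin (2 * ψ x) * I := by
    have : -(2 * I * ψ x) = (-(2 * ψ x : ℂ)) * I := by ring
    rw [this, Complex.exp_mul_I, Complex.cos_neg, Complex.sin_neg]; ring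
  obtain ⟨e1, e2⟩ := trig2 x
  rw [e0, ← e1, ← e2]
  push_cast; ring

lemma hF (x : ℝ) : HasDerivAt F (cexp (-(2 * I * ψ x))) x := by
  unfold F
  rw [exp_id]
  exact (hA x).ofReal_comp.sub ((hB x).ofReal_comp.const_mul I)

noncomputable def y1 (x : ℝ) : ℂ := cexp (I * ψ x)
noncomputable def dy1 (x : ℝ) : ℂ := I * ψ1 x * y1 x
noncomputable def q (x : ℝ) : ℂ := I * ψ2 x - ψ1 x ^ 2
noncomputable def y2 (x : ℝ) : ℂ := y1 x * F x
noncomputable def dy2 (x : ℝ) : ℂ := dy1 x * F x + cexp (-(I * ψ x))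

lemma hy1 (x : ℝ) : HasDerivAt y1 (dy1 x) x := by
  unfold y1
  refine (((hψ x).ofReal_comp.const_mul I).cexp).congr_deriv ?_
  unfold dy1 y1; ring

lemma hdy1 (x : ℝ) : HasDerivAt dy1 (q x * y1 x) x := by
  unfold dy1
  refine ((((hψ1 x).ofReal_comp.const_mul I)).mul (hy1 x)).congr_deriv ?_
  unfold q dy1
  linear_combination (ψ1 x : ℂ) ^ 2 * y1 x * I_sq

lemma y1_exp (x : ℝ) : y1 x * cexp (-(2 * I * ψ x)) = cexp (-(I * ψ x)) := by
  unfold y1; rw [← Complex.exp_add]; congr 1; ring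

lemma y1_exp' (x : ℝ) : y1 x * cexp (-(I * ψ x)) = 1 := by
  unfold y1; rw [← Complex.exp_add]; simp

lemma hy2 (x : ℝ) : HasDerivAt y2 (dy2 x) x := by
  unfold y2
  refine ((hy1 x).mul (hF x)).congr_deriv ?_
  unfold dy2
  rw [y1_exp]

lemma hdy2 (x : ℝ) : HasDerivAt dy2 (q x * y2 x) x := by
  unfold dy2
  have h1 : HasDerivAt (fun x : ℝ => cexp (-(I * ψ x))) (cexp (-(I * ψ x)) * (-(I * ψ1 x))) x :=
    ((((hψ x).ofReal_comp.const_mul I)).neg).cexp
  refine (((hdy1 x).mul (hF x)).add h1).congr_deriv ?_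
  unfold y2
  rw [← y1_exp]
  unfold dy1
  ring

lemma wron (x : ℝ) : y1 x * dy2 x - dy1 x * y2 x = 1 := by
  unfold dy2 y2
  linear_combination y1_exp' x

lemma norm_y1 (x : ℝ) : ‖y1 x‖ = 1 := by
  unfold y1
  rw [mul_comm, Complex.norm_exp_ofReal_mul_I]

lemma sin_add_pi (x : ℝ) : Real.sin (x + Real.pi) = - Real.sin x := Real.sin_add_pi x

lemma per_ψ (x : ℝ) : ψ (x + 2 * Real.pi) = ψ x := by unfold ψ; rw [Real.cos_add_two_pi]
lemma per_D (x : ℝ) : D (x + 2 * Real.pi) = D x := by unfold D; rw [Real.cos_add_two_pi]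
lemma per_ψ1 (x : ℝ) : ψ1 (x + 2 * Real.pi) = ψ1 x := by
  unfold ψ1; rw [Real.sin_add_two_pi, per_D]
lemma per_ψ2 (x : ℝ) : ψ2 (x + 2 * Real.pi) = ψ2 x := by
  unfold ψ2; rw [Real.sin_add_two_pi, Real.cos_add_two_pi, per_D]
lemma per_A (x : ℝ) : A (x + 2 * Real.pi) = A x := by
  unfold A; rw [Real.sin_add_two_pi, Real.cos_add_two_pi]
lemma per_B (x : ℝ) : B (x + 2 * Real.pi) = B x := by
  unfold B; rw [Real.sin_add_two_pi]
lemma per_F (x : ℝ) : F (x + 2 * Real.pi) = F x := by
  unfold F; rw [per_A, per_B]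
lemma per_y1 (x : ℝ) : y1 (x + 2 * Real.pi) = y1 x := by unfold y1; rw [per_ψ]
lemma per_dy1 (x : ℝ) : dy1 (x + 2 * Real.pi) = dy1 x := by unfold dy1; rw [per_ψ1, per_y1]
lemma per_y2 (x : ℝ) : y2 (x + 2 * Real.pi) = y2 x := by unfold y2; rw [per_F, per_y1]
lemma per_dy2 (x : ℝ) : dy2 (x + 2 * Real.pi) = dy2 x := by
  unfold dy2; rw [per_dy1, per_F, per_ψ]
lemma per_q (x : ℝ) : q (x + 2 * Real.pi) = q x := by unfold q; rw [per_ψ1, per_ψ2]

lemma cont_ψ : Continuous ψ := continuous_iff_continuousAt.2 fun x => (hψ x).continuousAt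
lemma cont_D : Continuous D := continuous_iff_continuousAt.2 fun x => (hD x).continuousAt
lemma cont_ψ1 : Continuous ψ1 := continuous_iff_continuousAt.2 fun x => (hψ1 x).continuousAt
lemma cont_ψ2 : Continuous ψ2 := by
  unfold ψ2
  apply Continuous.div₀
  · have := cont_D; fun_prop
  · have := cont_D; fun_prop
  · intro x; exact pow_ne_zero _ (D_pos x).ne'
lemma cont_A : Continuous A := continuous_iff_continuousAt.2 fun x => (hA x).continuousAt
lemma cont_B : Continuous B := continuous_iff_continuousAt.2 fun x => (hB x).continuousAt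
lemma cont_F : Continuous F := continuous_iff_continuousAt.2 fun x => (hF x).continuousAt
lemma cont_y1 : Continuous y1 := continuous_iff_continuousAt.2 fun x => (hy1 x).continuousAt
lemma cont_dy1 : Continuous dy1 := continuous_iff_continuousAt.2 fun x => (hdy1 x).continuousAt
lemma cont_y2 : Continuous y2 := continuous_iff_continuousAt.2 fun x => (hy2 x).continuousAt
lemma cont_dy2 : Continuous dy2 := continuous_iff_continuousAt.2 fun x => (hdy2 x).continuousAt
lemma cont_q : Continuous q := by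
  unfold q
  have h1 := cont_ψ1
  have h2 := cont_ψ2
  fun_prop

/-- bound -/
lemma exists_bound : ∃ M : ℝ, (∀ x, ‖y1 x‖ ≤ M) ∧ (∀ x, ‖y2 x‖ ≤ M) := by
  have hp : Function.Periodic F (2 * Real.pi) := per_F
  obtain ⟨K, hK⟩ := (isCompact_Icc (a := (0 : ℝ)) (b := 2 * Real.pi)).exists_bound_of_continuousOn cont_F.continuousOn
  have hall : ∀ x, ‖F x‖ ≤ K := by
    intro x
    obtain ⟨y, hy, hxy⟩ := hp.exists_mem_Ico₀ (by positivity) x
    rw [hxy]; exact hK y ⟨hy.1, hy.2.le⟩
  refine ⟨max 1 K, fun x => ?_, fun x => ?_⟩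
  · rw [norm_y1]; exact le_max_left _ _
  · unfold y2; rw [norm_mul, norm_y1, one_mul]; exact (hall x).trans (le_max_right _ _)

/-! integrals over a period -/

lemma y1_sq (x : ℝ) : y1 x * y1 x = ((1 - 3 * Real.cos x ^ 2) / D x : ℝ) + I * (2 * r * Real.cos x / D x : ℝ) := by
  have e0 : y1 x * y1 x = Complex.cos (2 * ψ x) + Complex.sin (2 * ψ x) * I := by
    unfold y1
    rw [← Complex.exp_add, ← Complex.exp_mul_I]
    congr 1; ring
  obtain ⟨e1, e2⟩ := trig2 x
  rw [e0, ← e1, ← e2]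
  push_cast; ring

lemma A_pi (x : ℝ) : A (x + Real.pi) = A x := by
  unfold A; rw [Real.sin_add_pi, Real.cos_add_pi]; simp
lemma B_pi (x : ℝ) : B (x + Real.pi) = -B x := by
  unfold B; rw [Real.sin_add_pi]
  simp only [mul_neg, sub_neg_eq_add, ← sub_eq_add_neg]; ring
lemma D_pi (x : ℝ) : D (x + Real.pi) = D x := by
  unfold D; rw [Real.cos_add_pi]; ring

/-- `∫ y1^2 = 0`. -/
lemma I0 : ∫ x in (0:ℝ)..(2 * Real.pi), y1 x * y1 x = 0 := by
  have hd : ∀ x ∈ Set.uIcc (0:ℝ) (2 * Real.pi), HasDerivAt (fun x : ℝ => (A x : ℂ) + I * B x) (y1 x * y1 x) x := by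
    intro x _
    rw [y1_sq]
    exact (hA x).ofReal_comp.add ((hB x).ofReal_comp.const_mul I)
  have hc : Continuous (fun x => y1 x * y1 x) := cont_y1.mul cont_y1
  rw [intervalIntegral.integral_eq_sub_of_hasDerivAt hd (hc.intervalIntegrable _ _)]
  have h1 := per_A 0
  have h2 := per_B 0
  simp only [zero_add] at h1 h2
  rw [h1, h2]; ring

lemma int_antiper (f : ℝ → ℝ) (hf : Continuous f) (h : ∀ x, f (x + Real.pi) = - f x) :
    ∫ x in (0:ℝ)..(2 * Real.pi), f x = 0 := by
  rw [← intervalIntegral.integral_add_adjacent_intervals (b := Real.pi) (hf.intervalIntegrable _ _) (hf.intervalIntegrable _ _)]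
  have h1 : ∫ x in (Real.pi)..(2 * Real.pi), f x = ∫ x in (0:ℝ)..Real.pi, f (x + Real.pi) := by
    rw [intervalIntegral.integral_comp_add_right]
    congr 1
    · ring
    · ring
  rw [h1]
  simp only [h, intervalIntegral.integral_neg]
  ring

/-- `∫ y1 y2 = 0`. -/
lemma I1 : ∫ x in (0:ℝ)..(2 * Real.pi), y1 x * y2 x = 0 := by
  -- y1 y2 = y1^2 F = (A' + i B')(A - i B) = (AA' + BB') + i (A B' - A' B)
  -- = (AA' + BB') + i (2 A B' - (A B)')
  have hcB : Continuous fun x => A x * (2 * r * Real.cos x / D x) := by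
    apply cont_A.mul
    apply Continuous.div₀ (by fun_prop) cont_D (fun x => (D_pos x).ne')
  have hz := int_antiper (fun x => A x * (2 * r * Real.cos x / D x)) hcB (by
    intro x; simp only [A_pi, D_pi, Real.cos_add_pi]; ring)
  have hd : ∀ x ∈ Set.uIcc (0:ℝ) (2 * Real.pi), HasDerivAt (fun x : ℝ => ((A x : ℂ) ^ 2 + (B x : ℂ) ^ 2) / 2 - I * (A x * B x))
      (y1 x * y2 x - 2 * I * ((A x * (2 * r * Real.cos x / D x) : ℝ) : ℂ)) x := by
    intro x _
    have hA' := (hA x).ofReal_comp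
    have hB' := (hB x).ofReal_comp
    refine ((((hA'.pow 2).add (hB'.pow 2)).div_const 2).sub ((hA'.mul hB').const_mul I)).congr_deriv ?_
    unfold y2
    rw [← mul_assoc, y1_sq]
    unfold F
    push_cast
    linear_combination ((2 * r * Complex.cos x / D x) * B x : ℂ) * I_sq
  have hcc : Continuous (fun x => y1 x * y2 x - 2 * I * ((A x * (2 * r * Real.cos x / D x) : ℝ) : ℂ)) := by
    apply (cont_y1.mul cont_y2).sub
    exact continuous_const.mul (Complex.continuous_ofReal.comp hcB)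
  have h := intervalIntegral.integral_eq_sub_of_hasDerivAt hd (hcc.intervalIntegrable _ _)
  have i1 : IntervalIntegrable (fun x => y1 x * y2 x) MeasureTheory.volume 0 (2 * Real.pi) :=
    (cont_y1.mul cont_y2).intervalIntegrable _ _
  have i2 : IntervalIntegrable (fun x => 2 * I * ((A x * (2 * r * Real.cos x / D x) : ℝ) : ℂ)) MeasureTheory.volume 0 (2 * Real.pi) :=
    (continuous_const.mul (Complex.continuous_ofReal.comp hcB)).intervalIntegrable _ _
  rw [intervalIntegral.integral_sub i1 i2,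
    intervalIntegral.integral_const_mul, intervalIntegral.integral_ofReal, hz] at h
  have h1 := per_A 0
  have h2 := per_B 0
  simp only [zero_add] at h1 h2
  rw [h1, h2] at h
  simpa using h

lemma arctan_np {t : ℝ} (h : t ≤ 0) : Real.arctan t ≤ 0 := by
  have := Real.arctan_strictMono.monotone h
  simpa using this
lemma B_nonneg {x : ℝ} (h : 0 ≤ Real.sin x) : 0 ≤ B x := by
  unfold B
  have := Real.log_le_log (pos2 x) (show 2 - r * Real.sin x ≤ 2 + r * Real.sin x by
    have := mul_nonneg r_pos.le h; linarith)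
  linarith
lemma B_nonpos {x : ℝ} (h : Real.sin x ≤ 0) : B x ≤ 0 := by
  unfold B
  have := Real.log_le_log (pos1 x) (show 2 + r * Real.sin x ≤ 2 - r * Real.sin x by
    have := mul_nonpos_of_nonneg_of_nonpos r_pos.le h; linarith)
  linarith
lemma B_posl {x : ℝ} (h : 0 < Real.sin x) : 0 < B x := by
  unfold B
  have := Real.log_lt_log (pos2 x) (show 2 - r * Real.sin x < 2 + r * Real.sin x by
    have := mul_pos r_pos h; linarith)
  linarith

/-- `∫ y2^2 ≠ 0`. -/
lemma I2 : ∫ x in (0:ℝ)..(2 * Real.pi), y2 x * y2 x ≠ 0 := by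
  intro hI
  -- real part of y2^2 : A'(A^2 - B^2) + 2 A B B' = (A^3/3 - A B^2)' + 4 A B B'
  have hcG : Continuous fun x => -(4 * (A x * B x * (2 * r * Real.cos x / D x))) := by
    have h0 : Continuous fun x => (2 * r * Real.cos x / D x) :=
      Continuous.div₀ (by fun_prop) cont_D (fun x => (D_pos x).ne')
    have h1 := cont_A
    have h2 := cont_B
    fun_prop
  have hre : ∀ x, (y2 x * y2 x).re = (1 - 3 * Real.cos x ^ 2) / D x * (A x ^ 2 - B x ^ 2) + 2 * (2 * r * Real.cos x / D x) * A x * B x := by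
    intro x
    have : y2 x * y2 x = (y1 x * y1 x) * (F x * F x) := by unfold y2; ring
    rw [this, y1_sq]
    unfold F
    set a := (1 - 3 * Real.cos x ^ 2) / D x
    set b := 2 * r * Real.cos x / D x
    have e : ((a : ℂ) + I * b) * (((A x : ℂ) - I * B x) * ((A x : ℂ) - I * B x))
        = ((a * (A x ^ 2 - B x ^ 2) + 2 * b * A x * B x : ℝ) : ℂ) + I * ((b * (A x ^ 2 - B x ^ 2) - 2 * a * A x * B x : ℝ) : ℂ) := by
      push_cast
      linear_combination (a * (B x : ℂ) ^ 2 - 2 * b * A x * B x + I * b * B x ^ 2) * I_sq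
    rw [e, Complex.add_re, Complex.ofReal_re, Complex.mul_re, Complex.I_re, Complex.I_im, Complex.ofReal_re, Complex.ofReal_im]
    ring
  have hd : ∀ x ∈ Set.uIcc (0:ℝ) (2 * Real.pi), HasDerivAt (fun x : ℝ => A x ^ 3 / 3 - A x * B x ^ 2)
      ((y2 x * y2 x).re + -(4 * (A x * B x * (2 * r * Real.cos x / D x)))) x := by
    intro x _
    refine ((((hA x).pow 3).div_const 3).sub ((hA x).mul ((hB x).pow 2))).congr_deriv ?_
    rw [hre]
    simp
    ring
  have hcy : Continuous fun x => (y2 x * y2 x).re := Complex.continuous_re.comp (cont_y2.mul cont_y2)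
  have h := intervalIntegral.integral_eq_sub_of_hasDerivAt hd ((hcy.add hcG).intervalIntegrable _ _)
  rw [intervalIntegral.integral_add (hcy.intervalIntegrable _ _) (hcG.intervalIntegrable _ _)] at h
  have hre0 : ∫ x in (0:ℝ)..(2 * Real.pi), (y2 x * y2 x).re = 0 := by
    have i1 : IntervalIntegrable (fun x => y2 x * y2 x) MeasureTheory.volume 0 (2 * Real.pi) :=
      (cont_y2.mul cont_y2).intervalIntegrable _ _
    have := Complex.reCLM.intervalIntegral_comp_comm i1
    rw [hI] at this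
    simpa using this
  have hpos : 0 < ∫ x in (0:ℝ)..(2 * Real.pi), -(4 * (A x * B x * (2 * r * Real.cos x / D x))) := by
    apply intervalIntegral.integral_pos (by positivity) hcG.continuousOn
    · intro x _
      have hr := r_pos
      have hDx := D_pos x
      have hc2 : 0 < 1 + Real.cos x ^ 2 := by positivity
      have key : 0 ≤ Real.arctan (Real.sin x * Real.cos x / (1 + Real.cos x ^ 2)) * B x * Real.cos x := by
        rcases le_total 0 (Real.sin x) with hs | hs
        · have hB0 := B_nonneg hs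
          rcases le_total 0 (Real.cos x) with hc | hc
          · have := Real.arctan_nonneg.2 (show 0 ≤ Real.sin x * Real.cos x / (1 + Real.cos x ^ 2) by positivity)
            positivity
          · have := arctan_np (show Real.sin x * Real.cos x / (1 + Real.cos x ^ 2) ≤ 0 from
              div_nonpos_of_nonpos_of_nonneg (mul_nonpos_of_nonneg_of_nonpos hs hc) hc2.le)
            exact mul_nonneg_of_nonpos_of_nonpos (mul_nonpos_of_nonpos_of_nonneg this hB0) hc
        · have hB0 := B_nonpos hs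
          rcases le_total 0 (Real.cos x) with hc | hc
          · have := arctan_np (show Real.sin x * Real.cos x / (1 + Real.cos x ^ 2) ≤ 0 from
              div_nonpos_of_nonpos_of_nonneg (mul_nonpos_of_nonpos_of_nonneg hs hc) hc2.le)
            exact mul_nonneg (mul_nonneg_of_nonpos_of_nonpos this hB0) hc
          · have := Real.arctan_nonneg.2 (show 0 ≤ Real.sin x * Real.cos x / (1 + Real.cos x ^ 2) from
              div_nonneg (mul_nonneg_of_nonpos_of_nonpos hs hc) hc2.le)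
            exact mul_nonneg_of_nonpos_of_nonpos (mul_nonpos_of_nonneg_of_nonpos this hB0) hc
      have : -(4 * (A x * B x * (2 * r * Real.cos x / D x))) = 8 * r / D x * (Real.arctan (Real.sin x * Real.cos x / (1 + Real.cos x ^ 2)) * B x * Real.cos x) := by
        unfold A; ring
      rw [this]
      positivity
    · refine ⟨Real.pi / 4, ⟨by positivity, by linarith [Real.pi_pos]⟩, ?_⟩
      have hr := r_pos
      have hDx := D_pos (Real.pi / 4)
      have hs : 0 < Real.sin (Real.pi / 4) := by rw [Real.sin_pi_div_four]; positivity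
      have hc : 0 < Real.cos (Real.pi / 4) := by rw [Real.cos_pi_div_four]; positivity
      have hB0 := B_posl hs
      have ht := Real.arctan_pos.2 (show 0 < Real.sin (Real.pi / 4) * Real.cos (Real.pi / 4) / (1 + Real.cos (Real.pi / 4) ^ 2) by positivity)
      have : -(4 * (A (Real.pi / 4) * B (Real.pi / 4) * (2 * r * Real.cos (Real.pi / 4) / D (Real.pi / 4)))) = 8 * r / D (Real.pi / 4) * (Real.arctan (Real.sin (Real.pi / 4) * Real.cos (Real.pi / 4) / (1 + Real.cos (Real.pi / 4) ^ 2)) * B (Real.pi / 4) * Real.cos (Real.pi / 4)) := by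
        unfold A; ring
      rw [this]
      positivity
  have h1 := per_A 0
  have h2 := per_B 0
  simp only [zero_add] at h1 h2
  rw [hre0, h1, h2] at h
  linarith

end Pool.Agent.H3.Hill
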