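import Pool.Agent.H3.Volt
import Pool.Agent.H3.Hill

set_option autoImplicit false
open Complex Pool.Agent.H3.Volt Pool.Agent.H3.Hill

namespace Pool.Agent.H3.HillSol

noncomputable def Y (x₀ : ℝ) (v : ℂ × ℂ) (w : ℂ) (x : ℝ) : ℂ :=
  α y1 y2 x₀ v w x * y1 x + β y1 y2 x₀ v w x * y2 x
noncomputable def dY (x₀ : ℝ) (v : ℂ × ℂ) (w : ℂ) (x : ℝ) : ℂ :=
  α y1 y2 x₀ v w x * dy1 x + β y1 y2 x₀ v w x * dy2 x

lemma hY (x₀ : ℝ) (v : ℂ × ℂ) (w : ℂ) (x : ℝ) :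
    HasDerivAt (Y x₀ v w) (dY x₀ v w x) x ∧
    HasDerivAt (dY x₀ v w) ((q x - w) * Y x₀ v w x) x := by
  obtain ⟨M, b1, b2⟩ := exists_bound
  obtain ⟨h1, h2⟩ := αβ_deriv (x₀ := x₀) (v := v) cont_y1 cont_y2 b1 b2 w x
  constructor
  · unfold Y
    refine ((h1.mul (hy1 x)).add (h2.mul (hy2 x))).congr_deriv ?_
    unfold dY; ring
  · unfold dY
    refine ((h1.mul (hdy1 x)).add (h2.mul (hdy2 x))).congr_deriv ?_
    unfold Y
    linear_combination (-w * (y1 x * α y1 y2 x₀ v w x + y2 x * β y1 y2 x₀ v w x)) * wron x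

lemma cont_Y (x₀ : ℝ) (v : ℂ × ℂ) (w : ℂ) : Continuous (Y x₀ v w) :=
  continuous_iff_continuousAt.2 fun x => (hY x₀ v w x).1.continuousAt
lemma cont_dY (x₀ : ℝ) (v : ℂ × ℂ) (w : ℂ) : Continuous (dY x₀ v w) :=
  continuous_iff_continuousAt.2 fun x => (hY x₀ v w x).2.continuousAt

lemma Y_eq (x₀ : ℝ) (v : ℂ × ℂ) (w : ℂ) (x : ℝ) :
    Y x₀ v w x = Y x₀ v w x₀ + ∫ t in x₀..x, dY x₀ v w t := by
  rw [intervalIntegral.integral_eq_sub_of_hasDerivAt (fun t _ => (hY x₀ v w t).1)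
    ((cont_dY x₀ v w).intervalIntegrable _ _)]
  ring
lemma dY_eq (x₀ : ℝ) (v : ℂ × ℂ) (w : ℂ) (x : ℝ) :
    dY x₀ v w x = dY x₀ v w x₀ + ∫ t in x₀..x, (q t - w) * Y x₀ v w t := by
  rw [intervalIntegral.integral_eq_sub_of_hasDerivAt (fun t _ => (hY x₀ v w t).2)
    (((cont_q.sub continuous_const).mul (cont_Y x₀ v w)).intervalIntegrable _ _)]
  ring

noncomputable def vc (x₀ : ℝ) : ℂ × ℂ := (dy2 x₀, -dy1 x₀)
noncomputable def vs (x₀ : ℝ) : ℂ × ℂ := (-y2 x₀, y1 x₀)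

lemma init_c (x₀ : ℝ) (w : ℂ) : Y x₀ (vc x₀) w x₀ = 1 ∧ dY x₀ (vc x₀) w x₀ = 0 := by
  unfold Y dY
  rw [α_x0, β_x0]
  unfold vc
  constructor
  · linear_combination wron x₀
  · ring
lemma init_s (x₀ : ℝ) (w : ℂ) : Y x₀ (vs x₀) w x₀ = 0 ∧ dY x₀ (vs x₀) w x₀ = 1 := by
  unfold Y dY
  rw [α_x0, β_x0]
  unfold vs
  constructor
  · ring
  · linear_combination wron x₀

noncomputable def J2 : ℂ := ∫ x in (0:ℝ)..(2 * Real.pi), y2 x * y2 x

lemma per_int (f : ℝ → ℂ) (hf : ∀ x, f (x + 2 * Real.pi) = f x) (x₀ : ℝ) :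
    ∫ x in x₀..(x₀ + 2 * Real.pi), f x = ∫ x in (0:ℝ)..(2 * Real.pi), f x := by
  have h := Function.Periodic.intervalIntegral_add_eq (f := f) (T := 2 * Real.pi) hf x₀ 0
  rwa [zero_add] at h

lemma ab1 (x₀ : ℝ) (v : ℂ × ℂ) : ab y1 y2 x₀ v 1 (x₀ + 2 * Real.pi) = (J2 * v.2, 0) := by
  have c11 : Continuous fun x => y1 x * y1 x := cont_y1.mul cont_y1
  have c12 : Continuous fun x => y1 x * y2 x := cont_y1.mul cont_y2
  have c22 : Continuous fun x => y2 x * y2 x := cont_y2.mul cont_y2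
  have e1 : (fun t => y2 t * (y1 t * v.1 + y2 t * v.2)) = fun t => (y1 t * y2 t) * v.1 + (y2 t * y2 t) * v.2 := by
    ext t; ring
  have e2 : (fun t => y1 t * (y1 t * v.1 + y2 t * v.2)) = fun t => (y1 t * y1 t) * v.1 + (y1 t * y2 t) * v.2 := by
    ext t; ring
  simp only [ab]
  rw [e1, e2]
  have i1 : IntervalIntegrable (fun t => (y1 t * y2 t) * v.1) MeasureTheory.volume x₀ (x₀ + 2 * Real.pi) :=
    (c12.mul continuous_const).intervalIntegrable _ _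
  have i2 : IntervalIntegrable (fun t => (y2 t * y2 t) * v.2) MeasureTheory.volume x₀ (x₀ + 2 * Real.pi) :=
    (c22.mul continuous_const).intervalIntegrable _ _
  have i3 : IntervalIntegrable (fun t => (y1 t * y1 t) * v.1) MeasureTheory.volume x₀ (x₀ + 2 * Real.pi) :=
    (c11.mul continuous_const).intervalIntegrable _ _
  have i4 : IntervalIntegrable (fun t => (y1 t * y2 t) * v.2) MeasureTheory.volume x₀ (x₀ + 2 * Real.pi) :=
    (c12.mul continuous_const).intervalIntegrable _ _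
  rw [intervalIntegral.integral_add i1 i2, intervalIntegral.integral_add i3 i4,
    intervalIntegral.integral_mul_const, intervalIntegral.integral_mul_const,
    intervalIntegral.integral_mul_const, intervalIntegral.integral_mul_const,
    per_int _ (fun x => by rw [per_y1, per_y2]), per_int _ (fun x => by rw [per_y2]),
    per_int _ (fun x => by rw [per_y1]), I0, I1]
  simp [J2]

/-- expansion at the end of the period -/
lemma expand (x₀ : ℝ) (v : ℂ × ℂ) : ∃ RA RB : ℂ → ℂ, (∀ z, AnalyticAt ℂ RA z) ∧ (∀ z, AnalyticAt ℂ RB z) ∧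
    ∀ w, α y1 y2 x₀ v w (x₀ + 2 * Real.pi) = v.1 + w * (J2 * v.2 + w * RA w) ∧
      β y1 y2 x₀ v w (x₀ + 2 * Real.pi) = v.2 + w * (w * RB w) := by
  obtain ⟨M, b1, b2⟩ := exists_bound
  have hM : 0 ≤ M := (norm_nonneg _).trans (b1 0)
  set C : ℝ := max ‖v.1‖ ‖v.2‖ with hCd
  have hC : 0 ≤ C := (norm_nonneg _).trans (le_max_left _ _)
  have hb := fun n => ab_bound (x₀ := x₀) (v := v) cont_y1 cont_y2 hM hC b1 b2 (le_max_left _ _) (le_max_right _ _) n (x₀ + 2 * Real.pi)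
  set κ := 2 * M ^ 2 * |x₀ + 2 * Real.pi - x₀| with hκd
  have hκ : 0 ≤ κ := by positivity
  have s1 := fun n => (hb n).1
  have s2 := fun n => (hb n).2
  have t1 := shift_bound hC hκ s1
  have t2 := shift_bound hC hκ s2
  have hC1 : 0 ≤ C * κ := by positivity
  have u1 := shift_bound hC1 hκ (a := fun n => (ab y1 y2 x₀ v (n+1) (x₀ + 2 * Real.pi)).1) t1
  have u2 := shift_bound hC1 hκ (a := fun n => (ab y1 y2 x₀ v (n+1) (x₀ + 2 * Real.pi)).2) t2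
  have hC2 : 0 ≤ C * κ * κ := by positivity
  refine ⟨fun w => ∑' n, w ^ n * (ab y1 y2 x₀ v (n+1+1) (x₀ + 2 * Real.pi)).1,
    fun w => ∑' n, w ^ n * (ab y1 y2 x₀ v (n+1+1) (x₀ + 2 * Real.pi)).2,
    fun z => entire hC2 hκ u1 z, fun z => entire hC2 hκ u2 z, fun w => ⟨?_, ?_⟩⟩
  · unfold α
    rw [shift s1 w, shift t1 w]
    simp only [zero_add, ab1]
    simp [ab]
  · unfold β
    rw [shift s2 w, shift t2 w]
    simp only [zero_add, ab1]
    simp [ab]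

lemma wronY (x₀ : ℝ) (w : ℂ) (x : ℝ) :
    Y x₀ (vc x₀) w x * dY x₀ (vs x₀) w x - dY x₀ (vc x₀) w x * Y x₀ (vs x₀) w x = 1 := by
  have hd : ∀ x, HasDerivAt (fun x => Y x₀ (vc x₀) w x * dY x₀ (vs x₀) w x - dY x₀ (vc x₀) w x * Y x₀ (vs x₀) w x) 0 x := by
    intro x
    obtain ⟨a1, a2⟩ := hY x₀ (vc x₀) w x
    obtain ⟨a3, a4⟩ := hY x₀ (vs x₀) w x
    refine ((a1.mul a4).sub (a2.mul a3)).congr_deriv ?_
    ring
  have hc := is_const_of_deriv_eq_zero (f := fun x => Y x₀ (vc x₀) w x * dY x₀ (vs x₀) w x - dY x₀ (vc x₀) w x * Y x₀ (vs x₀) w x)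
    (fun x => (hd x).differentiableAt) (fun x => (hd x).deriv) x x₀
  rw [hc, (init_c x₀ w).1, (init_c x₀ w).2, (init_s x₀ w).1, (init_s x₀ w).2]
  ring

/-- the Dirichlet function -/
lemma s_form (x₀ : ℝ) : ∃ R : ℂ → ℂ, (∀ z, AnalyticAt ℂ R z) ∧ ∀ w,
    Y x₀ (vs x₀) w (x₀ + 2 * Real.pi) = w * (y1 x₀ ^ 2 * J2 + w * R w) := by
  obtain ⟨RA, RB, hA, hB, h⟩ := expand x₀ (vs x₀)
  refine ⟨fun w => y1 x₀ * RA w + y2 x₀ * RB w, fun z => (analyticAt_const.mul (hA z)).add (analyticAt_const.mul (hB z)), fun w => ?_⟩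
  unfold Y
  rw [(h w).1, (h w).2, per_y1, per_y2]
  unfold vs
  ring

lemma dc_form (x₀ : ℝ) : ∃ R : ℂ → ℂ, (∀ z, AnalyticAt ℂ R z) ∧ ∀ w,
    dY x₀ (vc x₀) w (x₀ + 2 * Real.pi) = w * (-(dy1 x₀ ^ 2 * J2) + w * R w) := by
  obtain ⟨RA, RB, hA, hB, h⟩ := expand x₀ (vc x₀)
  refine ⟨fun w => dy1 x₀ * RA w + dy2 x₀ * RB w, fun z => (analyticAt_const.mul (hA z)).add (analyticAt_const.mul (hB z)), fun w => ?_⟩
  unfold dY
  rw [(h w).1, (h w).2, per_dy1, per_dy2]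
  unfold vc
  ring

lemma dy1_zero : dy1 0 = 0 := by simp [dy1, ψ1]
lemma y2_zero : y2 0 = 0 := by simp [y2, F, A, B]

lemma c_form : ∃ R : ℂ → ℂ, (∀ z, AnalyticAt ℂ R z) ∧ ∀ w,
    Y 0 (vc 0) w (2 * Real.pi) = 1 + w ^ 2 * R w := by
  obtain ⟨RA, RB, hA, hB, h⟩ := expand 0 (vc 0)
  refine ⟨fun w => y1 0 * RA w, fun z => (analyticAt_const.mul (hA z)), fun w => ?_⟩
  have h1 := (h w).1
  have h2 := (h w).2
  have p1 := per_y1 0
  have p2 := per_y2 0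
  rw [zero_add] at h1 h2 p1 p2
  unfold Y
  rw [h1, h2, p1, p2, y2_zero]
  unfold vc
  simp only [dy1_zero]
  have := wron 0
  rw [dy1_zero, y2_zero] at this
  linear_combination this

lemma ds_form : ∃ R : ℂ → ℂ, (∀ z, AnalyticAt ℂ R z) ∧ ∀ w,
    dY 0 (vs 0) w (2 * Real.pi) = 1 + w ^ 2 * R w := by
  obtain ⟨RA, RB, hA, hB, h⟩ := expand 0 (vs 0)
  refine ⟨fun w => dy2 0 * RB w, fun z => (analyticAt_const.mul (hB z)), fun w => ?_⟩
  have h1 := (h w).1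
  have h2 := (h w).2
  have p1 := per_dy1 0
  have p2 := per_dy2 0
  rw [zero_add] at h1 h2 p1 p2
  unfold dY
  rw [h1, h2, p1, p2, dy1_zero]
  unfold vs
  simp only [y2_zero]
  have := wron 0
  rw [dy1_zero, y2_zero] at this
  linear_combination this

end Pool.Agent.H3.HillSol
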