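import Mathlib

set_option autoImplicit false

open MeasureTheory

namespace Pool.Agent.H3.JM

/-- The class `F^k_d(D)`: `f` is `k` times continuously differentiable on the interior of `D`,
`|f| ≤ 1` on `D`, and all partial derivatives of order at most `k` are bounded by `1` on the
interior of `D`. -/
def Cls (d k : ℕ) (D : Set (Fin d → ℝ)) : Set ((Fin d → ℝ) → ℝ) :=
  {f | ContDiffOn ℝ k f (interior D) ∧ (∀ x ∈ D, |f x| ≤ 1) ∧
    ∀ m ≤ k, ∀ j : Fin m → Fin d, ∀ x ∈ interior D,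
      |iteratedFDeriv ℝ m f x (fun i => Pi.single (j i) 1)| ≤ 1}

/-- The `n`-th minimal worst-case error `e(n, F^k_d(D))`. -/
noncomputable def err (d k n : ℕ) (D : Set (Fin d → ℝ)) : ENNReal :=
  ⨅ (x : Fin n → D) (φ : (Fin n → ℝ) → ℝ), ⨆ f ∈ Cls d k D,
    ENNReal.ofReal |(∫ y in D, f y) - φ (fun i => f (x i))|

end Pool.Agent.H3.JM
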