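import Mathlib
import Pool.Agent.H3.JMDefs

set_option autoImplicit false

open MeasureTheory Set Filter Topology

namespace Pool.Agent.H3.JM

noncomputable def W (g : ℕ) : ℝ := 1 / ((g : ℝ) + 1)

noncomputable def dl (g : ℕ) : ℝ := (W g - W (g + 1)) / 2 ^ g

noncomputable def p (g i : ℕ) : ℝ := W (g + 1) + i * dl g

lemma W_pos (g : ℕ) : 0 < W g := by unfold W; positivity

lemma W_le_one (g : ℕ) : W g ≤ 1 := by
  unfold W
  rw [div_le_one (by positivity)]
  have : (0:ℝ) ≤ g := Nat.cast_nonneg g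
  linarith

lemma W_sub (g : ℕ) : W g - W (g + 1) = 1 / (((g:ℝ) + 1) * ((g:ℝ) + 2)) := by
  unfold W; push_cast; field_simp; ring

lemma dl_pos (g : ℕ) : 0 < dl g := by
  unfold dl; rw [W_sub]; positivity

lemma p_zero (g : ℕ) : p g 0 = W (g + 1) := by simp [p]

lemma p_top (g : ℕ) : p g (2 ^ g) = W g := by
  unfold p dl; push_cast; field_simp; ring

lemma p_succ (g i : ℕ) : p g (i + 1) = p g i + dl g := by
  unfold p; push_cast; ring

lemma p_mono {g i j : ℕ} (h : i ≤ j) : p g i ≤ p g j := by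
  unfold p
  have : (i:ℝ) ≤ j := by exact_mod_cast h
  have := dl_pos g
  nlinarith

lemma p_pos (g i : ℕ) : 0 < p g i := by
  unfold p
  have := W_pos (g+1); have := dl_pos g
  positivity

noncomputable def T (j : ℕ) : ℝ := p (Nat.log 2 (j + 1)) (j + 1 - 2 ^ Nat.log 2 (j + 1))

lemma T_eq {g i : ℕ} (hi : i < 2 ^ g) : T (2 ^ g + i - 1) = p g i := by
  have h1 : 0 < 2 ^ g := by positivity
  have h2 : 2 ^ g + i - 1 + 1 = 2 ^ g + i := by omega
  have h3 : Nat.log 2 (2 ^ g + i) = g := by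
    rw [Nat.log_eq_iff (Or.inr ⟨by norm_num, by omega⟩)]
    constructor
    · omega
    · rw [pow_succ]; omega
  unfold T
  rw [h2, h3]
  congr 1; omega

lemma T_nonneg (j : ℕ) : 0 ≤ T j := (p_pos _ _).le

lemma T_le (j : ℕ) : T j ≤ W (Nat.log 2 (j + 1)) := by
  unfold T
  rw [← p_top]
  apply p_mono
  have := Nat.lt_pow_succ_log_self (b := 2) (by norm_num) (j + 1)
  rw [pow_succ] at this
  omega

lemma T_tendsto : Tendsto T atTop (𝓝 0) := by
  have h1 : Tendsto (fun g : ℕ => W g) atTop (𝓝 0) := tendsto_one_div_add_atTop_nhds_zero_nat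
  have h2 : Tendsto (fun j : ℕ => Nat.log 2 (j + 1)) atTop atTop := by
    apply tendsto_atTop_atTop.mpr
    intro b
    refine ⟨2 ^ b, fun a ha => ?_⟩
    exact Nat.le_log_of_pow_le (by norm_num) (by omega)
  exact squeeze_zero T_nonneg T_le (h1.comp h2)

def R0 : Set ℝ := insert 0 (range T)

lemma R0_closed : IsClosed R0 := T_tendsto.isCompact_insert_range.isClosed

lemma R0_countable : R0.Countable := (countable_range T).insert 0

def A : Set ℝ := Ioo 0 1 \ R0

lemma A_open : IsOpen A := isOpen_Ioo.sdiff R0_closed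

lemma vol_inter (U : Set ℝ) (hU : U ⊆ Ioo 0 1) : volume (A ∩ U) = volume U := by
  apply le_antisymm (measure_mono inter_subset_right)
  have h1 : U ⊆ (A ∩ U) ∪ R0 := by
    intro x hx
    by_cases h : x ∈ R0
    · exact Or.inr h
    · exact Or.inl ⟨⟨hU hx, h⟩, hx⟩
  calc volume U ≤ volume ((A ∩ U) ∪ R0) := measure_mono h1
    _ ≤ volume (A ∩ U) + volume R0 := measure_union_le _ _
    _ = volume (A ∩ U) := by rw [R0_countable.measure_zero, add_zero]

lemma vol_A : volume A = 1 := by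
  have h := vol_inter (Ioo 0 1) subset_rfl
  have : A ∩ Ioo 0 1 = A := inter_eq_left.mpr sdiff_subset
  rw [this] at h
  rw [h, Real.volume_Ioo]; simp

variable (e : ℕ)

/-- the domain in dimension `e + 1` -/
def D (e : ℕ) : Set (Fin (e + 1) → ℝ) := Set.pi univ (Fin.cons A (fun _ => Ioo (0:ℝ) 1) : Fin (e+1) → Set ℝ)

lemma D_open : IsOpen (D e) := by
  apply isOpen_set_pi finite_univ
  intro i _
  refine Fin.cases ?_ (fun j => ?_) i
  · simpa using A_open
  · simpa using isOpen_Ioo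

lemma vol_pi (B : Set ℝ) : volume (Set.pi univ (Fin.cons B (fun _ => Ioo (0:ℝ) 1) : Fin (e+1) → Set ℝ)) = volume B := by
  rw [volume_pi_pi, Fin.prod_univ_succ]
  simp

lemma vol_D : volume (D e) = 1 := by
  unfold D; rw [vol_pi, vol_A]

lemma D_sub : D e ⊆ Set.pi univ (fun _ => Icc (0:ℝ) 1) := by
  intro x hx i _
  have h := hx i (mem_univ i)
  revert h
  refine Fin.cases ?_ (fun j => ?_) i
  · intro h
    simp only [Fin.cons_zero] at h
    exact Ioo_subset_Icc_self h.1
  · intro h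
    simp only [Fin.cons_succ] at h
    exact Ioo_subset_Icc_self h

lemma D_bdd : Bornology.IsBounded (D e) := by
  apply Bornology.IsBounded.subset _ (D_sub e)
  exact (isCompact_univ_pi fun _ => isCompact_Icc).isBounded

lemma frontier_D : volume (frontier (D e)) = 0 := by
  have hcl : IsClosed (Set.pi univ (fun _ : Fin (e+1) => Icc (0:ℝ) 1)) :=
    isClosed_set_pi fun _ _ => isClosed_Icc
  have h1 : frontier (D e) ⊆ Set.pi univ (fun _ : Fin (e+1) => Icc (0:ℝ) 1) \ D e := by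
    rw [(D_open e).frontier_eq]
    exact sdiff_subset_sdiff_left (hcl.closure_subset_iff.mpr (D_sub e))
  have h2 : volume (Set.pi univ (fun _ : Fin (e+1) => Icc (0:ℝ) 1)) = 1 := by
    rw [volume_pi_pi]; simp
  refine measure_mono_null h1 ?_
  rw [measure_sdiff (D_sub e) (D_open e).measurableSet.nullMeasurableSet (by rw [vol_D]; exact ENNReal.one_ne_top),
    h2, vol_D, tsub_self]

/-! ### the fooling function -/

noncomputable def fs (U : Set ℝ) (s : ℝ) (y : Fin (e+1) → ℝ) : ℝ := open Classical in if y 0 ∈ U then s else 0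

lemma mem_cls {k : ℕ} {U C : Set ℝ} (hU : IsOpen U) (hC : IsClosed C) (hUC : U ⊆ C)
    (hCA : ∀ t ∈ A, t ∈ C → t ∈ U) {s : ℝ} (hs : |s| ≤ 1) : fs e U s ∈ Cls (e+1) k (D e) := by
  have key : ∀ y ∈ D e, ∃ c : ℝ, |c| ≤ 1 ∧ fs e U s =ᶠ[𝓝 y] fun _ => c := by
    intro y hy
    have hyA : y 0 ∈ A := by
      have := hy 0 (mem_univ 0)
      simpa using this
    have hcont : Continuous (fun y : Fin (e+1) → ℝ => y 0) := continuous_apply 0
    by_cases h : y 0 ∈ U
    · refine ⟨s, hs, ?_⟩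
      filter_upwards [(hU.preimage hcont).mem_nhds h] with z hz
      exact if_pos hz
    · refine ⟨0, by simp, ?_⟩
      have h2 : y 0 ∈ Cᶜ := fun h3 => h (hCA _ hyA h3)
      filter_upwards [(hC.isOpen_compl.preimage hcont).mem_nhds h2] with z hz
      exact if_neg fun h3 => hz (hUC h3)
  refine ⟨?_, ?_, ?_⟩
  · intro y hy
    obtain ⟨c, _, hc⟩ := key y (interior_subset hy)
    exact ((contDiffAt_const (c := c)).congr_of_eventuallyEq hc).contDiffWithinAt
  · intro y hy
    obtain ⟨c, hc1, hc⟩ := key y hy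
    rw [hc.self_of_nhds]; exact hc1
  · intro m _ j y hy
    obtain ⟨c, hc1, hc⟩ := key y (interior_subset hy)
    have h1 := (Filter.EventuallyEq.iteratedFDeriv ℝ hc m).self_of_nhds
    rw [h1]
    rcases Nat.eq_zero_or_pos m with rfl | hm
    · simpa using hc1
    · rw [iteratedFDeriv_const_of_ne (by omega)]
      simp

lemma integral_fs {U : Set ℝ} (hU : IsOpen U) (hU1 : U ⊆ Ioo 0 1) (s : ℝ) :
    ∫ y in D e, fs e U s y = (volume U).toReal * s := by
  have h1 : fs e U s = indicator ((fun y : Fin (e+1) → ℝ => y 0) ⁻¹' U) (fun _ => s) := by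
    funext y
    by_cases h : y 0 ∈ U <;> simp [fs, indicator, h]
  have hm : MeasurableSet ((fun y : Fin (e+1) → ℝ => y 0) ⁻¹' U) :=
    (hU.preimage (continuous_apply 0)).measurableSet
  rw [h1, setIntegral_indicator hm, setIntegral_const, smul_eq_mul]
  congr 1
  have h2 : D e ∩ (fun y : Fin (e+1) → ℝ => y 0) ⁻¹' U =
      Set.pi univ (Fin.cons (A ∩ U) (fun _ => Ioo (0:ℝ) 1) : Fin (e+1) → Set ℝ) := by
    ext y
    simp only [D, mem_inter_iff, Set.mem_pi, mem_univ, forall_true_left, mem_preimage, Fin.forall_fin_succ,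
      Fin.cons_zero, Fin.cons_succ]
    tauto
  rw [measureReal_def, h2, vol_pi, vol_inter U hU1]

lemma err_ge (k n g : ℕ) (hg : 1 ≤ g) (hn : 2 * n ≤ 2 ^ g) :
    ENNReal.ofReal (1 / (2 * (((g:ℝ) + 1) * ((g:ℝ) + 2)))) ≤ err (e+1) k n (D e) := by
  classical
  unfold err
  refine le_iInf fun x => le_iInf fun φ => ?_
  have hd := dl_pos g
  let idx : ℝ → ℕ := fun t => ⌊(t - W (g+1)) / dl g⌋₊
  have hidx : ∀ i t, t ∈ Ioo (p g i) (p g (i+1)) → idx t = i := by
    intro i t ht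
    simp only [idx]
    rw [Nat.floor_eq_iff (by
      have := ht.1
      unfold p at this
      have h0 : (0:ℝ) ≤ i * dl g := by positivity
      have : 0 ≤ t - W (g+1) := by linarith
      positivity)]
    have h1 := ht.1; have h2 := ht.2
    unfold p at h1 h2
    push_cast at h2
    constructor
    · rw [le_div_iff₀ hd]; linarith
    · rw [div_lt_iff₀ hd]; linarith
  let hit : Finset ℕ := Finset.univ.image (fun k : Fin n => idx ((x k : Fin (e+1) → ℝ) 0))
  have hhit : hit.card ≤ n := (Finset.card_image_le).trans (by simp)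
  let un : Finset ℕ := Finset.range (2 ^ g) \ hit
  have hun : 2 ^ g - n ≤ un.card := by
    have := Finset.le_card_sdiff hit (Finset.range (2 ^ g))
    rw [Finset.card_range] at this
    change 2 ^ g - n ≤ (Finset.range (2 ^ g) \ hit).card
    omega
  let U : Set ℝ := ⋃ i ∈ un, Ioo (p g i) (p g (i+1))
  let C : Set ℝ := ⋃ i ∈ un, Icc (p g i) (p g (i+1))
  have hUo : IsOpen U := isOpen_biUnion fun _ _ => isOpen_Ioo
  have hCc : IsClosed C := by
    apply Set.Finite.isClosed_biUnion (Finset.finite_toSet un)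
    intro i _; exact isClosed_Icc
  have hUC : U ⊆ C := iUnion₂_mono fun i _ => Ioo_subset_Icc_self
  have hlt : ∀ i ∈ un, i < 2 ^ g := fun i hi => Finset.mem_range.mp (Finset.mem_sdiff.mp hi).1
  have hU1 : U ⊆ Ioo 0 1 := by
    intro t ht
    obtain ⟨i, hi, h1, h2⟩ := mem_iUnion₂.mp ht
    refine ⟨(p_pos g i).trans h1, h2.trans_le ?_⟩
    calc p g (i+1) ≤ p g (2 ^ g) := p_mono (by have := hlt i hi; omega)
      _ = W g := p_top g
      _ ≤ 1 := W_le_one g
  have hp : ∀ i ≤ 2 ^ g, p g i ∈ R0 := by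
    intro i hi
    rcases hi.lt_or_eq with h | h
    · exact Or.inr ⟨_, T_eq h⟩
    · rw [h, p_top]
      obtain ⟨g', rfl⟩ : ∃ g', g = g' + 1 := ⟨g - 1, by omega⟩
      rw [← p_zero]
      exact Or.inr ⟨_, T_eq (by positivity)⟩
  have hCA : ∀ t ∈ A, t ∈ C → t ∈ U := by
    intro t htA htC
    obtain ⟨i, hi, h1, h2⟩ := mem_iUnion₂.mp htC
    have hi2 := hlt i hi
    refine mem_iUnion₂.mpr ⟨i, hi, lt_of_le_of_ne h1 ?_, lt_of_le_of_ne h2 ?_⟩
    · intro h; exact htA.2 (h ▸ hp i hi2.le)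
    · intro h; exact htA.2 (h ▸ hp (i+1) hi2)
  have hvol : volume U = ENNReal.ofReal (un.card * dl g) := by
    rw [measure_biUnion_finset]
    · have : ∀ i ∈ un, volume (Ioo (p g i) (p g (i+1))) = ENNReal.ofReal (dl g) := by
        intro i _
        rw [Real.volume_Ioo, p_succ]; congr 1; ring
      rw [Finset.sum_congr rfl this, Finset.sum_const, nsmul_eq_mul,
        ENNReal.ofReal_mul (Nat.cast_nonneg _), ENNReal.ofReal_natCast]
    · intro i _ j _ hij
      rw [Function.onFun, Set.disjoint_left]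
      intro t h1 h2
      exact hij ((hidx i t h1).symm.trans (hidx j t h2))
    · intro i _; exact measurableSet_Ioo
  have hval : ∀ (s : ℝ) (i : Fin n), fs e U s (x i) = 0 := by
    intro s i
    unfold fs
    rw [if_neg]
    intro h
    obtain ⟨j, hj, h1⟩ := mem_iUnion₂.mp h
    have h2 := hidx j _ h1
    apply (Finset.mem_sdiff.mp hj).2
    exact Finset.mem_image.mpr ⟨i, Finset.mem_univ _, h2⟩
  set a : ℝ := (volume U).toReal with ha
  have ha2 : 1 / (2 * (((g:ℝ) + 1) * ((g:ℝ) + 2))) ≤ a := by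
    rw [ha, hvol, ENNReal.toReal_ofReal (by positivity)]
    have h1 : (2:ℝ) ^ g ≤ 2 * un.card := by
      have : 2 ^ g ≤ 2 * un.card := by omega
      exact_mod_cast this
    have h2 : 1 / (2 * (((g:ℝ) + 1) * ((g:ℝ) + 2))) = 2 ^ g / 2 * dl g := by
      unfold dl; rw [W_sub]; field_simp
    rw [h2]
    apply mul_le_mul_of_nonneg_right _ hd.le
    linarith
  have h1 : fs e U 1 ∈ Cls (e+1) k (D e) := mem_cls e hUo hCc hUC hCA (by simp)
  have h2 : fs e U (-1) ∈ Cls (e+1) k (D e) := mem_cls e hUo hCc hUC hCA (by simp)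
  have e1 := integral_fs e hUo hU1 1
  have e2 := integral_fs e hUo hU1 (-1)
  set b : ℝ := φ (fun _ => 0) with hb
  rcases le_total b 0 with hb0 | hb0
  · refine le_trans (ENNReal.ofReal_le_ofReal ?_) (le_iSup₂ (f := fun f (_ : f ∈ Cls (e+1) k (D e)) =>
      ENNReal.ofReal |(∫ y in D e, f y) - φ (fun i => f (x i))|) (fs e U 1) h1)
    simp only [hval, e1]
    rw [← hb]
    refine ha2.trans ((?_ : a ≤ a * 1 - b).trans (le_abs_self _))
    linarith
  · refine le_trans (ENNReal.ofReal_le_ofReal ?_) (le_iSup₂ (f := fun f (_ : f ∈ Cls (e+1) k (D e)) =>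
      ENNReal.ofReal |(∫ y in D e, f y) - φ (fun i => f (x i))|) (fs e U (-1)) h2)
    simp only [hval, e2]
    rw [← hb]
    refine ha2.trans ((?_ : a ≤ -(a * (-1) - b)).trans (neg_le_abs _))
    linarith

/-! ### the limit -/

lemma growth {a : ℝ} (ha : 0 < a) :
    Tendsto (fun n : ℕ => (n:ℝ) ^ a / (72 * (Real.log n) ^ 2)) atTop atTop := by
  have h1 : (fun x : ℝ => Real.log x ^ (2:ℝ)) =o[atTop] fun x => x ^ a :=
    isLittleO_log_rpow_rpow_atTop 2 ha
  have h2 : Tendsto (fun x : ℝ => Real.log x ^ (2:ℝ) / x ^ a) atTop (𝓝 0) := h1.tendsto_div_nhds_zero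
  have h3 : Tendsto (fun x : ℝ => (Real.log x ^ (2:ℝ) / x ^ a)⁻¹) atTop atTop := by
    apply Tendsto.inv_tendsto_nhdsGT_zero
    rw [tendsto_nhdsWithin_iff]
    refine ⟨h2, ?_⟩
    filter_upwards [eventually_gt_atTop 1] with x hx
    have := Real.log_pos hx
    have : 0 < x := by linarith
    exact mem_Ioi.mpr (by positivity)
  have h4 := (h3.const_mul_atTop (show (0:ℝ) < 1/72 by norm_num)).comp tendsto_natCast_atTop_atTop
  refine h4.congr fun n => ?_
  simp only [Function.comp]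
  rw [inv_div, Real.rpow_two]
  ring

lemma main (e k : ℕ) (hk : 1 ≤ k) :
    Tendsto (fun n : ℕ => err (e+1) k n (D e) * ENNReal.ofReal ((n:ℝ) ^ ((k:ℝ) / ((e+1 : ℕ):ℝ))))
      atTop (𝓝 ⊤) := by
  have ha : (0:ℝ) < (k:ℝ) / ((e+1 : ℕ):ℝ) := by
    have : (0:ℝ) < k := by exact_mod_cast hk
    positivity
  set a : ℝ := (k:ℝ) / ((e+1 : ℕ):ℝ)
  have h1 : Tendsto (fun n : ℕ => ENNReal.ofReal ((n:ℝ) ^ a / (72 * (Real.log n) ^ 2))) atTop (𝓝 ⊤) :=
    ENNReal.tendsto_ofReal_nhds_top.mpr (growth ha)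
  refine tendsto_nhds_top_mono h1 ?_
  filter_upwards [eventually_ge_atTop 3] with n hn
  have hn0 : (0:ℝ) < n := by
    have : 0 < n := by omega
    exact_mod_cast this
  have hlog : 1 ≤ Real.log n := by
    rw [Real.le_log_iff_exp_le hn0]
    have h3 : (3:ℝ) ≤ n := by exact_mod_cast hn
    linarith [Real.exp_one_lt_d9]
  set g : ℕ := Nat.log 2 n + 2 with hg
  have h2 : 2 * n ≤ 2 ^ g := by
    have := Nat.lt_pow_succ_log_self (b := 2) (by norm_num) n
    rw [hg]
    have e1 : 2 ^ (Nat.log 2 n + 2) = 2 * 2 ^ (Nat.log 2 n + 1) := by ring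
    rw [e1]; omega
  have h3 := err_ge e k n g (by omega) h2
  have h4 : (Nat.log 2 n : ℝ) ≤ 1.4427 * Real.log n := by
    have h5 : (Nat.log 2 n : ℝ) * Real.log 2 ≤ Real.log n := by
      have h6 : ((2 ^ Nat.log 2 n : ℕ) : ℝ) ≤ n := by
        exact_mod_cast Nat.pow_log_le_self 2 (by omega)
      have h7 := Real.log_le_log (by positivity) h6
      push_cast at h7
      rwa [Real.log_pow] at h7
    have h8 := Real.log_two_gt_d9
    have h9 : (0:ℝ) ≤ Nat.log 2 n := Nat.cast_nonneg _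
    nlinarith
  have hgr : (g:ℝ) = Nat.log 2 n + 2 := by rw [hg]; push_cast; ring
  have h5 : ((g:ℝ) + 1) * ((g:ℝ) + 2) ≤ 36 * (Real.log n) ^ 2 := by
    have b1 : (g:ℝ) + 1 ≤ 6 * Real.log n := by rw [hgr]; linarith
    have b2 : (g:ℝ) + 2 ≤ 6 * Real.log n := by rw [hgr]; linarith
    have b3 : (0:ℝ) ≤ g := Nat.cast_nonneg _
    nlinarith
  calc ENNReal.ofReal ((n:ℝ) ^ a / (72 * (Real.log n) ^ 2))
      ≤ ENNReal.ofReal (1 / (2 * (((g:ℝ) + 1) * ((g:ℝ) + 2))) * (n:ℝ) ^ a) := by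
        apply ENNReal.ofReal_le_ofReal
        rw [div_eq_mul_one_div, mul_comm]
        apply mul_le_mul_of_nonneg_right _ (by positivity)
        apply one_div_le_one_div_of_le (by positivity)
        linarith
    _ = ENNReal.ofReal (1 / (2 * (((g:ℝ) + 1) * ((g:ℝ) + 2)))) * ENNReal.ofReal ((n:ℝ) ^ a) :=
        ENNReal.ofReal_mul (by positivity)
    _ ≤ _ := mul_le_mul_left h3 _

end Pool.Agent.H3.JM
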