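import Mathlib

set_option autoImplicit false

namespace Pool.Agent.H3.Kirch

open Classical in
/-- Some affine hyperplane `{x | f x = c}` (with `f` a nonzero linear functional) has all of `P`
strictly on one side and all of `Q` strictly on the other side. -/
def Separated {d : ℕ} (P Q : Finset (EuclideanSpace ℝ (Fin d))) : Prop :=
  ∃ (f : EuclideanSpace ℝ (Fin d) →ₗ[ℝ] ℝ) (c : ℝ), f ≠ 0 ∧ (∀ p ∈ P, f p < c) ∧ ∀ q ∈ Q, c < f q

/-- General position: no `d + 1` points of `X` lie on a common affine hyperplane; when `X` has at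
most `d` points (so that this is vacuous) we ask, as usual, that `X` is affinely independent. -/
def GeneralPosition {d : ℕ} (X : Finset (EuclideanSpace ℝ (Fin d))) : Prop :=
  (∀ T ⊆ X, T.card = d + 1 →
    ¬ ∃ (f : EuclideanSpace ℝ (Fin d) →ₗ[ℝ] ℝ) (c : ℝ), f ≠ 0 ∧ ∀ x ∈ T, f x = c) ∧
  (X.card ≤ d → AffineIndependent ℝ (Subtype.val : X → EuclideanSpace ℝ (Fin d)))

open Classical in
/-- The `(d + 2)`-element subsets `S` of `A ∪ B` such that some hyperplane separates `A ∩ S` from
`B ∩ S`. -/
noncomputable def goodSets {d : ℕ} (A B : Finset (EuclideanSpace ℝ (Fin d))) :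
    Finset (Finset (EuclideanSpace ℝ (Fin d))) :=
  ((A ∪ B).powersetCard (d + 2)).filter fun S => Separated (A ∩ S) (B ∩ S)

end Pool.Agent.H3.Kirch
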