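import Mathlib
import Pool.Agent.H3.KirchDefs
import Pool.Agent.H3.Colorful

set_option autoImplicit false

namespace Pool.Agent.H3.Kirch

open Module Classical

variable {d : ℕ}

abbrev E (d : ℕ) := EuclideanSpace ℝ (Fin d)

abbrev V (d : ℕ) := WithLp 2 (E d × ℝ)

lemma finrank_V : finrank ℝ (V d) = d + 1 := by
  rw [(WithLp.linearEquiv 2 ℝ (E d × ℝ)).finrank_eq, Module.finrank_prod,
    finrank_euclideanSpace_fin, Module.finrank_self]

noncomputable def lft (A : Finset (E d)) (x : E d) : V d :=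
  (if x ∈ A then (1:ℝ) else -1) • WithLp.toLp 2 (x, (1:ℝ))

lemma exists_functional (hd : 1 ≤ d) : ∃ f : E d →ₗ[ℝ] ℝ, f ≠ 0 := by
  refine ⟨(EuclideanSpace.proj (⟨0, hd⟩ : Fin d) : E d →L[ℝ] ℝ).toLinearMap, ?_⟩
  intro h
  have := LinearMap.congr_fun h (EuclideanSpace.single (⟨0, hd⟩ : Fin d) (1:ℝ))
  simp at this

lemma sep_empty_left (hd : 1 ≤ d) (Q : Finset (E d)) : Separated ∅ Q := by
  obtain ⟨f, hf⟩ := exists_functional hd
  obtain ⟨c, hc⟩ := (Q.finite_toSet.image f).bddBelow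
  refine ⟨f, c - 1, hf, by simp, ?_⟩
  intro q hq
  have := hc ⟨q, hq, rfl⟩
  linarith

lemma sep_empty_right (hd : 1 ≤ d) (P : Finset (E d)) : Separated P ∅ := by
  obtain ⟨f, hf⟩ := exists_functional hd
  obtain ⟨c, hc⟩ := (P.finite_toSet.image f).bddAbove
  refine ⟨f, c + 1, hf, ?_, by simp⟩
  intro q hq
  have := hc ⟨q, hq, rfl⟩
  linarith

lemma hb {W : Type} [NormedAddCommGroup W] [NormedSpace ℝ W] (S : Set W) (hS : S.Finite)
    (h : (0 : W) ∉ convexHull ℝ S) : ∃ F : W →L[ℝ] ℝ, ∀ x ∈ S, 0 < F x := by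
  obtain ⟨F, u, h0, hF⟩ := geometric_hahn_banach_point_closed (convex_convexHull ℝ _)
    ((hS.isCompact_convexHull ℝ).isClosed) h
  rw [map_zero] at h0
  exact ⟨F, fun x hx => h0.trans (hF _ (subset_convexHull ℝ _ hx))⟩

set_option synthInstance.maxHeartbeats 400000 in
lemma sep_of_not_mem (hd : 1 ≤ d) (A B S : Finset (E d)) (hAB : Disjoint A B)
    (h : (0 : V d) ∉ convexHull ℝ (lft A '' (S : Set (E d)))) : Separated (A ∩ S) (B ∩ S) := by
  obtain ⟨F, hF⟩ := hb _ (S.finite_toSet.image (lft A)) h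
  have hpos : ∀ x ∈ S, 0 < F (lft A x) := fun x hx => hF _ ⟨x, hx, rfl⟩
  set c0 : ℝ := F (WithLp.toLp 2 ((0 : E d), (1:ℝ))) with hc0
  let f : E d →ₗ[ℝ] ℝ := F.toLinearMap.comp
    ((WithLp.linearEquiv 2 ℝ (E d × ℝ)).symm.toLinearMap.comp (LinearMap.inl ℝ (E d) ℝ))
  have hsplit : ∀ x : E d, F (WithLp.toLp 2 (x, (1:ℝ))) = f x + c0 := by
    intro x
    have h1 : (WithLp.linearEquiv 2 ℝ (E d × ℝ)).symm (x, (1:ℝ)) =
      (WithLp.linearEquiv 2 ℝ (E d × ℝ)).symm (x, (0:ℝ)) +
        (WithLp.linearEquiv 2 ℝ (E d × ℝ)).symm ((0 : E d), (1:ℝ)) := by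
      rw [← LinearEquiv.map_add, Prod.mk_add_mk, add_zero, zero_add]
    have h2 := congrArg F h1
    rw [map_add] at h2
    exact h2
  have hA : ∀ x ∈ A ∩ S, 0 < f x + c0 := by
    intro x hx
    rw [Finset.mem_inter] at hx
    have := hpos x hx.2
    rw [lft, if_pos hx.1, one_smul, hsplit] at this
    exact this
  have hB : ∀ x ∈ B ∩ S, f x + c0 < 0 := by
    intro x hx
    rw [Finset.mem_inter] at hx
    have := hpos x hx.2
    have hxA : x ∉ A := fun h => Finset.disjoint_left.1 hAB h hx.1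
    rw [lft, if_neg hxA, neg_smul, one_smul, map_neg, hsplit] at this
    linarith
  by_cases hf : f = 0
  · by_cases hc : 0 < c0
    · have : B ∩ S = ∅ := by
        rw [Finset.eq_empty_iff_forall_notMem]
        intro x hx
        have := hB x hx
        rw [hf, LinearMap.zero_apply] at this
        linarith
      rw [this]
      exact sep_empty_right hd _
    · have : A ∩ S = ∅ := by
        rw [Finset.eq_empty_iff_forall_notMem]
        intro x hx
        have := hA x hx
        rw [hf, LinearMap.zero_apply] at this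
        linarith
      rw [this]
      exact sep_empty_left hd _
  · refine ⟨-f, c0, neg_ne_zero.2 hf, ?_, ?_⟩
    · intro p hp
      have := hA p hp
      rw [LinearMap.neg_apply]
      linarith
    · intro p hp
      have := hB p hp
      rw [LinearMap.neg_apply]
      linarith

lemma not_mem_of_sep (A B S : Finset (E d)) (hS : S ⊆ A ∪ B)
    (h : Separated (A ∩ S) (B ∩ S)) : (0 : V d) ∉ convexHull ℝ (lft A '' (S : Set (E d))) := by
  obtain ⟨f, c, hf, h1, h2⟩ := h
  let G : V d →ₗ[ℝ] ℝ := (f.coprod (-(c • LinearMap.id))).comp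
    (WithLp.linearEquiv 2 ℝ (E d × ℝ)).toLinearMap
  have hG : ∀ x : E d, G (WithLp.toLp 2 (x, (1:ℝ))) = f x - c := by
    intro x
    simp [G]
    ring
  intro h0
  have hsub : convexHull ℝ (lft A '' (S : Set (E d))) ⊆ {y | G y < 0} := by
    apply convexHull_min
    · rintro _ ⟨x, hx, rfl⟩
      show G (lft A x) < 0
      rw [lft, map_smul, hG, smul_eq_mul]
      by_cases hxA : x ∈ A
      · rw [if_pos hxA]
        have := h1 x (Finset.mem_inter.2 ⟨hxA, hx⟩)
        linarith
      · rw [if_neg hxA]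
        have hxB : x ∈ B := by
          rcases Finset.mem_union.1 (hS hx) with h | h
          · exact absurd h hxA
          · exact h
        have := h2 x (Finset.mem_inter.2 ⟨hxB, hx⟩)
        linarith
    · exact convex_halfSpace_lt G.isLinear 0
  have := hsub h0
  have h2 : G 0 < 0 := this
  rw [map_zero] at h2
  exact lt_irrefl _ h2

/-- bad sets -/
noncomputable def bad (A B : Finset (E d)) : Finset (Finset (E d)) :=
  ((A ∪ B).powersetCard (d + 2)).filter fun S => ¬ Separated (A ∩ S) (B ∩ S)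

lemma mem_bad (hd : 1 ≤ d) {A B S : Finset (E d)} (hAB : Disjoint A B) :
    S ∈ bad A B ↔ S ⊆ A ∪ B ∧ S.card = d + 2 ∧
      (0 : V d) ∈ convexHull ℝ (lft A '' (S : Set (E d))) := by
  rw [bad, Finset.mem_filter, Finset.mem_powersetCard, and_assoc]
  constructor
  · rintro ⟨h1, h2, h3⟩
    refine ⟨h1, h2, ?_⟩
    by_contra h4
    exact h3 (sep_of_not_mem hd A B S hAB h4)
  · rintro ⟨h1, h2, h3⟩
    exact ⟨h1, h2, fun h4 => not_mem_of_sep A B S h1 h4 h3⟩

lemma card_good_add_bad (A B : Finset (E d)) (N : ℕ) (hAB : Disjoint A B) (hA : A.card = N)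
    (hB : B.card = N) : (goodSets A B).card + (bad A B).card = (2 * N).choose (d + 2) := by
  rw [goodSets, bad, Finset.card_filter_add_card_filter_not, Finset.card_powersetCard,
    Finset.card_union_of_disjoint hAB, hA, hB]
  congr 1
  ring

lemma rainbow (hd : 1 ≤ d) {A B : Finset (E d)} (hAB : Disjoint A B) (F : Finset (Finset (E d)))
    (hF : F ⊆ bad A B) (hdis : ∀ S ∈ F, ∀ T ∈ F, ∀ x, x ∈ S → x ∈ T → S = T)
    (I : Finset (Finset (E d))) (hI : I ⊆ F) (hcard : I.card = d + 2) :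
    ∃ T ∈ bad A B, ∀ S ∈ F, S ∈ I ↔ ∃ x ∈ T, x ∈ S := by
  have hI' : Fintype.card I = finrank ℝ (V d) + 1 := by
    rw [finrank_V, Fintype.card_coe, hcard]
  obtain ⟨v, hv, h0⟩ := Pool.Agent.H3.Colorful.colorful hI' (fun i => (i.1).image (lft A)) (by
    intro i
    have := ((mem_bad hd hAB).1 (hF (hI i.2))).2.2
    rw [Finset.coe_image]
    exact this)
  have hs : ∀ i : I, ∃ x ∈ i.1, lft A x = v i := by
    intro i
    have := hv i
    rw [Finset.mem_image] at this
    exact this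
  choose s hs1 hs2 using hs
  have hinj : Function.Injective s := by
    intro i j hij
    apply Subtype.ext
    exact hdis _ (hI i.2) _ (hI j.2) (s i) (hs1 i) (hij ▸ hs1 j)
  refine ⟨Finset.univ.image s, ?_, ?_⟩
  · rw [mem_bad hd hAB]
    refine ⟨?_, ?_, ?_⟩
    · intro x hx
      rw [Finset.mem_image] at hx
      obtain ⟨i, _, rfl⟩ := hx
      exact ((mem_bad hd hAB).1 (hF (hI i.2))).1 (hs1 i)
    · rw [Finset.card_image_of_injective _ hinj, Finset.card_univ, Fintype.card_coe, hcard]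
    · have : lft A '' ((Finset.univ.image s : Finset (E d)) : Set (E d)) = Set.range v := by
        ext y
        constructor
        · rintro ⟨x, hx, rfl⟩
          rw [Finset.mem_coe, Finset.mem_image] at hx
          obtain ⟨i, _, rfl⟩ := hx
          exact ⟨i, (hs2 i).symm⟩
        · rintro ⟨i, rfl⟩
          refine ⟨s i, ?_, hs2 i⟩
          rw [Finset.mem_coe, Finset.mem_image]
          exact ⟨i, Finset.mem_univ _, rfl⟩
      rw [this]
      exact h0
  · intro S hS
    constructor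
    · intro hSI
      exact ⟨s ⟨S, hSI⟩, Finset.mem_image.2 ⟨_, Finset.mem_univ _, rfl⟩, hs1 ⟨S, hSI⟩⟩
    · rintro ⟨x, hx, hxS⟩
      rw [Finset.mem_image] at hx
      obtain ⟨i, _, rfl⟩ := hx
      have : S = i.1 := hdis S hS _ (hI i.2) _ hxS (hs1 i)
      rw [this]
      exact i.2

lemma choose_le_bad (hd : 1 ≤ d) {A B : Finset (E d)} (hAB : Disjoint A B)
    (F : Finset (Finset (E d)))
    (hF : F ⊆ bad A B) (hdis : ∀ S ∈ F, ∀ T ∈ F, ∀ x, x ∈ S → x ∈ T → S = T) :
    F.card.choose (d + 2) ≤ (bad A B).card := by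
  rw [← Finset.card_powersetCard]
  have key : ∀ I : Finset (Finset (E d)), ∃ T : Finset (E d), I ∈ F.powersetCard (d + 2) →
      (T ∈ bad A B ∧ ∀ S ∈ F, S ∈ I ↔ ∃ x ∈ T, x ∈ S) := by
    intro I
    by_cases hI : I ∈ F.powersetCard (d + 2)
    · rw [Finset.mem_powersetCard] at hI
      obtain ⟨T, hT1, hT2⟩ := rainbow hd hAB F hF hdis I hI.1 hI.2
      exact ⟨T, fun _ => ⟨hT1, hT2⟩⟩
    · exact ⟨∅, fun h => absurd h hI⟩
  choose Φ hΦ using key
  apply Finset.card_le_card_of_injOn Φ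
  · intro I hI
    exact (hΦ I hI).1
  · intro I hI J hJ hIJ
    have h1 := (hΦ I hI).2
    have h2 := (hΦ J hJ).2
    have hI' := (Finset.mem_powersetCard.1 hI).1
    have hJ' := (Finset.mem_powersetCard.1 hJ).1
    ext S
    constructor
    · intro hS
      rw [h2 S (hI' hS), ← hIJ, ← h1 S (hI' hS)]
      exact hS
    · intro hS
      rw [h1 S (hJ' hS), hIJ, ← h2 S (hJ' hS)]
      exact hS

lemma exists_max_family (A B : Finset (E d)) :
    ∃ F : Finset (Finset (E d)), F ⊆ bad A B ∧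
      (∀ S ∈ F, ∀ T ∈ F, ∀ x, x ∈ S → x ∈ T → S = T) ∧
      ∀ S ∈ bad A B, ∃ T ∈ F, ∃ x ∈ S, x ∈ T := by
  set P : Finset (Finset (E d)) → Prop := fun F =>
    (∀ S ∈ F, ∀ T ∈ F, ∀ x, x ∈ S → x ∈ T → S = T) with hP
  have hne : ((bad A B).powerset.filter P).Nonempty :=
    ⟨∅, by rw [Finset.mem_filter]; exact ⟨by simp, by intro S hS; simp at hS⟩⟩
  obtain ⟨F, hF, hmax⟩ := Finset.exists_max_image _ Finset.card hne
  rw [Finset.mem_filter, Finset.mem_powerset] at hF
  refine ⟨F, hF.1, hF.2, ?_⟩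
  intro S hS
  by_contra hcon
  push Not at hcon
  have hSne : S.Nonempty := by
    rw [bad, Finset.mem_filter, Finset.mem_powersetCard] at hS
    rw [← Finset.card_pos, hS.1.2]
    omega
  have hSF : S ∉ F := by
    intro h
    obtain ⟨x, hx⟩ := hSne
    exact hcon S h x hx hx
  have h1 : insert S F ∈ (bad A B).powerset.filter P := by
    rw [Finset.mem_filter, Finset.mem_powerset]
    refine ⟨Finset.insert_subset hS hF.1, ?_⟩
    intro T hT T' hT' x hx hx'
    rw [Finset.mem_insert] at hT hT'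
    rcases hT with rfl | hT <;> rcases hT' with rfl | hT'
    · rfl
    · exact absurd hx' (hcon T' hT' x hx)
    · exact absurd hx (hcon T hT x hx')
    · exact hF.2 T hT T' hT' x hx hx'
  have h2 := hmax _ h1
  rw [Finset.card_insert_of_notMem hSF] at h2
  omega

/-- Caratheodory: if `R` is not separated and has at least `d+2` points it contains a bad set. -/
lemma exists_bad (hd : 1 ≤ d) {A B R : Finset (E d)} (hAB : Disjoint A B) (hR : R ⊆ A ∪ B)
    (hcard : d + 2 ≤ R.card) (h : ¬ Separated (A ∩ R) (B ∩ R)) :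
    ∃ S ∈ bad A B, S ⊆ R := by
  have h0 : (0 : V d) ∈ convexHull ℝ (lft A '' (R : Set (E d))) := by
    by_contra h4
    exact h (sep_of_not_mem hd A B R hAB h4)
  rw [convexHull_eq_union] at h0
  simp only [Set.mem_iUnion, exists_prop] at h0
  obtain ⟨t, ht1, ht2, ht3⟩ := h0
  have htc : t.card ≤ d + 2 := by
    have := ht2.card_le_finrank_succ
    rw [Fintype.card_coe] at this
    have h3 : finrank ℝ (vectorSpan ℝ (Set.range ((↑) : t → V d))) ≤ finrank ℝ (V d) :=
      Submodule.finrank_le _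
    rw [finrank_V] at h3
    omega
  have hpre : ∀ y : t, ∃ x ∈ R, lft A x = y := by
    intro y
    obtain ⟨x, hx, hxy⟩ := ht1 y.2
    exact ⟨x, hx, hxy⟩
  choose s hs1 hs2 using hpre
  set R' : Finset (E d) := Finset.univ.image s with hR'
  have hR'sub : R' ⊆ R := by
    intro x hx
    rw [hR', Finset.mem_image] at hx
    obtain ⟨i, _, rfl⟩ := hx
    exact hs1 i
  have hR'c : R'.card ≤ d + 2 := by
    refine le_trans Finset.card_image_le ?_
    rw [Finset.card_univ, Fintype.card_coe]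
    exact htc
  obtain ⟨S, hS1, hS2, hS3⟩ := Finset.exists_subsuperset_card_eq hR'sub hR'c hcard
  refine ⟨S, ?_, hS2⟩
  rw [mem_bad hd hAB]
  refine ⟨hS2.trans hR, hS3, ?_⟩
  refine convexHull_mono ?_ ht3
  intro y hy
  refine ⟨s ⟨y, hy⟩, hS1 ?_, hs2 ⟨y, hy⟩⟩
  rw [hR', Finset.mem_image]
  exact ⟨_, Finset.mem_univ _, rfl⟩

end Pool.Agent.H3.Kirch
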