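import Mathlib
import Pool.Agent.H3.KirchDefs
import Pool.Agent.H3.Kirch

set_option autoImplicit false

namespace Pool.Agent.H3.Kirch

open Module Classical

variable {d : ℕ}

lemma sep_of_affineIndependent (hd : 1 ≤ d) (A B : Finset (E d)) (hAB : Disjoint A B)
    (h : AffineIndependent ℝ (Subtype.val : (A ∪ B : Finset (E d)) → E d)) : Separated A B := by
  by_cases hA : A = ∅
  · subst hA; exact sep_empty_left hd _
  by_cases hB : B = ∅
  · subst hB; exact sep_empty_right hd _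
  obtain ⟨a, ha⟩ := Finset.nonempty_iff_ne_empty.2 hA
  obtain ⟨b, hb⟩ := Finset.nonempty_iff_ne_empty.2 hB
  have hdisj : Disjoint (convexHull ℝ (A : Set (E d))) (convexHull ℝ (B : Set (E d))) := by
    rw [Set.disjoint_iff_inter_eq_empty]
    have h1 := h.convexHull_inter (t₁ := A) (t₂ := B) Finset.subset_union_left
      Finset.subset_union_right
    rw [← h1]
    have h2 : ((A : Set (E d)) ∩ (B : Set (E d))) = ∅ := by
      rw [← Finset.coe_inter, Finset.disjoint_iff_inter_eq_empty.1 hAB, Finset.coe_empty]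
    rw [h2, convexHull_empty]
  obtain ⟨f, u, v, h1, h2, h3⟩ := geometric_hahn_banach_compact_closed (convex_convexHull ℝ _)
    (A.finite_toSet.isCompact_convexHull ℝ) (convex_convexHull ℝ _)
    ((B.finite_toSet.isCompact_convexHull ℝ).isClosed) hdisj
  have h1' : ∀ p ∈ A, f p < u := fun p hp => h1 p (subset_convexHull ℝ _ hp)
  have h3' : ∀ p ∈ B, v < f p := fun p hp => h3 p (subset_convexHull ℝ _ hp)
  refine ⟨f.toLinearMap, u, ?_, h1', fun p hp => h2.trans (h3' p hp)⟩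
  intro h0
  have e1 : f a = 0 := LinearMap.congr_fun h0 a
  have e2 : f b = 0 := LinearMap.congr_fun h0 b
  have := h1' a ha
  have := h3' b hb
  linarith

lemma affineIndependent_of_gp {X : Finset (E d)} (hX : GeneralPosition X)
    (hc : X.card ≤ d + 1) : AffineIndependent ℝ (Subtype.val : X → E d) := by
  rcases Nat.lt_or_ge X.card (d + 1) with h | h
  · exact hX.2 (by omega)
  have hc' : Fintype.card X = d + 1 := by rw [Fintype.card_coe]; omega
  rw [affineIndependent_iff_le_finrank_vectorSpan ℝ _ hc']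
  by_contra hlt
  push Not at hlt
  apply hX.1 X subset_rfl (by omega)
  set W := vectorSpan ℝ (Set.range (Subtype.val : X → E d)) with hW
  have hWtop : W ≠ ⊤ := by
    intro h
    rw [h, finrank_top, finrank_euclideanSpace_fin] at hlt
    exact lt_irrefl _ hlt
  obtain ⟨f, hf, hfW⟩ := Submodule.exists_le_ker_of_lt_top W (lt_top_iff_ne_top.2 hWtop)
  obtain ⟨x0, hx0⟩ : X.Nonempty := by rw [← Finset.card_pos]; omega
  refine ⟨f, f x0, hf, ?_⟩
  intro x hx
  have h1 : x -ᵥ x0 ∈ W := vsub_mem_vectorSpan ℝ ⟨⟨x, hx⟩, rfl⟩ ⟨⟨x0, hx0⟩, rfl⟩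
  have h2 := hfW h1
  rw [LinearMap.mem_ker, vsub_eq_sub, map_sub] at h2
  linarith

lemma m_bound (k m n : ℕ) (hk : 1 ≤ k) (ε x : ℝ) (hx : 0 ≤ x) (hxe : x ^ k = ε) (b : ℕ)
    (h1 : m.choose k ≤ b) (h2 : 1 ≤ m → 1 ≤ b) (h3 : (b : ℝ) ≤ ε * n.choose k) :
    (m : ℝ) ≤ k * (n * x) := by
  have hkpos : (0:ℝ) < k := by exact_mod_cast hk
  have hnx : 0 ≤ (n:ℝ) * x := by positivity
  have hε : 0 ≤ ε := by rw [← hxe]; positivity
  have hfac : (0:ℝ) < k.factorial := by exact_mod_cast k.factorial_pos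
  have hub : (n.choose k : ℝ) ≤ (n:ℝ) ^ k / k.factorial := Nat.choose_le_pow_div k n
  have hpow : ((n:ℝ) * x) ^ k = ε * (n:ℝ) ^ k := by rw [mul_pow, hxe]; ring
  rcases Nat.eq_zero_or_pos m with rfl | hm
  · rw [Nat.cast_zero]; positivity
  rcases Nat.lt_or_ge m k with hmk | hmk
  · have hb : (1:ℝ) ≤ b := by exact_mod_cast h2 hm
    have h5 : (1:ℝ) ≤ ((n:ℝ) * x) ^ k := by
      rw [hpow]
      have h6 : (n.choose k : ℝ) ≤ (n:ℝ) ^ k := by exact_mod_cast Nat.choose_le_pow n k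
      have := mul_le_mul_of_nonneg_left h6 hε
      linarith
    have h7 : (1:ℝ) ≤ (n:ℝ) * x := by
      by_contra h8
      push Not at h8
      have := pow_lt_one₀ hnx h8 (by omega : k ≠ 0)
      linarith
    have h9 : (m:ℝ) ≤ k := by exact_mod_cast hmk.le
    nlinarith
  · have h5 := Nat.pow_le_choose (α := ℝ) k m
    have hsub : ((m + 1 - k : ℕ) : ℝ) = (m:ℝ) + 1 - k := by
      rw [Nat.cast_sub (by omega)]; push_cast; ring
    have hmk' : (k:ℝ) ≤ m := by exact_mod_cast hmk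
    have hk1 : (1:ℝ) ≤ k := by exact_mod_cast hk
    have h6 : (m:ℝ) / k ≤ ((m + 1 - k : ℕ) : ℝ) := by
      rw [hsub, div_le_iff₀ hkpos]
      nlinarith [mul_nonneg (sub_nonneg.2 hk1) (sub_nonneg.2 hmk')]
    have h7 : ((m:ℝ) / k) ^ k ≤ ((n:ℝ) * x) ^ k := by
      have e1 : ((m:ℝ) / k) ^ k ≤ (((m + 1 - k : ℕ) : ℝ)) ^ k :=
        pow_le_pow_left₀ (by positivity) h6 k
      have e2 : (((m + 1 - k : ℕ) : ℝ)) ^ k / k.factorial ≤ (m.choose k : ℝ) := by
        exact_mod_cast h5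
      have e3 : (m.choose k : ℝ) ≤ b := by exact_mod_cast h1
      have e4 : (((m + 1 - k : ℕ) : ℝ)) ^ k / k.factorial ≤ ε * ((n:ℝ) ^ k / k.factorial) :=
        e2.trans (e3.trans (h3.trans (mul_le_mul_of_nonneg_left hub hε)))
      rw [hpow]
      rw [← mul_div_assoc, div_le_div_iff_of_pos_right hfac] at e4
      exact e1.trans e4
    have h8 : (m:ℝ) / k ≤ (n:ℝ) * x :=
      (pow_le_pow_iff_left₀ (by positivity) hnx (by omega)).1 h7
    rw [div_le_iff₀ hkpos] at h8
    linarith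

theorem main_aux (hd : 1 ≤ d) (ε x : ℝ) (hx : 0 ≤ x) (hxe : x ^ (d + 2) = ε) (N : ℕ)
    (A B : Finset (E d)) (hAB : Disjoint A B) (hA : A.card = N) (hB : B.card = N)
    (hgp : GeneralPosition (A ∪ B))
    (hgood : (1 - ε) * ((2 * N).choose (d + 2) : ℝ) ≤ ((goodSets A B).card : ℝ)) :
    ∃ A' ⊆ A, ∃ B' ⊆ B, Separated A' B' ∧ (1 - 2 * ((d:ℝ) + 2) ^ 2 * x) * N ≤ (A'.card : ℝ) ∧
      (1 - 2 * ((d:ℝ) + 2) ^ 2 * x) * N ≤ (B'.card : ℝ) := by
  obtain ⟨F, hF, hdis, hmax⟩ := exists_max_family A B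
  have hNN : (0:ℝ) ≤ N := Nat.cast_nonneg N
  have hcnt := card_good_add_bad A B N hAB hA hB
  have hbad : ((bad A B).card : ℝ) ≤ ε * ((2 * N).choose (d + 2) : ℝ) := by
    have : ((goodSets A B).card : ℝ) + (bad A B).card = ((2 * N).choose (d + 2) : ℝ) := by
      exact_mod_cast hcnt
    linarith
  have hm := m_bound (d + 2) F.card (2 * N) (by omega) ε x hx hxe (bad A B).card
    (choose_le_bad hd hAB F hF hdis) (fun h => h.trans (Finset.card_le_card hF)) hbad
  push_cast at hm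
  set U : Finset (E d) := F.biUnion id with hU
  have hUcard : U.card = (d + 2) * F.card := by
    rw [hU, Finset.card_biUnion]
    · rw [Finset.sum_congr rfl (g := fun _ => d + 2), Finset.sum_const, smul_eq_mul, mul_comm]
      intro S hS
      have := hF hS
      rw [bad, Finset.mem_filter, Finset.mem_powersetCard] at this
      exact this.1.2
    · intro S hS T hT hST
      show Disjoint S T
      rw [Finset.disjoint_left]
      intro y hy hy'
      exact hST (hdis S hS T hT y hy hy')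
  have hUsub : U ⊆ A ∪ B := by
    intro y hy
    rw [hU, Finset.mem_biUnion] at hy
    obtain ⟨S, hS, hy⟩ := hy
    have := hF hS
    rw [bad, Finset.mem_filter, Finset.mem_powersetCard] at this
    exact this.1.1 hy
  have hXcard : (A ∪ B).card = 2 * N := by
    rw [Finset.card_union_of_disjoint hAB, hA, hB]; ring
  set R : Finset (E d) := (A ∪ B) \ U with hR
  have hRcard : R.card + U.card = 2 * N := by
    rw [hR, Finset.card_sdiff_add_card_eq_card hUsub, hXcard]
  have hRsub : R ⊆ A ∪ B := Finset.sdiff_subset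
  have hUreal : (U.card : ℝ) ≤ 2 * ((d:ℝ) + 2) ^ 2 * x * N := by
    rw [hUcard]
    push_cast
    have hd2 : (0:ℝ) < (d:ℝ) + 2 := by positivity
    have := mul_le_mul_of_nonneg_left hm hd2.le
    nlinarith
  -- sizes
  have hAR : (1 - 2 * ((d:ℝ) + 2) ^ 2 * x) * N ≤ ((A ∩ R).card : ℝ) := by
    have h1 : A.card ≤ (A ∩ R).card + U.card := by
      have h2 : A ⊆ (A ∩ R) ∪ U := by
        intro y hy
        by_cases hyU : y ∈ U
        · exact Finset.mem_union_right _ hyU
        · apply Finset.mem_union_left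
          rw [Finset.mem_inter, hR, Finset.mem_sdiff]
          exact ⟨hy, Finset.mem_union_left _ hy, hyU⟩
      exact (Finset.card_le_card h2).trans (Finset.card_union_le _ _)
    have h3 : (N:ℝ) ≤ ((A ∩ R).card : ℝ) + U.card := by rw [← hA]; exact_mod_cast h1
    linarith
  have hBR : (1 - 2 * ((d:ℝ) + 2) ^ 2 * x) * N ≤ ((B ∩ R).card : ℝ) := by
    have h1 : B.card ≤ (B ∩ R).card + U.card := by
      have h2 : B ⊆ (B ∩ R) ∪ U := by
        intro y hy
        by_cases hyU : y ∈ U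
        · exact Finset.mem_union_right _ hyU
        · apply Finset.mem_union_left
          rw [Finset.mem_inter, hR, Finset.mem_sdiff]
          exact ⟨hy, Finset.mem_union_right _ hy, hyU⟩
      exact (Finset.card_le_card h2).trans (Finset.card_union_le _ _)
    have h3 : (N:ℝ) ≤ ((B ∩ R).card : ℝ) + U.card := by rw [← hB]; exact_mod_cast h1
    linarith
  rcases Nat.lt_or_ge R.card (d + 2) with hlt | hge
  · rcases Nat.eq_zero_or_pos F.card with hF0 | hFpos
    · -- no bad set at all, few points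
      have hU0 : U.card = 0 := by rw [hUcard, hF0, mul_zero]
      have hc : (A ∪ B).card ≤ d + 1 := by omega
      refine ⟨A, subset_rfl, B, subset_rfl,
        sep_of_affineIndependent hd A B hAB (affineIndependent_of_gp hgp hc), ?_, ?_⟩
      · rw [hA]
        have : 0 ≤ 2 * ((d:ℝ) + 2) ^ 2 * x := by positivity
        nlinarith
      · rw [hB]
        have : 0 ≤ 2 * ((d:ℝ) + 2) ^ 2 * x := by positivity
        nlinarith
    · -- huge removal: the bound is trivial
      refine ⟨∅, Finset.empty_subset _, ∅, Finset.empty_subset _, sep_empty_left hd _, ?_⟩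
      have h1 : N ≤ U.card := by
        have h2 : (d + 2) * 1 ≤ (d + 2) * F.card := Nat.mul_le_mul_left _ hFpos
        omega
      have h3 : (N:ℝ) ≤ U.card := by exact_mod_cast h1
      rw [Finset.card_empty, Nat.cast_zero]
      constructor <;> linarith
  · refine ⟨A ∩ R, Finset.inter_subset_left, B ∩ R, Finset.inter_subset_left, ?_, hAR, hBR⟩
    by_contra hns
    obtain ⟨S, hS, hSR⟩ := exists_bad hd hAB hRsub hge hns
    obtain ⟨T, hT, y, hy, hyT⟩ := hmax S hS
    have h1 := hSR hy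
    rw [hR, Finset.mem_sdiff] at h1
    apply h1.2
    rw [hU, Finset.mem_biUnion]
    exact ⟨T, hT, hyT⟩

theorem main (d : ℕ) (hd : 1 ≤ d) : ∃ g : ℝ → ℝ,
    Filter.Tendsto g (nhdsWithin 0 (Set.Ioi 0)) (nhds 0) ∧
    (∀ ε : ℝ, 0 ≤ ε → g ε = 2 * ((d:ℝ) + 2) ^ 2 * ε ^ (1 / ((d:ℝ) + 2))) ∧
    ∀ ε : ℝ, 0 ≤ ε → ∀ (N : ℕ) (A B : Finset (EuclideanSpace ℝ (Fin d))), Disjoint A B →
      A.card = N → B.card = N → GeneralPosition (A ∪ B) →
      (1 - ε) * ((2 * N).choose (d + 2) : ℝ) ≤ ((goodSets A B).card : ℝ) →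
      ∃ A' ⊆ A, ∃ B' ⊆ B, Separated A' B' ∧
        (1 - g ε) * N ≤ (A'.card : ℝ) ∧ (1 - g ε) * N ≤ (B'.card : ℝ) := by
  have hd2 : (0:ℝ) < (d:ℝ) + 2 := by positivity
  have hcast : ((d:ℝ) + 2) = ((d + 2 : ℕ) : ℝ) := by push_cast; ring
  refine ⟨fun ε => 2 * ((d:ℝ) + 2) ^ 2 * ε ^ (1 / ((d:ℝ) + 2)), ?_, fun ε _ => rfl, ?_⟩
  · have h1 : Filter.Tendsto (fun ε : ℝ => 2 * ((d:ℝ) + 2) ^ 2 * ε ^ (1 / ((d:ℝ) + 2)))
        (nhds 0) (nhds (2 * ((d:ℝ) + 2) ^ 2 * (0:ℝ) ^ (1 / ((d:ℝ) + 2)))) := by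
      apply Filter.Tendsto.const_mul
      exact (Real.continuousAt_rpow_const 0 _ (Or.inr (by positivity))).tendsto
    rw [Real.zero_rpow (by positivity), mul_zero] at h1
    exact h1.mono_left nhdsWithin_le_nhds
  · intro ε hε N A B hAB hA hB hgp hgood
    refine main_aux hd ε (ε ^ (1 / ((d:ℝ) + 2))) (Real.rpow_nonneg hε _) ?_ N A B hAB hA hB hgp
      hgood
    rw [hcast, one_div, Real.rpow_inv_natCast_pow hε (by omega)]

end Pool.Agent.H3.Kirch
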