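import Mathlib

set_option autoImplicit false

open MeasureTheory

namespace Pool.Agent.H3.OneRadius

/-- the squared Euclidean norm on `ℂⁿ` -/
noncomputable def nsq {n : ℕ} (z : Fin n → ℂ) : ℝ := ∑ j, Complex.normSq (z j)

/-- the Hermitian product `⟨w,z⟩` -/
noncomputable def ip {n : ℕ} (w z : Fin n → ℂ) : ℂ := ∑ j, w j * starRingEnd ℂ (z j)

/-- the involution `φ_z` of the ball -/
noncomputable def phi {n : ℕ} (z w : Fin n → ℂ) : Fin n → ℂ :=
  (1 - ip w z)⁻¹ •
    (z - (ip w z / ip z z) • z - ((Real.sqrt (1 - nsq z) : ℝ) : ℂ) • (w - (ip w z / ip z z) • z))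

/-- the profile -/
noncomputable def h (t : ℝ) : ℝ := (t / (1 + t)) * Real.sin (Real.log (1 + t))

/-- the function -/
noncomputable def u {n : ℕ} (z : Fin n → ℂ) : ℝ := h (-Real.log (1 - nsq z))

variable {n : ℕ}

lemma nsq_nonneg (z : Fin n → ℂ) : 0 ≤ nsq z :=
  Finset.sum_nonneg (fun _ _ => Complex.normSq_nonneg _)

lemma ip_self (z : Fin n → ℂ) : ip z z = (nsq z : ℂ) := by
  simp only [ip, nsq, Complex.mul_conj, Complex.ofReal_sum]

lemma ip_conj (w z : Fin n → ℂ) : starRingEnd ℂ (ip w z) = ip z w := by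
  simp only [ip, map_sum, map_mul, Complex.conj_conj]
  exact Finset.sum_congr rfl (fun j _ => mul_comm _ _)

lemma nsq_comb (a b : ℂ) (z w : Fin n → ℂ) :
    nsq (a • z + b • w) = Complex.normSq a * nsq z + Complex.normSq b * nsq w +
      2 * (a * starRingEnd ℂ b * ip z w).re := by
  simp only [nsq, ip, Pi.add_apply, Pi.smul_apply, smul_eq_mul, Complex.normSq_add,
    Finset.sum_add_distrib, Finset.mul_sum, map_mul, Complex.re_sum]
  congr 1
  apply Finset.sum_congr rfl
  intro j _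
  congr 2
  ring

lemma nsq_smul (a : ℂ) (z : Fin n → ℂ) : nsq (a • z) = Complex.normSq a * nsq z := by
  simp only [nsq, Pi.smul_apply, smul_eq_mul, Complex.normSq_mul, Finset.mul_sum]

lemma cs (w z : Fin n → ℂ) : Complex.normSq (ip w z) ≤ nsq w * nsq z := by
  have h1 : ‖ip w z‖ ≤ ∑ j, ‖w j‖ * ‖z j‖ := by
    refine (norm_sum_le _ _).trans (le_of_eq ?_)
    apply Finset.sum_congr rfl
    intro j _
    rw [norm_mul, Complex.norm_conj]
  have h2 := Finset.sum_mul_sq_le_sq_mul_sq Finset.univ (fun j => ‖w j‖) (fun j => ‖z j‖)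
  rw [Complex.normSq_eq_norm_sq]
  have h3 : ‖ip w z‖ ^ 2 ≤ (∑ j, ‖w j‖ * ‖z j‖) ^ 2 :=
    pow_le_pow_left₀ (norm_nonneg _) h1 2
  refine h3.trans (h2.trans (le_of_eq ?_))
  simp only [nsq, Complex.normSq_eq_norm_sq]

lemma nsq_zero_iff (z : Fin n → ℂ) (hz : nsq z = 0) : z = 0 := by
  funext j
  rw [nsq, Finset.sum_eq_zero_iff_of_nonneg (fun _ _ => Complex.normSq_nonneg _)] at hz
  exact Complex.normSq_eq_zero.1 (hz j (Finset.mem_univ j))

/-- the numerator of the involution -/
lemma num_nsq (z w : Fin n → ℂ) (hz : nsq z < 1) :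
    nsq (z - (ip w z / ip z z) • z -
      ((Real.sqrt (1 - nsq z) : ℝ) : ℂ) • (w - (ip w z / ip z z) • z)) =
      nsq z - 2 * (ip w z).re + Complex.normSq (ip w z) + (1 - nsq z) * nsq w := by
  set t : ℝ := Real.sqrt (1 - nsq z) with ht
  have ht2 : t ^ 2 = 1 - nsq z := Real.sq_sqrt (by linarith)
  set A : ℂ := ip w z with hA
  have hB : ip z w = starRingEnd ℂ A := by rw [hA, ip_conj]
  have hcomb : (z - (A / ip z z) • z - ((t : ℝ) : ℂ) • (w - (A / ip z z) • z)) =
      (1 - A / ip z z * (1 - t)) • z + (-(t : ℂ)) • w := by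
    module
  rw [hcomb, nsq_comb, hB, ip_self]
  set s : ℝ := nsq z with hs
  set W : ℝ := nsq w with hW
  rcases (nsq_nonneg z).eq_or_lt with h0 | hpos
  · have hz0 : z = 0 := nsq_zero_iff z h0.symm
    have hA0 : A = 0 := by rw [hA, hz0]; simp [ip]
    have hs0 : s = 0 := h0.symm
    rw [hA0, hs0]
    rw [hs0] at ht2
    simp [Complex.normSq_apply]
    linear_combination W * ht2
  · have hs' : s ≠ 0 := ne_of_gt hpos
    simp only [Complex.normSq_apply, Complex.mul_re, Complex.mul_im, Complex.sub_re, Complex.sub_im,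
      Complex.one_re, Complex.one_im, Complex.ofReal_re, Complex.ofReal_im, Complex.neg_re,
      Complex.neg_im, Complex.conj_re, Complex.conj_im, Complex.div_ofReal_re,
      Complex.div_ofReal_im, map_neg, Complex.conj_ofReal]
    field_simp
    have ht2' : s = 1 - t ^ 2 := by rw [ht2]; ring
    rw [ht2']
    ring

lemma one_sub_ip_ne (z w : Fin n → ℂ) (hz : nsq z < 1) (hw : nsq w ≤ 1) : 1 - ip w z ≠ 0 := by
  intro h0
  have h1 : ip w z = 1 := (sub_eq_zero.1 h0).symm
  have h2 := cs w z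
  rw [h1] at h2
  simp only [map_one] at h2
  nlinarith [nsq_nonneg z, nsq_nonneg w]

/-- the fundamental identity -/
lemma one_sub_nsq_phi (z w : Fin n → ℂ) (hz : nsq z < 1) (hw : nsq w ≤ 1) :
    1 - nsq (phi z w) = (1 - nsq z) * (1 - nsq w) / Complex.normSq (1 - ip w z) := by
  have hne := one_sub_ip_ne z w hz hw
  have hpos : 0 < Complex.normSq (1 - ip w z) := Complex.normSq_pos.2 hne
  rw [phi, nsq_smul, num_nsq z w hz, Complex.normSq_inv]
  rw [eq_div_iff hpos.ne']
  have hexp : Complex.normSq (1 - ip w z) = 1 - 2 * (ip w z).re + Complex.normSq (ip w z) := by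
    simp [Complex.normSq_apply]; ring
  field_simp
  rw [hexp]
  ring

lemma h_abs_lt (t : ℝ) (ht : 0 ≤ t) : |h t| < 1 := by
  rw [h, abs_mul, abs_of_nonneg (by positivity)]
  have h1 : t / (1 + t) < 1 := by rw [div_lt_one (by linarith)]; linarith
  have h2 : |Real.sin (Real.log (1 + t))| ≤ 1 := Real.abs_sin_le_one _
  have h3 : 0 ≤ t / (1 + t) := by positivity
  calc t / (1 + t) * |Real.sin (Real.log (1 + t))| ≤ t / (1 + t) * 1 :=
        mul_le_mul_of_nonneg_left h2 h3
    _ < 1 := by linarith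

/-- near the good scales the profile is close to its extreme values -/
lemma h_big (C κ : ℝ) (hC : 0 ≤ C) (hκ : κ < 1) (σ : ℝ) (hσ : σ = 1 ∨ σ = -1) :
    ∃ L : ℝ, 0 < L ∧ ∀ c : ℝ, |c| ≤ C → κ < σ * h (L + c) := by
  -- choose the scale
  obtain ⟨k, hk⟩ := exists_nat_gt (2 * C + 2 + (2 * C + 2) / (1 - κ))
  have h1κ : 0 < 1 - κ := by linarith
  set θ : ℝ := σ * (Real.pi / 2) + (k + 1 : ℕ) * (2 * Real.pi) with hθ
  have hθk : (k : ℝ) ≤ θ := by
    have hpi := Real.pi_gt_three
    rw [hθ]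
    push_cast
    rcases hσ with rfl | rfl <;> nlinarith [(Nat.cast_nonneg k : (0 : ℝ) ≤ k)]
  set y : ℝ := Real.exp θ with hy
  have hyθ : θ + 1 ≤ y := Real.add_one_le_exp θ
  have hdiv : 0 < (2 * C + 2) / (1 - κ) := by positivity
  have hy1 : 2 * C + 2 + (2 * C + 2) / (1 - κ) < y := by linarith
  have hy0 : 0 < y := Real.exp_pos θ
  have hsin : ∀ x : ℝ, Real.sin (θ + x) = σ * Real.cos x := by
    intro x
    have : θ + x = (σ * (Real.pi / 2) + x) + (k + 1 : ℕ) * (2 * Real.pi) := by rw [hθ]; ring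
    rw [this, Real.sin_add_nat_mul_two_pi]
    rcases hσ with rfl | rfl
    · rw [one_mul, one_mul, add_comm, Real.sin_add_pi_div_two]
    · have : -1 * (Real.pi / 2) + x = x - Real.pi / 2 := by ring
      rw [this, Real.sin_sub_pi_div_two]; ring
  refine ⟨y - 1, by linarith, ?_⟩
  intro c hc
  rw [abs_le] at hc
  have hyc : y / 2 ≤ y + c := by linarith
  have hyc0 : 0 < y + c := by linarith
  set x : ℝ := Real.log (y + c) - θ with hx
  have hlogy : Real.log y = θ := Real.log_exp θ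
  have hx1 : x ≤ 2 * C / y := by
    have e1 : x = Real.log ((y + c) / y) := by
      rw [Real.log_div hyc0.ne' hy0.ne', hlogy]
    rw [e1]
    have e2 := Real.log_le_sub_one_of_pos (div_pos hyc0 hy0)
    have e3 : (y + c) / y - 1 = c / y := by field_simp; ring
    rw [e3] at e2
    refine e2.trans ?_
    gcongr
    linarith
  have hx2 : -(2 * C / y) ≤ x := by
    have e1 : -x = Real.log (y / (y + c)) := by
      rw [Real.log_div hy0.ne' hyc0.ne', hlogy]; ring
    have e2 := Real.log_le_sub_one_of_pos (div_pos hy0 hyc0)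
    rw [← e1] at e2
    have e3 : y / (y + c) - 1 ≤ 2 * C / y := by
      rw [sub_le_iff_le_add, div_le_iff₀ hyc0]
      have : (2 * C / y + 1) * (y + c) = 2 * C + 2 * C * c / y + y + c := by
        field_simp
        ring
      rw [this]
      have e4 : -C ≤ 2 * C * c / y := by
        rw [le_div_iff₀ hy0]
        nlinarith
      linarith
    linarith
  have hxabs : |x| ≤ 2 * C / y := abs_le.2 ⟨hx2, hx1⟩
  have h2Cy : 2 * C / y ≤ 1 := by
    rw [div_le_one hy0]; linarith
  have hcos : 1 - 2 * C / y ≤ Real.cos x := by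
    have e1 := Real.one_sub_sq_div_two_le_cos (x := x)
    have e2 : x ^ 2 ≤ 2 * C / y := by
      rw [← sq_abs]
      nlinarith [abs_nonneg x]
    have e3 : 0 ≤ 2 * C / y := by positivity
    linarith
  have hh : σ * h (y - 1 + c) = (1 - 1 / (y + c)) * Real.cos x := by
    rw [h]
    have e1 : 1 + (y - 1 + c) = y + c := by ring
    rw [e1]
    have e2 : Real.log (y + c) = θ + x := by rw [hx]; ring
    rw [e2, hsin]
    have e3 : σ * σ = 1 := by rcases hσ with rfl | rfl <;> norm_num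
    have e4 : (y - 1 + c) / (y + c) = 1 - 1 / (y + c) := by
      field_simp
      ring
    rw [e4]
    linear_combination (1 - 1 / (y + c)) * Real.cos x * e3
  rw [hh]
  have hA : 1 - 2 / y ≤ 1 - 1 / (y + c) := by
    have : 1 / (y + c) ≤ 2 / y := by
      rw [div_le_div_iff₀ hyc0 hy0]; linarith
    linarith
  have hA0 : 0 ≤ 1 - 1 / (y + c) := by
    have : 1 / (y + c) ≤ 1 := by rw [div_le_one hyc0]; linarith
    linarith
  have hA1 : 1 - 1 / (y + c) ≤ 1 := by
    have : 0 ≤ 1 / (y + c) := by positivity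
    linarith
  have hB : 1 - (2 * C + 2) / y ≤ (1 - 1 / (y + c)) * Real.cos x := by
    have e1 : (1 - 1 / (y + c)) * (1 - 2 * C / y) ≤ (1 - 1 / (y + c)) * Real.cos x :=
      mul_le_mul_of_nonneg_left hcos hA0
    have e2 : (2 * C + 2) / y = 2 * C / y + 2 / y := by ring
    have e3 : 0 ≤ 2 * C / y := by positivity
    nlinarith
  refine lt_of_lt_of_le ?_ hB
  have : (2 * C + 2) / y < 1 - κ := by
    rw [div_lt_iff₀ hy0]
    have e5 : (2 * C + 2) / (1 - κ) < y := by linarith
    rw [div_lt_iff₀ h1κ] at e5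
    linarith
  linarith

lemma ip_smul (c : ℂ) (w z : Fin n → ℂ) : ip (c • w) z = c * ip w z := by
  simp only [ip, Pi.smul_apply, smul_eq_mul, Finset.mul_sum, mul_assoc]

/-- the value of `u ∘ φ_z` on the sphere of radius `r` -/
lemma u_phi (z ζ : Fin n → ℂ) (hz : nsq z < 1) (hζ : nsq ζ = 1) (r : ℝ) (hr0 : 0 < r)
    (hr1 : r < 1) :
    u (phi z ((r : ℂ) • ζ)) =
      h (-Real.log ((1 - nsq z) * (1 - r ^ 2) / Complex.normSq (1 - (r : ℂ) * ip ζ z))) := by
  have hn : nsq ((r : ℂ) • ζ) = r ^ 2 := by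
    rw [nsq_smul, hζ, Complex.normSq_ofReal]; ring
  have hr2 : r ^ 2 < 1 := by nlinarith
  rw [u, one_sub_nsq_phi z _ hz (by rw [hn]; exact hr2.le), hn, ip_smul]

lemma denom_bounds (z ζ : Fin n → ℂ) (hz : nsq z < 1) (hζ : nsq ζ = 1) (r : ℝ) (hr0 : 0 < r)
    (hr1 : r < 1) :
    (1 - Real.sqrt (nsq z)) ^ 2 ≤ Complex.normSq (1 - (r : ℂ) * ip ζ z) ∧
      Complex.normSq (1 - (r : ℂ) * ip ζ z) ≤ 4 := by
  have h1 := cs ζ z
  rw [hζ, one_mul, Complex.normSq_eq_norm_sq] at h1
  have hs1 : Real.sqrt (nsq z) < 1 := by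
    rw [Real.sqrt_lt' one_pos]; simpa using hz
  have h2 : ‖ip ζ z‖ ≤ Real.sqrt (nsq z) := Real.le_sqrt_of_sq_le h1
  have h3 : ‖(r : ℂ) * ip ζ z‖ ≤ Real.sqrt (nsq z) := by
    rw [norm_mul, Complex.norm_real, Real.norm_eq_abs, abs_of_pos hr0]
    nlinarith [norm_nonneg (ip ζ z)]
  rw [Complex.normSq_eq_norm_sq]
  constructor
  · apply pow_le_pow_left₀ (by linarith)
    have := norm_sub_norm_le (1 : ℂ) ((r : ℂ) * ip ζ z)
    rw [norm_one] at this
    linarith
  · have := norm_sub_le (1 : ℂ) ((r : ℂ) * ip ζ z)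
    rw [norm_one] at this
    have h4 : ‖1 - (r : ℂ) * ip ζ z‖ ≤ 2 := by linarith
    nlinarith [norm_nonneg (1 - (r : ℂ) * ip ζ z)]

/-- For each `κ < 1` there is a radius at which all the values of `u ∘ φ_z` are near `σ = ±1`. -/
lemma good_radius (z : Fin n → ℂ) (hz : nsq z < 1) (κ : ℝ) (hκ : κ < 1) (σ : ℝ)
    (hσ : σ = 1 ∨ σ = -1) :
    ∃ r : ℝ, 0 < r ∧ r < 1 ∧ ∀ ζ : Fin n → ℂ, nsq ζ = 1 → κ < σ * u (phi z ((r : ℂ) • ζ)) := by
  have hs1 : Real.sqrt (nsq z) < 1 := by
    rw [Real.sqrt_lt' one_pos]; simpa using hz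
  set m : ℝ := (1 - Real.sqrt (nsq z)) ^ 2 with hm
  have hm0 : 0 < m := by
    rw [hm]; exact pow_pos (by linarith) 2
  set C : ℝ := |Real.log (1 - nsq z)| + |Real.log m| + |Real.log 4| with hC
  have hC0 : 0 ≤ C := by positivity
  obtain ⟨L, hL0, hL⟩ := h_big C κ hC0 hκ σ hσ
  have hexp : Real.exp (-L) < 1 := by
    rw [Real.exp_lt_one_iff]; linarith
  have hexp0 : 0 < Real.exp (-L) := Real.exp_pos _
  refine ⟨Real.sqrt (1 - Real.exp (-L)), Real.sqrt_pos.2 (by linarith), ?_, ?_⟩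
  · rw [Real.sqrt_lt' one_pos]; linarith
  · intro ζ hζ
    have hr0 : 0 < Real.sqrt (1 - Real.exp (-L)) := Real.sqrt_pos.2 (by linarith)
    have hr1 : Real.sqrt (1 - Real.exp (-L)) < 1 := by
      rw [Real.sqrt_lt' one_pos]; linarith
    rw [u_phi z ζ hz hζ _ hr0 hr1]
    obtain ⟨hd1, hd2⟩ := denom_bounds z ζ hz hζ _ hr0 hr1
    set D := Complex.normSq (1 - ((Real.sqrt (1 - Real.exp (-L)) : ℝ) : ℂ) * ip ζ z) with hD
    have hD0 : 0 < D := lt_of_lt_of_le hm0 hd1
    have hsq : 1 - Real.sqrt (1 - Real.exp (-L)) ^ 2 = Real.exp (-L) := by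
      rw [Real.sq_sqrt (by linarith)]; ring
    rw [hsq]
    have hlog : -Real.log ((1 - nsq z) * Real.exp (-L) / D) =
        L + (Real.log D - Real.log (1 - nsq z)) := by
      rw [Real.log_div (by
        apply mul_ne_zero (by linarith) hexp0.ne') hD0.ne', Real.log_mul (by linarith) hexp0.ne',
        Real.log_exp]
      ring
    rw [hlog]
    apply hL
    have e1 : |Real.log D| ≤ |Real.log m| + |Real.log 4| := by
      have l1 : Real.log m ≤ Real.log D := Real.log_le_log hm0 hd1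
      have l2 : Real.log D ≤ Real.log 4 := Real.log_le_log hD0 hd2
      rw [abs_le]
      constructor
      · have := neg_abs_le (Real.log m)
        have := abs_nonneg (Real.log 4)
        linarith
      · have := le_abs_self (Real.log 4)
        have := abs_nonneg (Real.log m)
        linarith
    calc |Real.log D - Real.log (1 - nsq z)| ≤ |Real.log D| + |Real.log (1 - nsq z)| := abs_sub _ _
      _ ≤ C := by rw [hC]; linarith

lemma measurable_h : Measurable h := by
  unfold h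
  fun_prop

lemma measurable_nsq : Measurable (nsq : (Fin n → ℂ) → ℝ) := by
  unfold nsq
  fun_prop

lemma measurable_u : Measurable (u : (Fin n → ℂ) → ℝ) := by
  unfold u
  exact measurable_h.comp ((Real.measurable_log.comp (measurable_const.sub measurable_nsq)).neg)

lemma measurable_ip (z : Fin n → ℂ) : Measurable (fun w : Fin n → ℂ => ip w z) := by
  unfold ip
  fun_prop

lemma measurable_phi (z : Fin n → ℂ) : Measurable (phi z) := by
  have h1 := measurable_ip z
  unfold phi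
  fun_prop

lemma continuousAt_h (t : ℝ) (ht : 0 ≤ t) : ContinuousAt h t := by
  unfold h
  have h1 : (1 + t) ≠ 0 := by linarith
  fun_prop (disch := assumption)

/-- values of `u ∘ φ_z` are bounded by one on spheres of radius `< 1` -/
lemma abs_u_phi_le (z ζ : Fin n → ℂ) (hz : nsq z < 1) (hζ : nsq ζ = 1) (r : ℝ) (hr0 : 0 < r)
    (hr1 : r < 1) : |u (phi z ((r : ℂ) • ζ))| ≤ 1 := by
  have hn : nsq ((r : ℂ) • ζ) = r ^ 2 := by
    rw [nsq_smul, hζ, Complex.normSq_ofReal]; ring
  have hr2 : r ^ 2 < 1 := by nlinarith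
  have h1 := one_sub_nsq_phi z ((r : ℂ) • ζ) hz (by rw [hn]; exact hr2.le)
  have hne := one_sub_ip_ne z ((r : ℂ) • ζ) hz (by rw [hn]; exact hr2.le)
  have hpos : 0 < Complex.normSq (1 - ip ((r : ℂ) • ζ) z) := Complex.normSq_pos.2 hne
  have h2 : 0 < 1 - nsq (phi z ((r : ℂ) • ζ)) := by
    rw [h1, hn]
    apply div_pos (mul_pos (by linarith) (by linarith)) hpos
  have h3 := nsq_nonneg (phi z ((r : ℂ) • ζ))
  exact (h_abs_lt _ (by
    have := Real.log_nonpos h2.le (by linarith)
    linarith)).le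

/-- **The one-radius property**, for any probability measure carried by the unit sphere. -/
lemma one_radius {X : Type} [MeasurableSpace X] (μ : Measure X) [IsProbabilityMeasure μ]
    (ζ : X → (Fin n → ℂ)) (hζm : Measurable ζ) (hζ : ∀ᵐ x ∂μ, nsq (ζ x) = 1)
    (z : Fin n → ℂ) (hz : nsq z < 1) :
    ∃ r : ℝ, 0 < r ∧ r < 1 ∧ u z = ∫ x, u (phi z ((r : ℂ) • ζ x)) ∂μ := by
  have huz : |u z| < 1 := by
    apply h_abs_lt
    have h3 := nsq_nonneg z
    have := Real.log_nonpos (by linarith : 0 ≤ 1 - nsq z) (by linarith)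
    linarith
  set F : ℝ → ℝ := fun r => ∫ x, u (phi z ((r : ℂ) • ζ x)) ∂μ with hF
  have hmeas : ∀ r : ℝ, Measurable (fun x => u (phi z ((r : ℂ) • ζ x))) := by
    intro r
    exact measurable_u.comp ((measurable_phi z).comp (hζm.const_smul (r : ℂ)))
  have hint : ∀ r ∈ Set.Ioo (0 : ℝ) 1, Integrable (fun x => u (phi z ((r : ℂ) • ζ x))) μ := by
    intro r hr
    refine Integrable.mono' (integrable_const (1 : ℝ)) (hmeas r).aestronglyMeasurable ?_
    filter_upwards [hζ] with x hx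
    exact abs_u_phi_le z (ζ x) hz hx r hr.1 hr.2
  have hcont : ContinuousOn F (Set.Ioo (0 : ℝ) 1) := by
    apply continuousOn_of_dominated (bound := fun _ => (1 : ℝ))
    · intro r _
      exact (hmeas r).aestronglyMeasurable
    · intro r hr
      filter_upwards [hζ] with x hx
      exact abs_u_phi_le z (ζ x) hz hx r hr.1 hr.2
    · exact integrable_const _
    · filter_upwards [hζ] with x hx
      have hc2 : ContinuousOn (fun r : ℝ =>
          h (-Real.log ((1 - nsq z) * (1 - r ^ 2) / Complex.normSq (1 - (r : ℂ) * ip (ζ x) z))))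
          (Set.Ioo (0 : ℝ) 1) := by
        intro r hr
        apply ContinuousAt.continuousWithinAt
        have hd := denom_bounds z (ζ x) hz hx r hr.1 hr.2
        have hs1 : Real.sqrt (nsq z) < 1 := by
          rw [Real.sqrt_lt' one_pos]; simpa using hz
        have hD0 : 0 < Complex.normSq (1 - (r : ℂ) * ip (ζ x) z) :=
          lt_of_lt_of_le (pow_pos (by linarith) 2) hd.1
        have hr2 : 0 < 1 - r ^ 2 := by nlinarith [hr.1, hr.2]
        have hq : 0 < (1 - nsq z) * (1 - r ^ 2) / Complex.normSq (1 - (r : ℂ) * ip (ζ x) z) :=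
          div_pos (mul_pos (by linarith) hr2) hD0
        have hn : nsq ((r : ℂ) • ζ x) = r ^ 2 := by
          rw [nsq_smul, hx, Complex.normSq_ofReal]; ring
        have hle : (1 - nsq z) * (1 - r ^ 2) / Complex.normSq (1 - (r : ℂ) * ip (ζ x) z) ≤ 1 := by
          have := one_sub_nsq_phi z ((r : ℂ) • ζ x) hz (by rw [hn]; linarith)
          rw [hn, ip_smul] at this
          rw [← this]
          linarith [nsq_nonneg (phi z ((r : ℂ) • ζ x))]
        have hct : ContinuousAt (fun r : ℝ =>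
            (1 - nsq z) * (1 - r ^ 2) / Complex.normSq (1 - (r : ℂ) * ip (ζ x) z)) r := by
          apply ContinuousAt.div
          · fun_prop
          · exact (Complex.continuous_normSq.comp (by fun_prop)).continuousAt
          · exact hD0.ne'
        have hlg : ContinuousAt (fun r : ℝ => -Real.log
            ((1 - nsq z) * (1 - r ^ 2) / Complex.normSq (1 - (r : ℂ) * ip (ζ x) z))) r :=
          (hct.log hq.ne').neg
        have hnn : 0 ≤ -Real.log
            ((1 - nsq z) * (1 - r ^ 2) / Complex.normSq (1 - (r : ℂ) * ip (ζ x) z)) := by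
          have := Real.log_nonpos hq.le hle
          linarith
        exact ContinuousAt.comp (g := h) (continuousAt_h _ hnn) hlg
      refine hc2.congr ?_
      intro r hr
      exact u_phi z (ζ x) hz hx r hr.1 hr.2
  obtain ⟨r1, h10, h11, h1⟩ := good_radius z hz |u z| huz 1 (Or.inl rfl)
  obtain ⟨r2, h20, h21, h2⟩ := good_radius z hz |u z| huz (-1) (Or.inr rfl)
  have hF1 : u z ≤ F r1 := by
    have e1 : ∫ _ : X, |u z| ∂μ ≤ F r1 := by
      apply integral_mono_ae (integrable_const _) (hint r1 ⟨h10, h11⟩)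
      filter_upwards [hζ] with x hx
      have := h1 (ζ x) hx
      rw [one_mul] at this
      exact this.le
    rw [integral_const, probReal_univ, one_smul] at e1
    exact (le_abs_self _).trans e1
  have hF2 : F r2 ≤ u z := by
    have e1 : F r2 ≤ ∫ _ : X, -|u z| ∂μ := by
      apply integral_mono_ae (hint r2 ⟨h20, h21⟩) (integrable_const _)
      filter_upwards [hζ] with x hx
      have := h2 (ζ x) hx
      show u (phi z ((r2 : ℂ) • ζ x)) ≤ -|u z|
      linarith
    rw [integral_const, probReal_univ, one_smul] at e1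
    exact e1.trans (neg_abs_le _)
  have hpre : IsPreconnected (Set.Ioo (0 : ℝ) 1) := isPreconnected_Ioo
  have := hpre.intermediate_value (a := r2) (b := r1) ⟨h20, h21⟩ ⟨h10, h11⟩ hcont
  obtain ⟨r, hr, hFr⟩ := this ⟨hF2, hF1⟩
  exact ⟨r, hr.1, hr.2, hFr.symm⟩

lemma phi_zero (w : Fin n → ℂ) : phi 0 w = -w := by
  have h1 : ip w (0 : Fin n → ℂ) = 0 := by simp [ip]
  have h2 : nsq (0 : Fin n → ℂ) = 0 := by simp [nsq]
  rw [phi, h1, h2]
  simp

/-- At the centre, for one radius, the spherical mean differs from the value. -/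
lemma not_mean {X : Type} [MeasurableSpace X] (μ : Measure X) [IsProbabilityMeasure μ]
    (ζ : X → (Fin n → ℂ)) (hζ : ∀ᵐ x ∂μ, nsq (ζ x) = 1) :
    ∃ r : ℝ, 0 < r ∧ r < 1 ∧ u (0 : Fin n → ℂ) ≠ ∫ x, u (phi 0 ((r : ℂ) • ζ x)) ∂μ := by
  have hexp : Real.exp (-1) < 1 := by
    rw [Real.exp_lt_one_iff]; norm_num
  have hexp0 : 0 < Real.exp (-1) := Real.exp_pos _
  have hr0 : 0 < Real.sqrt (1 - Real.exp (-1)) := Real.sqrt_pos.2 (by linarith)
  have hr1 : Real.sqrt (1 - Real.exp (-1)) < 1 := by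
    rw [Real.sqrt_lt' one_pos]; linarith
  refine ⟨Real.sqrt (1 - Real.exp (-1)), hr0, hr1, ?_⟩
  have hu0 : u (0 : Fin n → ℂ) = 0 := by
    have h2 : nsq (0 : Fin n → ℂ) = 0 := by simp [nsq]
    simp [u, h, h2]
  have hval : ∀ᵐ x ∂μ, u (phi 0 (((Real.sqrt (1 - Real.exp (-1)) : ℝ) : ℂ) • ζ x)) = h 1 := by
    filter_upwards [hζ] with x hx
    rw [phi_zero, u]
    congr 1
    have : nsq (-((((Real.sqrt (1 - Real.exp (-1)) : ℝ) : ℂ)) • ζ x)) = 1 - Real.exp (-1) := by
      rw [← neg_smul, nsq_smul, hx, Complex.normSq_neg, Complex.normSq_ofReal,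
        Real.mul_self_sqrt (by linarith)]
      ring
    rw [this]
    have : 1 - (1 - Real.exp (-1)) = Real.exp (-1) := by ring
    rw [this, Real.log_exp]
    ring
  rw [integral_congr_ae hval, integral_const, probReal_univ, one_smul, hu0]
  have hpos : 0 < h 1 := by
    rw [h]
    apply mul_pos (by norm_num)
    apply Real.sin_pos_of_pos_of_lt_pi
    · apply Real.log_pos; norm_num
    · have e1 : Real.log (1 + 1) ≤ 1 + 1 - 1 := Real.log_le_sub_one_of_pos (by norm_num)
      linarith [Real.pi_gt_three]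
  exact hpos.ne

lemma analyticAt_h (t : ℝ) (ht : 0 ≤ t) : AnalyticAt ℝ h t := by
  unfold h
  have h1 : (1 + t) ≠ 0 := by linarith
  have h2 : 0 < 1 + t := by linarith
  have e1 : AnalyticAt ℝ (fun t : ℝ => 1 + t) t := analyticAt_const.add analyticAt_id
  apply AnalyticAt.mul
  · exact analyticAt_id.div e1 h1
  · exact Real.analyticAt_sin.fun_comp (e1.log h2)

lemma analyticAt_nsq (z : Fin n → ℂ) : AnalyticAt ℝ (nsq : (Fin n → ℂ) → ℝ) z := by
  unfold nsq
  apply Finset.analyticAt_fun_sum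
  intro j _
  have e0 : AnalyticAt ℝ (fun w : Fin n → ℂ => w j) z :=
    (ContinuousLinearMap.proj (R := ℝ) (φ := fun _ : Fin n => ℂ) j).analyticAt z
  have e1 : AnalyticAt ℝ (fun w : Fin n → ℂ => (w j).re) z := (Complex.reCLM.analyticAt _).fun_comp e0
  have e2 : AnalyticAt ℝ (fun w : Fin n → ℂ => (w j).im) z := (Complex.imCLM.analyticAt _).fun_comp e0
  have : (fun w : Fin n → ℂ => Complex.normSq (w j)) =
      fun w => (w j).re * (w j).re + (w j).im * (w j).im := by
    funext w; rw [Complex.normSq_apply]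
  rw [this]
  exact (e1.mul e1).add (e2.mul e2)

lemma analyticAt_u (z : Fin n → ℂ) (hz : nsq z < 1) : AnalyticAt ℝ (u : (Fin n → ℂ) → ℝ) z := by
  unfold u
  have h1 : AnalyticAt ℝ (fun w : Fin n → ℂ => 1 - nsq w) z :=
    analyticAt_const.sub (analyticAt_nsq z)
  have h2 : AnalyticAt ℝ (fun w : Fin n → ℂ => -Real.log (1 - nsq w)) z := by
    have h1' : 0 < 1 - nsq z := by linarith
    have h4 : AnalyticAt ℝ (fun w : Fin n → ℂ => Real.log (1 - nsq w)) z :=
      AnalyticAt.fun_comp (g := Real.log) (f := fun w : Fin n → ℂ => 1 - nsq w)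
        (analyticAt_log h1') h1
    exact h4.neg
  have h3 : 0 ≤ -Real.log (1 - nsq z) := by
    have := Real.log_nonpos (by linarith : 0 ≤ 1 - nsq z) (by linarith [nsq_nonneg z])
    linarith
  exact AnalyticAt.fun_comp (g := h) (f := fun w : Fin n → ℂ => -Real.log (1 - nsq w))
    (analyticAt_h _ h3) h2

lemma abs_u_lt (z : Fin n → ℂ) (hz : nsq z < 1) : |u z| < 1 := by
  apply h_abs_lt
  have h3 := nsq_nonneg z
  have := Real.log_nonpos (by linarith : 0 ≤ 1 - nsq z) (by linarith)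
  linarith

end Pool.Agent.H3.OneRadius
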