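import Mathlib

set_option autoImplicit false
open Finset

namespace Pool.Agent.H3.PolyGen

def nn (i : ℕ) : ℕ := 2 ^ ((i+3)^2)

lemma nn_pos (i : ℕ) : 0 < nn i := by unfold nn; positivity

lemma nn_dvd {i j : ℕ} (h : i ≤ j) : nn i ∣ nn j :=
  pow_dvd_pow 2 (Nat.pow_le_pow_left (by omega) 2)

lemma nn_le {i j : ℕ} (h : i ≤ j) : nn i ≤ nn j := Nat.le_of_dvd (nn_pos j) (nn_dvd h)

lemma nn_succ (i : ℕ) : nn (i+1) = 2^(2*i+7) * nn i := by
  rw [nn, nn, ← pow_add]; congr 1; ring

lemma nn_gt (i : ℕ) : i + 1 < nn i := by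
  have h : i + 2 ≤ (i+3)^2 := by nlinarith
  calc i + 1 < i + 2 := by omega
    _ < 2^(i+2) := Nat.lt_two_pow_self
    _ ≤ nn i := Nat.pow_le_pow_right (by norm_num) h

lemma nn_two {i j : ℕ} (h : i < j) : 2 * nn i ≤ nn j := by
  have h1 : 2 * nn i ≤ nn (i+1) := by
    rw [nn_succ, pow_succ]
    have : 1 ≤ 2^(2*i+6) := Nat.one_le_two_pow
    nlinarith [nn_pos i]
  exact h1.trans (nn_le h)

def K (i : ℕ) : ℕ := 2*(i+1)*nn i

def g (m : ℕ) : ℕ := ∑ i ∈ range m, K i * (m / nn i)

lemma g_eq {m M : ℕ} (h : m ≤ M) : g m = ∑ i ∈ range M, K i * (m / nn i) := by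
  unfold g
  apply Finset.sum_subset (Finset.range_mono h)
  intro i _ hi
  rw [Finset.mem_range, not_lt] at hi
  have := nn_gt i
  rw [Nat.div_eq_of_lt (by omega), mul_zero]

lemma g_super (m n : ℕ) : g m + g n ≤ g (m+n) := by
  rw [g_eq (show m ≤ m + n by omega), g_eq (show n ≤ m + n by omega), g,
    ← Finset.sum_add_distrib]
  refine Finset.sum_le_sum fun i _ => ?_
  rw [← mul_add]
  exact Nat.mul_le_mul_left _ Nat.div_add_div_le_add_div

lemma g_add {i r : ℕ} (hr : r < nn i) : g (nn i + r) = g (nn i) + g r := by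
  rw [g_eq (show nn i ≤ nn i + r by omega), g_eq (show r ≤ nn i + r by omega), g,
    ← Finset.sum_add_distrib]
  refine Finset.sum_congr rfl fun j _ => ?_
  rw [← mul_add]
  congr 1
  rcases le_or_gt j i with h | h
  · exact Nat.add_div_of_dvd_right (nn_dvd h)
  · have := nn_two h
    rw [Nat.div_eq_of_lt (by omega), Nat.div_eq_of_lt (by omega), Nat.div_eq_of_lt (by omega)]

lemma g_one : g 1 = 0 := by
  unfold g
  refine Finset.sum_eq_zero fun i _ => ?_
  have := nn_gt i
  rw [Nat.div_eq_of_lt (by omega), mul_zero]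

lemma g_big {i m : ℕ} (h : nn i ≤ m) : (i+1) * m ≤ g m := by
  have h1 : K i * (m / nn i) ≤ g m := by
    unfold g
    apply Finset.single_le_sum (f := fun i => K i * (m / nn i)) (fun _ _ => Nat.zero_le _)
    have := nn_gt i
    rw [Finset.mem_range]; omega
  have h2 : m < 2 * (nn i * (m / nn i)) := by
    have h3 := Nat.div_add_mod m (nn i)
    have h4 := Nat.mod_lt m (nn_pos i)
    have h5 : 1 ≤ m / nn i := (Nat.one_le_div_iff (nn_pos i)).mpr h
    have h6 : nn i ≤ nn i * (m / nn i) := Nat.le_mul_of_pos_right _ h5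
    omega
  calc (i+1) * m ≤ (i+1) * (2 * (nn i * (m / nn i))) := Nat.mul_le_mul_left _ h2.le
    _ = K i * (m / nn i) := by unfold K; ring
    _ ≤ g m := h1

noncomputable def om (m : ℕ) : ℝ := (1/2)^(g m)

lemma om_pos (m : ℕ) : 0 < om m := by unfold om; positivity
lemma om_zero : om 0 = 1 := by simp [om, g]
lemma om_one : om 1 = 1 := by simp [om, g_one]
lemma om_sub (m n : ℕ) : om (m+n) ≤ om m * om n := by
  unfold om
  rw [← pow_add]
  exact pow_le_pow_of_le_one (by norm_num) (by norm_num) (g_super m n)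
lemma om_add {i r : ℕ} (hr : r < nn i) : om (nn i + r) = om (nn i) * om r := by
  unfold om
  rw [← pow_add, g_add hr]

def e : ℕ → ℕ
  | 0 => 1
  | k+1 => nn k

noncomputable def a : ℕ → ℝ
  | 0 => 1
  | k+1 => (1/2)^(k+1) / om (nn k)

lemma a_om (k : ℕ) : a k * om (e k) = (1/2)^k := by
  cases k with
  | zero => simp [a, e, om_one]
  | succ k =>
    simp only [a, e]
    exact div_mul_cancel₀ _ (om_pos _).ne'

lemma a_pos (k : ℕ) : 0 < a k := by
  cases k with
  | zero => simp [a]
  | succ k => simp only [a]; have := om_pos (nn k); positivity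

lemma e_pos (k : ℕ) : 0 < e k := by
  cases k with
  | zero => simp [e]
  | succ k => exact nn_pos k

lemma e_strictMono : StrictMono e := by
  apply strictMono_nat_of_lt_succ
  intro k
  cases k with
  | zero => simp only [e]; have := nn_gt 0; omega
  | succ k => simp only [e]; have := nn_two (show k < k + 1 by omega); have := nn_pos k; omega

noncomputable def ph (i : ℕ) (ρ : ℕ → ℝ) (m : ℕ) : ℝ :=
  if nn i ≤ m then -(om (nn i) * 2^(i+1)) * (m / nn i) * ρ (m - nn i) else 0

noncomputable def rho : ℕ → ℕ → ℝ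
  | 0 => fun s => if s = 0 then 1 else 0
  | i+1 => fun s => ∑ k ∈ range (i+1), a k * (e k / (s + e k)) * ph i (rho i) (s + e k)

noncomputable def phi (i m : ℕ) : ℝ := ph i (rho i) m

lemma phi_small {i m : ℕ} (h : m < nn i) : phi i m = 0 := by
  simp [phi, ph, not_le.mpr h]

lemma rho_supp (i : ℕ) : ∀ s, nn i ≤ s → rho i s = 0 := by
  induction i with
  | zero =>
    intro s hs
    have := nn_pos 0
    simp only [rho]; rw [if_neg (by omega)]
  | succ i ih =>
    intro s hs
    simp only [rho]
    refine Finset.sum_eq_zero fun k _ => ?_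
    have h1 := nn_two (show i < i + 1 by omega)
    have : ph i (rho i) (s + e k) = 0 := by
      unfold ph
      rw [if_pos (by omega), ih _ (by omega), mul_zero]
    rw [this, mul_zero]

lemma phi_large {i m : ℕ} (h : 2 * nn i ≤ m) : phi i m = 0 := by
  unfold phi ph
  rw [if_pos (by omega), rho_supp i _ (by omega), mul_zero]

lemma S_bound (i : ℕ) : (∑ k ∈ range (i+1), a k * e k * om (e k)) ≤ nn i / 2^(2*i+5) := by
  induction i with
  | zero =>
    simp [a, e, om_one, nn]; norm_num
  | succ i ih =>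
    rw [Finset.sum_range_succ]
    have h1 : a (i+1) * e (i+1) * om (e (i+1)) = (1/2)^(i+1) * nn i := by
      rw [mul_right_comm, a_om]; rfl
    rw [h1, nn_succ]
    have hn : (0:ℝ) < nn i := by exact_mod_cast nn_pos i
    have h2 : (nn i : ℝ) / 2^(2*i+5) ≤ nn i / 32 := by
      apply div_le_div_of_nonneg_left hn.le (by norm_num)
      calc (32:ℝ) = 2^5 := by norm_num
        _ ≤ 2^(2*i+5) := pow_le_pow_right₀ (by norm_num) (by omega)
    have h3 : ((1:ℝ)/2)^(i+1) * nn i ≤ 1/2 * nn i := by
      apply mul_le_mul_of_nonneg_right _ hn.le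
      calc ((1:ℝ)/2)^(i+1) ≤ (1/2)^1 := pow_le_pow_of_le_one (by norm_num) (by norm_num) (by omega)
        _ = 1/2 := by norm_num
    have h4 : (((2^(2*i+7) * nn i : ℕ) : ℝ)) / 2^(2*(i+1)+5) = nn i := by
      push_cast
      rw [show 2*(i+1)+5 = 2*i+7 by ring]
      field_simp
    rw [h4]
    linarith

lemma phi_bound_of {i : ℕ} (h : ∀ s, |rho i s| ≤ (1/4)^i * om s) (m : ℕ) :
    |phi i m| ≤ 4 * (1/2)^i * om m := by
  have hom := om_pos m
  rcases lt_or_ge m (nn i) with h1 | h1
  · rw [phi_small h1, abs_zero]; positivity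
  rcases le_or_gt (2 * nn i) m with h2 | h2
  · rw [phi_large h2, abs_zero]; positivity
  obtain ⟨r, rfl⟩ := Nat.exists_eq_add_of_le h1
  have hr : r < nn i := by omega
  have hn : (0:ℝ) < nn i := by exact_mod_cast nn_pos i
  unfold phi ph
  rw [if_pos h1, Nat.add_sub_cancel_left, abs_mul, abs_mul, abs_neg,
    abs_of_pos (by have := om_pos (nn i); positivity), om_add hr]
  have h3 : |(((nn i + r : ℕ) : ℝ)) / nn i| ≤ 2 := by
    rw [abs_of_nonneg (by positivity), div_le_iff₀ hn]
    have : (r:ℝ) < nn i := by exact_mod_cast hr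
    push_cast; linarith
  have h5 : (2:ℝ)^(i+1) * 2 * (1/4)^i = 4 * (1/2)^i := by
    rw [pow_succ, show ((1:ℝ)/4) = (1/2) * (1/2) by norm_num, mul_pow]
    have : (2:ℝ)^i * (1/2)^i = 1 := by rw [← mul_pow]; norm_num
    linear_combination 4 * (1/2)^i * this
  have hw := om_pos (nn i)
  have hw2 := om_pos r
  calc om (nn i) * 2^(i+1) * |(((nn i + r : ℕ) : ℝ)) / nn i| * |rho i r|
      ≤ om (nn i) * 2^(i+1) * 2 * ((1/4)^i * om r) := by gcongr; exact h r
    _ = (2:ℝ)^(i+1) * 2 * (1/4)^i * (om (nn i) * om r) := by ring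
    _ = _ := by rw [h5]

lemma rho_bound (i : ℕ) : ∀ s, |rho i s| ≤ (1/4)^i * om s := by
  induction i with
  | zero =>
    intro s
    simp only [rho, pow_zero, one_mul]
    split_ifs with h
    · rw [h, om_zero]; simp
    · rw [abs_zero]; exact (om_pos s).le
  | succ i ih =>
    intro s
    have hphi := phi_bound_of ih
    have hn : (0:ℝ) < nn i := by exact_mod_cast nn_pos i
    simp only [rho]
    have hterm : ∀ k ∈ range (i+1), |a k * (e k / (s + e k)) * ph i (rho i) (s + e k)| ≤
        (4 * (1/2)^i * om s / nn i) * (a k * e k * om (e k)) := by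
      intro k _
      have ha := a_pos k
      have he : (0:ℝ) < e k := by exact_mod_cast e_pos k
      have hoe := om_pos (e k)
      have hos := om_pos s
      rcases lt_or_ge (s + e k) (nn i) with h1 | h1
      · have : ph i (rho i) (s + e k) = 0 := phi_small h1
        rw [this, mul_zero, abs_zero]; positivity
      · rw [abs_mul, abs_mul, abs_of_pos ha, abs_of_pos (by positivity)]
        have h2 : (e k : ℝ) / (s + e k) ≤ e k / nn i := by
          apply div_le_div_of_nonneg_left he.le hn
          exact_mod_cast h1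
        have h3 : |ph i (rho i) (s + e k)| ≤ 4 * (1/2)^i * (om s * om (e k)) :=
          (hphi (s + e k)).trans (mul_le_mul_of_nonneg_left (om_sub s (e k)) (by positivity))
        calc a k * ((e k : ℝ) / (s + e k)) * |ph i (rho i) (s + e k)|
            ≤ a k * (e k / nn i) * (4 * (1/2)^i * (om s * om (e k))) := by gcongr
          _ = _ := by ring
    have hos := om_pos s
    calc |∑ k ∈ range (i+1), a k * (e k / (s + e k)) * ph i (rho i) (s + e k)|
        ≤ ∑ k ∈ range (i+1), |a k * (e k / (s + e k)) * ph i (rho i) (s + e k)| :=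
          Finset.abs_sum_le_sum_abs _ _
      _ ≤ ∑ k ∈ range (i+1), (4 * (1/2)^i * om s / nn i) * (a k * e k * om (e k)) :=
          Finset.sum_le_sum hterm
      _ = (4 * (1/2)^i * om s / nn i) * ∑ k ∈ range (i+1), (a k * e k * om (e k)) := by
          rw [Finset.mul_sum]
      _ ≤ (4 * (1/2)^i * om s / nn i) * (nn i / 2^(2*i+5)) :=
          mul_le_mul_of_nonneg_left (S_bound i) (by positivity)
      _ = 4 * (1/2)^i / 2^(2*i+5) * om s := by field_simp
      _ ≤ (1/4)^(i+1) * om s := by
          apply mul_le_mul_of_nonneg_right _ hos.le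
          rw [div_le_iff₀ (by positivity)]
          have h1 : ((1:ℝ)/4)^(i+1) * 2^(2*i+5) = 8 := by
            have h2 : (2:ℝ)^(2*i+5) = 4^(i+1) * 8 := by
              rw [show 2*i+5 = 2*(i+1)+3 by ring, pow_add, pow_mul]; norm_num
            rw [h2, ← mul_assoc, ← mul_pow]
            norm_num
          rw [h1]
          have : ((1:ℝ)/2)^i ≤ 1 := pow_le_one₀ (by norm_num) (by norm_num)
          linarith

lemma phi_bound (i m : ℕ) : |phi i m| ≤ 4 * (1/2)^i * om m := phi_bound_of (rho_bound i) m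

/-- the functional -/
noncomputable def Ph (m : ℕ) : ℝ := (if m = 1 then 1 else 0) + ∑ i ∈ range m, phi i m

lemma Ph_eq {m M : ℕ} (h : ∀ i, M ≤ i → phi i m = 0) :
    Ph m = (if m = 1 then 1 else 0) + ∑ i ∈ range M, phi i m := by
  unfold Ph
  congr 1
  have h1 : ∑ i ∈ range m, phi i m = ∑ i ∈ range (max m M), phi i m := by
    apply Finset.sum_subset (Finset.range_mono (le_max_left _ _))
    intro i _ hi
    rw [Finset.mem_range, not_lt] at hi
    exact phi_small (by have := nn_gt i; omega)
  have h2 : ∑ i ∈ range M, phi i m = ∑ i ∈ range (max m M), phi i m := by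
    apply Finset.sum_subset (Finset.range_mono (le_max_right _ _))
    intro i _ hi
    rw [Finset.mem_range, not_lt] at hi
    exact h i hi
  rw [h1, h2]

lemma Ph_one : Ph 1 = 1 := by
  unfold Ph
  rw [if_pos rfl, Finset.sum_range_one, phi_small (by have := nn_gt 0; omega), add_zero]

lemma Ph_bound (m : ℕ) : |Ph m| ≤ 9 * om m := by
  unfold Ph
  have h1 : |(if m = 1 then (1:ℝ) else 0)| ≤ om m := by
    split_ifs with h
    · rw [h, om_one]; simp
    · rw [abs_zero]; exact (om_pos m).le
  have h2 : |∑ i ∈ range m, phi i m| ≤ 8 * om m := by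
    calc |∑ i ∈ range m, phi i m| ≤ ∑ i ∈ range m, |phi i m| := Finset.abs_sum_le_sum_abs _ _
      _ ≤ ∑ i ∈ range m, 4 * (1/2)^i * om m := Finset.sum_le_sum fun i _ => phi_bound i m
      _ = 4 * om m * ∑ i ∈ range m, (1/2:ℝ)^i := by
          rw [Finset.mul_sum]; exact Finset.sum_congr rfl fun i _ => by ring
      _ ≤ 4 * om m * 2 := by
          apply mul_le_mul_of_nonneg_left _ (by have := om_pos m; positivity)
          rw [geom_sum_eq (by norm_num)]
          have : (0:ℝ) ≤ (1/2)^m := by positivity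
          norm_num
          linarith
      _ = 8 * om m := by ring
  calc _ ≤ |(if m = 1 then (1:ℝ) else 0)| + |∑ i ∈ range m, phi i m| := abs_add_le _ _
    _ ≤ om m + 8 * om m := add_le_add h1 h2
    _ = 9 * om m := by ring

lemma partial_sum {I s : ℕ} (hs : s < nn I) :
    ∑ k ∈ range (I+2), a k * (e k / (s + e k)) * Ph (s + e k) = rho (I+1) s := by
  have h1 : ∀ k ∈ range (I+2), a k * (e k / (s + e k)) * Ph (s + e k) =
      a k * (e k / (s + e k)) * (if s + e k = 1 then 1 else 0) +
        ∑ i ∈ range (I+1), a k * (e k / (s + e k)) * phi i (s + e k) := by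
    intro k hk
    rw [Ph_eq (M := I+1), mul_add, Finset.mul_sum]
    intro i hi
    apply phi_small
    have h2 := nn_two (show I < i by omega)
    have h3 : e k ≤ nn I := by
      rw [Finset.mem_range] at hk
      exact e_strictMono.monotone (show k ≤ I + 1 by omega)
    omega
  rw [Finset.sum_congr rfl h1, Finset.sum_add_distrib, Finset.sum_comm]
  have h2 : ∑ k ∈ range (I+2), a k * ((e k : ℝ) / (s + e k)) * (if s + e k = 1 then (1:ℝ) else 0) =
      rho 0 s := by
    rw [Finset.sum_eq_single 0]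
    · simp only [e, a, rho]
      by_cases h : s = 0
      · simp [h]
      · simp [h]
    · intro k _ hk
      have : 1 < e k := by
        have := e_strictMono (Nat.pos_of_ne_zero hk)
        simpa [e] using this
      rw [if_neg (by omega), mul_zero]
    · intro h; simp at h
  rw [h2]
  have h3 : ∀ i ∈ range (I+1), ∑ k ∈ range (I+2), a k * ((e k : ℝ) / (s + e k)) * phi i (s + e k) =
      rho (i+1) s - rho i s := by
    intro i hi
    rw [Finset.mem_range] at hi
    have h4 : ∑ k ∈ range (I+2), a k * ((e k : ℝ) / (s + e k)) * phi i (s + e k) =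
        ∑ k ∈ range (i+2), a k * ((e k : ℝ) / (s + e k)) * phi i (s + e k) := by
      symm
      apply Finset.sum_subset (Finset.range_mono (by omega))
      intro k _ hk
      rw [Finset.mem_range, not_lt] at hk
      rw [phi_large, mul_zero]
      have h5 : nn (i+1) ≤ e k := e_strictMono.monotone (show i + 2 ≤ k from hk)
      have h6 := nn_two (show i < i + 1 by omega)
      omega
    rw [h4, Finset.sum_range_succ]
    have h5 : ∑ k ∈ range (i+1), a k * ((e k : ℝ) / (s + e k)) * phi i (s + e k) = rho (i+1) s := rfl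
    rw [h5]
    have h6 : a (i+1) * ((e (i+1) : ℝ) / (s + e (i+1))) * phi i (s + e (i+1)) = -rho i s := by
      have hphi : phi i (s + nn i) =
          -(om (nn i) * 2 ^ (i + 1)) * (((s + nn i : ℕ) : ℝ) / nn i) * rho i s := by
        unfold phi ph
        rw [if_pos (by omega), Nat.add_sub_cancel]
      change (1/2)^(i+1) / om (nn i) * ((nn i : ℝ) / (s + nn i)) * phi i (s + nn i) = -rho i s
      rw [hphi]
      have hn : (0:ℝ) < nn i := by exact_mod_cast nn_pos i
      have hw := om_pos (nn i)
      have hp : ((1:ℝ)/2)^(i+1) * 2^(i+1) = 1 := by rw [← mul_pow]; norm_num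
      have hsn : (0:ℝ) < (s:ℝ) + nn i := by positivity
      push_cast
      calc (1 / 2) ^ (i + 1) / om (nn i) * ((nn i : ℝ) / (s + nn i)) *
            (-(om (nn i) * 2 ^ (i + 1)) * ((s + nn i) / nn i) * rho i s)
          = -(((1:ℝ)/2)^(i+1) * 2^(i+1)) * rho i s := by field_simp
        _ = -rho i s := by rw [hp]; ring
    rw [h6]; ring
  rw [Finset.sum_congr rfl h3, Finset.sum_range_sub (fun i => rho i s)]
  ring

lemma summable_V (s : ℕ) : Summable (fun k => a k * ((e k : ℝ) / (s + e k)) * Ph (s + e k)) := by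
  have hg : Summable (fun k : ℕ => 9 * om s * (1/2:ℝ)^k) :=
    (summable_geometric_of_lt_one (by norm_num) (by norm_num)).mul_left _
  refine Summable.of_norm_bounded hg fun k => ?_
  have ha := a_pos k
  have he : (0:ℝ) < e k := by exact_mod_cast e_pos k
  rw [Real.norm_eq_abs, abs_mul, abs_mul, abs_of_pos ha, abs_of_pos (by positivity)]
  have h1 : (e k : ℝ) / (s + e k) ≤ 1 := by
    rw [div_le_one (by positivity)]
    have : (0:ℝ) ≤ s := by positivity
    linarith
  have h2 := Ph_bound (s + e k)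
  have h3 := om_sub s (e k)
  have h4 := om_pos s
  have h5 := om_pos (e k)
  calc a k * ((e k : ℝ) / (s + e k)) * |Ph (s + e k)|
      ≤ a k * 1 * (9 * (om s * om (e k))) := by
        gcongr
        exact h2.trans (by linarith)
    _ = 9 * om s * (a k * om (e k)) := by ring
    _ = 9 * om s * (1/2)^k := by rw [a_om]

theorem tsum_V (s : ℕ) : ∑' k, a k * ((e k : ℝ) / (s + e k)) * Ph (s + e k) = 0 := by
  have h1 := (summable_V s).hasSum.tendsto_sum_nat
  have h2 := h1.comp (Filter.tendsto_add_atTop_nat 2)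
  have h3 : Filter.Tendsto (fun I => rho (I+1) s) Filter.atTop (nhds 0) := by
    have hg : Filter.Tendsto (fun I : ℕ => ((1/4:ℝ))^I * om s) Filter.atTop (nhds 0) := by
      have := (tendsto_pow_atTop_nhds_zero_of_lt_one (show (0:ℝ) ≤ 1/4 by norm_num) (by norm_num)).mul_const (om s)
      simpa using this
    have hg2 := hg.comp (Filter.tendsto_add_atTop_nat 1)
    exact squeeze_zero_norm (fun I => by rw [Real.norm_eq_abs]; exact rho_bound (I+1) s) hg2
  have h4 : ((fun n => ∑ k ∈ range n, a k * ((e k : ℝ) / (s + e k)) * Ph (s + e k)) ∘ fun x => x + 2)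
      =ᶠ[Filter.atTop] fun I => rho (I+1) s := by
    filter_upwards [Filter.eventually_ge_atTop s] with I hI
    exact partial_sum (by have := nn_gt I; omega)
  exact tendsto_nhds_unique (h2.congr' h4) h3

end Pool.Agent.H3.PolyGen
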