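import Mathlib
import Pool.Agent.H3.PolyGen

set_option autoImplicit false
open Finset

namespace Pool.Agent.H3.PolyGen

/-- coefficients of `f` -/
noncomputable def c (m : ℕ) : ℝ := ∑ k ∈ range (m+1), if e k = m then a k else 0

lemma e_ge (k : ℕ) : k < e k := by
  cases k with
  | zero => simp [e]
  | succ k => have := nn_gt k; simpa [e] using this

lemma c_e (k : ℕ) : c (e k) = a k := by
  unfold c
  rw [Finset.sum_eq_single k]
  · simp
  · intro j _ hj
    rw [if_neg (fun h => hj (e_strictMono.injective h))]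
  · intro h
    have := e_ge k
    rw [Finset.mem_range] at h; omega

lemma c_not {m : ℕ} (h : m ∉ Set.range e) : c m = 0 := by
  unfold c
  refine Finset.sum_eq_zero fun k _ => ?_
  rw [if_neg]
  intro h2
  exact h ⟨k, h2⟩

lemma c_nonneg (m : ℕ) : 0 ≤ c m :=
  Finset.sum_nonneg fun k _ => by split_ifs <;> [exact (a_pos k).le; exact le_rfl]

lemma c_zero : c 0 = 0 := c_not (by rintro ⟨k, hk⟩; have := e_pos k; omega)

lemma c_one : c 1 = 1 := c_e 0

lemma summable_c : Summable (fun m => c m * om m) := by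
  rw [← e_strictMono.injective.summable_iff]
  · have : ((fun m => c m * om m) ∘ e) = fun k => (1/2:ℝ)^k := by
      funext k; simp only [Function.comp, c_e, a_om]
    rw [this]
    exact summable_geometric_of_lt_one (by norm_num) (by norm_num)
  · intro m hm
    rw [c_not hm, zero_mul]

lemma tsum_c (s : ℕ) : ∑' m, c m * ((m : ℝ) / (s + m)) * Ph (s + m) = 0 := by
  have h := e_strictMono.injective.tsum_eq (f := fun m => c m * ((m : ℝ) / (s + m)) * Ph (s + m)) (by
    intro m hm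
    by_contra h
    rw [Function.mem_support] at hm
    exact hm (by rw [c_not h, zero_mul, zero_mul]))
  rw [← h]
  simp only [c_e]
  exact tsum_V s

lemma summable_cV (s : ℕ) : Summable (fun m => c m * ((m : ℝ) / (s + m)) * Ph (s + m)) := by
  rw [← e_strictMono.injective.summable_iff]
  · have : ((fun m => c m * ((m : ℝ) / (s + m)) * Ph (s + m)) ∘ e) =
        fun k => a k * ((e k : ℝ) / (s + e k)) * Ph (s + e k) := by
      funext k; simp only [Function.comp, c_e]
    rw [this]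
    exact summable_V s
  · intro m hm
    rw [c_not hm, zero_mul, zero_mul]

/-- membership in `ℓ¹(ω)` -/
def L (p : PowerSeries ℂ) : Prop := Summable (fun n : ℕ => ‖PowerSeries.coeff n p‖ * om n)

lemma L_mul {p q : PowerSeries ℂ} (hp : L p) (hq : L q) : L (p * q) := by
  unfold L at *
  have h := summable_norm_sum_mul_antidiagonal_of_summable_norm
    (f := fun n : ℕ => ‖PowerSeries.coeff n p‖ * om n)
    (g := fun n : ℕ => ‖PowerSeries.coeff n q‖ * om n) hp.norm hq.norm
  refine Summable.of_nonneg_of_le (fun n => mul_nonneg (norm_nonneg _) (om_pos n).le) (fun n => ?_) h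
  rw [PowerSeries.coeff_mul]
  rw [Real.norm_of_nonneg (Finset.sum_nonneg fun x _ => mul_nonneg
    (mul_nonneg (norm_nonneg _) (om_pos _).le) (mul_nonneg (norm_nonneg _) (om_pos _).le))]
  calc ‖∑ x ∈ antidiagonal n, PowerSeries.coeff x.1 p * PowerSeries.coeff x.2 q‖ * om n
      ≤ (∑ x ∈ antidiagonal n, ‖PowerSeries.coeff x.1 p * PowerSeries.coeff x.2 q‖) * om n :=
        mul_le_mul_of_nonneg_right (norm_sum_le _ _) (om_pos n).le
    _ = ∑ x ∈ antidiagonal n, ‖PowerSeries.coeff x.1 p‖ * ‖PowerSeries.coeff x.2 q‖ * om n := by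
        rw [Finset.sum_mul]; exact Finset.sum_congr rfl fun x _ => by rw [norm_mul]
    _ ≤ _ := by
        refine Finset.sum_le_sum fun x hx => ?_
        replace hx : x.1 + x.2 = n := by simpa using hx
        have h1 := om_sub x.1 x.2
        rw [hx] at h1
        calc ‖PowerSeries.coeff x.1 p‖ * ‖PowerSeries.coeff x.2 q‖ * om n
            ≤ ‖PowerSeries.coeff x.1 p‖ * ‖PowerSeries.coeff x.2 q‖ * (om x.1 * om x.2) :=
              mul_le_mul_of_nonneg_left h1 (by positivity)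
          _ = _ := by ring

lemma L_one : L (1 : PowerSeries ℂ) := by
  unfold L
  refine summable_of_ne_finset_zero (s := {0}) fun n hn => ?_
  rw [Finset.mem_singleton] at hn
  rw [PowerSeries.coeff_one, if_neg hn]; simp

lemma L_pow {p : PowerSeries ℂ} (hp : L p) (k : ℕ) : L (p ^ k) := by
  induction k with
  | zero => rw [pow_zero]; exact L_one
  | succ k ih => rw [pow_succ]; exact L_mul ih hp

lemma L_add {p q : PowerSeries ℂ} (hp : L p) (hq : L q) : L (p + q) := by
  unfold L at *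
  refine Summable.of_nonneg_of_le (fun n => mul_nonneg (norm_nonneg _) (om_pos n).le) (fun n => ?_)
    (hp.add hq)
  rw [map_add, ← add_mul]
  exact mul_le_mul_of_nonneg_right (norm_add_le _ _) (om_pos n).le

lemma L_smul {p : PowerSeries ℂ} (z : ℂ) (hp : L p) : L (z • p) := by
  unfold L at *
  have := hp.mul_left ‖z‖
  refine this.congr fun n => ?_
  rw [PowerSeries.coeff_smul, smul_eq_mul, norm_mul]; ring

lemma L_sum {ι : Type*} (s : Finset ι) (p : ι → PowerSeries ℂ) (h : ∀ i ∈ s, L (p i)) :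
    L (∑ i ∈ s, p i) := by
  classical
  induction s using Finset.induction_on with
  | empty => simp [L]
  | insert i s hi ih =>
    rw [Finset.sum_insert hi]
    exact L_add (h i (Finset.mem_insert_self _ _)) (ih fun j hj => h j (Finset.mem_insert_of_mem hj))

noncomputable def Fn (p : PowerSeries ℂ) : ℂ := ∑' n : ℕ, (Ph n : ℂ) * PowerSeries.coeff n p

lemma Fn_term (p : PowerSeries ℂ) (n : ℕ) :
    ‖(Ph n : ℂ) * PowerSeries.coeff n p‖ ≤ 9 * (‖PowerSeries.coeff n p‖ * om n) := by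
  rw [norm_mul, Complex.norm_real, Real.norm_eq_abs]
  calc |Ph n| * ‖PowerSeries.coeff n p‖ ≤ (9 * om n) * ‖PowerSeries.coeff n p‖ :=
        mul_le_mul_of_nonneg_right (Ph_bound n) (norm_nonneg _)
    _ = _ := by ring

lemma Fn_summable {p : PowerSeries ℂ} (hp : L p) :
    Summable (fun n : ℕ => (Ph n : ℂ) * PowerSeries.coeff n p) :=
  Summable.of_norm_bounded (hp.mul_left 9) (Fn_term p)

lemma Fn_add {p q : PowerSeries ℂ} (hp : L p) (hq : L q) : Fn (p + q) = Fn p + Fn q := by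
  unfold Fn
  rw [← (Fn_summable hp).tsum_add (Fn_summable hq)]
  exact tsum_congr fun n => by rw [map_add, mul_add]

lemma Fn_smul {p : PowerSeries ℂ} (z : ℂ) : Fn (z • p) = z * Fn p := by
  unfold Fn
  rw [← tsum_mul_left]
  exact tsum_congr fun n => by rw [PowerSeries.coeff_smul, smul_eq_mul]; ring

lemma Fn_sum {ι : Type*} (s : Finset ι) (p : ι → PowerSeries ℂ) (h : ∀ i ∈ s, L (p i)) :
    Fn (∑ i ∈ s, p i) = ∑ i ∈ s, Fn (p i) := by
  classical
  induction s using Finset.induction_on with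
  | empty => simp [Fn]
  | insert i s hi ih =>
    rw [Finset.sum_insert hi, Finset.sum_insert hi, Fn_add (h i (Finset.mem_insert_self _ _))
      (L_sum _ _ fun j hj => h j (Finset.mem_insert_of_mem hj)),
      ih fun j hj => h j (Finset.mem_insert_of_mem hj)]

lemma Fn_bound {p : PowerSeries ℂ} (hp : L p) :
    ‖Fn p‖ ≤ 9 * ∑' n : ℕ, ‖PowerSeries.coeff n p‖ * om n := by
  unfold Fn
  rw [← tsum_mul_left]
  exact tsum_of_norm_bounded (hp.mul_left 9).hasSum (Fn_term p)

noncomputable def f : PowerSeries ℂ := PowerSeries.mk fun m => ((c m : ℝ) : ℂ)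

lemma coeff_f (m : ℕ) : PowerSeries.coeff m f = ((c m : ℝ) : ℂ) := by
  rw [f, PowerSeries.coeff_mk]

lemma L_f : L f := by
  unfold L
  refine summable_c.congr fun m => ?_
  rw [coeff_f, Complex.norm_real, Real.norm_of_nonneg (c_nonneg m)]

/-- the double sequence -/
noncomputable def G (k : ℕ) (x : ℕ × ℕ) : ℂ :=
  PowerSeries.coeff x.1 (f ^ k) *
    ((c (x.2+1) * (((x.2+1 : ℕ) : ℝ) / (x.1 + (x.2+1 : ℕ))) * Ph (x.1 + (x.2+1)) : ℝ) : ℂ)

lemma coeff_pow_succ (k n : ℕ) : (Ph (n+1) : ℂ) * PowerSeries.coeff (n+1) (f ^ (k+1)) =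
    ∑ x ∈ Finset.HasAntidiagonal.antidiagonal n, (k+1 : ℂ) * G k x := by
  have h1 := congrArg (PowerSeries.coeff n) (PowerSeries.derivative_pow (R := ℂ) f (k+1))
  rw [PowerSeries.coeff_derivative, Nat.add_sub_cancel, mul_assoc, ← nsmul_eq_mul, map_nsmul,
    nsmul_eq_mul, PowerSeries.coeff_mul] at h1
  have hn : ((n : ℂ) + 1) ≠ 0 := by exact_mod_cast Nat.succ_ne_zero n
  have h2 : PowerSeries.coeff (n+1) (f ^ (k+1)) =
      (((k+1 : ℕ) : ℂ) * ∑ x ∈ Finset.HasAntidiagonal.antidiagonal n, PowerSeries.coeff x.1 (f ^ k) *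
        PowerSeries.coeff x.2 (PowerSeries.derivative ℂ f)) / ((n : ℂ) + 1) := by
    rw [eq_div_iff hn]; exact h1
  rw [h2, mul_div_assoc', div_eq_iff hn, Finset.mul_sum, Finset.mul_sum, Finset.sum_mul]
  refine Finset.sum_congr rfl fun x hx => ?_
  replace hx : x.1 + x.2 = n := by simpa using hx
  rw [PowerSeries.coeff_derivative, coeff_f, G]
  have h3 : x.1 + (x.2 + 1) = n + 1 := by omega
  rw [h3]
  have h4 : ((x.1 : ℝ) + ((x.2 + 1 : ℕ) : ℝ)) = (n : ℝ) + 1 := by
    rw [← hx]; push_cast; ring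
  rw [h4]
  push_cast
  field_simp

lemma G_summable (k : ℕ) : Summable (G k) := by
  have h1 : Summable (fun s : ℕ => ‖PowerSeries.coeff s (f ^ k)‖ * om s) := L_pow L_f k
  have h2 : Summable (fun t : ℕ => c (t+1) * om (t+1)) := (summable_nat_add_iff 1).mpr summable_c
  have h3 := (h1.mul_of_nonneg h2 (fun s => mul_nonneg (norm_nonneg _) (om_pos s).le)
    (fun t => mul_nonneg (c_nonneg _) (om_pos _).le)).mul_left 9
  refine Summable.of_norm_bounded h3 fun x => ?_
  rw [G, norm_mul, Complex.norm_real, Real.norm_eq_abs, abs_mul, abs_mul,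
    abs_of_nonneg (c_nonneg _), abs_of_nonneg (by positivity)]
  have h4 : (((x.2+1 : ℕ) : ℝ) / (x.1 + (x.2+1 : ℕ))) ≤ 1 := by
    rw [div_le_one (by positivity)]
    have : (0:ℝ) ≤ x.1 := by positivity
    linarith
  have h5 := Ph_bound (x.1 + (x.2+1))
  have h6 := om_sub x.1 (x.2+1)
  have h7 := c_nonneg (x.2+1)
  calc ‖PowerSeries.coeff x.1 (f ^ k)‖ *
        (c (x.2+1) * (((x.2+1 : ℕ) : ℝ) / (x.1 + (x.2+1 : ℕ))) * |Ph (x.1 + (x.2+1))|)
      ≤ ‖PowerSeries.coeff x.1 (f ^ k)‖ * (c (x.2+1) * 1 * (9 * (om x.1 * om (x.2+1)))) := by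
        gcongr
        exact h5.trans (by linarith)
    _ = _ := by ring

lemma G_tsum (k : ℕ) : ∑' x, G k x = 0 := by
  rw [(G_summable k).tsum_prod]
  rw [← tsum_zero (α := ℂ) (β := ℕ)]
  refine tsum_congr fun s => ?_
  simp only [G]
  rw [tsum_mul_left]
  have h1 : ∑' t : ℕ, (((c (t+1) * (((t+1 : ℕ) : ℝ) / (s + (t+1 : ℕ))) * Ph (s + (t+1)) : ℝ)) : ℂ) = 0 := by
    rw [← Complex.ofReal_tsum]
    have h2 := (summable_cV s).tsum_eq_zero_add
    rw [tsum_c, c_zero, zero_mul, zero_mul, zero_add] at h2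
    rw [← h2]; simp
  rw [h1, mul_zero]

lemma Fn_pow (k : ℕ) : Fn (f ^ (k+1)) = 0 := by
  have hs := Fn_summable (L_pow L_f (k+1))
  unfold Fn
  rw [hs.tsum_eq_zero_add]
  have h0 : PowerSeries.coeff 0 (f ^ (k+1)) = 0 := by
    rw [PowerSeries.coeff_zero_eq_constantCoeff_apply, map_pow,
      ← PowerSeries.coeff_zero_eq_constantCoeff_apply, coeff_f, c_zero]
    simp
  rw [h0, mul_zero, zero_add]
  rw [tsum_congr fun n => coeff_pow_succ k n]
  have h1 : Summable (fun x => (k+1 : ℂ) * G k x) := (G_summable k).mul_left _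
  have h2 := (Finset.HasAntidiagonal.sigmaAntidiagonalEquivProd (A := ℕ)).tsum_eq (fun x => (k+1 : ℂ) * G k x)
  have h3 : Summable fun (y : Σ n : ℕ, Finset.HasAntidiagonal.antidiagonal n) => (k+1 : ℂ) * G k (Finset.HasAntidiagonal.sigmaAntidiagonalEquivProd y) :=
    (Finset.HasAntidiagonal.sigmaAntidiagonalEquivProd (A := ℕ)).summable_iff.mpr h1
  rw [h3.tsum_sigma'] at h2
  · have h4 : ∀ n : ℕ, ∑' y : Finset.HasAntidiagonal.antidiagonal n, (k+1 : ℂ) * G k (Finset.HasAntidiagonal.sigmaAntidiagonalEquivProd ⟨n, y⟩) =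
        ∑ x ∈ Finset.HasAntidiagonal.antidiagonal n, (k+1 : ℂ) * G k x := by
      intro n
      rw [tsum_fintype]
      exact Finset.sum_coe_sort (Finset.HasAntidiagonal.antidiagonal n) (fun x => (k+1 : ℂ) * G k x)
    rw [tsum_congr h4] at h2
    rw [h2, tsum_mul_left, G_tsum, mul_zero]
  · intro n
    exact (hasSum_fintype _).summable

lemma Fn_aeval (p : Polynomial ℂ) (hp : p.coeff 0 = 0) :
    L (Polynomial.aeval f p) ∧ Fn (Polynomial.aeval f p) = 0 := by
  rw [Polynomial.aeval_eq_sum_range]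
  constructor
  · exact L_sum _ _ fun i _ => L_smul _ (L_pow L_f i)
  · rw [Fn_sum _ _ fun i _ => L_smul _ (L_pow L_f i)]
    refine Finset.sum_eq_zero fun i _ => ?_
    rw [Fn_smul]
    cases i with
    | zero => rw [hp, zero_mul]
    | succ i => rw [Fn_pow, mul_zero]

lemma L_X : L (PowerSeries.X : PowerSeries ℂ) := by
  unfold L
  refine summable_of_ne_finset_zero (s := {1}) fun n hn => ?_
  rw [Finset.mem_singleton] at hn
  rw [PowerSeries.coeff_X, if_neg hn]; simp

lemma Fn_X : Fn PowerSeries.X = 1 := by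
  unfold Fn
  rw [tsum_eq_single 1]
  · rw [PowerSeries.coeff_one_X, Ph_one]; simp
  · intro n hn
    rw [PowerSeries.coeff_X, if_neg hn, mul_zero]

theorem dist_ge (p : Polynomial ℂ) (hp : p.coeff 0 = 0) :
    1/9 ≤ ∑' n : ℕ, ‖PowerSeries.coeff n (PowerSeries.X - Polynomial.aeval f p)‖ * om n := by
  obtain ⟨h1, h2⟩ := Fn_aeval p hp
  have h3 : (PowerSeries.X : PowerSeries ℂ) - Polynomial.aeval f p =
      PowerSeries.X + (-1 : ℂ) • Polynomial.aeval f p := by simp [sub_eq_add_neg]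
  have hL : L ((PowerSeries.X : PowerSeries ℂ) - Polynomial.aeval f p) := by
    rw [h3]; exact L_add L_X (L_smul _ h1)
  have h4 : Fn ((PowerSeries.X : PowerSeries ℂ) - Polynomial.aeval f p) = 1 := by
    rw [h3, Fn_add L_X (L_smul _ h1), Fn_smul, h2, Fn_X]; simp
  have h5 := Fn_bound hL
  rw [h4, norm_one] at h5
  linarith

theorem om_radical :
    Filter.Tendsto (fun n : ℕ => (om n) ^ (1 / (n : ℝ))) Filter.atTop (nhds 0) := by
  rw [Metric.tendsto_atTop]
  intro ε hε
  obtain ⟨i, hi⟩ := exists_pow_lt_of_lt_one hε (show (1/2:ℝ) < 1 by norm_num)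
  refine ⟨nn i, fun n hn => ?_⟩
  have hn0 : 0 < n := lt_of_lt_of_le (nn_pos i) hn
  have hn' : (0:ℝ) < n := by exact_mod_cast hn0
  rw [Real.dist_eq, sub_zero, abs_of_nonneg (Real.rpow_nonneg (om_pos n).le _)]
  refine lt_of_le_of_lt ?_ hi
  have h1 : om n ≤ ((1/2:ℝ)^i)^n := by
    unfold om
    rw [← pow_mul]
    apply pow_le_pow_of_le_one (by norm_num) (by norm_num)
    have := g_big hn
    nlinarith
  calc (om n) ^ (1 / (n:ℝ)) ≤ (((1/2:ℝ)^i)^n) ^ (1 / (n:ℝ)) :=
        Real.rpow_le_rpow (om_pos n).le h1 (by positivity)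
    _ = (1/2:ℝ)^i := by
        have h2 : (0:ℝ) ≤ (1/2)^i := by positivity
        rw [one_div (n:ℝ)]
        exact Real.pow_rpow_inv_natCast h2 hn0.ne'

end Pool.Agent.H3.PolyGen
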