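import Mathlib

set_option autoImplicit false

namespace Pool.Agent.H3.Sq

/-- terms of the language `{0, 1, +, P}` -/
inductive Tm : Type
  | var (i : ℕ) : Tm
  | zero : Tm
  | one : Tm
  | add (s t : Tm) : Tm

/-- value of a term in `ℚ` -/
def Tm.val (v : ℕ → ℚ) : Tm → ℚ
  | .var i => v i
  | .zero => 0
  | .one => 1
  | .add s t => s.val v + t.val v

/-- quantifier-free formulas without negation: atoms `s = t` and `P t`, conjunction, disjunction -/
inductive Fm : Type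
  | eq (s t : Tm) : Fm
  | sq (t : Tm) : Fm
  | and (φ ψ : Fm) : Fm
  | or (φ ψ : Fm) : Fm

/-- satisfaction in `ℚ`, `P` is the set of squares -/
def Fm.Holds (v : ℕ → ℚ) : Fm → Prop
  | .eq s t => s.val v = t.val v
  | .sq t => ∃ y : ℚ, y ^ 2 = t.val v
  | .and φ ψ => φ.Holds v ∧ ψ.Holds v
  | .or φ ψ => φ.Holds v ∨ ψ.Holds v

/-- `S` is defined by `∃ y₁ … y_m φ`, `φ` positive quantifier-free (the free variable is `0`) -/
def PosDef (S : Set ℚ) : Prop :=
  ∃ φ : Fm, ∀ x : ℚ, x ∈ S ↔ ∃ v : ℕ → ℚ, v 0 = x ∧ φ.Holds v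

end Pool.Agent.H3.Sq
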