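import Mathlib

/-! One dimensional gadget: monotone Lipschitz retraction-like functions. -/

set_option autoImplicit false
open Filter Topology Set

namespace Pool.Agent.H3.SqG

def T (n x c : ℝ) : ℝ := c - n * max (c - x) 0

noncomputable def G (K : Set ℝ) (n x : ℝ) : ℝ := sSup (T n x '' K)

variable {K : Set ℝ} {n x y c : ℝ}

lemma T_le (hn : 1 ≤ n) : T n x c ≤ x := by
  unfold T
  rcases le_total c x with h | h
  · rw [max_eq_right (by linarith)]; linarith
  · rw [max_eq_left (by linarith)]; nlinarith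

lemma bdd (hn : 1 ≤ n) : BddAbove (T n x '' K) := ⟨x, by rintro _ ⟨c, -, rfl⟩; exact T_le hn⟩

lemma T_le_G (hn : 1 ≤ n) (hc : c ∈ K) : T n x c ≤ G K n x := le_csSup (bdd hn) ⟨c, hc, rfl⟩

lemma G_le_of (hK : K.Nonempty) {R : ℝ} (h : ∀ c ∈ K, T n x c ≤ R) : G K n x ≤ R :=
  csSup_le (hK.image _) (by rintro _ ⟨c, hc, rfl⟩; exact h c hc)

lemma G_le (hn : 1 ≤ n) (hK : K.Nonempty) : G K n x ≤ x := G_le_of hK fun _ _ => T_le hn

lemma le_G (hn : 1 ≤ n) (hc : c ∈ K) (hcx : c ≤ x) : c ≤ G K n x := by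
  have := T_le_G (x := x) hn hc
  unfold T at this
  rw [max_eq_right (by linarith)] at this
  linarith

lemma G_mono (hn : 1 ≤ n) (hK : K.Nonempty) (hxy : x ≤ y) : G K n x ≤ G K n y := by
  apply G_le_of hK
  intro c hc
  refine le_trans ?_ (T_le_G hn hc)
  unfold T
  have : max (c - y) 0 ≤ max (c - x) 0 := max_le_max (by linarith) le_rfl
  nlinarith

lemma G_lip (hn : 1 ≤ n) (hK : K.Nonempty) (hxy : x ≤ y) : G K n y ≤ G K n x + n * (y - x) := by
  apply G_le_of hK
  intro c hc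
  have h1 := T_le_G (x := x) hn hc
  have : max (c - x) 0 ≤ max (c - y) 0 + (y - x) := by
    apply max_le
    · linarith [le_max_left (c - y) 0]
    · linarith [le_max_right (c - y) 0]
  unfold T at h1 ⊢
  nlinarith

lemma G_eq_of_mem (hn : 1 ≤ n) (hc : x ∈ K) : G K n x = x :=
  le_antisymm (G_le hn ⟨x, hc⟩) (le_G hn hc le_rfl)

lemma gap (hcl : IsClosed K) (hx : x ∉ K) : ∃ δ > 0, ∀ c ∈ K, x < c → x + δ ≤ c := by
  have : Kᶜ ∈ 𝓝 x := hcl.isOpen_compl.mem_nhds hx
  obtain ⟨δ, hδ, h⟩ := Metric.mem_nhds_iff.1 this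
  refine ⟨δ, hδ, fun c hc hxc => ?_⟩
  by_contra hcon
  push Not at hcon
  exact h (show c ∈ Metric.ball x δ by rw [Metric.mem_ball, Real.dist_eq, abs_lt]; constructor <;> linarith) hc

lemma T_le_gap {δ : ℝ} (hn : 1 ≤ n) (hδ : 0 < δ) (h : x + δ ≤ c) : T n x c ≤ x - δ * (n - 1) := by
  unfold T
  rw [max_eq_left (by linarith)]
  nlinarith

/-- `G` is eventually equal to the largest element of `K` below `x`. -/
lemma G_eq (hcl : IsClosed K) (h : (K ∩ Iic x).Nonempty) :
    ∃ a ∈ K, a ≤ x ∧ ∃ N : ℝ, 1 ≤ N ∧ ∀ n, N ≤ n → G K n x = a := by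
  have hb : BddAbove (K ∩ Iic x) := ⟨x, fun c hc => hc.2⟩
  have ha : sSup (K ∩ Iic x) ∈ K ∩ Iic x := (hcl.inter isClosed_Iic).csSup_mem h hb
  set a := sSup (K ∩ Iic x) with had
  refine ⟨a, ha.1, ha.2, ?_⟩
  by_cases hx : x ∈ K
  · have hax : a = x := le_antisymm ha.2 (le_csSup hb ⟨hx, Set.mem_Iic.2 le_rfl⟩)
    exact ⟨1, le_rfl, fun n hn => by rw [G_eq_of_mem hn hx, hax]⟩
  · obtain ⟨δ, hδ, hg⟩ := gap hcl hx
    refine ⟨max 1 ((x - a) / δ + 1), le_max_left _ _, fun n hn => ?_⟩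
    have hn1 : 1 ≤ n := (le_max_left _ _).trans hn
    have hn2 : (x - a) / δ + 1 ≤ n := (le_max_right _ _).trans hn
    apply le_antisymm _ (le_G hn1 ha.1 ha.2)
    apply G_le_of ⟨a, ha.1⟩
    intro c hc
    rcases le_or_gt c x with hcx | hcx
    · have : T n x c = c := by unfold T; rw [max_eq_right (by linarith)]; ring
      rw [this]; exact le_csSup hb ⟨hc, hcx⟩
    · have h1 := T_le_gap hn1 hδ (hg c hc hcx)
      have h2 : x - a ≤ δ * (n - 1) := by
        have : (x - a) / δ ≤ n - 1 := by linarith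
        rw [div_le_iff₀ hδ] at this; linarith
      linarith

lemma G_atBot (hcl : IsClosed K) (hK : K.Nonempty) (h : ¬ (K ∩ Iic x).Nonempty) (R : ℝ) :
    ∃ N : ℝ, 1 ≤ N ∧ ∀ n, N ≤ n → G K n x ≤ R := by
  have hlt : ∀ c ∈ K, x < c := by
    intro c hc; by_contra hcon; push Not at hcon; exact h ⟨c, hc, hcon⟩
  have hx : x ∉ K := fun hx => lt_irrefl _ (hlt x hx)
  obtain ⟨δ, hδ, hg⟩ := gap hcl hx
  refine ⟨max 1 ((x - R) / δ + 1), le_max_left _ _, fun n hn => ?_⟩
  have hn1 : 1 ≤ n := (le_max_left _ _).trans hn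
  have hn2 : (x - R) / δ + 1 ≤ n := (le_max_right _ _).trans hn
  apply G_le_of hK
  intro c hc
  have h1 := T_le_gap hn1 hδ (hg c hc (hlt c hc))
  have h2 : x - R ≤ δ * (n - 1) := by
    have : (x - R) / δ ≤ n - 1 := by linarith
    rw [div_le_iff₀ hδ] at this; linarith
  linarith

/-- the perturbed function -/
noncomputable def f (K : Set ℝ) (n L x : ℝ) : ℝ :=
  G K n x + x / n + (L * n * max (x - 1) 0 - L * n * max (-x) 0)

lemma f_strictMono {L : ℝ} (hL : 0 ≤ L) (hn : 1 ≤ n) (hK : K.Nonempty) : StrictMono (f K n L) := by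
  intro x y hxy
  have h1 := G_mono (n := n) hn hK hxy.le
  have h2 : x / n < y / n := by apply div_lt_div_of_pos_right hxy; linarith
  have h3 : max (x - 1) 0 ≤ max (y - 1) 0 := max_le_max (by linarith) le_rfl
  have h4 : max (-y) 0 ≤ max (-x) 0 := max_le_max (by linarith) le_rfl
  have hLn : 0 ≤ L * n := mul_nonneg hL (by linarith)
  have h5 := mul_le_mul_of_nonneg_left h3 hLn
  have h6 := mul_le_mul_of_nonneg_left h4 hLn
  unfold f
  linarith

lemma G_cont (hn : 1 ≤ n) (hK : K.Nonempty) : Continuous (G K n) := by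
  have hlip : LipschitzWith (Real.toNNReal n) (G K n) := by
    apply LipschitzWith.of_dist_le_mul
    intro x y
    rw [Real.dist_eq, Real.dist_eq, Real.coe_toNNReal _ (by linarith)]
    rcases le_total x y with h | h
    · have h1 := G_mono (n := n) hn hK h
      have h2 := G_lip (n := n) hn hK h
      rw [abs_of_nonpos (by linarith), abs_of_nonpos (by linarith)]
      linarith
    · have h1 := G_mono (n := n) hn hK h
      have h2 := G_lip (n := n) hn hK h
      rw [abs_of_nonneg (by linarith), abs_of_nonneg (by linarith)]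
      linarith
  exact hlip.continuous

lemma f_cont {L : ℝ} (hn : 1 ≤ n) (hK : K.Nonempty) : Continuous (f K n L) := by
  have := G_cont (n := n) hn hK
  unfold f
  fun_prop

lemma f_surj {L : ℝ} (hL : 0 ≤ L) (hn : 1 ≤ n) (hK : K.Nonempty) : Function.Surjective (f K n L) := by
  have hn0 : 0 < n := by linarith
  have hLn : 0 ≤ L * n := mul_nonneg hL (by linarith)
  apply (f_cont (L := L) hn hK).surjective
  · have h1 : Tendsto (fun x : ℝ => G K n 0 + x / n) atTop atTop :=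
      tendsto_atTop_add_const_left _ _ (tendsto_id.atTop_div_const hn0)
    refine tendsto_atTop_mono' _ ?_ h1
    filter_upwards [eventually_ge_atTop 0] with x hx
    have h2 := G_mono (n := n) hn hK hx
    have h3 : 0 ≤ L * n * max (x - 1) 0 := mul_nonneg hLn (le_max_right _ _)
    unfold f
    rw [max_eq_right (show -x ≤ 0 by linarith)]
    linarith
  · have h1 : Tendsto (fun x : ℝ => x) atBot atBot := tendsto_id
    refine tendsto_atBot_mono' _ ?_ h1
    filter_upwards [eventually_le_atBot 0] with x hx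
    have h2 := G_le (n := n) (x := x) hn hK
    have h3 : 0 ≤ L * n * max (-x) 0 := mul_nonneg hLn (le_max_right _ _)
    have h4 : x / n ≤ 0 := div_nonpos_of_nonpos_of_nonneg hx hn0.le
    unfold f
    rw [max_eq_right (show x - 1 ≤ 0 by linarith)]
    linarith

noncomputable def fH (K : Set ℝ) (n L : ℝ) (hL : 0 ≤ L) (hn : 1 ≤ n) (hK : K.Nonempty) : ℝ ≃ₜ ℝ :=
  (StrictMono.orderIsoOfSurjective (f K n L) (f_strictMono hL hn hK) (f_surj hL hn hK)).toHomeomorph

lemma fH_apply {L : ℝ} (hL : 0 ≤ L) (hn : 1 ≤ n) (hK : K.Nonempty) (x : ℝ) :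
    fH K n L hL hn hK x = f K n L x := rfl

/-- values for `x ∈ [0,1]` -/
lemma f_mid {L : ℝ} (h0 : 0 ≤ x) (h1 : x ≤ 1) : f K n L x = G K n x + x / n := by
  unfold f
  rw [max_eq_right (show x - 1 ≤ 0 by linarith), max_eq_right (show -x ≤ 0 by linarith)]
  ring

lemma f_right {L : ℝ} (hL : 0 ≤ L) (hn : 1 ≤ n) (h0K : (0:ℝ) ∈ K) (h1 : 1 < x) (hnx : 1 ≤ n * (x - 1)) :
    L ≤ f K n L x := by
  unfold f
  rw [max_eq_left (show 0 ≤ x - 1 by linarith), max_eq_right (show -x ≤ 0 by linarith)]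
  have h2 : 0 ≤ G K n x := le_G hn h0K (by linarith)
  have h3 : 0 ≤ x / n := by positivity
  nlinarith

lemma f_left {L : ℝ} (hL : 0 ≤ L) (hn : 1 ≤ n) (hK : K.Nonempty) (h1 : x < 0) (hnx : 1 ≤ n * (-x)) :
    f K n L x ≤ -L := by
  unfold f
  rw [max_eq_right (show x - 1 ≤ 0 by linarith), max_eq_left (show 0 ≤ -x by linarith)]
  have h2 : G K n x ≤ x := G_le hn hK
  have h3 : x / n ≤ 0 := div_nonpos_of_nonpos_of_nonneg h1.le (by linarith)
  nlinarith

end Pool.Agent.H3.SqG
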