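import Pool.Agent.H3.SqT

set_option autoImplicit false
open Filter Topology Set Pool.Agent.H3.SqG Pool.Agent.H3.SqT

namespace Pool.Agent.H3.SqH

abbrev B := ℕ → Bool

noncomputable def e (b : B) : ℝ := ((cantorSetHomeomorphNatToBool.symm b : cantorSet) : ℝ)

lemma e_cont : Continuous e := continuous_subtype_val.comp cantorSetHomeomorphNatToBool.symm.continuous
lemma e_inj : Function.Injective e :=
  Subtype.val_injective.comp cantorSetHomeomorphNatToBool.symm.injective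
lemma e_mem (b : B) : e b ∈ cantorSet := Subtype.coe_prop _
lemma e_surj {x : ℝ} (hx : x ∈ cantorSet) : ∃ b, e b = x :=
  ⟨cantorSetHomeomorphNatToBool ⟨x, hx⟩, by simp [e]⟩
lemma e_unit (b : B) : 0 ≤ e b ∧ e b ≤ 1 := cantorSet_subset_unitInterval (e_mem b)

def tr (N : ℕ) (b : B) : B := fun i => if i < N then b i else false

lemma tr_unif {S : Type*} [MetricSpace S] (F : B → S) (hF : Continuous F) {ε : ℝ} (hε : 0 < ε) :
    ∃ N, ∀ b, dist (F (tr N b)) (F b) < ε := by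
  by_contra hcon
  push Not at hcon
  choose b hb using hcon
  obtain ⟨b', -, φ, hφ, hlim⟩ := isCompact_univ.tendsto_subseq (fun n => mem_univ (b n))
  have h2 : Tendsto (fun k => tr (φ k) (b (φ k))) atTop (𝓝 b') := by
    rw [tendsto_pi_nhds] at hlim ⊢
    intro i
    refine (hlim i).congr' ?_
    filter_upwards [hφ.tendsto_atTop.eventually (eventually_gt_atTop i)] with k hk
    simp [tr, hk]
  have h3 : Tendsto (fun k => dist (F (tr (φ k) (b (φ k)))) (F (b (φ k)))) atTop (𝓝 (dist (F b') (F b'))) :=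
    ((hF.tendsto _).comp h2).dist ((hF.tendsto _).comp hlim)
  rw [dist_self] at h3
  have := ge_of_tendsto' h3 (fun k => hb (φ k))
  linarith

variable {W : Type*} [NormedAddCommGroup W]

lemma approx {S : Type*} [MetricSpace S] (F : B → S) (hF : Continuous F) (j : ℝ × ℝ × W → S) (hj : Continuous j)
    (hd : DenseRange j) {ε : ℝ} (hε : 0 < ε) :
    ∃ Φ : B → ℝ × ℝ × W, Continuous Φ ∧ (∀ b, dist (j (Φ b)) (F b) < ε) ∧
      Function.Injective (fun b => (Φ b).2.1) := by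
  obtain ⟨N, hN⟩ := tr_unif F hF (show 0 < ε / 3 by positivity)
  let ext : (Fin N → Bool) → B := fun w i => if h : i < N then w ⟨i, h⟩ else false
  let r : B → (Fin N → Bool) := fun b i => b i
  have hext : ∀ b, ext (r b) = tr N b := by
    intro b; funext i
    simp only [ext, r, tr]
    split_ifs <;> rfl
  have hr : Continuous r := by
    apply continuous_pi; intro i; exact continuous_apply _
  have hq : ∀ w, ∃ v, dist (F (ext w)) (j v) < ε / 3 := fun w =>
    Metric.denseRange_iff.1 hd (F (ext w)) (ε / 3) (by positivity)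
  choose q hq using hq
  have hη : ∀ w, ∃ η > 0, ∀ s : ℝ, |s| < η → dist (j ((q w).1, (q w).2.1 + s, (q w).2.2)) (j (q w)) < ε / 3 := by
    intro w
    have hc : Continuous (fun s : ℝ => j ((q w).1, (q w).2.1 + s, (q w).2.2)) := by fun_prop
    have := Metric.continuousAt_iff.1 (hc.continuousAt (x := 0)) (ε / 3) (by positivity)
    obtain ⟨η, h1, h2⟩ := this
    refine ⟨η, h1, fun s hs => ?_⟩
    have := h2 (by rwa [Real.dist_eq, sub_zero])
    simpa using this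
  choose η hη0 hη using hη
  have hev : ∀ᶠ θ : ℝ in 𝓝[>] 0, (∀ w, θ < η w) ∧ (∀ w w', (q w).2.1 ≠ (q w').2.1 → θ < |(q w).2.1 - (q w').2.1|) := by
    refine Filter.Eventually.and ?_ ?_
    · rw [eventually_all]; intro w
      filter_upwards [Ioo_mem_nhdsGT (hη0 w)] with θ h; exact h.2
    · rw [eventually_all]; intro w
      rw [eventually_all]; intro w'
      by_cases h : (q w).2.1 = (q w').2.1
      · exact Eventually.of_forall fun θ h' => absurd h h'
      · have h0 : 0 < |(q w).2.1 - (q w').2.1| := abs_pos.2 (sub_ne_zero.2 h)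
        filter_upwards [Ioo_mem_nhdsGT h0] with θ h _; exact h.2
  obtain ⟨θ, ⟨hθ1, hθ2⟩, hθ0⟩ := (hev.and self_mem_nhdsWithin).exists
  have hθ0 : 0 < θ := hθ0
  have hqr : Continuous (fun b => q (r b)) := continuous_of_discreteTopology.comp hr
  have hec := e_cont
  refine ⟨fun b => ((q (r b)).1, (q (r b)).2.1 + θ * e b, (q (r b)).2.2), by fun_prop, ?_, ?_⟩
  · intro b
    obtain ⟨e0, e1⟩ := e_unit b
    have h1 := hη (r b) (θ * e b) (by
      rw [abs_of_nonneg (by positivity)]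
      exact lt_of_le_of_lt (by nlinarith) (hθ1 (r b)))
    have h2 := hq (r b)
    have h3 := hN b
    rw [hext, dist_comm] at h2
    calc _ ≤ dist (j ((q (r b)).1, (q (r b)).2.1 + θ * e b, (q (r b)).2.2)) (j (q (r b))) +
            dist (j (q (r b))) (F (tr N b)) + dist (F (tr N b)) (F b) := dist_triangle4 _ _ _ _
      _ < ε := by linarith
  · intro b b' hbb
    simp only at hbb
    obtain ⟨e0, e1⟩ := e_unit b
    obtain ⟨e0', e1'⟩ := e_unit b'
    by_cases h : (q (r b)).2.1 = (q (r b')).2.1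
    · rw [h] at hbb
      exact e_inj (mul_left_cancel₀ hθ0.ne' (add_left_cancel hbb))
    · exfalso
      have h1 := hθ2 _ _ h
      have h2 : (q (r b)).2.1 - (q (r b')).2.1 = θ * (e b' - e b) := by linarith
      rw [h2, abs_mul, abs_of_pos hθ0] at h1
      have h3 : |e b' - e b| ≤ 1 := by rw [abs_le]; constructor <;> linarith
      nlinarith

lemma shear (m : ℕ) (Φ : B → ℝ × ℝ × (Fin m → ℝ)) (hΦ : Continuous Φ) (hinj : Function.Injective (fun b => (Φ b).2.1)) :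
    ∃ M : (ℝ × ℝ × (Fin m → ℝ)) ≃ₜ (ℝ × ℝ × (Fin m → ℝ)), ∀ b, M (e b, 0, 0) = Φ b := by
  have he : IsClosedEmbedding e := e_cont.isClosedEmbedding e_inj
  have h1c : Continuous (fun b => (Φ b).2.1) := by fun_prop
  have he1 : IsClosedEmbedding (fun b => (Φ b).2.1) := h1c.isClosedEmbedding hinj
  obtain ⟨u1, hu1⟩ := ContinuousMap.exists_extension he (⟨fun b => (Φ b).2.1, h1c⟩ : C(B, ℝ))
  obtain ⟨u2, hu2⟩ := ContinuousMap.exists_extension he (⟨fun b => (Φ b).2.2, by fun_prop⟩ : C(B, Fin m → ℝ))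
  have hec := e_cont
  obtain ⟨v, hv⟩ := ContinuousMap.exists_extension he1 (⟨fun b => (Φ b).1 - e b, by fun_prop⟩ : C(B, ℝ))
  have hu1' : ∀ b, u1 (e b) = (Φ b).2.1 := fun b => DFunLike.congr_fun hu1 b
  have hu2' : ∀ b, u2 (e b) = (Φ b).2.2 := fun b => DFunLike.congr_fun hu2 b
  have hv' : ∀ b, v ((Φ b).2.1) = (Φ b).1 - e b := fun b => DFunLike.congr_fun hv b
  have c1 := u1.continuous
  have c2 := u2.continuous
  have c3 := v.continuous
  let M1 : (ℝ × ℝ × (Fin m → ℝ)) ≃ₜ (ℝ × ℝ × (Fin m → ℝ)) :=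
    { toFun := fun x => (x.1, x.2.1 + u1 x.1, x.2.2 + u2 x.1)
      invFun := fun x => (x.1, x.2.1 - u1 x.1, x.2.2 - u2 x.1)
      left_inv := fun x => by simp
      right_inv := fun x => by simp
      continuous_toFun := by fun_prop
      continuous_invFun := by fun_prop }
  let M2 : (ℝ × ℝ × (Fin m → ℝ)) ≃ₜ (ℝ × ℝ × (Fin m → ℝ)) :=
    { toFun := fun x => (x.1 + v x.2.1, x.2)
      invFun := fun x => (x.1 - v x.2.1, x.2)
      left_inv := fun x => by simp
      right_inv := fun x => by simp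
      continuous_toFun := by fun_prop
      continuous_invFun := by fun_prop }
  refine ⟨M1.trans M2, fun b => ?_⟩
  show M2 (M1 (e b, 0, 0)) = Φ b
  have s1 : M1 (e b, 0, 0) = (e b, (Φ b).2.1, (Φ b).2.2) := by
    show (e b, 0 + u1 (e b), 0 + u2 (e b)) = _
    rw [hu1', hu2', zero_add, zero_add]
  rw [s1]
  show (e b + v (Φ b).2.1, ((Φ b).2.1, (Φ b).2.2)) = Φ b
  rw [hv']
  ext <;> simp


lemma G_zero {n y : ℝ} (hy : 0 ≤ y) : G {0} n y = 0 := by
  unfold G T
  rw [image_singleton, csSup_singleton, max_eq_right (by linarith)]; ring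

lemma near {S : Type*} [MetricSpace S] {m : ℕ} (g : ℝ × ℝ × (Fin m → ℝ) → S) (hg : Continuous g) {ε : ℝ} (hε : 0 < ε) :
    ∃ δ > 0, ∀ b z, ‖z - (e b, 0, 0)‖ ≤ δ → dist (g z) (g (e b, 0, 0)) < ε := by
  have hK : IsCompact (range (fun b : B => ((e b, 0, 0) : ℝ × ℝ × (Fin m → ℝ)))) := by
    apply isCompact_range
    have := e_cont
    fun_prop
  have h := hK.uniformContinuousAt_of_continuousAt g (fun a _ => hg.continuousAt) (Metric.dist_mem_uniformity hε)
  obtain ⟨δ, hδ, h2⟩ := Metric.mem_uniformity_dist.1 h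
  refine ⟨δ / 2, by positivity, fun b z hz => ?_⟩
  have h3 : dist (e b, (0 : ℝ), (0 : Fin m → ℝ)) z < δ := by
    rw [dist_comm, dist_eq_norm]; linarith
  have := h2 h3 ⟨b, rfl⟩
  rw [dist_comm]; exact this

lemma proper_bound {m : ℕ} (M : (ℝ × ℝ × (Fin m → ℝ)) ≃ₜ (ℝ × ℝ × (Fin m → ℝ))) (k : ℝ) :
    ∃ L, 0 ≤ L ∧ ∀ z, L ≤ ‖z‖ → k ≤ ‖M z‖ := by
  have hc : IsCompact (M.symm '' Metric.closedBall 0 k) := (isCompact_closedBall _ _).image M.symm.continuous
  obtain ⟨R, hR⟩ := hc.isBounded.exists_norm_le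
  refine ⟨max 0 (R + 1), le_max_left _ _, fun z hz => ?_⟩
  by_contra hcon
  push Not at hcon
  have := hR z ⟨M z, by rw [Metric.mem_closedBall, dist_zero_right]; exact hcon.le, by simp⟩
  have := (le_max_right 0 (R + 1)).trans hz
  linarith

lemma ev_out {K : Set ℝ} (h0K : (0 : ℝ) ∈ K) (n L : ℕ → ℝ) (hn : ∀ k : ℕ, (k : ℝ) + 1 ≤ n k) (hn1 : ∀ k, 1 ≤ n k) (hL : ∀ k, 0 ≤ L k)
    {x : ℝ} (hx : ¬ (0 ≤ x ∧ x ≤ 1)) : ∀ᶠ k in atTop, L k ≤ ‖f K (n k) (L k) x‖ := by
  rcases lt_or_ge x 0 with h | h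
  · filter_upwards [eventually_ge_atTop (Nat.ceil (1 / (-x)))] with k hk
    have h1 : 1 / (-x) ≤ (k : ℝ) := Nat.le_of_ceil_le hk
    have h2 : 1 ≤ n k * (-x) := by
      rw [div_le_iff₀ (by linarith)] at h1
      have := hn k
      nlinarith
    have := f_left (hL k) (hn1 k) ⟨0, h0K⟩ h h2
    rw [Real.norm_eq_abs]
    exact (by linarith : L k ≤ -f K (n k) (L k) x).trans (neg_le_abs _)
  · have h' : 1 < x := by
      by_contra hcon; push Not at hcon; exact hx ⟨h, hcon⟩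
    filter_upwards [eventually_ge_atTop (Nat.ceil (1 / (x - 1)))] with k hk
    have h1 : 1 / (x - 1) ≤ (k : ℝ) := Nat.le_of_ceil_le hk
    have h2 : 1 ≤ n k * (x - 1) := by
      rw [div_le_iff₀ (by linarith)] at h1
      have := hn k
      nlinarith
    have := f_right (hL k) (hn1 k) h0K h' h2
    rw [Real.norm_eq_abs]
    exact this.trans (le_abs_self _)

theorem highDim {S : Type*} [MetricSpace S] (m : ℕ) (C : Set S) (hC : IsCompact C) (p0 : S) (hp0 : p0 ∈ C)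
    (Ψ : OnePoint (ℝ × ℝ × (Fin m → ℝ)) ≃ₜ S) (hΨ : Ψ OnePoint.infty = p0) :
    ∃ H : ℕ → S ≃ₜ S, (∀ p, ∃ q ∈ C, Tendsto (fun k => H k p) atTop (𝓝 q)) ∧
      ∀ q ∈ C, ∃ p, Tendsto (fun k => H k p) atTop (𝓝 q) := by
  have hj : Continuous (fun x : ℝ × ℝ × (Fin m → ℝ) => Ψ (x : OnePoint _)) := Ψ.continuous.comp OnePoint.continuous_coe
  have hd : DenseRange (fun x : ℝ × ℝ × (Fin m → ℝ) => Ψ (x : OnePoint _)) :=
    Ψ.surjective.denseRange.comp OnePoint.denseRange_coe Ψ.continuous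
  have : CompactSpace C := isCompact_iff_compactSpace.1 hC
  have : Nonempty C := ⟨⟨p0, hp0⟩⟩
  obtain ⟨F0, hF0, hF0s⟩ := exists_nat_bool_continuous_surjective_of_compact C
  let F : B → S := fun b => (F0 b : S)
  have hF : Continuous F := continuous_subtype_val.comp hF0
  have hFC : ∀ b, F b ∈ C := fun b => (F0 b).2
  have hFs : ∀ q ∈ C, ∃ b, F b = q := by
    intro q hq
    obtain ⟨b, hb⟩ := hF0s ⟨q, hq⟩
    exact ⟨b, congrArg Subtype.val hb⟩
  have hstage : ∀ k : ℕ, ∃ M : (ℝ × ℝ × (Fin m → ℝ)) ≃ₜ (ℝ × ℝ × (Fin m → ℝ)), ∃ δ > 0, ∃ L, 0 ≤ L ∧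
      (∀ b z, ‖z - (e b, 0, 0)‖ ≤ δ → dist (Ψ ((M z : ℝ × ℝ × (Fin m → ℝ)) : OnePoint _)) (F b) < 2 / ((k : ℝ) + 1)) ∧
      (∀ z, L ≤ ‖z‖ → (k : ℝ) ≤ ‖M z‖) := by
    intro k
    have hk : (0 : ℝ) < 1 / ((k : ℝ) + 1) := by positivity
    obtain ⟨Φ, hΦc, hΦd, hΦi⟩ := approx F hF _ hj hd hk
    obtain ⟨M, hM⟩ := shear m Φ hΦc hΦi
    obtain ⟨δ, hδ, hn⟩ := near (fun z => Ψ ((M z : ℝ × ℝ × (Fin m → ℝ)) : OnePoint _)) (hj.comp M.continuous) hk
    obtain ⟨L, hL, hp⟩ := proper_bound M k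
    refine ⟨M, δ, hδ, L, hL, fun b z hz => ?_, hp⟩
    have h1 := hn b z hz
    have h2 := hΦd b
    rw [hM] at h1
    calc _ ≤ _ := dist_triangle _ _ _
      _ < 1 / ((k : ℝ) + 1) + 1 / ((k : ℝ) + 1) := add_lt_add h1 h2
      _ = _ := by ring
  choose M δ hδ L hL hMd hMp using hstage
  set n : ℕ → ℝ := fun k => max ((k : ℝ) + 1) (1 / δ k) with hnd
  have hn : ∀ k : ℕ, (k : ℝ) + 1 ≤ n k := fun k => le_max_left _ _
  have hn1 : ∀ k, 1 ≤ n k := fun k => by
    have := hn k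
    have h2 : (0 : ℝ) ≤ (k : ℝ) := Nat.cast_nonneg k
    linarith
  have hn0 : ∀ k, 0 < n k := fun k => by linarith [hn1 k]
  have hnδ : ∀ k, 1 / n k ≤ δ k := by
    intro k
    have h1 : 1 / δ k ≤ n k := le_max_right _ _
    rw [div_le_iff₀ (hδ k)] at h1
    rw [div_le_iff₀ (hn0 k)]; linarith
  have hKne : (cantorSet).Nonempty := ⟨0, zero_mem_cantorSet⟩
  have h0ne : ({0} : Set ℝ).Nonempty := ⟨0, rfl⟩
  let Sq : ℕ → ((ℝ × ℝ × (Fin m → ℝ)) ≃ₜ (ℝ × ℝ × (Fin m → ℝ))) := fun k =>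
    (fH cantorSet (n k) (L k) (hL k) (hn1 k) hKne).prodCongr
      ((fH {0} (n k) (L k) (hL k) (hn1 k) h0ne).prodCongr
        (Homeomorph.piCongrRight fun _ => fH {0} (n k) (L k) (hL k) (hn1 k) h0ne))
  have hSq : ∀ k x, Sq k x = (f cantorSet (n k) (L k) x.1, f {0} (n k) (L k) x.2.1, fun i => f {0} (n k) (L k) (x.2.2 i)) :=
    fun k x => rfl
  have hlim2 : Tendsto (fun k : ℕ => 2 / ((k : ℝ) + 1)) atTop (𝓝 0) :=
    tendsto_const_nhds.div_atTop (tendsto_atTop_add_const_right _ _ tendsto_natCast_atTop_atTop)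
  -- inside
  have hin : ∀ (x : ℝ × ℝ × (Fin m → ℝ)) (b : B), (0 ≤ x.1 ∧ x.1 ≤ 1) → (0 ≤ x.2.1 ∧ x.2.1 ≤ 1) →
      (∀ i, 0 ≤ x.2.2 i ∧ x.2.2 i ≤ 1) → (∀ᶠ k in atTop, G cantorSet (n k) x.1 = e b) →
      Tendsto (fun k => Ψ ((((Sq k).trans (M k)) x : ℝ × ℝ × (Fin m → ℝ)) : OnePoint _)) atTop (𝓝 (F b)) := by
    intro x b hx1 hx2 hx3 hG
    rw [tendsto_iff_dist_tendsto_zero]
    refine squeeze_zero' (Eventually.of_forall fun k => dist_nonneg) ?_ hlim2
    filter_upwards [hG] with k hk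
    apply le_of_lt
    apply hMd k b
    refine le_trans ?_ (hnδ k)
    change ‖Sq k x - (e b, 0, 0)‖ ≤ 1 / n k
    rw [hSq]
    have hdiv : ∀ y : ℝ, 0 ≤ y → y ≤ 1 → |y / n k| ≤ 1 / n k := by
      intro y h0 h1
      rw [abs_of_nonneg (div_nonneg h0 (hn0 k).le)]
      exact div_le_div_of_nonneg_right h1 (hn0 k).le
    have hpos : 0 ≤ 1 / n k := by have := hn0 k; positivity
    rw [Prod.norm_def]
    apply max_le
    · simp only [Prod.fst_sub]
      rw [f_mid hx1.1 hx1.2, hk, Real.norm_eq_abs, add_sub_cancel_left]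
      exact hdiv _ hx1.1 hx1.2
    · rw [Prod.norm_def]
      apply max_le
      · simp only [Prod.snd_sub, Prod.fst_sub]
        rw [f_mid hx2.1 hx2.2, G_zero hx2.1, Real.norm_eq_abs, zero_add, sub_zero]
        exact hdiv _ hx2.1 hx2.2
      · simp only [Prod.snd_sub]
        rw [pi_norm_le_iff_of_nonneg hpos]
        intro i
        rw [Pi.sub_apply, f_mid (hx3 i).1 (hx3 i).2, G_zero (hx3 i).1, Real.norm_eq_abs, zero_add, Pi.zero_apply, sub_zero]
        exact hdiv _ (hx3 i).1 (hx3 i).2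
  -- outside
  have hout : ∀ (x : ℝ × ℝ × (Fin m → ℝ)), (∀ᶠ k in atTop, L k ≤ ‖Sq k x‖) →
      Tendsto (fun k => Ψ ((((Sq k).trans (M k)) x : ℝ × ℝ × (Fin m → ℝ)) : OnePoint _)) atTop (𝓝 p0) := by
    intro x hx
    apply tendsto_p0 p0 Ψ hΨ
    refine tendsto_atTop_mono' _ ?_ tendsto_natCast_atTop_atTop
    filter_upwards [hx] with k hk
    exact hMp k _ hk
  refine transport C p0 hp0 Ψ hΨ (fun k => (Sq k).trans (M k)) ?_ ?_
  · intro x
    by_cases hx1 : 0 ≤ x.1 ∧ x.1 ≤ 1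
    · by_cases hx2 : 0 ≤ x.2.1 ∧ x.2.1 ≤ 1
      · by_cases hx3 : ∀ i, 0 ≤ x.2.2 i ∧ x.2.2 i ≤ 1
        · obtain ⟨a, haK, -, N, hN1, hN⟩ := G_eq (K := cantorSet) (x := x.1) isClosed_cantorSet ⟨0, zero_mem_cantorSet, hx1.1⟩
          obtain ⟨b, hb⟩ := e_surj haK
          refine ⟨F b, hFC b, hin x b hx1 hx2 hx3 ?_⟩
          filter_upwards [eventually_ge_atTop (Nat.ceil N)] with k hk
          rw [hb]
          apply hN
          have := Nat.le_of_ceil_le hk
          have := hn k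
          linarith
        · push Not at hx3
          obtain ⟨i, hi⟩ := hx3
          refine ⟨p0, hp0, hout x ?_⟩
          filter_upwards [ev_out (K := {0}) rfl n L hn hn1 hL (x := x.2.2 i) (fun h => absurd h.2 (not_le.2 (hi h.1)))] with k hk
          refine hk.trans ?_
          rw [hSq]
          refine le_trans ?_ (le_max_right _ _)
          refine le_trans ?_ (le_max_right _ _)
          exact norm_le_pi_norm (fun i => f {0} (n k) (L k) (x.2.2 i)) i
      · refine ⟨p0, hp0, hout x ?_⟩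
        filter_upwards [ev_out (K := {0}) rfl n L hn hn1 hL hx2] with k hk
        refine hk.trans ?_
        rw [hSq]
        refine le_trans ?_ (le_max_right _ _)
        exact le_max_left _ _
    · refine ⟨p0, hp0, hout x ?_⟩
      filter_upwards [ev_out (K := cantorSet) zero_mem_cantorSet n L hn hn1 hL hx1] with k hk
      refine hk.trans ?_
      rw [hSq]
      exact le_max_left _ _
  · intro q hq _
    obtain ⟨b, rfl⟩ := hFs q hq
    refine ⟨(e b, 0, 0), hin (e b, 0, 0) b (e_unit b) ⟨le_rfl, zero_le_one⟩ (fun i => ⟨le_rfl, zero_le_one⟩) ?_⟩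
    exact Eventually.of_forall fun k => G_eq_of_mem (hn1 k) (e_mem b)

end Pool.Agent.H3.SqH
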