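import Mathlib
import Pool.Agent.H3.SqDefs

set_option autoImplicit false

namespace Pool.Agent.H3.Sq

lemma four_sq (q : ℚ) (h : 0 ≤ q) : ∃ a b c d : ℚ, a ^ 2 + b ^ 2 + c ^ 2 + d ^ 2 = q := by
  obtain ⟨a, b, c, d, he⟩ := Nat.sum_four_squares (q.num.toNat * q.den)
  have hd : (q.den : ℚ) ≠ 0 := by exact_mod_cast q.den_nz
  have hn : ((q.num.toNat : ℕ) : ℚ) = q.num := by
    have : ((q.num.toNat : ℕ) : ℤ) = q.num := Int.toNat_of_nonneg (Rat.num_nonneg.2 h)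
    exact_mod_cast this
  have he' : (a:ℚ) ^ 2 + (b:ℚ) ^ 2 + (c:ℚ) ^ 2 + (d:ℚ) ^ 2 = q.num * q.den := by
    rw [← hn]; exact_mod_cast he
  have hq : q = q.num / q.den := (Rat.num_div_den q).symm
  refine ⟨a / q.den, b / q.den, c / q.den, d / q.den, ?_⟩
  conv_rhs => rw [hq]
  field_simp
  linarith

lemma approx (x : ℚ) (hx : 0 < x) : ∃ a : ℚ, a ^ 2 - 2 ≤ x ∧ 2 - a ^ 2 ≤ x := by
  have hs : (0:ℝ) ≤ max 0 (2 - (x:ℝ)) := le_max_left _ _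
  have hx' : (0:ℝ) < x := by exact_mod_cast hx
  have hlt : Real.sqrt (max 0 (2 - (x:ℝ))) < Real.sqrt 2 :=
    Real.sqrt_lt_sqrt hs (max_lt (by norm_num) (by linarith))
  obtain ⟨a, h1, h2⟩ := exists_rat_btwn hlt
  have ha0 : (0:ℝ) ≤ a := (Real.sqrt_nonneg _).trans h1.le
  have h3 : max 0 (2 - (x:ℝ)) ≤ (a:ℝ) ^ 2 := by
    have h := (Real.sqrt_le_iff.1 h1.le).2
    exact h
  have h4 : (a:ℝ) ^ 2 < 2 := (Real.lt_sqrt ha0).1 h2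
  have h5 : (2:ℝ) - x ≤ (a:ℝ) ^ 2 := (le_max_right _ _).trans h3
  refine ⟨a, ?_, ?_⟩
  · have : (a:ℚ) ^ 2 < 2 := by exact_mod_cast h4
    linarith
  · have : (2:ℚ) - x ≤ a ^ 2 := by exact_mod_cast h5
    linarith

/-- `v (i) + v (i+1) + v (i+2) + v (i+3)` -/
def four (i : ℕ) : Tm := .add (.add (.add (.var i) (.var (i + 1))) (.var (i + 2))) (.var (i + 3))

def sq4 (i : ℕ) : Fm := .and (.and (.sq (.var i)) (.sq (.var (i + 1)))) (.and (.sq (.var (i + 2))) (.sq (.var (i + 3))))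

/-- formula expressing `u > 0` -/
def pos (u : Tm) : Fm :=
  .and (.and (.and (.sq (.var 1)) (.sq (.var 2))) (.and (sq4 3) (.and (sq4 7) (sq4 11))))
    (.and (.eq (.add u (.add (.var 2) (.var 2))) (.add (.var 1) (four 3)))
      (.and (.eq (.add u (.var 1)) (.add (.add (.var 2) (.var 2)) (four 7)))
        (.eq (.add (.var 1) (.var 2)) (.add .one (four 11)))))

lemma sq4_nonneg {v : ℕ → ℚ} {i : ℕ} (h : (sq4 i).Holds v) : 0 ≤ (four i).val v := by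
  obtain ⟨⟨⟨a, ha⟩, ⟨b, hb⟩⟩, ⟨c, hc⟩, ⟨d, hd⟩⟩ := h
  simp only [four, Tm.val] at *
  rw [← ha, ← hb, ← hc, ← hd]
  positivity

lemma pos_sound {v : ℕ → ℚ} {u : Tm} (h : (pos u).Holds v) : 0 < u.val v := by
  obtain ⟨⟨⟨⟨a, ha⟩, ⟨b, hb⟩⟩, h3, h7, h11⟩, e1, e2, e3⟩ := h
  have n3 := sq4_nonneg h3
  have n7 := sq4_nonneg h7
  have n11 := sq4_nonneg h11
  simp only [Tm.val] at ha hb
  change u.val v + (v 2 + v 2) = v 1 + (four 3).val v at e1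
  change u.val v + v 1 = (v 2 + v 2) + (four 7).val v at e2
  change v 1 + v 2 = 1 + (four 11).val v at e3
  have hb0 : 0 ≤ v 2 := hb ▸ sq_nonneg b
  by_contra hu
  push Not at hu
  -- adding: 2u = four 3 + four 7 ≥ 0
  have hu0 : u.val v = 0 := by linarith
  have hA : v 1 = 2 * v 2 := by linarith
  -- a^2 = 2 b^2 forces b = 0
  have hab : a ^ 2 = 2 * b ^ 2 := by rw [ha, hb]; exact hA
  have hb1 : b = 0 := by
    by_contra hbn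
    have h2 : (a / b) ^ 2 = 2 := by
      rw [div_pow, hab]; field_simp
    have hirr := irrational_sqrt_two
    apply hirr
    refine ⟨|a / b|, ?_⟩
    have h3 : ((|a / b| : ℚ) : ℝ) ^ 2 = 2 := by
      have : (|a / b|) ^ 2 = 2 := by rw [sq_abs]; exact h2
      exact_mod_cast this
    rw [← h3, Real.sqrt_sq (by positivity)]
  rw [hb1] at hb
  have : v 2 = 0 := by rw [← hb]; norm_num
  linarith

/-- assignment -/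
def asg (x y A B : ℚ) (s t r : Fin 4 → ℚ) : ℕ → ℚ
  | 0 => x
  | 1 => A
  | 2 => B
  | 3 => s 0
  | 4 => s 1
  | 5 => s 2
  | 6 => s 3
  | 7 => t 0
  | 8 => t 1
  | 9 => t 2
  | 10 => t 3
  | 11 => r 0
  | 12 => r 1
  | 13 => r 2
  | 14 => r 3
  | _ => y

lemma pos_complete (x y : ℚ) (w : ℚ) (hw : 0 < w) (u : Tm)
    (hu : ∀ A B s t r, u.val (asg x y A B s t r) = w) :
    ∃ v : ℕ → ℚ, v 0 = x ∧ v 15 = y ∧ (pos u).Holds v := by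
  obtain ⟨a, h1, h2⟩ := approx w hw
  obtain ⟨s0, s1, s2, s3, hs⟩ := four_sq (w + (1 + 1) - a ^ 2) (by linarith)
  obtain ⟨t0, t1, t2, t3, ht⟩ := four_sq (w + a ^ 2 - (1 + 1)) (by linarith)
  obtain ⟨r0, r1, r2, r3, hr⟩ := four_sq (a ^ 2 + 1 - 1) (by nlinarith [sq_nonneg a])
  refine ⟨asg x y (a ^ 2) 1 ![s0 ^ 2, s1 ^ 2, s2 ^ 2, s3 ^ 2] ![t0 ^ 2, t1 ^ 2, t2 ^ 2, t3 ^ 2]
    ![r0 ^ 2, r1 ^ 2, r2 ^ 2, r3 ^ 2], rfl, rfl, ?_⟩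
  refine ⟨⟨⟨⟨a, rfl⟩, ⟨1, by simp [Tm.val, asg]⟩⟩, ⟨⟨⟨s0, rfl⟩, ⟨s1, rfl⟩⟩, ⟨s2, rfl⟩, ⟨s3, rfl⟩⟩,
    ⟨⟨⟨t0, rfl⟩, ⟨t1, rfl⟩⟩, ⟨t2, rfl⟩, ⟨t3, rfl⟩⟩, ⟨⟨⟨r0, rfl⟩, ⟨r1, rfl⟩⟩, ⟨r2, rfl⟩, ⟨r3, rfl⟩⟩⟩, ?_, ?_, ?_⟩
  · show u.val _ + ((1:ℚ) + 1) = a ^ 2 + (s0 ^ 2 + s1 ^ 2 + s2 ^ 2 + s3 ^ 2)
    rw [hu]; linarith
  · show u.val _ + a ^ 2 = ((1:ℚ) + 1) + (t0 ^ 2 + t1 ^ 2 + t2 ^ 2 + t3 ^ 2)
    rw [hu]; linarith
  · show a ^ 2 + (1:ℚ) = 1 + (r0 ^ 2 + r1 ^ 2 + r2 ^ 2 + r3 ^ 2)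
    linarith

theorem pos_def : PosDef {x : ℚ | 0 < x} := by
  refine ⟨pos (.var 0), fun x => ⟨fun hx => ?_, ?_⟩⟩
  · obtain ⟨v, h0, _, h⟩ := pos_complete x 0 x hx (.var 0) (fun _ _ _ _ _ => rfl)
    exact ⟨v, h0, h⟩
  · rintro ⟨v, rfl, h⟩
    exact pos_sound h

theorem ne_def : PosDef {x : ℚ | x ≠ 0} := by
  refine ⟨.or (pos (.var 0)) (.and (.eq (.add (.var 0) (.var 15)) .zero) (pos (.var 15))), fun x => ⟨fun hx => ?_, ?_⟩⟩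
  · rcases lt_or_gt_of_ne (show x ≠ 0 from hx) with h | h
    · obtain ⟨v, h0, h15, hv⟩ := pos_complete x (-x) (-x) (by linarith) (.var 15) (fun _ _ _ _ _ => rfl)
      refine ⟨v, h0, Or.inr ⟨?_, hv⟩⟩
      show v 0 + v 15 = 0
      rw [h0, h15]; ring
    · obtain ⟨v, h0, _, hv⟩ := pos_complete x 0 x h (.var 0) (fun _ _ _ _ _ => rfl)
      exact ⟨v, h0, Or.inl hv⟩
  · rintro ⟨v, rfl, h | ⟨h1, h2⟩⟩
    · exact (pos_sound h).ne'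
    · have h3 := pos_sound h2
      change v 0 + v 15 = 0 at h1
      change 0 < v 15 at h3
      show v 0 ≠ 0
      intro h4
      linarith

end Pool.Agent.H3.Sq
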