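import Pool.Agent.H3.SqG

set_option autoImplicit false
open Filter Topology Set Pool.Agent.H3.SqG

namespace Pool.Agent.H3.SqT

variable {S V : Type*} [MetricSpace S] [NormedAddCommGroup V]

lemma transport (C : Set S) (p0 : S) (hp0 : p0 ∈ C) (Ψ : OnePoint V ≃ₜ S) (hΨ : Ψ OnePoint.infty = p0)
    (h : ℕ → V ≃ₜ V)
    (h1 : ∀ x : V, ∃ q ∈ C, Tendsto (fun k => Ψ ((h k x : V) : OnePoint V)) atTop (𝓝 q))
    (h2 : ∀ q ∈ C, q ≠ p0 → ∃ x : V, Tendsto (fun k => Ψ ((h k x : V) : OnePoint V)) atTop (𝓝 q)) :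
    ∃ H : ℕ → S ≃ₜ S, (∀ p, ∃ q ∈ C, Tendsto (fun k => H k p) atTop (𝓝 q)) ∧
      ∀ q ∈ C, ∃ p, Tendsto (fun k => H k p) atTop (𝓝 q) := by
  have key : ∀ (k : ℕ) (y : OnePoint V), ((Ψ.symm.trans (h k).onePointCongr).trans Ψ) (Ψ y) = Ψ (OnePoint.map (h k) y) := by
    intro k y
    simp [Homeomorph.trans_apply]
  have key1 : ∀ k : ℕ, ((Ψ.symm.trans (h k).onePointCongr).trans Ψ) p0 = p0 := by
    intro k
    rw [← hΨ, key]; simp
  refine ⟨fun k => (Ψ.symm.trans (h k).onePointCongr).trans Ψ, ?_, ?_⟩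
  · intro p
    obtain ⟨y, rfl⟩ := Ψ.surjective p
    induction y using OnePoint.rec with
    | infty =>
      refine ⟨p0, hp0, ?_⟩
      rw [hΨ]
      simp only [key1]
      exact tendsto_const_nhds
    | coe x =>
      obtain ⟨q, hq, hx⟩ := h1 x
      refine ⟨q, hq, ?_⟩
      simp only [key]
      exact hx
  · intro q hq
    by_cases hqp : q = p0
    · refine ⟨p0, ?_⟩
      simp only [key1, hqp]
      exact tendsto_const_nhds
    · obtain ⟨x, hx⟩ := h2 q hq hqp
      refine ⟨Ψ (x : OnePoint V), ?_⟩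
      simp only [key]
      exact hx

lemma tendsto_p0 [ProperSpace V] (p0 : S) (Ψ : OnePoint V ≃ₜ S) (hΨ : Ψ OnePoint.infty = p0) (u : ℕ → V)
    (hu : Tendsto (fun k => ‖u k‖) atTop atTop) : Tendsto (fun k => Ψ ((u k : V) : OnePoint V)) atTop (𝓝 p0) := by
  rw [← hΨ]
  refine (Ψ.continuous.tendsto _).comp ?_
  have h1 : Tendsto u atTop (coclosedCompact V) := by
    rw [coclosedCompact_eq_cocompact, ← Metric.cobounded_eq_cocompact]
    exact tendsto_norm_atTop_iff_cobounded.1 hu
  exact OnePoint.tendsto_coe_infty.comp h1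

/-- the circle -/
theorem oneDim (C : Set S) (hC : IsClosed C) (p0 : S) (hp0 : p0 ∈ C) (Ψ : OnePoint ℝ ≃ₜ S) (hΨ : Ψ OnePoint.infty = p0) :
    ∃ H : ℕ → S ≃ₜ S, (∀ p, ∃ q ∈ C, Tendsto (fun k => H k p) atTop (𝓝 q)) ∧
      ∀ q ∈ C, ∃ p, Tendsto (fun k => H k p) atTop (𝓝 q) := by
  have hj : Continuous (fun x : ℝ => Ψ (x : OnePoint ℝ)) := Ψ.continuous.comp OnePoint.continuous_coe
  set K : Set ℝ := (fun x : ℝ => Ψ (x : OnePoint ℝ)) ⁻¹' C with hKd
  have hcl : IsClosed K := hC.preimage hj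
  by_cases hK : K.Nonempty
  · have hk1 : ∀ k : ℕ, (1 : ℝ) ≤ (k : ℝ) + 1 := fun k => by linarith [Nat.cast_nonneg (α := ℝ) k]
    refine transport C p0 hp0 Ψ hΨ (fun k => fH K (k + 1) 0 le_rfl (hk1 k) hK) ?_ ?_
    · intro x
      have hdiv : Tendsto (fun k : ℕ => x / ((k : ℝ) + 1)) atTop (𝓝 0) :=
        tendsto_const_nhds.div_atTop (tendsto_atTop_add_const_right _ _ tendsto_natCast_atTop_atTop)
      by_cases hx : (K ∩ Iic x).Nonempty
      · obtain ⟨a, haK, hax, N, hN, hG⟩ := G_eq hcl hx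
        refine ⟨Ψ (a : OnePoint ℝ), haK, (hj.tendsto a).comp ?_⟩
        have : Tendsto (fun k : ℕ => a + x / ((k : ℝ) + 1)) atTop (𝓝 a) := by
          simpa using hdiv.const_add a
        refine this.congr' ?_
        filter_upwards [eventually_ge_atTop (Nat.ceil N)] with k hk
        have : N ≤ (k : ℝ) + 1 := by
          have := Nat.le_of_ceil_le hk
          linarith
        rw [fH_apply]
        unfold f
        rw [hG _ this]; simp
      · refine ⟨p0, hp0, ?_⟩
        apply tendsto_p0 p0 Ψ hΨ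
        have : Tendsto (fun k : ℕ => fH K (k + 1) 0 le_rfl (hk1 k) hK x) atTop atBot := by
          rw [tendsto_atBot]
          intro R
          obtain ⟨N, hN, hG⟩ := G_atBot hcl hK hx (R - 1)
          have hsm : ∀ᶠ k : ℕ in atTop, x / ((k : ℝ) + 1) < 1 := hdiv.eventually (gt_mem_nhds one_pos)
          filter_upwards [eventually_ge_atTop (Nat.ceil N), hsm] with k hk hk2
          have : N ≤ (k : ℝ) + 1 := by
            have := Nat.le_of_ceil_le hk
            linarith
          rw [fH_apply]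
          unfold f
          have := hG _ this
          simp only [zero_mul, sub_zero, add_zero]
          linarith
        exact tendsto_abs_atBot_atTop.comp this
    · intro q hq hqp
      obtain ⟨y, rfl⟩ := Ψ.surjective q
      induction y using OnePoint.rec with
      | infty => exact absurd hΨ hqp
      | coe x =>
        have hxK : x ∈ K := hq
        refine ⟨x, (hj.tendsto x).comp ?_⟩
        have hdiv : Tendsto (fun k : ℕ => x / ((k : ℝ) + 1)) atTop (𝓝 0) :=
          tendsto_const_nhds.div_atTop (tendsto_atTop_add_const_right _ _ tendsto_natCast_atTop_atTop)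
        have : Tendsto (fun k : ℕ => x + x / ((k : ℝ) + 1)) atTop (𝓝 x) := by
          simpa using hdiv.const_add x
        refine this.congr fun k => ?_
        rw [fH_apply]
        unfold f
        rw [G_eq_of_mem (hk1 k) hxK]; simp
  · refine transport C p0 hp0 Ψ hΨ (fun k => Homeomorph.addRight (-(k : ℝ))) ?_ ?_
    · intro x
      refine ⟨p0, hp0, ?_⟩
      apply tendsto_p0 p0 Ψ hΨ
      have : Tendsto (fun k : ℕ => x + (-(k : ℝ))) atTop atBot :=
        tendsto_atBot_add_const_left _ _ (tendsto_neg_atTop_atBot.comp tendsto_natCast_atTop_atTop)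
      exact tendsto_abs_atBot_atTop.comp this
    · intro q hq hqp
      obtain ⟨y, rfl⟩ := Ψ.surjective q
      induction y using OnePoint.rec with
      | infty => exact absurd hΨ hqp
      | coe x => exact absurd ⟨x, hq⟩ hK

end Pool.Agent.H3.SqT
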