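import Mathlib

set_option autoImplicit false

namespace Pool.Agent.H3.SubsetSums

/-- `Σ(b₁,…,b_k)`: the set of values of the nonempty subset sums of `B = {b₁,…,b_k}` -/
def subsetSums (B : Finset ℕ) : Set ℤ := {s | ∃ I ⊆ B, I.Nonempty ∧ s = ∑ i ∈ I, (i : ℤ)}

/-- `S` contains an `r`-term arithmetic progression `x, x+d, …, x+(r-1)d` with `d ≠ 0` -/
def HasAP (r : ℕ) (S : Set ℤ) : Prop := ∃ x d : ℤ, d ≠ 0 ∧ ∀ i : ℕ, i < r → x + i * d ∈ S

/-- `g_r(k)`: the least possible largest element `m = b_k` of a set `B` of `k` positive integers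
whose nonempty subset sums contain no `r`-term arithmetic progression -/
noncomputable def g (r k : ℕ) : ℕ :=
  sInf {m | ∃ B : Finset ℕ, B.card = k ∧ (∀ b ∈ B, 0 < b ∧ b ≤ m) ∧ m ∈ B ∧
    ¬ HasAP r (subsetSums B)}

end Pool.Agent.H3.SubsetSums
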