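import Mathlib
import Pool.Agent.H3.SubsetSumsDefs

set_option autoImplicit false

namespace Pool.Agent.H3.SubsetSums

/-- there is no relation with coefficients in `{-2,…,2}` -/
def Dis (B : Finset ℕ) : Prop :=
  ∀ c : ℕ → ℤ, (∀ b, |c b| ≤ 2) → ∑ b ∈ B, c b * b = 0 → ∀ b ∈ B, c b = 0

lemma not_hasAP_of_dis (B : Finset ℕ) (hB : Dis B) : ¬ HasAP 3 (subsetSums B) := by
  rintro ⟨x, d, hd, h⟩
  obtain ⟨I, hI, -, hx⟩ := h 0 (by norm_num)
  obtain ⟨K, hK, -, hy⟩ := h 1 (by norm_num)
  obtain ⟨J, hJ, -, hz⟩ := h 2 (by norm_num)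
  push_cast at hx hy hz
  have key : ∀ T : Finset ℕ, T ⊆ B → ∑ i ∈ T, (i : ℤ) = ∑ b ∈ B, (if b ∈ T then (1:ℤ) else 0) * b := by
    intro T hT
    simp only [ite_mul, one_mul, zero_mul]
    rw [← Finset.sum_filter]
    apply Finset.sum_congr _ (fun _ _ => rfl)
    ext b
    simp only [Finset.mem_filter]
    exact ⟨fun hb => ⟨hT hb, hb⟩, fun hb => hb.2⟩
  rw [key I hI] at hx
  rw [key K hK] at hy
  rw [key J hJ] at hz
  have h1 := hB (fun b => (if b ∈ I then (1:ℤ) else 0) + (if b ∈ J then (1:ℤ) else 0) -
    2 * (if b ∈ K then (1:ℤ) else 0)) (by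
      intro b
      split_ifs <;> norm_num) (by
      have : ∀ b ∈ B, ((if b ∈ I then (1:ℤ) else 0) + (if b ∈ J then (1:ℤ) else 0) -
          2 * (if b ∈ K then (1:ℤ) else 0)) * (b : ℤ) =
          (if b ∈ I then (1:ℤ) else 0) * b + (if b ∈ J then (1:ℤ) else 0) * b -
          2 * ((if b ∈ K then (1:ℤ) else 0) * b) := by
        intro b _; ring
      rw [Finset.sum_congr rfl this, Finset.sum_sub_distrib, Finset.sum_add_distrib,
        ← Finset.mul_sum]
      linarith)
  have h2 : ∀ b ∈ B, (if b ∈ I then (1:ℤ) else 0) = (if b ∈ K then (1:ℤ) else 0) := by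
    intro b hb
    have := h1 b hb
    by_cases hbI : b ∈ I <;> by_cases hbJ : b ∈ J <;> by_cases hbK : b ∈ K <;>
      simp only [hbI, hbJ, hbK, if_true, if_false] at this ⊢ <;> omega
  apply hd
  have h3 : ∑ b ∈ B, (if b ∈ I then (1:ℤ) else 0) * (b : ℤ) =
      ∑ b ∈ B, (if b ∈ K then (1:ℤ) else 0) * (b : ℤ) :=
    Finset.sum_congr rfl (fun b hb => by rw [h2 b hb])
  linarith

/-- multiply by three and add the element one -/
lemma dis_step (B : Finset ℕ) (hB : Dis B) :
    Dis (insert 1 (B.image (fun b => 3 * b))) := by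
  intro c hc hsum
  have h1 : (1 : ℕ) ∉ B.image (fun b => 3 * b) := by
    rw [Finset.mem_image]
    rintro ⟨b, -, hb⟩
    omega
  have hinj : ∀ x ∈ B, ∀ y ∈ B, 3 * x = 3 * y → x = y := by
    intro x _ y _ h; omega
  rw [Finset.sum_insert h1, Finset.sum_image hinj] at hsum
  have h2 : ∑ b ∈ B, c (3 * b) * ((3 * b : ℕ) : ℤ) = 3 * ∑ b ∈ B, c (3 * b) * (b : ℤ) := by
    rw [Finset.mul_sum]
    apply Finset.sum_congr rfl
    intro b _
    push_cast
    ring
  rw [h2] at hsum
  have hc1 := abs_le.1 (hc 1)
  have h3 : c 1 = 0 := by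
    push_cast at hsum
    omega
  rw [h3] at hsum
  have h4 : ∑ b ∈ B, c (3 * b) * (b : ℤ) = 0 := by
    push_cast at hsum
    omega
  have h5 := hB (fun b => c (3 * b)) (fun b => hc _) h4
  intro b hb
  rw [Finset.mem_insert, Finset.mem_image] at hb
  rcases hb with rfl | ⟨a, ha, rfl⟩
  · exact h3
  · exact h5 a ha

/-- a good set of `k` elements with largest element `m` -/
def GoodSet (k m : ℕ) : Prop :=
  ∃ B : Finset ℕ, B.card = k ∧ (∀ b ∈ B, 0 < b ∧ b ≤ m) ∧ m ∈ B ∧ Dis B

lemma goodSet_succ (k m : ℕ) (h : GoodSet k m) : GoodSet (k + 1) (3 * m) := by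
  obtain ⟨B, hk, hb, hm, hd⟩ := h
  have h1 : (1 : ℕ) ∉ B.image (fun b => 3 * b) := by
    rw [Finset.mem_image]
    rintro ⟨b, -, hb⟩
    omega
  refine ⟨insert 1 (B.image (fun b => 3 * b)), ?_, ?_, ?_, dis_step B hd⟩
  · rw [Finset.card_insert_of_notMem h1, Finset.card_image_of_injective _ (by
      intro x y h; simp only at h; omega), hk]
  · intro b hb'
    rw [Finset.mem_insert, Finset.mem_image] at hb'
    have := (hb m hm).1
    rcases hb' with rfl | ⟨a, ha, rfl⟩
    · omega
    · have := hb a ha
      omega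
  · exact Finset.mem_insert_of_mem (Finset.mem_image_of_mem _ hm)

lemma goodSet_add (k m : ℕ) (h : GoodSet k m) (n : ℕ) : GoodSet (k + n) (3 ^ n * m) := by
  induction n with
  | zero => simpa using h
  | succ n ih =>
    have := goodSet_succ _ _ ih
    rw [← add_assoc, pow_succ]
    have e : 3 ^ n * 3 * m = 3 * (3 ^ n * m) := by ring
    rw [e]; exact this

lemma g_le (k m : ℕ) (h : GoodSet k m) : g 3 k ≤ m := by
  obtain ⟨B, hk, hb, hm, hd⟩ := h
  exact Nat.sInf_le ⟨B, hk, hb, hm, not_hasAP_of_dis B hd⟩

/-! ### Verification with bit operations -/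

/-- weighted sum of a list -/
def dot : List ℕ → List ℕ → ℕ
  | c :: cs, b :: bs => c * b + dot cs bs
  | _, _ => 0

/-- processing a list: the number codes the set of the sums with coefficients `0,1,2` -/
def proc : List ℕ → ℕ
  | [] => 1
  | b :: bs => proc bs ||| (proc bs <<< b) ||| (proc bs <<< (2 * b))

/-- the check that all the sums with coefficients `0,1,2` are different -/
def chk : List ℕ → Bool
  | [] => true
  | b :: bs => chk bs && (proc bs &&& (proc bs <<< b) == 0) && (proc bs &&& (proc bs <<< (2 * b)) == 0)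
      && ((proc bs <<< b) &&& (proc bs <<< (2 * b)) == 0)

/-- one pass version -/
def run : List ℕ → ℕ × Bool
  | [] => (1, true)
  | b :: bs =>
    match run bs with
    | (S, ok) =>
      (fun S1 S2 => (S ||| S1 ||| S2, ok && (S &&& S1 == 0) && (S &&& S2 == 0) && (S1 &&& S2 == 0)))
        (S <<< b) (S <<< (2 * b))

lemma run_eq (l : List ℕ) : run l = (proc l, chk l) := by
  induction l with
  | nil => rfl
  | cons b bs ih => simp [run, ih, proc, chk]

lemma testBit_proc (l : List ℕ) : ∀ c : List ℕ, c.length = l.length → (∀ x ∈ c, x ≤ 2) →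
    (proc l).testBit (dot c l) = true := by
  induction l with
  | nil =>
    intro c hc _
    cases c with
    | nil => rfl
    | cons => simp at hc
  | cons b bs ih =>
    intro c hc h2
    cases c with
    | nil => simp at hc
    | cons x cs =>
      have h3 := ih cs (by simpa using hc) (fun y hy => h2 y (List.mem_cons_of_mem _ hy))
      have hx : x ≤ 2 := h2 x (by simp)
      simp only [dot, proc, Nat.testBit_or, Nat.testBit_shiftLeft]
      interval_cases x
      · simp [h3]
      · simp [h3]
      · simp [h3]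

lemma shift_bit (S n m : ℕ) (h : S.testBit m = true) : (S <<< n).testBit (n + m) = true := by
  rw [Nat.testBit_shiftLeft]
  simp [h]

lemma and_ne (A B i : ℕ) (hA : A.testBit i = true) (hB : B.testBit i = true) : (A &&& B == 0) = false := by
  rw [beq_eq_false_iff_ne]
  intro h
  have := Nat.testBit_and A B i
  rw [h, hA, hB] at this
  simp at this

lemma uniq_of_chk (l : List ℕ) : chk l = true → ∀ c d : List ℕ, c.length = l.length →
    d.length = l.length → (∀ x ∈ c, x ≤ 2) → (∀ x ∈ d, x ≤ 2) → dot c l = dot d l → c = d := by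
  induction l with
  | nil =>
    intro _ c d hc hd _ _ _
    have h1 : c = [] := List.length_eq_zero_iff.1 hc
    have h2 : d = [] := List.length_eq_zero_iff.1 hd
    rw [h1, h2]
  | cons b bs ih =>
    intro hchk c d hc hd hc2 hd2 hdot
    cases c with
    | nil => simp at hc
    | cons x cs =>
    cases d with
    | nil => simp at hd
    | cons y ds =>
      simp only [chk, Bool.and_eq_true] at hchk
      obtain ⟨⟨⟨h0, h1⟩, h2⟩, h3⟩ := hchk
      have hcs := testBit_proc bs cs (by simpa using hc)
        (fun z hz => hc2 z (List.mem_cons_of_mem _ hz))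
      have hds := testBit_proc bs ds (by simpa using hd)
        (fun z hz => hd2 z (List.mem_cons_of_mem _ hz))
      have hx : x ≤ 2 := hc2 x (by simp)
      have hy : y ≤ 2 := hd2 y (by simp)
      simp only [dot] at hdot
      have e1 : (proc bs <<< (x * b)).testBit (x * b + dot cs bs) = true := shift_bit _ _ _ hcs
      have e2 : (proc bs <<< (y * b)).testBit (y * b + dot ds bs) = true := shift_bit _ _ _ hds
      rw [← hdot] at e2
      have hxy : x = y := by
        by_contra hne
        have e3 := and_ne _ _ _ e1 e2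
        have e4 := and_ne _ _ _ e2 e1
        have key : ∀ x y : ℕ, x ≤ 2 → y ≤ 2 → x < y →
            ((proc bs <<< (x * b)) &&& (proc bs <<< (y * b)) == 0) = true := by
          intro x y _ hy hxy
          interval_cases y
          · omega
          · have : x = 0 := by omega
            subst this
            simpa using h1
          · interval_cases x
            · simpa using h2
            · simpa using h3
        rcases Nat.lt_or_gt_of_ne hne with hlt | hgt
        · rw [key x y hx hy hlt] at e3
          exact absurd e3 (by decide)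
        · rw [key y x hy hx hgt] at e4
          exact absurd e4 (by decide)
      subst hxy
      have h5 : dot cs bs = dot ds bs := by omega
      rw [ih h0 cs ds (by simpa using hc) (by simpa using hd)
        (fun z hz => hc2 z (List.mem_cons_of_mem _ hz))
        (fun z hz => hd2 z (List.mem_cons_of_mem _ hz)) h5]

lemma dot_map (f : ℕ → ℕ) (l : List ℕ) : dot (l.map f) l = (l.map (fun b => f b * b)).sum := by
  induction l with
  | nil => rfl
  | cons b bs ih => simp [dot, ih]

lemma dis_of_chk (l : List ℕ) (hl : l.Nodup) (h : chk l = true) : Dis l.toFinset := by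
  intro c hc hsum b hb
  have hb' : b ∈ l := List.mem_toFinset.1 hb
  set p : ℕ → ℕ := fun b => (c b).toNat with hp
  set q : ℕ → ℕ := fun b => (-c b).toNat with hq
  have hpq : ∀ b, (c b) = (p b : ℤ) - q b := by
    intro b; simp only [hp, hq]; omega
  have hp2 : ∀ b, p b ≤ 2 := by
    intro b
    have := abs_le.1 (hc b)
    simp only [hp]; omega
  have hq2 : ∀ b, q b ≤ 2 := by
    intro b
    have := abs_le.1 (hc b)
    simp only [hq]; omega
  have h1 : (l.map (fun b => p b * b)).sum = (l.map (fun b => q b * b)).sum := by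
    rw [← List.sum_toFinset _ hl, ← List.sum_toFinset _ hl]
    have h2 : ∑ b ∈ l.toFinset, c b * (b : ℤ) =
        ∑ b ∈ l.toFinset, ((p b * b : ℕ) : ℤ) - ∑ b ∈ l.toFinset, ((q b * b : ℕ) : ℤ) := by
      rw [← Finset.sum_sub_distrib]
      apply Finset.sum_congr rfl
      intro b _
      rw [hpq b]
      push_cast
      ring
    rw [hsum] at h2
    have h3 : ∑ b ∈ l.toFinset, ((p b * b : ℕ) : ℤ) = ∑ b ∈ l.toFinset, ((q b * b : ℕ) : ℤ) := by
      linarith
    exact_mod_cast h3
  have h4 := uniq_of_chk l h (l.map p) (l.map q) (by simp) (by simp)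
    (by intro x hx; rw [List.mem_map] at hx; obtain ⟨y, _, rfl⟩ := hx; exact hp2 y)
    (by intro x hx; rw [List.mem_map] at hx; obtain ⟨y, _, rfl⟩ := hx; exact hq2 y)
    (by rw [dot_map, dot_map]; exact h1)
  have h5 : p b = q b := (List.map_inj_left.1 h4) b hb'
  rw [hpq b, h5]; ring

/-- eight is attained for three elements -/
lemma good3 : GoodSet 3 8 := by
  refine ⟨[8, 7, 5].toFinset, by decide, by decide, by decide, ?_⟩
  apply dis_of_chk _ (by decide)
  have := run_eq [8, 7, 5]
  have h2 : (run [8, 7, 5]).2 = true := by decide +kernel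
  rw [this] at h2
  exact h2

/-- fifteen elements -/
def l15 : List ℕ := [2664433, 2664432, 2664430, 2664425, 2664411, 2664373, 2664264, 2663956,
  2663046, 2660392, 2652648, 2629724, 2562170, 2363072, 1768432]

end Pool.Agent.H3.SubsetSums
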