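import Mathlib
import Pool.Agent.H3.SubsetSums

set_option autoImplicit false

namespace Pool.Agent.H3.SubsetSums

lemma ap_core (B : Finset ℕ) (c : ℕ → ℤ) (t : ℤ) (pI pJ pK : ℕ → Prop) [DecidablePred pI]
    [DecidablePred pJ] [DecidablePred pK] (hsum : ∑ b ∈ B, c b * b = 0)
    (h : ∀ b ∈ B, 2 * ((if pI b then (1 : ℤ) else 0) + (if pJ b then (1 : ℤ) else 0) -
      2 * (if pK b then (1 : ℤ) else 0)) = t * c b)
    (hI : ∃ b ∈ B, pI b) (hJ : ∃ b ∈ B, pJ b) (hK : ∃ b ∈ B, pK b)
    (hne : ∑ b ∈ B, (if pI b then (b : ℤ) else 0) ≠ ∑ b ∈ B, (if pJ b then (b : ℤ) else 0)) :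
    HasAP 3 (subsetSums B) := by
  set SI := ∑ b ∈ B, (if pI b then (b : ℤ) else 0) with hSI
  set SJ := ∑ b ∈ B, (if pJ b then (b : ℤ) else 0) with hSJ
  set SK := ∑ b ∈ B, (if pK b then (b : ℤ) else 0) with hSK
  have key : 2 * (SI + SJ - 2 * SK) = 0 := by
    have e1 : 2 * (SI + SJ - 2 * SK) = ∑ b ∈ B, t * (c b * b) := by
      rw [hSI, hSJ, hSK, ← Finset.sum_add_distrib, Finset.mul_sum, ← Finset.sum_sub_distrib,
        Finset.mul_sum]
      apply Finset.sum_congr rfl
      intro b hb
      have := h b hb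
      rw [← mul_assoc, ← this]
      split_ifs <;> ring
    rw [e1, ← Finset.mul_sum, hsum, mul_zero]
  have hmem : ∀ (p : ℕ → Prop) [DecidablePred p], (∃ b ∈ B, p b) →
      (∑ b ∈ B, (if p b then (b : ℤ) else 0)) ∈ subsetSums B := by
    intro p _ hp
    refine ⟨B.filter p, Finset.filter_subset _ _, ?_, ?_⟩
    · obtain ⟨b, hb, hpb⟩ := hp
      exact ⟨b, Finset.mem_filter.2 ⟨hb, hpb⟩⟩
    · rw [Finset.sum_filter]
  refine ⟨SI, SK - SI, ?_, ?_⟩
  · intro h0
    apply hne
    linarith
  · intro i hi
    interval_cases i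
    · simpa using hmem pI hI
    · simpa using hmem pK hK
    · have : SI + ((2 : ℕ) : ℤ) * (SK - SI) = SJ := by push_cast; linarith
      rw [this]
      exact hmem pJ hJ

/-- For at least three positive integers: no 3-term progression among the nonempty subset sums
implies that there is no relation with coefficients in `{-2,…,2}`. -/
theorem dis_of_not_hasAP (B : Finset ℕ) (hcard : 3 ≤ B.card) (hpos : ∀ b ∈ B, 0 < b)
    (hAP : ¬ HasAP 3 (subsetSums B)) : Dis B := by
  classical
  intro c hc hsum
  by_contra hcon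
  push Not at hcon
  obtain ⟨b0, hb0, hcb0⟩ := hcon
  apply hAP
  have hval : ∀ b, c b = -2 ∨ c b = -1 ∨ c b = 0 ∨ c b = 1 ∨ c b = 2 := by
    intro b
    have := abs_le.1 (hc b)
    omega
  have hposZ : ∀ b ∈ B, (0 : ℤ) < (b : ℤ) := fun b hb => by exact_mod_cast hpos b hb
  -- positive and negative coefficients occur
  have hP : ∃ b ∈ B, 0 < c b := by
    by_contra hno
    push Not at hno
    have : ∑ b ∈ B, c b * (b : ℤ) < ∑ b ∈ B, (0 : ℤ) := by
      apply Finset.sum_lt_sum
      · intro b hb
        nlinarith [hno b hb, hposZ b hb]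
      · refine ⟨b0, hb0, ?_⟩
        have := lt_of_le_of_ne (hno b0 hb0) hcb0
        nlinarith [hposZ b0 hb0]
    rw [hsum, Finset.sum_const_zero] at this
    exact lt_irrefl _ this
  have hN : ∃ b ∈ B, c b < 0 := by
    by_contra hno
    push Not at hno
    have : ∑ b ∈ B, (0 : ℤ) < ∑ b ∈ B, c b * (b : ℤ) := by
      apply Finset.sum_lt_sum
      · intro b hb
        nlinarith [hno b hb, hposZ b hb]
      · refine ⟨b0, hb0, ?_⟩
        have := lt_of_le_of_ne (hno b0 hb0) (Ne.symm hcb0)
        nlinarith [hposZ b0 hb0]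
    rw [hsum, Finset.sum_const_zero] at this
    exact lt_irrefl _ this
  -- comparison of sums
  have hlt : ∀ (p q : ℕ → Prop) [DecidablePred p] [DecidablePred q], (∀ b ∈ B, p b → q b) →
      (∃ b ∈ B, q b ∧ ¬ p b) →
      ∑ b ∈ B, (if p b then (b : ℤ) else 0) < ∑ b ∈ B, (if q b then (b : ℤ) else 0) := by
    intro p q _ _ hpq hex
    apply Finset.sum_lt_sum
    · intro b hb
      have := hposZ b hb
      by_cases h1 : p b
      · rw [if_pos h1, if_pos (hpq b hb h1)]
      · rw [if_neg h1]; split_ifs <;> linarith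
    · obtain ⟨b, hb, hq, hp⟩ := hex
      refine ⟨b, hb, ?_⟩
      rw [if_neg hp, if_pos hq]
      exact hposZ b hb
  have hsingle : ∀ (q : ℕ → Prop) [DecidablePred q] (x y : ℕ), x ∈ B → y ∈ B → x < y → q y →
      ∑ b ∈ B, (if b = x then (b : ℤ) else 0) < ∑ b ∈ B, (if q b then (b : ℤ) else 0) := by
    intro q _ x y hx hy hxy hq
    have e1 : ∑ b ∈ B, (if b = x then (b : ℤ) else 0) = x := by
      rw [Finset.sum_eq_single x]
      · simp
      · intro b _ hbx; rw [if_neg hbx]
      · intro h; exact absurd hx h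
    have e2 : (y : ℤ) ≤ ∑ b ∈ B, (if q b then (b : ℤ) else 0) := by
      have := Finset.single_le_sum (f := fun b : ℕ => (if q b then (b : ℤ) else 0)) (s := B)
        (fun b hb => by split_ifs <;> positivity) hy
      simpa [hq] using this
    rw [e1]
    have : (x : ℤ) < y := by exact_mod_cast hxy
    linarith
  by_cases hO : ∃ o ∈ B, c o = 1 ∨ c o = -1
  · obtain ⟨o, ho, hco⟩ := hO
    by_cases hZ : ∃ b ∈ B, c b = 2 ∨ c b = 0
    · -- first case
      obtain ⟨z, hz, hcz⟩ := hZ
      apply ap_core B c 2 (fun b => c b ≠ -2) (fun b => c b = 2 ∨ c b = 0) (fun b => c b ≤ 0) hsum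
      · intro b _
        rcases hval b with h | h | h | h | h <;> rw [h] <;> norm_num
      · exact ⟨z, hz, by rcases hcz with h | h <;> rw [h] <;> norm_num⟩
      · exact ⟨z, hz, hcz⟩
      · obtain ⟨n, hn, hcn⟩ := hN
        exact ⟨n, hn, hcn.le⟩
      · apply ne_of_gt
        apply hlt
        · intro b _ hb
          rcases hb with h | h <;> rw [h] <;> norm_num
        · refine ⟨o, ho, ?_, ?_⟩
          · rcases hco with h | h <;> rw [h] <;> norm_num
          · rcases hco with h | h <;> rw [h] <;> norm_num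
    · -- values 1, -1, -2
      push Not at hZ
      have hval' : ∀ b ∈ B, c b = -2 ∨ c b = -1 ∨ c b = 1 := by
        intro b hb
        have := hZ b hb
        rcases hval b with h | h | h | h | h
        · exact Or.inl h
        · exact Or.inr (Or.inl h)
        · exact absurd h this.2
        · exact Or.inr (Or.inr h)
        · exact absurd h this.1
      set O := B.filter (fun b => c b = 1 ∨ c b = -1) with hOdef
      have hOne : O.Nonempty := ⟨o, Finset.mem_filter.2 ⟨ho, hco⟩⟩
      set o1 := O.min' hOne with ho1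
      have ho1m : o1 ∈ O := Finset.min'_mem _ _
      have ho1B : o1 ∈ B := (Finset.mem_filter.1 ho1m).1
      have ho1c : c o1 = 1 ∨ c o1 = -1 := (Finset.mem_filter.1 ho1m).2
      by_cases hO2 : ∃ o2 ∈ O, o2 ≠ o1
      · obtain ⟨o2, ho2, hne⟩ := hO2
        have ho2B : o2 ∈ B := (Finset.mem_filter.1 ho2).1
        have ho2c : c o2 = 1 ∨ c o2 = -1 := (Finset.mem_filter.1 ho2).2
        have hlt12 : o1 < o2 := lt_of_le_of_ne (Finset.min'_le _ _ ho2) hne.symm
        apply ap_core B c 2 (fun b => b = o1) (fun b => (c b = 1 ∨ c b = -1) ∧ b ≠ o1)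
          (fun b => c b < 0) hsum
        · intro b hb
          by_cases hbo : b = o1
          · subst hbo
            rcases ho1c with h | h <;> simp [h]
          · rcases hval' b hb with h | h | h <;> simp [h, hbo]
        · exact ⟨o1, ho1B, rfl⟩
        · exact ⟨o2, ho2B, ho2c, hne⟩
        · exact hN
        · apply ne_of_lt
          exact hsingle _ o1 o2 ho1B ho2B hlt12 ⟨ho2c, hne⟩
      · push Not at hO2
        -- the only odd coefficient is at o1
        have honly : ∀ b ∈ B, (c b = 1 ∨ c b = -1) → b = o1 := fun b hb hcb =>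
          hO2 b (Finset.mem_filter.2 ⟨hb, hcb⟩)
        have hc1 : c o1 = 1 := by
          obtain ⟨p, hp, hcp⟩ := hP
          rcases hval' p hp with h | h | h
          · omega
          · omega
          · rw [← honly p hp (Or.inl h)]; exact h
        have hval2 : ∀ b ∈ B, b ≠ o1 → c b = -2 := by
          intro b hb hbo
          rcases hval' b hb with h | h | h
          · exact h
          · exact absurd (honly b hb (Or.inr h)) hbo
          · exact absurd (honly b hb (Or.inl h)) hbo
        apply ap_core B c (-2) (fun b => b ≠ o1) (fun _ => True) (fun b => b = o1) hsum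
        · intro b hb
          by_cases hbo : b = o1
          · subst hbo; simp [hc1]
          · simp [hbo, hval2 b hb hbo]
        · obtain ⟨n, hn, hcn⟩ := hN
          refine ⟨n, hn, ?_⟩
          rintro rfl
          omega
        · exact ⟨o1, ho1B, trivial⟩
        · exact ⟨o1, ho1B, rfl⟩
        · apply ne_of_lt
          apply hlt
          · intro b _ _; trivial
          · exact ⟨o1, ho1B, trivial, by simp⟩
  · push Not at hO
    have hval' : ∀ b ∈ B, c b = -2 ∨ c b = 0 ∨ c b = 2 := by
      intro b hb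
      have := hO b hb
      rcases hval b with h | h | h | h | h
      · exact Or.inl h
      · exact absurd h this.2
      · exact Or.inr (Or.inl h)
      · exact absurd h this.1
      · exact Or.inr (Or.inr h)
    by_cases hZ : ∃ z ∈ B, c z = 0
    · obtain ⟨z, hz, hcz⟩ := hZ
      apply ap_core B c (-1) (fun b => c b = 0) (fun _ => True) (fun b => c b ≠ -2) hsum
      · intro b hb
        rcases hval' b hb with h | h | h <;> simp [h]
      · exact ⟨z, hz, hcz⟩
      · exact ⟨z, hz, trivial⟩
      · exact ⟨z, hz, by rw [hcz]; norm_num⟩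
      · apply ne_of_lt
        apply hlt
        · intro b _ _; trivial
        · exact ⟨b0, hb0, trivial, hcb0⟩
    · push Not at hZ
      have hval2 : ∀ b ∈ B, c b = -2 ∨ c b = 2 := by
        intro b hb
        rcases hval' b hb with h | h | h
        · exact Or.inl h
        · exact absurd h (hZ b hb)
        · exact Or.inr h
      obtain ⟨p, hp, p', hp', hne, heq⟩ :=
        Finset.exists_ne_map_eq_of_card_lt_of_maps_to (s := B) (t := ({-2, 2} : Finset ℤ))
          (f := c) (by
            have : ({-2, 2} : Finset ℤ).card = 2 := by decide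
            omega) (by
            intro b hb
            rcases hval2 b hb with h | h <;> simp [h])
      -- wlog p < p'
      have key : ∀ p p' : ℕ, p ∈ B → p' ∈ B → p < p' → c p = c p' → HasAP 3 (subsetSums B) := by
        intro p p' hp hp' hlt' heq
        obtain ⟨P, hPB, hcP⟩ := hP
        obtain ⟨N, hNB, hcN⟩ := hN
        have hcP2 : c P = 2 := by rcases hval2 P hPB with h | h <;> omega
        have hcN2 : c N = -2 := by rcases hval2 N hNB with h | h <;> omega
        rcases hval2 p hp with hcp | hcp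
        · apply ap_core B c (-1) (fun b => b = p) (fun b => b ≠ p) (fun b => c b = 2) hsum
          · intro b hb
            by_cases hbp : b = p
            · subst hbp; simp [hcp]
            · rcases hval2 b hb with h | h <;> simp [h, hbp]
          · exact ⟨p, hp, rfl⟩
          · exact ⟨p', hp', hlt'.ne'⟩
          · exact ⟨P, hPB, hcP2⟩
          · apply ne_of_lt
            exact hsingle _ p p' hp hp' hlt' hlt'.ne'
        · apply ap_core B c 1 (fun b => b = p) (fun b => b ≠ p) (fun b => c b = -2) hsum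
          · intro b hb
            by_cases hbp : b = p
            · subst hbp; simp [hcp]
            · rcases hval2 b hb with h | h <;> simp [h, hbp]
          · exact ⟨p, hp, rfl⟩
          · exact ⟨p', hp', hlt'.ne'⟩
          · exact ⟨N, hNB, hcN2⟩
          · apply ne_of_lt
            exact hsingle _ p p' hp hp' hlt' hlt'.ne'
      rcases lt_or_gt_of_ne hne with h | h
      · exact key p p' hp hp' h heq
      · exact key p' p hp' hp h heq.symm

/-! ### The second moment inequality -/

/-- all the sums with coefficients `-1, 0, 1` -/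
def sumsL : List ℕ → List ℤ
  | [] => [0]
  | b :: l => (sumsL l).map (fun x : ℤ => x - (b : ℤ)) ++
      (sumsL l ++ (sumsL l).map (fun x : ℤ => x + (b : ℤ)))

lemma sum_sub_aux (l : List ℕ) (f e : ℕ → ℤ) : (l.map (fun a => (f a - e a) * (a : ℤ))).sum =
    (l.map (fun a => f a * (a : ℤ))).sum - (l.map (fun a => e a * (a : ℤ))).sum := by
  induction l with
  | nil => simp
  | cons a l ih =>
    simp only [List.map_cons, List.sum_cons]
    rw [ih]; ring

lemma length_sumsL (l : List ℕ) : (sumsL l).length = 3 ^ l.length := by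
  induction l with
  | nil => rfl
  | cons b l ih =>
    simp only [sumsL, List.length_append, List.length_map, ih, List.length_cons, pow_succ]
    ring

lemma sq_sumsL (l : List ℕ) : 3 * ((sumsL l).map (fun x => x ^ 2)).sum =
    2 * 3 ^ l.length * (l.map (fun b : ℕ => (b : ℤ) ^ 2)).sum := by
  induction l with
  | nil => simp [sumsL]
  | cons b l ih =>
    have hs : ∀ L : List ℤ, (L.map (fun x => (x - (b : ℤ)) ^ 2)).sum +
        (L.map (fun x => (x + (b : ℤ)) ^ 2)).sum = 2 * (L.map (fun x => x ^ 2)).sum +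
        2 * (b : ℤ) ^ 2 * L.length := by
      intro L
      induction L with
      | nil => simp
      | cons x L ihL =>
        simp only [List.map_cons, List.sum_cons, List.length_cons, Nat.cast_add, Nat.cast_one]
        linear_combination ihL
    have h1 := hs (sumsL l)
    rw [length_sumsL] at h1
    simp only [sumsL, List.map_append, List.map_map, List.sum_append, List.map_cons, List.sum_cons,
      List.length_cons]
    have e1 : ((fun x : ℤ => x ^ 2) ∘ fun x => x - (b : ℤ)) = fun x => (x - (b : ℤ)) ^ 2 := rfl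
    have e2 : ((fun x : ℤ => x ^ 2) ∘ fun x => x + (b : ℤ)) = fun x => (x + (b : ℤ)) ^ 2 := rfl
    rw [e1, e2]
    push_cast at h1
    linear_combination 3 * h1 + 3 * ih

lemma mem_sumsL (l : List ℕ) (hl : l.Nodup) (x : ℤ) (hx : x ∈ sumsL l) :
    ∃ e : ℕ → ℤ, (∀ b, |e b| ≤ 1) ∧ x = (l.map (fun b => e b * (b : ℤ))).sum := by
  induction l generalizing x with
  | nil =>
    simp only [sumsL, List.mem_singleton] at hx
    exact ⟨fun _ => 0, by simp, by simp [hx]⟩
  | cons b l ih =>
    rw [List.nodup_cons] at hl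
    have aux : ∀ (y : ℤ) (j : ℤ), |j| ≤ 1 → y ∈ sumsL l →
        ∃ e : ℕ → ℤ, (∀ b, |e b| ≤ 1) ∧
          y + j * b = ((b :: l).map (fun b => e b * (b : ℤ))).sum := by
      intro y j hj hy
      obtain ⟨e, he, hye⟩ := ih hl.2 y hy
      refine ⟨Function.update e b j, ?_, ?_⟩
      · intro a
        by_cases hab : a = b
        · subst hab; rw [Function.update_self]; exact hj
        · rw [Function.update_of_ne hab]; exact he a
      · rw [List.map_cons, List.sum_cons, Function.update_self]
        have : l.map (fun a => Function.update e b j a * (a : ℤ)) = l.map (fun a => e a * (a : ℤ)) := by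
          apply List.map_congr_left
          intro a ha
          have hab : a ≠ b := fun h => hl.1 (h ▸ ha)
          rw [Function.update_of_ne hab]
        rw [this, ← hye]; ring
    simp only [sumsL, List.mem_append, List.mem_map] at hx
    rcases hx with ⟨y, hy, rfl⟩ | hy | ⟨y, hy, rfl⟩
    · obtain ⟨e, he, h⟩ := aux y (-1) (by norm_num) hy
      exact ⟨e, he, by rw [← h]; ring⟩
    · obtain ⟨e, he, h⟩ := aux x 0 (by norm_num) hy
      exact ⟨e, he, by rw [← h]; ring⟩
    · obtain ⟨e, he, h⟩ := aux y 1 (by norm_num) hy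
      exact ⟨e, he, by rw [← h]; ring⟩

lemma dis_list (l : List ℕ) (hl : l.Nodup) : Dis l.toFinset ↔
    ∀ c : ℕ → ℤ, (∀ b, |c b| ≤ 2) → (l.map (fun b => c b * (b : ℤ))).sum = 0 → ∀ b ∈ l, c b = 0 := by
  constructor
  · intro h c hc hsum b hb
    refine h c hc ?_ b (List.mem_toFinset.2 hb)
    rw [List.sum_toFinset _ hl]
    exact hsum
  · intro h c hc hsum b hb
    refine h c hc ?_ b (List.mem_toFinset.1 hb)
    rw [← List.sum_toFinset _ hl]
    exact hsum

lemma nodup_sumsL (l : List ℕ) (hl : l.Nodup) (hpos : ∀ b ∈ l, 0 < b)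
    (h : ∀ c : ℕ → ℤ, (∀ b, |c b| ≤ 2) → (l.map (fun b => c b * (b : ℤ))).sum = 0 →
      ∀ b ∈ l, c b = 0) : (sumsL l).Nodup := by
  induction l with
  | nil => simp [sumsL]
  | cons b l ih =>
    rw [List.nodup_cons] at hl
    have hmap : ∀ (c : ℕ → ℤ) (j : ℤ), l.map (fun a => Function.update c b j a * (a : ℤ)) =
        l.map (fun a => c a * (a : ℤ)) := by
      intro c j
      apply List.map_congr_left
      intro a ha
      have hab : a ≠ b := fun h => hl.1 (h ▸ ha)
      rw [Function.update_of_ne hab]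
    have hupd : ∀ (c : ℕ → ℤ) (j : ℤ), (∀ b, |c b| ≤ 2) → |j| ≤ 2 →
        ∀ a, |Function.update c b j a| ≤ 2 := by
      intro c j hc hj a
      by_cases hab : a = b
      · subst hab; rw [Function.update_self]; exact hj
      · rw [Function.update_of_ne hab]; exact hc a
    have h' : ∀ c : ℕ → ℤ, (∀ b, |c b| ≤ 2) → (l.map (fun b => c b * (b : ℤ))).sum = 0 →
        ∀ b ∈ l, c b = 0 := by
      intro c hc hsum a ha
      have h1 := h (Function.update c b 0) (hupd c 0 hc (by norm_num)) (by
        rw [List.map_cons, List.sum_cons, Function.update_self, hmap, hsum]; ring) a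
        (List.mem_cons_of_mem _ ha)
      have hab : a ≠ b := fun h => hl.1 (h ▸ ha)
      rwa [Function.update_of_ne hab] at h1
    have ih' := ih hl.2 (fun a ha => hpos a (List.mem_cons_of_mem _ ha)) h'
    -- two sums cannot differ by `j b` with `1 ≤ |j| ≤ 2`
    have hdiff : ∀ (x y j : ℤ), x ∈ sumsL l → y ∈ sumsL l → |j| ≤ 2 → j ≠ 0 →
        x ≠ y + j * b := by
      intro x y j hx hy hj hj0 hxy
      obtain ⟨e, he, hxe⟩ := mem_sumsL l hl.2 x hx
      obtain ⟨f, hf, hyf⟩ := mem_sumsL l hl.2 y hy
      have hc : ∀ a, |(fun a => f a - e a) a| ≤ 2 := by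
        intro a
        have h1 := abs_le.1 (he a)
        have h2 := abs_le.1 (hf a)
        rw [abs_le]
        constructor <;> simp only <;> linarith
      have h1 := h (Function.update (fun a => f a - e a) b j) (hupd _ j hc hj) (by
        rw [List.map_cons, List.sum_cons, Function.update_self, hmap]
        have : (l.map (fun a => (f a - e a) * (a : ℤ))).sum =
            (l.map (fun a => f a * (a : ℤ))).sum - (l.map (fun a => e a * (a : ℤ))).sum := by
          exact sum_sub_aux l f e
        rw [this, ← hxe, ← hyf]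
        linarith) b (by simp)
      rw [Function.update_self] at h1
      exact hj0 h1
    simp only [sumsL]
    rw [List.nodup_append, List.nodup_append]
    refine ⟨?_, ⟨ih', ?_, ?_⟩, ?_⟩
    · exact ih'.map (fun x y hxy => by simpa using hxy)
    · exact ih'.map (fun x y hxy => by simpa using hxy)
    · intro x hx y hy
      rw [List.mem_map] at hy
      obtain ⟨z, hz, rfl⟩ := hy
      have := hdiff x z 1 hx hz (by norm_num) (by norm_num)
      simpa using this
    · intro x hx y hy hxy
      rw [List.mem_map] at hx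
      obtain ⟨w, hw, rfl⟩ := hx
      rw [List.mem_append, List.mem_map] at hy
      rcases hy with hy | ⟨z, hz, rfl⟩
      · exact hdiff w y 1 hw hy (by norm_num) (by norm_num) (by linarith)
      · exact hdiff w z 2 hw hz (by norm_num) (by norm_num) (by linarith)

lemma sum_sq_Icc (M : ℕ) : 3 * ∑ j ∈ Finset.Icc (-(M : ℤ)) M, j ^ 2 =
    (M : ℤ) * (M + 1) * (2 * M + 1) := by
  induction M with
  | zero => simp
  | succ M ih =>
    have e1 : Finset.Icc (-((M + 1 : ℕ) : ℤ)) ((M + 1 : ℕ) : ℤ) =
        insert (-((M + 1 : ℕ) : ℤ)) (insert ((M + 1 : ℕ) : ℤ) (Finset.Icc (-(M : ℤ)) M)) := by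
      ext j
      simp only [Finset.mem_Icc, Finset.mem_insert]
      push_cast
      omega
    rw [e1, Finset.sum_insert, Finset.sum_insert, mul_add, mul_add, ih]
    · push_cast; ring
    · simp only [Finset.mem_Icc]; push_cast; omega
    · simp only [Finset.mem_insert, Finset.mem_Icc]; push_cast; omega

lemma sum_sq_lower (T : Finset ℤ) (M : ℕ) (hT : T.card = 2 * M + 1) :
    ∑ j ∈ Finset.Icc (-(M : ℤ)) M, j ^ 2 ≤ ∑ t ∈ T, t ^ 2 := by
  set T' := Finset.Icc (-(M : ℤ)) M with hT'
  have hcard : T'.card = 2 * M + 1 := by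
    rw [hT', Int.card_Icc]; omega
  have h1 : (T \ T').card = (T' \ T).card := by
    have e1 := Finset.card_sdiff_add_card_inter T T'
    have e2 := Finset.card_sdiff_add_card_inter T' T
    rw [Finset.inter_comm T' T] at e2
    omega
  have h2 : ((T \ T').card : ℤ) * ((M : ℤ) + 1) ^ 2 ≤ ∑ t ∈ T \ T', t ^ 2 := by
    have := Finset.card_nsmul_le_sum (T \ T') (fun t : ℤ => t ^ 2) (((M : ℤ) + 1) ^ 2) (by
      intro t ht
      rw [Finset.mem_sdiff, hT', Finset.mem_Icc] at ht
      have : (M : ℤ) + 1 ≤ |t| := by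
        by_contra hlt
        push Not at hlt
        have := abs_lt.1 hlt
        exact ht.2 ⟨by omega, by omega⟩
      rw [← sq_abs t]
      exact pow_le_pow_left₀ (by positivity) this 2)
    simpa using this
  have h3 : ∑ t ∈ T' \ T, t ^ 2 ≤ ((T' \ T).card : ℤ) * ((M : ℤ)) ^ 2 := by
    have := Finset.sum_le_card_nsmul (T' \ T) (fun t : ℤ => t ^ 2) (((M : ℤ)) ^ 2) (by
      intro t ht
      rw [Finset.mem_sdiff, hT', Finset.mem_Icc] at ht
      have : |t| ≤ (M : ℤ) := abs_le.2 ht.1
      rw [← sq_abs t]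
      exact pow_le_pow_left₀ (abs_nonneg _) this 2)
    simpa using this
  have h4 : ((T' \ T).card : ℤ) * ((M : ℤ)) ^ 2 ≤ ((T \ T').card : ℤ) * ((M : ℤ) + 1) ^ 2 := by
    rw [h1]
    apply mul_le_mul_of_nonneg_left _ (by positivity)
    nlinarith [(Nat.cast_nonneg M : (0:ℤ) ≤ M)]
  have h5 : ∑ t ∈ T', t ^ 2 = ∑ t ∈ T' \ T, t ^ 2 + ∑ t ∈ T' ∩ T, t ^ 2 := by
    rw [← Finset.sum_union (Finset.disjoint_sdiff_inter T' T), Finset.sdiff_union_inter]
  have h6 : ∑ t ∈ T, t ^ 2 = ∑ t ∈ T \ T', t ^ 2 + ∑ t ∈ T ∩ T', t ^ 2 := by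
    rw [← Finset.sum_union (Finset.disjoint_sdiff_inter T T'), Finset.sdiff_union_inter]
  rw [h5, h6, Finset.inter_comm T' T]
  linarith

/-- second moment bound -/
theorem nine_pow_le (B : Finset ℕ) (hpos : ∀ b ∈ B, 0 < b) (hB : Dis B) :
    9 ^ B.card ≤ 8 * ∑ b ∈ B, b ^ 2 + 1 := by
  classical
  set l := B.toList with hl
  have hlB : l.toFinset = B := Finset.toList_toFinset B
  have hnd : l.Nodup := Finset.nodup_toList B
  have hlen : l.length = B.card := Finset.length_toList B
  have hdis : Dis l.toFinset := by rw [hlB]; exact hB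
  have h1 := nodup_sumsL l hnd (fun b hb => hpos b (by rw [← hlB]; exact List.mem_toFinset.2 hb))
    ((dis_list l hnd).1 hdis)
  set T := (sumsL l).toFinset with hT
  have hTc : T.card = 3 ^ B.card := by
    rw [hT, List.toFinset_card_of_nodup h1, length_sumsL, hlen]
  have hodd : Odd (3 ^ B.card) := Odd.pow (by decide)
  obtain ⟨M, hM⟩ := hodd
  have h2 := sum_sq_lower T M (by rw [hTc, hM])
  have h3 := sum_sq_Icc M
  have h4 : ∑ t ∈ T, t ^ 2 = ((sumsL l).map (fun x => x ^ 2)).sum := by
    rw [hT, List.sum_toFinset _ h1]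
  have h5 := sq_sumsL l
  rw [← h4, hlen] at h5
  have h6 : (l.map (fun b : ℕ => (b : ℤ) ^ 2)).sum = ∑ b ∈ B, (b : ℤ) ^ 2 := by
    rw [← List.sum_toFinset _ hnd, hlB]
  rw [h6] at h5
  have hMz : (3 : ℤ) ^ B.card = 2 * M + 1 := by exact_mod_cast hM
  have h7 : (M : ℤ) * (M + 1) * (2 * M + 1) ≤ 2 * (2 * M + 1) * ∑ b ∈ B, (b : ℤ) ^ 2 := by
    rw [← h3, ← hMz, ← h5]
    linarith
  have h8 : (M : ℤ) * (M + 1) ≤ 2 * ∑ b ∈ B, (b : ℤ) ^ 2 := by
    have hp : (0 : ℤ) < 2 * M + 1 := by positivity
    nlinarith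
  have h9 : (9 : ℤ) ^ B.card = (2 * M + 1) ^ 2 := by
    rw [← hMz, ← pow_mul, mul_comm, pow_mul]; norm_num
  have h10 : (9 : ℤ) ^ B.card ≤ 8 * ∑ b ∈ B, (b : ℤ) ^ 2 + 1 := by
    rw [h9]; nlinarith
  exact_mod_cast h10

end Pool.Agent.H3.SubsetSums
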