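import Mathlib

set_option autoImplicit false

namespace Pool.Agent.H3.TBody

open Filter Topology

/-- `z / |z|³` -/
noncomputable def G (z : ℂ) : ℂ := ((‖z‖ ^ 3)⁻¹ : ℝ) • z

/-- dot product -/
def dt (z w : ℂ) : ℝ := z.re * w.re + z.im * w.im
/-- cross product -/
def cr (z w : ℂ) : ℝ := z.re * w.im - z.im * w.re

lemma norm_sq (z : ℂ) : ‖z‖ ^ 2 = z.re ^ 2 + z.im ^ 2 := by
  rw [Complex.sq_norm, Complex.normSq_apply]; ring

lemma dt_self (z : ℂ) : dt z z = ‖z‖ ^ 2 := by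
  rw [norm_sq]; unfold dt; ring

lemma dt_cr (z w : ℂ) : dt z w ^ 2 + cr z w ^ 2 = ‖z‖ ^ 2 * ‖w‖ ^ 2 := by
  rw [norm_sq, norm_sq]; unfold dt cr; ring

lemma abs_dt_le (z w : ℂ) : |dt z w| ≤ ‖z‖ * ‖w‖ := by
  apply abs_le_of_sq_le_sq _ (by positivity)
  have := dt_cr z w
  nlinarith [sq_nonneg (cr z w)]

lemma abs_cr_le (z w : ℂ) : |cr z w| ≤ ‖z‖ * ‖w‖ := by
  apply abs_le_of_sq_le_sq _ (by positivity)
  have := dt_cr z w
  nlinarith [sq_nonneg (dt z w)]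

lemma norm_G (z : ℂ) (hz : z ≠ 0) : ‖G z‖ = 1 / ‖z‖ ^ 2 := by
  have h : ‖z‖ ≠ 0 := norm_ne_zero_iff.2 hz
  unfold G
  rw [norm_smul, Real.norm_eq_abs, abs_of_nonneg (by positivity)]
  field_simp

lemma G_lip (δ : ℝ) (hδ : 0 < δ) (z w : ℂ) (hz : δ ≤ ‖z‖) (hw : δ ≤ ‖w‖) :
    ‖G z - G w‖ ≤ 4 / δ ^ 3 * ‖z - w‖ := by
  set p := ‖z‖ with hp
  set q := ‖w‖ with hq
  have hp0 : 0 < p := lt_of_lt_of_le hδ hz
  have hq0 : 0 < q := lt_of_lt_of_le hδ hw
  have h1 : G z - G w = ((p ^ 3)⁻¹ : ℝ) • (z - w) + ((p ^ 3)⁻¹ - (q ^ 3)⁻¹ : ℝ) • w := by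
    unfold G
    rw [smul_sub, sub_smul]
    abel
  have h2 : |q - p| ≤ ‖z - w‖ := by
    rw [abs_sub_comm]
    exact abs_norm_sub_norm_le z w
  have h3 : ‖((p ^ 3)⁻¹ - (q ^ 3)⁻¹ : ℝ) • w‖ ≤ 3 / δ ^ 3 * ‖z - w‖ := by
    rw [norm_smul, Real.norm_eq_abs, ← hq]
    have h4 : (p ^ 3)⁻¹ - (q ^ 3)⁻¹ = (q - p) * ((q ^ 2 + q * p + p ^ 2) / (p ^ 3 * q ^ 3)) := by
      field_simp
      ring
    rw [h4, abs_mul, abs_of_nonneg (show 0 ≤ (q ^ 2 + q * p + p ^ 2) / (p ^ 3 * q ^ 3) by positivity)]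
    have h5 : (q ^ 2 + q * p + p ^ 2) / (p ^ 3 * q ^ 3) * q ≤ 3 / δ ^ 3 := by
      have e1 : (q ^ 2 + q * p + p ^ 2) / (p ^ 3 * q ^ 3) * q =
          1 / (p * p * p) + 1 / (p * p * q) + 1 / (p * q * q) := by
        field_simp
      rw [e1]
      have hz' : δ ≤ p := hz
      have hw' : δ ≤ q := hw
      have i1 : 1 / (p * p * p) ≤ 1 / δ ^ 3 := by
        apply one_div_le_one_div_of_le (by positivity)
        calc δ ^ 3 = δ * δ * δ := by ring
          _ ≤ p * p * p := by gcongr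
      have i2 : 1 / (p * p * q) ≤ 1 / δ ^ 3 := by
        apply one_div_le_one_div_of_le (by positivity)
        calc δ ^ 3 = δ * δ * δ := by ring
          _ ≤ p * p * q := by gcongr
      have i3 : 1 / (p * q * q) ≤ 1 / δ ^ 3 := by
        apply one_div_le_one_div_of_le (by positivity)
        calc δ ^ 3 = δ * δ * δ := by ring
          _ ≤ p * q * q := by gcongr
      have e2 : 3 / δ ^ 3 = 1 / δ ^ 3 + 1 / δ ^ 3 + 1 / δ ^ 3 := by ring
      rw [e2]; linarith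
    calc |q - p| * ((q ^ 2 + q * p + p ^ 2) / (p ^ 3 * q ^ 3)) * q
        = |q - p| * ((q ^ 2 + q * p + p ^ 2) / (p ^ 3 * q ^ 3) * q) := by ring
      _ ≤ ‖z - w‖ * (3 / δ ^ 3) := by
          apply mul_le_mul h2 h5 (by positivity) (norm_nonneg _)
      _ = 3 / δ ^ 3 * ‖z - w‖ := by ring
  have h4 : ‖((p ^ 3)⁻¹ : ℝ) • (z - w)‖ ≤ 1 / δ ^ 3 * ‖z - w‖ := by
    rw [norm_smul, Real.norm_eq_abs, abs_of_nonneg (by positivity)]
    apply mul_le_mul_of_nonneg_right _ (norm_nonneg _)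
    rw [← one_div]
    apply one_div_le_one_div_of_le (by positivity)
    exact pow_le_pow_left₀ hδ.le hz 3
  rw [h1]
  refine (norm_add_le _ _).trans ((add_le_add h4 h3).trans (le_of_eq ?_))
  ring

/-- second order Taylor bound -/
lemma taylor (g g' : ℝ → ℂ) (hg : ∀ t, HasDerivAt g (g' t) t) (M : ℝ)
    (hM : ∀ s t, ‖g' t - g' s‖ ≤ M * |t - s|) (s t : ℝ) (hM0 : 0 ≤ M) :
    ‖g t - g s - (t - s) • g' s‖ ≤ M * (t - s) ^ 2 := by
  have h := Convex.norm_image_sub_le_of_norm_hasDerivWithin_le (f := fun τ => g τ - τ • g' s)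
    (f' := fun τ => g' τ - (1 : ℝ) • g' s) (s := Set.uIcc s t) (C := M * |t - s|) (x := s) (y := t)
    (fun x _ => by
      apply HasDerivAt.hasDerivWithinAt
      exact (hg x).sub ((hasDerivAt_id x).smul_const (g' s)))
    (fun x hx => by
      rw [one_smul]
      refine (hM s x).trans ?_
      apply mul_le_mul_of_nonneg_left _ hM0
      have := Set.abs_sub_left_of_mem_uIcc hx
      exact this)
    (convex_uIcc s t) Set.left_mem_uIcc Set.right_mem_uIcc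
  have e1 : g t - g s - (t - s) • g' s = (g t - t • g' s) - (g s - s • g' s) := by
    rw [sub_smul]; abel
  rw [e1]
  refine h.trans (le_of_eq ?_)
  rw [Real.norm_eq_abs, mul_assoc, ← sq, sq_abs]

lemma hasDerivAt_of_taylor (g : ℝ → ℂ) (s : ℝ) (v : ℂ) (M : ℝ)
    (h : ∀ t, ‖g t - g s - (t - s) • v‖ ≤ M * (t - s) ^ 2) : HasDerivAt g v s := by
  rw [hasDerivAt_iff_isLittleO]
  have h1 : (fun t => g t - g s - (t - s) • v) =O[𝓝 s] fun t => (t - s) ^ 2 := by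
    apply Asymptotics.IsBigO.of_bound M
    filter_upwards with t
    refine (h t).trans (le_of_eq ?_)
    rw [Real.norm_eq_abs, abs_of_nonneg (sq_nonneg _)]
  refine h1.trans_isLittleO ?_
  have h2 : (fun t : ℝ => (t - s) ^ 2) = fun t => (t - s) * (t - s) := by
    funext t; ring
  rw [h2]
  have h3 : (fun t : ℝ => (t - s)) =o[𝓝 s] fun _ => (1 : ℝ) := by
    rw [Asymptotics.isLittleO_one_iff]
    have : Tendsto (fun t : ℝ => t - s) (𝓝 s) (𝓝 (s - s)) := tendsto_id.sub_const s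
    simpa using this
  have h4 := (h3.mul_isBigO (Asymptotics.isBigO_refl (fun t : ℝ => t - s) (𝓝 s)))
  simpa using h4

/-- a positive function on the line cannot be strictly concave -/
lemma concave_pos (f g : ℝ → ℝ) (hf : ∀ t, HasDerivAt f (g t) t) (hg : StrictAnti g)
    (hpos : ∀ t, 0 < f t) : False := by
  have hcont : Continuous f := continuous_iff_continuousAt.2 fun t => (hf t).continuousAt
  rcases lt_or_ge (g 1) 0 with h | h
  · have hT : (1 : ℝ) < 2 + f 1 / (-g 1) := by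
      have : 0 < f 1 / (-g 1) := div_pos (hpos 1) (by linarith)
      linarith
    obtain ⟨ξ, hξ, hξ'⟩ := exists_hasDerivAt_eq_slope f g hT hcont.continuousOn (fun x _ => hf x)
    have h1 : g ξ < g 1 := hg hξ.1
    have hne : g 1 ≠ 0 := h.ne
    have h2 : f (2 + f 1 / (-g 1)) - f 1 = g ξ * (2 + f 1 / (-g 1) - 1) := by
      rw [hξ', div_mul_cancel₀ _ (ne_of_gt (by linarith))]
    have h3 : g ξ * (2 + f 1 / (-g 1) - 1) ≤ g 1 * (2 + f 1 / (-g 1) - 1) :=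
      mul_le_mul_of_nonneg_right h1.le (by linarith)
    have h4 : g 1 * (2 + f 1 / (-g 1) - 1) = g 1 - f 1 := by
      field_simp; ring
    have := hpos (2 + f 1 / (-g 1))
    linarith
  · have h0 : 0 < g 0 := lt_of_le_of_lt h (hg (by norm_num))
    have hT : -(1 + f 0 / (g 0)) < (0 : ℝ) := by
      have : 0 < f 0 / (g 0) := div_pos (hpos 0) h0
      linarith
    obtain ⟨ξ, hξ, hξ'⟩ := exists_hasDerivAt_eq_slope f g hT hcont.continuousOn (fun x _ => hf x)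
    have h1 : g 0 < g ξ := hg hξ.2
    have h2 : f 0 - f (-(1 + f 0 / (g 0))) = g ξ * (0 - -(1 + f 0 / (g 0))) := by
      rw [hξ', div_mul_cancel₀ _ (ne_of_gt (by linarith))]
    have h3 : g 0 * (0 - -(1 + f 0 / (g 0))) ≤ g ξ * (0 - -(1 + f 0 / (g 0))) :=
      mul_le_mul_of_nonneg_right h1.le (by linarith)
    have h4 : g 0 * (0 - -(1 + f 0 / (g 0))) = g 0 + f 0 := by
      field_simp; ring
    have := hpos (-(1 + f 0 / (g 0)))
    linarith

end Pool.Agent.H3.TBody
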