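import Mathlib
import Pool.Agent.H3.TBodyA

set_option autoImplicit false

namespace Pool.Agent.H3.TBody

open Filter Topology

/-- potential -/
noncomputable def U (a : Fin 3 → ℝ → ℂ) (t : ℝ) : ℝ := 1 / ‖a 0 t‖ + 1 / ‖a 1 t‖ + 1 / ‖a 2 t‖

/-- solutions in terms of the differences `a i` and their velocities `b i`, zero angular momentum,
energy `-E`, potential within `δ` of `2E`. -/
structure Sol (E δ : ℝ) (a b : Fin 3 → ℝ → ℂ) : Prop where
  ha : ∀ i t, HasDerivAt (a i) (b i t) t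
  hb : ∀ i t, HasDerivAt (b i) (G (a 0 t) + G (a 1 t) + G (a 2 t) - (3 : ℝ) • G (a i t)) t
  sa : ∀ t, a 0 t + a 1 t + a 2 t = 0
  sb : ∀ t, b 0 t + b 1 t + b 2 t = 0
  hJ : ∀ t, cr (a 0 t) (b 0 t) + cr (a 1 t) (b 1 t) + cr (a 2 t) (b 2 t) = 0
  hE : ∀ t, (1 / 6 : ℝ) * (‖b 0 t‖ ^ 2 + ‖b 1 t‖ ^ 2 + ‖b 2 t‖ ^ 2) - U a t = -E
  hU : ∀ t, |U a t - 2 * E| ≤ δ
  hne : ∀ i t, a i t ≠ 0

variable {E δ : ℝ} {a b : Fin 3 → ℝ → ℂ}

lemma inv_le_U (h : Sol E δ a b) (i : Fin 3) (t : ℝ) : 1 / ‖a i t‖ ≤ U a t := by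
  have h0 : 0 ≤ 1 / ‖a 0 t‖ := by positivity
  have h1 : 0 ≤ 1 / ‖a 1 t‖ := by positivity
  have h2 : 0 ≤ 1 / ‖a 2 t‖ := by positivity
  unfold U
  fin_cases i
  · show 1 / ‖a 0 t‖ ≤ _; linarith
  · show 1 / ‖a 1 t‖ ≤ _; linarith
  · show 1 / ‖a 2 t‖ ≤ _; linarith

lemma U_le (h : Sol E δ a b) (hδ : δ ≤ E) (t : ℝ) : U a t ≤ 3 * E := by
  have := (abs_le.1 (h.hU t)).2
  linarith

lemma norm_a_ge (hE : 0 < E) (h : Sol E δ a b) (hδ : δ ≤ E) (i : Fin 3) (t : ℝ) :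
    1 / (3 * E) ≤ ‖a i t‖ := by
  have h1 := (inv_le_U h i t).trans (U_le h hδ t)
  have h2 : 0 < ‖a i t‖ := norm_pos_iff.2 (h.hne i t)
  rw [div_le_iff₀ h2] at h1
  rw [div_le_iff₀ (by positivity)]
  linarith

lemma norm_b_le (h : Sol E δ a b) (hδ : δ ≤ E) (i : Fin 3) (t : ℝ) :
    ‖b i t‖ ≤ Real.sqrt (12 * E) := by
  apply Real.le_sqrt_of_sq_le
  have h1 := h.hE t
  have h2 := U_le h hδ t
  have h3 : ‖b i t‖ ^ 2 ≤ ‖b 0 t‖ ^ 2 + ‖b 1 t‖ ^ 2 + ‖b 2 t‖ ^ 2 := by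
    have h0 := sq_nonneg ‖b 0 t‖
    have h1 := sq_nonneg ‖b 1 t‖
    have h2 := sq_nonneg ‖b 2 t‖
    fin_cases i
    · show ‖b 0 t‖ ^ 2 ≤ _; linarith
    · show ‖b 1 t‖ ^ 2 ≤ _; linarith
    · show ‖b 2 t‖ ^ 2 ≤ _; linarith
  linarith

/-- the force -/
noncomputable def Fo (a : Fin 3 → ℝ → ℂ) (i : Fin 3) (t : ℝ) : ℂ :=
  G (a 0 t) + G (a 1 t) + G (a 2 t) - (3 : ℝ) • G (a i t)

lemma norm_G_le (hE : 0 < E) (h : Sol E δ a b) (hδ : δ ≤ E) (i : Fin 3) (t : ℝ) :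
    ‖G (a i t)‖ ≤ 9 * E ^ 2 := by
  rw [norm_G _ (h.hne i t)]
  have h1 := norm_a_ge hE h hδ i t
  have h2 : (1 / (3 * E)) ^ 2 ≤ ‖a i t‖ ^ 2 := pow_le_pow_left₀ (by positivity) h1 2
  have h3 : 0 < ‖a i t‖ := norm_pos_iff.2 (h.hne i t)
  rw [div_le_iff₀ (by positivity)]
  calc (1 : ℝ) = 9 * E ^ 2 * (1 / (3 * E)) ^ 2 := by field_simp; norm_num
    _ ≤ 9 * E ^ 2 * ‖a i t‖ ^ 2 := by gcongr

lemma norm_Fo_le (hE : 0 < E) (h : Sol E δ a b) (hδ : δ ≤ E) (i : Fin 3) (t : ℝ) :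
    ‖Fo a i t‖ ≤ 54 * E ^ 2 := by
  unfold Fo
  have h0 := norm_G_le hE h hδ 0 t
  have h1 := norm_G_le hE h hδ 1 t
  have h2 := norm_G_le hE h hδ 2 t
  have h3 := norm_G_le hE h hδ i t
  have h4 : ‖(3 : ℝ) • G (a i t)‖ = 3 * ‖G (a i t)‖ := by
    rw [norm_smul]; norm_num
  have h5 := norm_sub_le (G (a 0 t) + G (a 1 t) + G (a 2 t)) ((3 : ℝ) • G (a i t))
  have h6 := norm_add₃_le (a := G (a 0 t)) (b := G (a 1 t)) (c := G (a 2 t))
  rw [h4] at h5
  linarith

lemma a_lip (h : Sol E δ a b) (hδ : δ ≤ E) (i : Fin 3) (s t : ℝ) :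
    ‖a i t - a i s‖ ≤ Real.sqrt (12 * E) * |t - s| := by
  have := Convex.norm_image_sub_le_of_norm_hasDerivWithin_le (f := a i) (f' := b i)
    (s := Set.univ) (C := Real.sqrt (12 * E)) (x := s) (y := t)
    (fun x _ => (h.ha i x).hasDerivWithinAt) (fun x _ => norm_b_le h hδ i x) convex_univ
    (Set.mem_univ _) (Set.mem_univ _)
  rwa [Real.norm_eq_abs] at this

lemma b_lip (hE : 0 < E) (h : Sol E δ a b) (hδ : δ ≤ E) (i : Fin 3) (s t : ℝ) :
    ‖b i t - b i s‖ ≤ 54 * E ^ 2 * |t - s| := by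
  have := Convex.norm_image_sub_le_of_norm_hasDerivWithin_le (f := b i) (f' := Fo a i)
    (s := Set.univ) (C := 54 * E ^ 2) (x := s) (y := t)
    (fun x _ => (h.hb i x).hasDerivWithinAt) (fun x _ => norm_Fo_le hE h hδ i x) convex_univ
    (Set.mem_univ _) (Set.mem_univ _)
  rwa [Real.norm_eq_abs] at this

lemma G_a_lip (hE : 0 < E) (h : Sol E δ a b) (hδ : δ ≤ E) (i : Fin 3) (s t : ℝ) :
    ‖G (a i t) - G (a i s)‖ ≤ 108 * E ^ 3 * (Real.sqrt (12 * E) * |t - s|) := by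
  have h1 := G_lip (1 / (3 * E)) (by positivity) (a i t) (a i s) (norm_a_ge hE h hδ i t)
    (norm_a_ge hE h hδ i s)
  have h2 : 4 / (1 / (3 * E)) ^ 3 = 108 * E ^ 3 := by field_simp; norm_num
  rw [h2] at h1
  refine h1.trans ?_
  gcongr
  exact a_lip h hδ i s t

lemma Fo_lip (hE : 0 < E) (h : Sol E δ a b) (hδ : δ ≤ E) (i : Fin 3) (s t : ℝ) :
    ‖Fo a i t - Fo a i s‖ ≤ (648 * E ^ 3 * Real.sqrt (12 * E)) * |t - s| := by
  have h0 := G_a_lip hE h hδ 0 s t
  have h1 := G_a_lip hE h hδ 1 s t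
  have h2 := G_a_lip hE h hδ 2 s t
  have h3 := G_a_lip hE h hδ i s t
  have e : Fo a i t - Fo a i s = (G (a 0 t) - G (a 0 s)) + (G (a 1 t) - G (a 1 s)) +
      (G (a 2 t) - G (a 2 s)) - (3 : ℝ) • (G (a i t) - G (a i s)) := by
    unfold Fo; rw [smul_sub]; abel
  have h4 : ‖(3 : ℝ) • (G (a i t) - G (a i s))‖ = 3 * ‖G (a i t) - G (a i s)‖ := by
    rw [norm_smul]; norm_num
  rw [e]
  have h5 := norm_sub_le ((G (a 0 t) - G (a 0 s)) + (G (a 1 t) - G (a 1 s)) +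
      (G (a 2 t) - G (a 2 s))) ((3 : ℝ) • (G (a i t) - G (a i s)))
  have h6 := norm_add₃_le (a := G (a 0 t) - G (a 0 s)) (b := G (a 1 t) - G (a 1 s))
    (c := G (a 2 t) - G (a 2 s))
  rw [h4] at h5
  linarith

/-- time translation -/
lemma Sol.shift (h : Sol E δ a b) (c : ℝ) :
    Sol E δ (fun i t => a i (t + c)) (fun i t => b i (t + c)) where
  ha i t := HasDerivAt.comp_add_const t c (h.ha i (t + c))
  hb i t := HasDerivAt.comp_add_const t c (h.hb i (t + c))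
  sa t := h.sa (t + c)
  sb t := h.sb (t + c)
  hJ t := h.hJ (t + c)
  hE t := h.hE (t + c)
  hU t := h.hU (t + c)
  hne i t := h.hne i (t + c)

/-- The tight binary case is impossible. -/
lemma binary (a0 a1 a2 b0 b1 b2 : ℝ → ℂ) (d B : ℝ) (hd : 0 < d) (hB : 0 ≤ B)
    (h1 : ∀ t, HasDerivAt a1 (b1 t) t) (h2 : ∀ t, HasDerivAt a2 (b2 t) t)
    (h1' : ∀ t, HasDerivAt b1 (G (a0 t) + G (a1 t) + G (a2 t) - (3 : ℝ) • G (a1 t)) t)
    (h2' : ∀ t, HasDerivAt b2 (G (a0 t) + G (a1 t) + G (a2 t) - (3 : ℝ) • G (a2 t)) t)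
    (sa : ∀ t, a0 t + a1 t + a2 t = 0) (sb : ∀ t, b0 t + b1 t + b2 t = 0)
    (hJ : ∀ t, cr (a0 t) (b0 t) + cr (a1 t) (b1 t) + cr (a2 t) (b2 t) = 0)
    (hn0 : ∀ t, ‖a0 t‖ ≤ d) (hb0 : ∀ t, ‖b0 t‖ ≤ B)
    (hw : ∀ t, 3 * d + 2 * d ^ 2 * B ^ 2 < ‖a2 t - a1 t‖) : False := by
  set w : ℝ → ℂ := fun t => a2 t - a1 t with hwdef
  set u : ℝ → ℂ := fun t => b2 t - b1 t with hudef
  have hwd : ∀ t, HasDerivAt w (u t) t := fun t => (h2 t).sub (h1 t)
  have hud : ∀ t, HasDerivAt u ((3 : ℝ) • (G (a1 t) - G (a2 t))) t := by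
    intro t
    have := (h2' t).sub (h1' t)
    exact this.congr_deriv (by rw [smul_sub]; abel)
  have hfpos : ∀ t, 0 < ‖w t‖ := by
    intro t
    refine lt_of_le_of_lt ?_ (hw t)
    positivity
  -- derivative of components
  have hre : ∀ t, HasDerivAt (fun t => (w t).re) (u t).re t := fun t =>
    Complex.reCLM.hasFDerivAt.comp_hasDerivAt t (hwd t)
  have him : ∀ t, HasDerivAt (fun t => (w t).im) (u t).im t := fun t =>
    Complex.imCLM.hasFDerivAt.comp_hasDerivAt t (hwd t)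
  have hure : ∀ t, HasDerivAt (fun t => (u t).re) ((3 : ℝ) • (G (a1 t) - G (a2 t))).re t := fun t =>
    Complex.reCLM.hasFDerivAt.comp_hasDerivAt t (hud t)
  have huim : ∀ t, HasDerivAt (fun t => (u t).im) ((3 : ℝ) • (G (a1 t) - G (a2 t))).im t := fun t =>
    Complex.imCLM.hasFDerivAt.comp_hasDerivAt t (hud t)
  have hfd : ∀ t, HasDerivAt (fun t => ‖w t‖) (dt (w t) (u t) / ‖w t‖) t := by
    intro t
    have e1 : (fun t => ‖w t‖) = fun t => Real.sqrt ((w t).re ^ 2 + (w t).im ^ 2) := by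
      funext s
      rw [← norm_sq, Real.sqrt_sq (norm_nonneg _)]
    have e2 : ‖w t‖ = Real.sqrt ((w t).re ^ 2 + (w t).im ^ 2) := by
      rw [← norm_sq, Real.sqrt_sq (norm_nonneg _)]
    have h3 : HasDerivAt (fun t => (w t).re ^ 2 + (w t).im ^ 2)
        (2 * (w t).re * (u t).re + 2 * (w t).im * (u t).im) t := by
      have := ((hre t).pow 2).add ((him t).pow 2)
      exact this.congr_deriv (by norm_num)
    have h4 := h3.sqrt (by rw [← norm_sq]; have := hfpos t; positivity)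
    rw [e1, e2]
    refine h4.congr_deriv ?_
    unfold dt
    have := hfpos t
    rw [e2] at this
    field_simp
    try ring
  set g : ℝ → ℝ := fun t => dt (w t) (u t) / ‖w t‖ with hgdef
  have hgd : ∀ t, HasDerivAt g (((dt (u t) (u t) + dt (w t) ((3 : ℝ) • (G (a1 t) - G (a2 t)))) * ‖w t‖ -
      dt (w t) (u t) * (dt (w t) (u t) / ‖w t‖)) / ‖w t‖ ^ 2) t := by
    intro t
    have h3 : HasDerivAt (fun t => dt (w t) (u t))
        (dt (u t) (u t) + dt (w t) ((3 : ℝ) • (G (a1 t) - G (a2 t)))) t := by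
      have := ((hre t).mul (hure t)).add ((him t).mul (huim t))
      refine this.congr_deriv ?_
      unfold dt
      ring
    exact h3.div (hfd t) (hfpos t).ne'
  have hgneg : ∀ t, (((dt (u t) (u t) + dt (w t) ((3 : ℝ) • (G (a1 t) - G (a2 t)))) * ‖w t‖ -
      dt (w t) (u t) * (dt (w t) (u t) / ‖w t‖)) / ‖w t‖ ^ 2) < 0 := by
    intro t
    have hf0 := hfpos t
    have hwt := hw t
    have ha1 : a1 t = -((1 / 2 : ℝ) • (w t + a0 t)) := by
      have := sa t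
      have e : a0 t = -(a1 t) - a2 t := by linear_combination this
      rw [hwdef]
      simp only
      rw [e]
      simp only [Complex.real_smul]
      push_cast
      ring
    have ha2 : a2 t = (1 / 2 : ℝ) • (w t - a0 t) := by
      have := sa t
      have e : a0 t = -(a1 t) - a2 t := by linear_combination this
      rw [hwdef]
      simp only
      rw [e]
      simp only [Complex.real_smul]
      push_cast
      ring
    have hb1 : b1 t = -((1 / 2 : ℝ) • (u t + b0 t)) := by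
      have := sb t
      have e : b0 t = -(b1 t) - b2 t := by linear_combination this
      rw [hudef]
      simp only
      rw [e]
      simp only [Complex.real_smul]
      push_cast
      ring
    have hb2 : b2 t = (1 / 2 : ℝ) • (u t - b0 t) := by
      have := sb t
      have e : b0 t = -(b1 t) - b2 t := by linear_combination this
      rw [hudef]
      simp only
      rw [e]
      simp only [Complex.real_smul]
      push_cast
      ring
    have hcr : cr (w t) (u t) = -3 * cr (a0 t) (b0 t) := by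
      have := hJ t
      rw [ha1, ha2, hb1, hb2] at this
      unfold cr at this ⊢
      simp only [Complex.neg_re, Complex.neg_im, Complex.smul_re, Complex.smul_im, Complex.add_re,
        Complex.add_im, Complex.sub_re, Complex.sub_im, smul_eq_mul] at this
      linarith
    set f := ‖w t‖ with hf
    have hdf : 3 * d ≤ f := by nlinarith [mul_nonneg (sq_nonneg d) (sq_nonneg B)]
    have hBf : 2 * d ^ 2 * B ^ 2 < f := by nlinarith
    have hcr2 : cr (w t) (u t) ^ 2 ≤ 9 * d ^ 2 * B ^ 2 := by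
      rw [hcr]
      have h3 := abs_cr_le (a0 t) (b0 t)
      have h4 : |cr (a0 t) (b0 t)| ≤ d * B := h3.trans (mul_le_mul (hn0 t) (hb0 t) (norm_nonneg _) hd.le)
      have h5 : cr (a0 t) (b0 t) ^ 2 ≤ (d * B) ^ 2 := by
        rw [← sq_abs]; exact pow_le_pow_left₀ (abs_nonneg _) h4 2
      nlinarith
    have hwa0 : |dt (w t) (a0 t)| ≤ f * d := (abs_dt_le _ _).trans (by gcongr; exact hn0 t)
    -- bounds for the two forces
    have hforce : ∀ z : ℂ, f ^ 2 / 3 ≤ dt (w t) z → ‖z‖ ≤ 2 / 3 * f → 0 < ‖z‖ →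
        9 / (8 * f) ≤ dt (w t) (G z) := by
      intro z hz1 hz2 hz3
      have e1 : dt (w t) (G z) = dt (w t) z * (‖z‖ ^ 3)⁻¹ := by
        unfold dt G
        simp only [Complex.smul_re, Complex.smul_im, smul_eq_mul]
        ring
      rw [e1]
      have h3 : ‖z‖ ^ 3 ≤ (2 / 3 * f) ^ 3 := pow_le_pow_left₀ (norm_nonneg _) hz2 3
      have h4 : ((2 / 3 * f) ^ 3)⁻¹ ≤ (‖z‖ ^ 3)⁻¹ := inv_anti₀ (by positivity) h3
      calc 9 / (8 * f) = f ^ 2 / 3 * ((2 / 3 * f) ^ 3)⁻¹ := by field_simp; norm_num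
        _ ≤ dt (w t) z * (‖z‖ ^ 3)⁻¹ := by
            apply mul_le_mul hz1 h4 (by positivity)
            exact le_trans (by positivity) hz1
    have hww : dt (w t) (w t) = f ^ 2 := dt_self _
    have hd2 : dt (w t) (a2 t) = (f ^ 2 - dt (w t) (a0 t)) / 2 := by
      rw [ha2, ← hww]
      unfold dt
      simp only [Complex.smul_re, Complex.smul_im, Complex.sub_re, Complex.sub_im, smul_eq_mul]
      ring
    have hd1 : dt (w t) (-(a1 t)) = (f ^ 2 + dt (w t) (a0 t)) / 2 := by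
      rw [ha1, ← hww]
      unfold dt
      simp only [Complex.smul_re, Complex.smul_im, Complex.add_re, Complex.add_im, smul_eq_mul,
        Complex.neg_re, Complex.neg_im]
      ring
    have hn2 : ‖a2 t‖ ≤ 2 / 3 * f := by
      rw [ha2, norm_smul, Real.norm_eq_abs, abs_of_nonneg (by norm_num)]
      have := norm_sub_le (w t) (a0 t)
      have := hn0 t
      linarith
    have hn1 : ‖-(a1 t)‖ ≤ 2 / 3 * f := by
      rw [ha1, neg_neg, norm_smul, Real.norm_eq_abs, abs_of_nonneg (by norm_num)]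
      have := norm_add_le (w t) (a0 t)
      have := hn0 t
      linarith
    have hfd3 : f * d ≤ f ^ 2 / 3 := by nlinarith
    have habs := abs_le.1 hwa0
    have hp2 : f ^ 2 / 3 ≤ dt (w t) (a2 t) := by rw [hd2]; linarith
    have hp1 : f ^ 2 / 3 ≤ dt (w t) (-(a1 t)) := by rw [hd1]; linarith
    have hpos : ∀ z : ℂ, f ^ 2 / 3 ≤ dt (w t) z → 0 < ‖z‖ := by
      intro z hz
      rw [norm_pos_iff]
      rintro rfl
      have : dt (w t) 0 = 0 := by unfold dt; simp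
      rw [this] at hz
      have : 0 < f ^ 2 / 3 := by positivity
      linarith
    have hG2 := hforce _ hp2 hn2 (hpos _ hp2)
    have hG1 := hforce _ hp1 hn1 (hpos _ hp1)
    have hGneg : dt (w t) (G (-(a1 t))) = -dt (w t) (G (a1 t)) := by
      unfold dt G
      simp only [Complex.smul_re, Complex.smul_im, smul_eq_mul, norm_neg, Complex.neg_re, Complex.neg_im]
      ring
    rw [hGneg] at hG1
    have hsm : dt (w t) ((3 : ℝ) • (G (a1 t) - G (a2 t))) =
        3 * (dt (w t) (G (a1 t)) - dt (w t) (G (a2 t))) := by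
      unfold dt
      simp only [Complex.smul_re, Complex.smul_im, smul_eq_mul, Complex.sub_re, Complex.sub_im]
      ring
    have hX : dt (w t) ((3 : ℝ) • (G (a1 t) - G (a2 t))) ≤ -(27 / (4 * f)) := by
      rw [hsm]
      have : 27 / (4 * f) = 3 * (9 / (8 * f) + 9 / (8 * f)) := by field_simp; norm_num
      rw [this]
      linarith
    have hid := dt_cr (w t) (u t)
    have e3 : ((dt (u t) (u t) + dt (w t) ((3 : ℝ) • (G (a1 t) - G (a2 t)))) * f -
      dt (w t) (u t) * (dt (w t) (u t) / f)) / f ^ 2 =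
        (cr (w t) (u t) ^ 2 + f ^ 2 * dt (w t) ((3 : ℝ) • (G (a1 t) - G (a2 t)))) / f ^ 3 := by
      rw [dt_self (u t)]
      have : cr (w t) (u t) ^ 2 = f ^ 2 * ‖u t‖ ^ 2 - dt (w t) (u t) ^ 2 := by linarith
      rw [this]
      field_simp
      ring
    rw [e3]
    apply div_neg_of_neg_of_pos _ (by positivity)
    have h9 : f ^ 2 * dt (w t) ((3 : ℝ) • (G (a1 t) - G (a2 t))) ≤ f ^ 2 * (-(27 / (4 * f))) :=
      mul_le_mul_of_nonneg_left hX (by positivity)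
    have h10 : f ^ 2 * (-(27 / (4 * f))) = -(27 / 4 * f) := by field_simp
    rw [h10] at h9
    nlinarith
  have hanti : StrictAnti g := strictAnti_of_deriv_neg (fun t => by
    rw [(hgd t).deriv]; exact hgneg t)
  exact concave_pos (fun t => ‖w t‖) g hfd hanti hfpos

end Pool.Agent.H3.TBody
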