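import Mathlib
import Pool.Agent.H3.TBodyB

set_option autoImplicit false

namespace Pool.Agent.H3.TBody

open Filter Topology

variable {E δ : ℝ} {a b : Fin 3 → ℝ → ℂ}

lemma Sol.rot (h : Sol E δ a b) : Sol E δ (fun i => a (i + 1)) (fun i => b (i + 1)) where
  ha i t := h.ha (i + 1) t
  hb i t := (h.hb (i + 1) t).congr_deriv (by
    show _ = G (a 1 t) + G (a 2 t) + G (a 0 t) - (3 : ℝ) • G (a (i + 1) t)
    abel)
  sa t := by
    have := h.sa t
    show a 1 t + a 2 t + a 0 t = 0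
    rw [← this]; ring
  sb t := by
    have := h.sb t
    show b 1 t + b 2 t + b 0 t = 0
    rw [← this]; ring
  hJ t := by
    have := h.hJ t
    show cr (a 1 t) (b 1 t) + cr (a 2 t) (b 2 t) + cr (a 0 t) (b 0 t) = 0
    linarith
  hE t := by
    have := h.hE t
    show (1 / 6 : ℝ) * (‖b 1 t‖ ^ 2 + ‖b 2 t‖ ^ 2 + ‖b 0 t‖ ^ 2) -
      (1 / ‖a 1 t‖ + 1 / ‖a 2 t‖ + 1 / ‖a 0 t‖) = -E
    unfold U at this
    linarith
  hU t := by
    have := h.hU t
    show |(1 / ‖a 1 t‖ + 1 / ‖a 2 t‖ + 1 / ‖a 0 t‖) - 2 * E| ≤ δ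
    unfold U at this
    rw [show (1 / ‖a 1 t‖ + 1 / ‖a 2 t‖ + 1 / ‖a 0 t‖) = 1 / ‖a 0 t‖ + 1 / ‖a 1 t‖ + 1 / ‖a 2 t‖ by ring]
    exact this
  hne i t := h.hne (i + 1) t

/-- the radius bound -/
noncomputable def R0 (E : ℝ) : ℝ := 3 * (3 / E) + (3 / E) ^ 2 * (Real.sqrt (12 * E)) ^ 2

lemma no_binary0 (hE : 0 < E) (h : Sol E δ a b) (hδ : δ ≤ E / 2) (h0 : ∀ t, ‖a 0 t‖ < 3 / E)
    (hbig : ∀ t, ∃ i, R0 E < ‖a i t‖) : False := by
  have hd : 0 < 3 / E := by positivity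
  refine binary (a 0) (a 1) (a 2) (b 0) (b 1) (b 2) (3 / E) (Real.sqrt (12 * E)) hd
    (Real.sqrt_nonneg _) (h.ha 1) (h.ha 2) (h.hb 1) (h.hb 2) h.sa h.sb h.hJ (fun t => (h0 t).le)
    (fun t => norm_b_le h (by linarith) 0 t) ?_
  intro t
  obtain ⟨i, hi⟩ := hbig t
  have hsa := h.sa t
  have h0t := h0 t
  have hR : R0 E = 3 * (3 / E) + (3 / E) ^ 2 * (Real.sqrt (12 * E)) ^ 2 := rfl
  have hX : 0 ≤ (3 / E) ^ 2 * (Real.sqrt (12 * E)) ^ 2 := by positivity
  fin_cases i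
  · have hi' : R0 E < ‖a 0 t‖ := hi
    linarith
  · have hi' : R0 E < ‖a 1 t‖ := hi
    have e : (2 : ℂ) * a 1 t = -(a 2 t - a 1 t) - a 0 t := by linear_combination hsa
    have h3 : ‖(2 : ℂ) * a 1 t‖ ≤ ‖a 2 t - a 1 t‖ + ‖a 0 t‖ := by
      rw [e]
      refine (norm_sub_le _ _).trans ?_
      rw [norm_neg]
    rw [norm_mul, Complex.norm_ofNat] at h3
    linarith
  · have hi' : R0 E < ‖a 2 t‖ := hi
    have e : (2 : ℂ) * a 2 t = (a 2 t - a 1 t) - a 0 t := by linear_combination hsa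
    have h3 : ‖(2 : ℂ) * a 2 t‖ ≤ ‖a 2 t - a 1 t‖ + ‖a 0 t‖ := by
      rw [e]
      exact norm_sub_le _ _
    rw [norm_mul, Complex.norm_ofNat] at h3
    linarith

lemma exists_bounded (hE : 0 < E) (h : Sol E δ a b) (hδ : δ ≤ E / 2) :
    ∃ t, ∀ i, ‖a i t‖ ≤ R0 E := by
  by_contra hcon
  push Not at hcon
  have hd : 0 < 3 / E := by positivity
  have hR : R0 E = 3 * (3 / E) + (3 / E) ^ 2 * (Real.sqrt (12 * E)) ^ 2 := rfl
  have hX : 0 ≤ (3 / E) ^ 2 * (Real.sqrt (12 * E)) ^ 2 := by positivity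
  have small : ∀ t, ∃ k, ‖a k t‖ < 3 / E := by
    intro t
    by_contra hc
    push Not at hc
    have h1 : ∀ k, 1 / ‖a k t‖ ≤ E / 3 := by
      intro k
      have h2 : 0 < ‖a k t‖ := norm_pos_iff.2 (h.hne k t)
      have h3 := hc k
      rw [div_le_iff₀ hE] at h3
      rw [div_le_iff₀ h2]
      linarith
    have h4 := (abs_le.1 (h.hU t)).1
    have h5 := h1 0
    have h6 := h1 1
    have h7 := h1 2
    unfold U at h4
    linarith
  have key : ∀ t, ∀ i j k : Fin 3, j ≠ k → a i t = a j t ∨ a i t = a k t ∨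
      a i t = -(a j t + a k t) := by
    intro t i j k
    have hsa := h.sa t
    fin_cases i <;> fin_cases j <;> fin_cases k <;>
      simp only [Fin.zero_eta, Fin.mk_one, Fin.reduceFinMk, ne_eq] <;>
      first
        | (intro h; exact absurd trivial h)
        | (intro _; left; rfl)
        | (intro _; left; trivial)
        | (intro _; right; left; rfl)
        | (intro _; right; left; trivial)
        | (intro _; right; right; linear_combination hsa)
  have uniq : ∀ t, ∀ j k : Fin 3, j ≠ k → ‖a j t‖ < 3 / E → ‖a k t‖ < 3 / E → False := by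
    intro t j k hjk hj hk
    obtain ⟨i, hi⟩ := hcon t
    rcases key t i j k hjk with e | e | e
    · rw [e] at hi; linarith
    · rw [e] at hi; linarith
    · rw [e, norm_neg] at hi
      have := norm_add_le (a j t) (a k t)
      linarith
  have hcont : ∀ k, Continuous (fun t => ‖a k t‖) := fun k =>
    (continuous_iff_continuousAt.2 fun t => (h.ha k t).continuousAt).norm
  obtain ⟨k, hk⟩ := small 0
  have hopen : IsOpen {t | ‖a k t‖ < 3 / E} := isOpen_lt (hcont k) continuous_const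
  have hclosed : IsClosed {t | ‖a k t‖ < 3 / E} := by
    have : {t | ‖a k t‖ < 3 / E} = ⋂ j, ⋂ (_ : j ≠ k), {t | 3 / E ≤ ‖a j t‖} := by
      ext t
      simp only [Set.mem_iInter]
      constructor
      · intro ht j hj
        by_contra hc
        have hc' : ‖a j t‖ < 3 / E := not_le.1 hc
        exact uniq t j k hj hc' ht
      · intro ht
        obtain ⟨j, hj⟩ := small t
        by_cases hjk : j = k
        · rw [hjk] at hj; exact hj
        · have := ht j hjk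
          have h2 : 3 / E ≤ ‖a j t‖ := this
          exact absurd hj (not_lt.2 h2)
    rw [this]
    exact isClosed_iInter fun j => isClosed_iInter fun _ => isClosed_le continuous_const (hcont j)
  have huniv : {t | ‖a k t‖ < 3 / E} = Set.univ := IsClopen.eq_univ ⟨hclosed, hopen⟩ ⟨0, hk⟩
  have hall : ∀ t, ‖a k t‖ < 3 / E := by
    intro t
    have : t ∈ {t | ‖a k t‖ < 3 / E} := by rw [huniv]; trivial
    exact this
  have hrot : ∀ (a' : Fin 3 → ℝ → ℂ), (∀ t, ∃ i, R0 E < ‖a' i t‖) →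
      ∀ t, ∃ i, R0 E < ‖a' (i + 1) t‖ := by
    intro a' ha' t
    obtain ⟨i, hi⟩ := ha' t
    exact ⟨i - 1, by rw [sub_add_cancel]; exact hi⟩
  fin_cases k
  · exact no_binary0 hE h hδ hall hcon
  · exact no_binary0 hE h.rot hδ hall (hrot _ hcon)
  · exact no_binary0 hE h.rot.rot hδ hall (hrot _ (hrot _ hcon))

/-- ultralimits of bounded sequences -/
lemma ulim (z : ℕ → ℂ) (C : ℝ) (h : ∀ n, ‖z n‖ ≤ C) :
    ∃ x, Tendsto z (hyperfilter ℕ : Filter ℕ) (𝓝 x) := by
  have hc := isCompact_closedBall (0 : ℂ) C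
  have : ((hyperfilter ℕ).map z : Filter ℂ) ≤ 𝓟 (Metric.closedBall (0 : ℂ) C) := by
    rw [le_principal_iff, Ultrafilter.coe_map, Filter.mem_map]
    exact Filter.univ_mem' (fun n => by simpa using h n)
  obtain ⟨x, _, hx⟩ := hc.ultrafilter_le_nhds ((hyperfilter ℕ).map z) this
  exact ⟨x, hx⟩

lemma G_cont (z : ℂ) (hz : z ≠ 0) : ContinuousAt G z := by
  have h : ‖z‖ ^ 3 ≠ 0 := pow_ne_zero 3 (norm_ne_zero_iff.2 hz)
  have h1 : ContinuousAt (fun z : ℂ => ‖z‖ ^ 3) z := (continuous_norm.pow 3).continuousAt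
  show ContinuousAt (fun z : ℂ => ((‖z‖ ^ 3)⁻¹ : ℝ) • z) z
  exact ContinuousAt.smul (ContinuousAt.inv₀ h1 h) continuousAt_id

theorem limit_sol (hE : 0 < E) (A B : ℕ → Fin 3 → ℝ → ℂ) (δs : ℕ → ℝ)
    (hS : ∀ n, Sol E (δs n) (A n) (B n)) (hδ : ∀ n, δs n ≤ E / 2)
    (hδ0 : Tendsto δs atTop (𝓝 0)) (hR : ∀ n i, ‖A n i 0‖ ≤ R0 E) :
    ∃ a b, Sol E 0 a b := by
  have hδ' : ∀ n, δs n ≤ E := fun n => by linarith [hδ n]
  set β := Real.sqrt (12 * E) with hβ
  have hA : ∀ i t, ∃ x, Tendsto (fun n => A n i t) (hyperfilter ℕ : Filter ℕ) (𝓝 x) := by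
    intro i t
    apply ulim _ (R0 E + β * |t - 0|)
    intro n
    have h1 := a_lip (hS n) (hδ' n) i 0 t
    have h2 := hR n i
    have h3 : A n i t = A n i 0 + (A n i t - A n i 0) := by ring
    rw [h3]
    exact (norm_add_le _ _).trans (add_le_add h2 h1)
  have hB : ∀ i t, ∃ x, Tendsto (fun n => B n i t) (hyperfilter ℕ : Filter ℕ) (𝓝 x) := by
    intro i t
    exact ulim _ β (fun n => norm_b_le (hS n) (hδ' n) i t)
  choose a ha using hA
  choose b hb using hB
  have hnorm : ∀ i t, 1 / (3 * E) ≤ ‖a i t‖ := by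
    intro i t
    exact ge_of_tendsto' (ha i t).norm (fun n => norm_a_ge hE (hS n) (hδ' n) i t)
  have hne : ∀ i t, a i t ≠ 0 := by
    intro i t
    have h1 : 0 < 1 / (3 * E) := by positivity
    exact norm_pos_iff.1 (lt_of_lt_of_le h1 (hnorm i t))
  have hG : ∀ i t, Tendsto (fun n => G (A n i t)) (hyperfilter ℕ : Filter ℕ) (𝓝 (G (a i t))) :=
    fun i t => (G_cont _ (hne i t)).tendsto.comp (ha i t)
  have hFo : ∀ i t, Tendsto (fun n => Fo (A n) i t) (hyperfilter ℕ : Filter ℕ) (𝓝 (Fo a i t)) := by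
    intro i t
    exact (((hG 0 t).add (hG 1 t)).add (hG 2 t)).sub ((hG i t).const_smul (3 : ℝ))
  have hUlim : ∀ t, Tendsto (fun n => U (A n) t) (hyperfilter ℕ : Filter ℕ) (𝓝 (U a t)) := by
    intro t
    have h1 : ∀ i, Tendsto (fun n => 1 / ‖A n i t‖) (hyperfilter ℕ : Filter ℕ) (𝓝 (1 / ‖a i t‖)) :=
      fun i => tendsto_const_nhds.div (ha i t).norm (norm_ne_zero_iff.2 (hne i t))
    exact ((h1 0).add (h1 1)).add (h1 2)
  have hcr : ∀ i t, Tendsto (fun n => cr (A n i t) (B n i t)) (hyperfilter ℕ : Filter ℕ)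
      (𝓝 (cr (a i t) (b i t))) := by
    intro i t
    have r1 := (Complex.continuous_re.tendsto _).comp (ha i t)
    have r2 := (Complex.continuous_im.tendsto _).comp (ha i t)
    have r3 := (Complex.continuous_re.tendsto _).comp (hb i t)
    have r4 := (Complex.continuous_im.tendsto _).comp (hb i t)
    exact (r1.mul r4).sub (r2.mul r3)
  refine ⟨a, b, ?_, ?_, ?_, ?_, ?_, ?_, ?_, hne⟩
  · intro i s
    apply hasDerivAt_of_taylor _ _ _ (54 * E ^ 2)
    intro t
    have h1 : Tendsto (fun n => ‖A n i t - A n i s - (t - s) • B n i s‖) (hyperfilter ℕ : Filter ℕ)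
        (𝓝 ‖a i t - a i s - (t - s) • b i s‖) :=
      (((ha i t).sub (ha i s)).sub ((hb i s).const_smul (t - s))).norm
    refine le_of_tendsto' h1 (fun n => ?_)
    exact taylor _ _ ((hS n).ha i) _ (fun s t => b_lip hE (hS n) (hδ' n) i s t) s t (by positivity)
  · intro i s
    show HasDerivAt (b i) (Fo a i s) s
    apply hasDerivAt_of_taylor _ _ _ (648 * E ^ 3 * β)
    intro t
    have h1 : Tendsto (fun n => ‖B n i t - B n i s - (t - s) • Fo (A n) i s‖)
        (hyperfilter ℕ : Filter ℕ) (𝓝 ‖b i t - b i s - (t - s) • Fo a i s‖) :=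
      (((hb i t).sub (hb i s)).sub ((hFo i s).const_smul (t - s))).norm
    refine le_of_tendsto' h1 (fun n => ?_)
    exact taylor _ _ ((hS n).hb i) _ (fun s t => Fo_lip hE (hS n) (hδ' n) i s t) s t (by positivity)
  · intro t
    have h1 := ((ha 0 t).add (ha 1 t)).add (ha 2 t)
    have h2 : (fun n => A n 0 t + A n 1 t + A n 2 t) = fun _ => 0 := by
      funext n; exact (hS n).sa t
    rw [h2] at h1
    exact (tendsto_nhds_unique tendsto_const_nhds h1).symm
  · intro t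
    have h1 := ((hb 0 t).add (hb 1 t)).add (hb 2 t)
    have h2 : (fun n => B n 0 t + B n 1 t + B n 2 t) = fun _ => 0 := by
      funext n; exact (hS n).sb t
    rw [h2] at h1
    exact (tendsto_nhds_unique tendsto_const_nhds h1).symm
  · intro t
    have h1 := ((hcr 0 t).add (hcr 1 t)).add (hcr 2 t)
    have h2 : (fun n => cr (A n 0 t) (B n 0 t) + cr (A n 1 t) (B n 1 t) + cr (A n 2 t) (B n 2 t)) =
        fun _ => 0 := by
      funext n; exact (hS n).hJ t
    rw [h2] at h1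
    exact (tendsto_nhds_unique tendsto_const_nhds h1).symm
  · intro t
    have h1 := (((((hb 0 t).norm.pow 2).add ((hb 1 t).norm.pow 2)).add
      ((hb 2 t).norm.pow 2)).const_mul (1 / 6 : ℝ)).sub (hUlim t)
    have h2 : (fun n => (1 / 6 : ℝ) * (‖B n 0 t‖ ^ 2 + ‖B n 1 t‖ ^ 2 + ‖B n 2 t‖ ^ 2) - U (A n) t) =
        fun _ => -E := by
      funext n; exact (hS n).hE t
    rw [h2] at h1
    exact (tendsto_nhds_unique tendsto_const_nhds h1).symm
  · intro t
    have h1 := ((hUlim t).sub_const (2 * E)).abs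
    have h2 : Tendsto δs (hyperfilter ℕ : Filter ℕ) (𝓝 0) :=
      hδ0.mono_left Nat.hyperfilter_le_atTop
    exact le_of_tendsto_of_tendsto' h1 h2 (fun n => (hS n).hU t)

end Pool.Agent.H3.TBody
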