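import Mathlib
import Pool.Agent.H3.TBodyA

set_option autoImplicit false

namespace Pool.Agent.H3.TBody

/-- the polynomial equation satisfied by `s = r1 + r2 + r3` -/
noncomputable def Gs (s S c : ℝ) : ℝ :=
  (9 / 64 - 3 / 32 * S * c ^ 2) * s ^ 12 + (3 / 32 * S ^ 2 * c ^ 3 + 9 / 16 * S * c) * s ^ 11
  + (-(9 / 32) * S ^ 2 * c ^ 2 - 45 / 32 * S) * s ^ 10
  + (-(13 / 32) * S ^ 3 * c ^ 3 - 15 / 16 * S ^ 2 * c) * s ^ 9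
  + (15 / 8 * S ^ 3 * c ^ 2 + 315 / 64 * S ^ 2) * s ^ 8
  + (15 / 32 * S ^ 4 * c ^ 3 - 9 / 8 * S ^ 3 * c) * s ^ 7
  + (-(71 / 32) * S ^ 4 * c ^ 2 - 99 / 16 * S ^ 3) * s ^ 6
  + (-(3 / 32) * S ^ 5 * c ^ 3 + 39 / 8 * S ^ 4 * c) * s ^ 5
  + (21 / 16 * S ^ 5 * c ^ 2 - 81 / 64 * S ^ 4) * s ^ 4
  + (5 / 16 * S ^ 6 * c ^ 3 - 135 / 16 * S ^ 5 * c) * s ^ 3
  + (-(15 / 8) * S ^ 6 * c ^ 2 + 243 / 32 * S ^ 5) * s ^ 2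
  + (-(3 / 8) * S ^ 7 * c ^ 3 + 81 / 16 * S ^ 6 * c) * s
  + (9 / 32 * S ^ 7 * c ^ 2 - 243 / 64 * S ^ 6)

/-- `W4` in elementary symmetric functions -/
def W4 (e1 e2 e3 : ℝ) : ℝ :=
  -e1 ^ 7 * e3 + 7 * e1 ^ 5 * e2 * e3 - 3 * e1 ^ 4 * e3 ^ 2 - 22 * e1 ^ 3 * e2 ^ 2 * e3
  + 2 * e1 ^ 2 * e2 ^ 4 + 18 * e1 ^ 2 * e2 * e3 ^ 2 + 24 * e1 * e2 ^ 3 * e3 - 4 * e2 ^ 5
  - 27 * e2 ^ 2 * e3 ^ 2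

def Q8 (e1 e2 e3 : ℝ) : ℝ :=
  e1 ^ 5 * e3 - 5 * e1 ^ 3 * e2 * e3 + 3 * e1 ^ 2 * e3 ^ 2 + 12 * e1 * e2 ^ 2 * e3 - 2 * e2 ^ 4
  - 12 * e2 * e3 ^ 2

def T6 (e1 e2 e3 : ℝ) : ℝ :=
  e1 ^ 5 * e2 - e1 ^ 4 * e3 - 5 * e1 ^ 3 * e2 ^ 2 + 9 * e1 ^ 2 * e2 * e3 + 5 * e1 * e2 ^ 3
  - 9 * e2 ^ 2 * e3

def q6 (e1 e2 e3 : ℝ) : ℝ := -3 * e1 * e2 * e3 + e2 ^ 3 + 3 * e3 ^ 2

def H4 (e1 e2 e3 : ℝ) : ℝ := -e1 ^ 4 + 4 * e1 ^ 2 * e2 - 8 * e1 * e3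

/-- final polynomial identity -/
lemma F_eq (e1 e3 c : ℝ) :
    c ^ 4 * (W4 e1 (c * e3) e3 * ((c * e3) * (2 * (e1 ^ 2 - 2 * (c * e3)) * q6 e1 (c * e3) e3 -
      3 * (c * e3) * e3 ^ 2) + (e1 ^ 2 - 2 * (c * e3)) * Q8 e1 (c * e3) e3) -
      3 * (c * e3) * e3 * ((e1 ^ 2 - 2 * (c * e3)) ^ 2 * H4 e1 (c * e3) e3 / 4) *
        T6 e1 (c * e3) e3) = (c * e3) ^ 2 * Gs e1 (e1 ^ 2 - 2 * (c * e3)) c := by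
  unfold W4 Q8 T6 q6 H4 Gs
  ring

variable (r1 r2 r3 S : ℝ)

/-- norms of `p_i` -/
def Nn (r S : ℝ) : ℝ := r ^ 2 * (2 * S - 3 * r ^ 2)

noncomputable def WW (r1 r2 r3 S : ℝ) : ℝ :=
  Nn r1 S / r1 ^ 6 + Nn r2 S / r2 ^ 6 + Nn r3 S / r3 ^ 6 +
  (Nn r3 S - Nn r1 S - Nn r2 S) / (r1 ^ 3 * r2 ^ 3) +
  (Nn r2 S - Nn r1 S - Nn r3 S) / (r1 ^ 3 * r3 ^ 3) +
  (Nn r1 S - Nn r2 S - Nn r3 S) / (r2 ^ 3 * r3 ^ 3)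

noncomputable def ZZ (r1 r2 r3 : ℝ) : ℝ :=
  1 / r1 ^ 4 + 1 / r2 ^ 4 + 1 / r3 ^ 4 + (r3 ^ 2 - r1 ^ 2 - r2 ^ 2) / (r1 ^ 3 * r2 ^ 3) +
  (r2 ^ 2 - r1 ^ 2 - r3 ^ 2) / (r1 ^ 3 * r3 ^ 3) + (r1 ^ 2 - r2 ^ 2 - r3 ^ 2) / (r2 ^ 3 * r3 ^ 3)

noncomputable def DD (r1 r2 r3 S : ℝ) : ℝ :=
  Nn r1 S * Nn r2 S - ((Nn r3 S - Nn r1 S - Nn r2 S) / 2) ^ 2

lemma stage1 (h1 : r1 ≠ 0) (h2 : r2 ≠ 0) (h3 : r3 ≠ 0) (hS : S = r1 ^ 2 + r2 ^ 2 + r3 ^ 2) :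
    WW r1 r2 r3 S * (r1 * r2 * r3) ^ 4 =
      W4 (r1 + r2 + r3) (r1 * r2 + r1 * r3 + r2 * r3) (r1 * r2 * r3) := by
  subst hS
  unfold WW W4 Nn
  field_simp
  ring

lemma stage2 (h1 : r1 ≠ 0) (h2 : r2 ≠ 0) (h3 : r3 ≠ 0) :
    ((2 * S - 3 * r1 ^ 2) / r1 ^ 3 + (2 * S - 3 * r2 ^ 2) / r2 ^ 3 + (2 * S - 3 * r3 ^ 2) / r3 ^ 3) *
      (r1 * r2 * r3) ^ 3 =
      2 * S * q6 (r1 + r2 + r3) (r1 * r2 + r1 * r3 + r2 * r3) (r1 * r2 * r3) -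
      3 * (r1 * r2 + r1 * r3 + r2 * r3) * (r1 * r2 * r3) ^ 2 := by
  unfold q6
  field_simp
  ring

lemma stage3 (h1 : r1 ≠ 0) (h2 : r2 ≠ 0) (h3 : r3 ≠ 0) :
    (ZZ r1 r2 r3 - 3 * (1 / r1 ^ 4 + 1 / r2 ^ 4 + 1 / r3 ^ 4)) * (r1 * r2 * r3) ^ 4 =
      Q8 (r1 + r2 + r3) (r1 * r2 + r1 * r3 + r2 * r3) (r1 * r2 * r3) := by
  unfold ZZ Q8
  field_simp
  ring

lemma stage4 (hS : S = r1 ^ 2 + r2 ^ 2 + r3 ^ 2) :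
    DD r1 r2 r3 S = S ^ 2 * H4 (r1 + r2 + r3) (r1 * r2 + r1 * r3 + r2 * r3) (r1 * r2 * r3) / 4 := by
  subst hS
  unfold DD H4 Nn
  ring

lemma stage5 (h1 : r1 ≠ 0) (h2 : r2 ≠ 0) (h3 : r3 ≠ 0) :
    ((1 / r2 ^ 3 - 1 / r3 ^ 3) ^ 2 / r1 ^ 5 + (1 / r3 ^ 3 - 1 / r1 ^ 3) ^ 2 / r2 ^ 5 +
      (1 / r1 ^ 3 - 1 / r2 ^ 3) ^ 2 / r3 ^ 5) * (r1 * r2 * r3) ^ 6 =
      T6 (r1 + r2 + r3) (r1 * r2 + r1 * r3 + r2 * r3) (r1 * r2 * r3) := by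
  unfold T6
  field_simp
  ring

/-- the algebraic consequence -/
lemma alg (r1 r2 r3 S c ρ : ℝ) (h1 : 0 < r1) (h2 : 0 < r2) (h3 : 0 < r3)
    (hS : S = r1 ^ 2 + r2 ^ 2 + r3 ^ 2) (hc : 1 / r1 + 1 / r2 + 1 / r3 = c) (hρ : ρ * S = c)
    (h5 : WW r1 r2 r3 S * (ρ * ((2 * S - 3 * r1 ^ 2) / r1 ^ 3 + (2 * S - 3 * r2 ^ 2) / r2 ^ 3 +
      (2 * S - 3 * r3 ^ 2) / r3 ^ 3) + (ZZ r1 r2 r3 - 3 * (1 / r1 ^ 4 + 1 / r2 ^ 4 + 1 / r3 ^ 4))) -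
      3 * ρ * DD r1 r2 r3 S * ((1 / r2 ^ 3 - 1 / r3 ^ 3) ^ 2 / r1 ^ 5 +
        (1 / r3 ^ 3 - 1 / r1 ^ 3) ^ 2 / r2 ^ 5 + (1 / r1 ^ 3 - 1 / r2 ^ 3) ^ 2 / r3 ^ 5) = 0) :
    Gs (r1 + r2 + r3) S c = 0 := by
  have s1 := stage1 r1 r2 r3 S h1.ne' h2.ne' h3.ne' hS
  have s2 := stage2 r1 r2 r3 S h1.ne' h2.ne' h3.ne'
  have s3 := stage3 r1 r2 r3 h1.ne' h2.ne' h3.ne'
  have s4 := stage4 r1 r2 r3 S hS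
  have s5 := stage5 r1 r2 r3 h1.ne' h2.ne' h3.ne'
  have he2 : r1 * r2 + r1 * r3 + r2 * r3 = c * (r1 * r2 * r3) := by
    rw [← hc]; field_simp; ring
  have hSe : S = (r1 + r2 + r3) ^ 2 - 2 * (c * (r1 * r2 * r3)) := by
    rw [← he2, hS]; ring
  rw [he2] at s1 s2 s3 s4 s5
  have he3 : 0 < r1 * r2 * r3 := by positivity
  have hc0 : 0 < c := by rw [← hc]; positivity
  generalize r1 + r2 + r3 = e1 at *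
  generalize r1 * r2 * r3 = e3 at *
  have key : W4 e1 (c * e3) e3 * ((c * e3) * (2 * S * q6 e1 (c * e3) e3 -
      3 * (c * e3) * e3 ^ 2) + S * Q8 e1 (c * e3) e3) -
      3 * (c * e3) * e3 * (S ^ 2 * H4 e1 (c * e3) e3 / 4) *
        T6 e1 (c * e3) e3 = 0 := by
    rw [← s1, ← s2, ← s3, ← s4, ← s5]
    have : ∀ A B C D T : ℝ, A * (ρ * B + C) - 3 * ρ * D * T = 0 →
        A * e3 ^ 4 * (c * e3 * (B * e3 ^ 3) + S * (C * e3 ^ 4)) - 3 * (c * e3) * e3 * D * (T * e3 ^ 6) = 0 := by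
      intro A B C D T h
      rw [← hρ]
      linear_combination S * e3 ^ 8 * h
    exact this _ _ _ _ _ h5
  have hF := F_eq e1 e3 c
  rw [← hSe] at hF
  rw [key, mul_zero] at hF
  have : (c * e3) ^ 2 ≠ 0 := by positivity
  rcases mul_eq_zero.1 hF.symm with h | h
  · exact absurd h this
  · exact h

end Pool.Agent.H3.TBody
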