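import Mathlib
import Pool.Agent.H3.TBodyD

set_option autoImplicit false

namespace Pool.Agent.H3.TBody

lemma mu_exists (a1 a2 a3 b1 b2 b3 : ℂ) (ha : a1 + a2 + a3 = 0) (hb : b1 + b2 + b3 = 0)
    (hd : dt a1 b1 + dt a2 b2 + dt a3 b3 = 0) (hc : cr a1 b1 + cr a2 b2 + cr a3 b3 = 0)
    (h1 : a1 ≠ 0) : ∃ m n : ℝ,
      (b1.re = m * (a2.re - a3.re) + n * (a2.im - a3.im) ∧
        b1.im = n * (a2.re - a3.re) - m * (a2.im - a3.im)) ∧
      (b2.re = m * (a3.re - a1.re) + n * (a3.im - a1.im) ∧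
        b2.im = n * (a3.re - a1.re) - m * (a3.im - a1.im)) ∧
      (b3.re = m * (a1.re - a2.re) + n * (a1.im - a2.im) ∧
        b3.im = n * (a1.re - a2.re) - m * (a1.im - a2.im)) := by
  set A1 := (starRingEnd ℂ) a1 with hA1
  set A2 := (starRingEnd ℂ) a2 with hA2
  set A3 := (starRingEnd ℂ) a3 with hA3
  have hA : A1 + A2 + A3 = 0 := by
    rw [hA1, hA2, hA3, ← map_add, ← map_add, ha, map_zero]
  have hne : A1 ≠ 0 := by
    rw [hA1]; exact (map_ne_zero _).2 h1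
  have h3 : A1 * b1 + A2 * b2 + A3 * b3 = 0 := by
    apply Complex.ext
    · simp only [Complex.add_re, Complex.mul_re, hA1, hA2, hA3, Complex.conj_re, Complex.conj_im,
        Complex.zero_re]
      unfold dt at hd
      linarith
    · simp only [Complex.add_im, Complex.mul_im, hA1, hA2, hA3, Complex.conj_re, Complex.conj_im,
        Complex.zero_im]
      unfold cr at hc
      linarith
  set μ := (b3 - b2) / (3 * A1) with hμ
  have e1 : b1 = μ * (A2 - A3) := by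
    rw [hμ, div_mul_eq_mul_div, eq_div_iff (by simpa using hne)]
    linear_combination 2 * h3 + b1 * hA + (A1 - (A1 + A2 + A3)) * hb
  have hA3' : A3 = -A1 - A2 := by linear_combination hA
  have hb3' : b3 = -b1 - b2 := by linear_combination hb
  have e2 : b2 = μ * (A3 - A1) := by
    rw [hμ, div_mul_eq_mul_div, eq_div_iff (by simpa using hne)]
    rw [hA3', hb3'] at h3 ⊢
    linear_combination -h3
  have e3 : b3 = μ * (A1 - A2) := by
    rw [hμ, div_mul_eq_mul_div, eq_div_iff (by simpa using hne)]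
    rw [hA3', hb3'] at h3
    rw [hb3']
    linear_combination -h3
  refine ⟨μ.re, μ.im, ⟨?_, ?_⟩, ⟨?_, ?_⟩, ⟨?_, ?_⟩⟩
  · have := congrArg Complex.re e1
    rw [this]
    simp only [Complex.mul_re, Complex.sub_re, Complex.sub_im, hA1, hA2, hA3, Complex.conj_re, Complex.conj_im]
    ring
  · have := congrArg Complex.im e1
    rw [this]
    simp only [Complex.mul_im, Complex.sub_re, Complex.sub_im, hA1, hA2, hA3, Complex.conj_re, Complex.conj_im]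
    ring
  · have := congrArg Complex.re e2
    rw [this]
    simp only [Complex.mul_re, Complex.sub_re, Complex.sub_im, hA1, hA2, hA3, Complex.conj_re, Complex.conj_im]
    ring
  · have := congrArg Complex.im e2
    rw [this]
    simp only [Complex.mul_im, Complex.sub_re, Complex.sub_im, hA1, hA2, hA3, Complex.conj_re, Complex.conj_im]
    ring
  · have := congrArg Complex.re e3
    rw [this]
    simp only [Complex.mul_re, Complex.sub_re, Complex.sub_im, hA1, hA2, hA3, Complex.conj_re, Complex.conj_im]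
    ring
  · have := congrArg Complex.im e3
    rw [this]
    simp only [Complex.mul_im, Complex.sub_re, Complex.sub_im, hA1, hA2, hA3, Complex.conj_re, Complex.conj_im]
    ring

lemma ident (m n px py Px Py : ℝ) (h : m * Px + n * Py = 0) :
    (Px ^ 2 + Py ^ 2) * (m * px + n * py) ^ 2 = (m ^ 2 + n ^ 2) * (Px * py - Py * px) ^ 2 := by
  linear_combination ((m * px + n * py) * (Px * px + Py * py) - (m * py - n * px) * (Px * py - Py * px)) * h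

/-- pointwise statement with explicit `p_i` -/
lemma point0 (p1 q1 p2 q2 p3 q3 m n r1 r2 r3 S c : ℝ) (h1 : 0 < r1) (h2 : 0 < r2) (h3 : 0 < r3)
    (hS : S = r1 ^ 2 + r2 ^ 2 + r3 ^ 2) (hc : 1 / r1 + 1 / r2 + 1 / r3 = c)
    (hρ : (m ^ 2 + n ^ 2) * S = c) (hp : p1 + p2 + p3 = 0) (hq : q1 + q2 + q3 = 0)
    (hN1 : p1 ^ 2 + q1 ^ 2 = Nn r1 S) (hN2 : p2 ^ 2 + q2 ^ 2 = Nn r2 S) (hN3 : p3 ^ 2 + q3 ^ 2 = Nn r3 S)
    (hT : (m * p1 + n * q1) / r1 ^ 3 + (m * p2 + n * q2) / r2 ^ 3 + (m * p3 + n * q3) / r3 ^ 3 = 0)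
    (h5 : (m ^ 2 + n ^ 2) * ((2 * S - 3 * r1 ^ 2) / r1 ^ 3 + (2 * S - 3 * r2 ^ 2) / r2 ^ 3 +
      (2 * S - 3 * r3 ^ 2) / r3 ^ 3) + (ZZ r1 r2 r3 - 3 * (1 / r1 ^ 4 + 1 / r2 ^ 4 + 1 / r3 ^ 4)) -
      3 * ((m * p1 + n * q1) ^ 2 / r1 ^ 5 + (m * p2 + n * q2) ^ 2 / r2 ^ 5 +
        (m * p3 + n * q3) ^ 2 / r3 ^ 5) = 0) :
    Gs (r1 + r2 + r3) S c = 0 := by
  have hp3 : p3 = -p1 - p2 := by linarith
  have hq3 : q3 = -q1 - q2 := by linarith
  have hP : m * (p1 / r1 ^ 3 + p2 / r2 ^ 3 + p3 / r3 ^ 3) + n * (q1 / r1 ^ 3 + q2 / r2 ^ 3 + q3 / r3 ^ 3) = 0 := by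
    rw [← hT]; ring
  have hW : WW r1 r2 r3 S = (p1 / r1 ^ 3 + p2 / r2 ^ 3 + p3 / r3 ^ 3) ^ 2 +
      (q1 / r1 ^ 3 + q2 / r2 ^ 3 + q3 / r3 ^ 3) ^ 2 := by
    unfold WW
    rw [← hN1, ← hN2, ← hN3, hp3, hq3]
    ring
  have hD : DD r1 r2 r3 S = (p1 * q2 - q1 * p2) ^ 2 := by
    unfold DD
    rw [← hN1, ← hN2, ← hN3, hp3, hq3]
    ring
  have i1 := ident m n p1 q1 _ _ hP
  have i2 := ident m n p2 q2 _ _ hP
  have i3 := ident m n p3 q3 _ _ hP
  rw [← hW] at i1 i2 i3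
  have j1 : WW r1 r2 r3 S * (m * p1 + n * q1) ^ 2 = (m ^ 2 + n ^ 2) * DD r1 r2 r3 S *
      (1 / r2 ^ 3 - 1 / r3 ^ 3) ^ 2 := by
    rw [i1, hD, hp3, hq3]; ring
  have j2 : WW r1 r2 r3 S * (m * p2 + n * q2) ^ 2 = (m ^ 2 + n ^ 2) * DD r1 r2 r3 S *
      (1 / r3 ^ 3 - 1 / r1 ^ 3) ^ 2 := by
    rw [i2, hD, hp3, hq3]; ring
  have j3 : WW r1 r2 r3 S * (m * p3 + n * q3) ^ 2 = (m ^ 2 + n ^ 2) * DD r1 r2 r3 S *
      (1 / r1 ^ 3 - 1 / r2 ^ 3) ^ 2 := by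
    rw [i3, hD, hp3, hq3]; ring
  refine alg r1 r2 r3 S c (m ^ 2 + n ^ 2) h1 h2 h3 hS hc hρ ?_
  generalize (m * p1 + n * q1) = t1 at *
  generalize (m * p2 + n * q2) = t2 at *
  generalize (m * p3 + n * q3) = t3 at *
  generalize WW r1 r2 r3 S = W at *
  generalize DD r1 r2 r3 S = D at *
  generalize ZZ r1 r2 r3 = Z at *
  linear_combination W * h5 + 3 / r1 ^ 5 * j1 + 3 / r2 ^ 5 * j2 + 3 / r3 ^ 5 * j3

end Pool.Agent.H3.TBody
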