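import Mathlib
import Pool.Agent.H3.TBodyC
import Pool.Agent.H3.TBodyE

set_option autoImplicit false

namespace Pool.Agent.H3.TBody

open Filter Topology

lemma const_of_finite (f : ℝ → ℝ) (hf : Continuous f) (F : Set ℝ) (hF : F.Finite)
    (h : ∀ t, f t ∈ F) : ∀ s t, f s = f t := by
  have key : ∀ s t, ¬ f s < f t := by
    intro s t hlt
    have h1 : Set.Icc (f s) (f t) ⊆ Set.range f :=
      (isPreconnected_range hf).Icc_subset ⟨s, rfl⟩ ⟨t, rfl⟩
    have h2 : Set.range f ⊆ F := by rintro _ ⟨x, rfl⟩; exact h x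
    exact (Set.Icc_infinite hlt) (hF.subset (h1.trans h2))
  intro s t
  exact le_antisymm (not_lt.1 (key t s)) (not_lt.1 (key s t))

open Polynomial in
lemma Gs_finite (S c : ℝ) (hS : 0 < S) (hc : 0 < c) : {s : ℝ | Gs s S c = 0}.Finite := by
  set P : ℝ[X] := C (9 / 64 - 3 / 32 * S * c ^ 2) * X ^ 12 +
    C (3 / 32 * S ^ 2 * c ^ 3 + 9 / 16 * S * c) * X ^ 11
    + C (-(9 / 32) * S ^ 2 * c ^ 2 - 45 / 32 * S) * X ^ 10
    + C (-(13 / 32) * S ^ 3 * c ^ 3 - 15 / 16 * S ^ 2 * c) * X ^ 9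
    + C (15 / 8 * S ^ 3 * c ^ 2 + 315 / 64 * S ^ 2) * X ^ 8
    + C (15 / 32 * S ^ 4 * c ^ 3 - 9 / 8 * S ^ 3 * c) * X ^ 7
    + C (-(71 / 32) * S ^ 4 * c ^ 2 - 99 / 16 * S ^ 3) * X ^ 6
    + C (-(3 / 32) * S ^ 5 * c ^ 3 + 39 / 8 * S ^ 4 * c) * X ^ 5
    + C (21 / 16 * S ^ 5 * c ^ 2 - 81 / 64 * S ^ 4) * X ^ 4
    + C (5 / 16 * S ^ 6 * c ^ 3 - 135 / 16 * S ^ 5 * c) * X ^ 3
    + C (-(15 / 8) * S ^ 6 * c ^ 2 + 243 / 32 * S ^ 5) * X ^ 2
    + C (-(3 / 8) * S ^ 7 * c ^ 3 + 81 / 16 * S ^ 6 * c) * X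
    + C (9 / 32 * S ^ 7 * c ^ 2 - 243 / 64 * S ^ 6) with hP
  have hcoeff : P.coeff 11 = 3 / 32 * S ^ 2 * c ^ 3 + 9 / 16 * S * c := by
    rw [hP]
    simp only [coeff_add, coeff_C_mul, coeff_X_pow, coeff_X, coeff_C]
    norm_num
  have hne : P ≠ 0 := by
    intro h0
    rw [h0, coeff_zero] at hcoeff
    have : 0 < 3 / 32 * S ^ 2 * c ^ 3 + 9 / 16 * S * c := by positivity
    linarith
  apply (P.roots.toFinset.finite_toSet).subset
  intro s hs
  have hs' : Gs s S c = 0 := hs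
  simp only [Finset.mem_coe, Multiset.mem_toFinset, mem_roots hne, IsRoot]
  rw [← hs', hP]
  unfold Gs
  simp only [eval_add, eval_mul, eval_C, eval_pow, eval_X]

open Polynomial in
lemma cubic_finite (u v w : ℝ) : {x : ℝ | x ^ 3 - u * x ^ 2 + v * x - w = 0}.Finite := by
  set P : ℝ[X] := X ^ 3 - C u * X ^ 2 + C v * X - C w with hP
  have hcoeff : P.coeff 3 = 1 := by
    rw [hP]
    simp only [coeff_sub, coeff_add, coeff_C_mul, coeff_X_pow, coeff_X, coeff_C]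
    norm_num
  have hne : P ≠ 0 := by
    intro h0
    rw [h0, coeff_zero] at hcoeff
    norm_num at hcoeff
  apply (P.roots.toFinset.finite_toSet).subset
  intro s hs
  have hs' : s ^ 3 - u * s ^ 2 + v * s - w = 0 := hs
  simp only [Finset.mem_coe, Multiset.mem_toFinset, mem_roots hne, IsRoot]
  rw [← hs', hP]
  simp only [eval_add, eval_sub, eval_mul, eval_C, eval_pow, eval_X]

lemma hasDerivAt_dt (f g : ℝ → ℂ) (f' g' : ℂ) (t : ℝ) (hf : HasDerivAt f f' t)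
    (hg : HasDerivAt g g' t) :
    HasDerivAt (fun t => dt (f t) (g t)) (dt f' (g t) + dt (f t) g') t := by
  have h1 := Complex.reCLM.hasFDerivAt.comp_hasDerivAt t hf
  have h2 := Complex.imCLM.hasFDerivAt.comp_hasDerivAt t hf
  have h3 := Complex.reCLM.hasFDerivAt.comp_hasDerivAt t hg
  have h4 := Complex.imCLM.hasFDerivAt.comp_hasDerivAt t hg
  refine ((h1.mul h3).add (h2.mul h4)).congr_deriv ?_
  unfold dt
  simp only [Function.comp, Complex.reCLM_apply, Complex.imCLM_apply]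
  ring

lemma hasDerivAt_cr (f g : ℝ → ℂ) (f' g' : ℂ) (t : ℝ) (hf : HasDerivAt f f' t)
    (hg : HasDerivAt g g' t) :
    HasDerivAt (fun t => cr (f t) (g t)) (cr f' (g t) + cr (f t) g') t := by
  have h1 := Complex.reCLM.hasFDerivAt.comp_hasDerivAt t hf
  have h2 := Complex.imCLM.hasFDerivAt.comp_hasDerivAt t hf
  have h3 := Complex.reCLM.hasFDerivAt.comp_hasDerivAt t hg
  have h4 := Complex.imCLM.hasFDerivAt.comp_hasDerivAt t hg
  refine ((h1.mul h4).sub (h2.mul h3)).congr_deriv ?_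
  unfold cr
  simp only [Function.comp, Complex.reCLM_apply, Complex.imCLM_apply]
  ring

lemma dt_comm (z w : ℂ) : dt z w = dt w z := by unfold dt; ring

lemma hasDerivAt_norm (f : ℝ → ℂ) (f' : ℂ) (t : ℝ) (hf : HasDerivAt f f' t) (h0 : f t ≠ 0) :
    HasDerivAt (fun t => ‖f t‖) (dt (f t) f' / ‖f t‖) t := by
  have h1 := hasDerivAt_dt f f f' f' t hf hf
  have hpos : 0 < ‖f t‖ := norm_pos_iff.2 h0
  have h2 := h1.sqrt (by rw [dt_self]; positivity)
  have e1 : (fun t => ‖f t‖) = fun t => Real.sqrt (dt (f t) (f t)) := by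
    funext s
    rw [dt_self, Real.sqrt_sq (norm_nonneg _)]
  rw [e1]
  refine h2.congr_deriv ?_
  rw [dt_self, Real.sqrt_sq hpos.le, dt_comm f' (f t)]
  field_simp
  ring

lemma dt_G (z w : ℂ) : dt z (G w) = dt z w / ‖w‖ ^ 3 := by
  unfold dt G
  simp only [Complex.smul_re, Complex.smul_im, smul_eq_mul]
  ring

lemma dt_add (z w w' : ℂ) : dt z (w + w') = dt z w + dt z w' := by
  unfold dt; simp only [Complex.add_re, Complex.add_im]; ring

lemma dt_sub (z w w' : ℂ) : dt z (w - w') = dt z w - dt z w' := by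
  unfold dt; simp only [Complex.sub_re, Complex.sub_im]; ring

lemma dt_smul (z w : ℂ) (x : ℝ) : dt z (x • w) = x * dt z w := by
  unfold dt; simp only [Complex.smul_re, Complex.smul_im, smul_eq_mul]; ring

variable {E : ℝ} {a b : Fin 3 → ℝ → ℂ}

lemma dt_pair (z0 z1 z2 : ℂ) (h : z0 + z1 + z2 = 0) :
    dt z0 z1 = (‖z2‖ ^ 2 - ‖z0‖ ^ 2 - ‖z1‖ ^ 2) / 2 := by
  have : z2 = -z0 - z1 := by linear_combination h
  rw [this, norm_sq, norm_sq, norm_sq]
  unfold dt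
  simp only [Complex.sub_re, Complex.sub_im, Complex.neg_re, Complex.neg_im]
  ring

end Pool.Agent.H3.TBody
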