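import Mathlib
import Pool.Agent.H3.TBodyF

set_option autoImplicit false

namespace Pool.Agent.H3.TBody

open Filter Topology

lemma point1 (x0 y0 x1 y1 x2 y2 u0 v0 u1 v1 u2 v2 m n r0 r1 r2 S c : ℝ)
    (hx : x0 + x1 + x2 = 0) (hy : y0 + y1 + y2 = 0) (h0 : 0 < r0) (h1 : 0 < r1) (h2 : 0 < r2)
    (k0 : r0 ^ 2 = x0 ^ 2 + y0 ^ 2) (k1 : r1 ^ 2 = x1 ^ 2 + y1 ^ 2) (k2 : r2 ^ 2 = x2 ^ 2 + y2 ^ 2)
    (hS : S = r0 ^ 2 + r1 ^ 2 + r2 ^ 2) (hc : 1 / r0 + 1 / r1 + 1 / r2 = c)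
    (hu0 : u0 = m * (x1 - x2) + n * (y1 - y2)) (hv0 : v0 = n * (x1 - x2) - m * (y1 - y2))
    (hu1 : u1 = m * (x2 - x0) + n * (y2 - y0)) (hv1 : v1 = n * (x2 - x0) - m * (y2 - y0))
    (hu2 : u2 = m * (x0 - x1) + n * (y0 - y1)) (hv2 : v2 = n * (x0 - x1) - m * (y0 - y1))
    (hb : (u0 ^ 2 + v0 ^ 2) + (u1 ^ 2 + v1 ^ 2) + (u2 ^ 2 + v2 ^ 2) = 3 * c)
    (hT : (x0 * u0 + y0 * v0) / r0 ^ 3 + (x1 * u1 + y1 * v1) / r1 ^ 3 +
      (x2 * u2 + y2 * v2) / r2 ^ 3 = 0)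
    (h5 : (u0 ^ 2 + v0 ^ 2) / r0 ^ 3 + (u1 ^ 2 + v1 ^ 2) / r1 ^ 3 + (u2 ^ 2 + v2 ^ 2) / r2 ^ 3 +
      (ZZ r0 r1 r2 - 3 * (1 / r0 ^ 4 + 1 / r1 ^ 4 + 1 / r2 ^ 4)) -
      3 * ((x0 * u0 + y0 * v0) ^ 2 / r0 ^ 5 + (x1 * u1 + y1 * v1) ^ 2 / r1 ^ 5 +
        (x2 * u2 + y2 * v2) ^ 2 / r2 ^ 5) = 0) :
    Gs (r0 + r1 + r2) S c = 0 := by
  have hx2 : x2 = -x0 - x1 := by linarith
  have hy2 : y2 = -y0 - y1 := by linarith
  have e0 : u0 ^ 2 + v0 ^ 2 = (m ^ 2 + n ^ 2) * (2 * S - 3 * r0 ^ 2) := by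
    rw [hu0, hv0, hS, k0, k1, k2, hx2, hy2]; ring
  have e1 : u1 ^ 2 + v1 ^ 2 = (m ^ 2 + n ^ 2) * (2 * S - 3 * r1 ^ 2) := by
    rw [hu1, hv1, hS, k0, k1, k2, hx2, hy2]; ring
  have e2 : u2 ^ 2 + v2 ^ 2 = (m ^ 2 + n ^ 2) * (2 * S - 3 * r2 ^ 2) := by
    rw [hu2, hv2, hS, k0, k1, k2, hx2, hy2]; ring
  have hρ : (m ^ 2 + n ^ 2) * S = c := by
    rw [e0, e1, e2] at hb
    have : (m ^ 2 + n ^ 2) * (3 * S) = 3 * c := by
      rw [← hb, hS]; ring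
    linarith
  have t0 : x0 * u0 + y0 * v0 = m * (x0 * (x1 - x2) - y0 * (y1 - y2)) +
      n * (x0 * (y1 - y2) + y0 * (x1 - x2)) := by rw [hu0, hv0]; ring
  have t1 : x1 * u1 + y1 * v1 = m * (x1 * (x2 - x0) - y1 * (y2 - y0)) +
      n * (x1 * (y2 - y0) + y1 * (x2 - x0)) := by rw [hu1, hv1]; ring
  have t2 : x2 * u2 + y2 * v2 = m * (x2 * (x0 - x1) - y2 * (y0 - y1)) +
      n * (x2 * (y0 - y1) + y2 * (x0 - x1)) := by rw [hu2, hv2]; ring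
  rw [t0, t1, t2] at hT
  rw [t0, t1, t2, e0, e1, e2] at h5
  refine point0 _ _ _ _ _ _ m n r0 r1 r2 S c h0 h1 h2 hS hc hρ ?_ ?_ ?_ ?_ ?_ hT ?_
  · ring
  · ring
  · unfold Nn; rw [hS, k0, k1, k2, hx2, hy2]; ring
  · unfold Nn; rw [hS, k0, k1, k2, hx2, hy2]; ring
  · unfold Nn; rw [hS, k0, k1, k2, hx2, hy2]; ring
  · linear_combination h5

variable {E : ℝ} {a b : Fin 3 → ℝ → ℂ}

lemma ZZ_eq (z0 z1 z2 : ℂ) (h : z0 + z1 + z2 = 0) (h0 : z0 ≠ 0) (h1 : z1 ≠ 0) (h2 : z2 ≠ 0) :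
    dt z0 (G z0 + G z1 + G z2) / ‖z0‖ ^ 3 + dt z1 (G z0 + G z1 + G z2) / ‖z1‖ ^ 3 +
      dt z2 (G z0 + G z1 + G z2) / ‖z2‖ ^ 3 = ZZ ‖z0‖ ‖z1‖ ‖z2‖ := by
  have p01 := dt_pair z0 z1 z2 h
  have p12 := dt_pair z1 z2 z0 (by linear_combination h)
  have p20 := dt_pair z2 z0 z1 (by linear_combination h)
  have n0 : ‖z0‖ ≠ 0 := norm_ne_zero_iff.2 h0
  have n1 : ‖z1‖ ≠ 0 := norm_ne_zero_iff.2 h1
  have n2 : ‖z2‖ ≠ 0 := norm_ne_zero_iff.2 h2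
  simp only [dt_add, dt_G, dt_self]
  rw [dt_comm z1 z0, dt_comm z2 z1, dt_comm z0 z2, p01, p12, p20]
  unfold ZZ
  field_simp
  ring

theorem no_exact (hE : 0 < E) (h : Sol E 0 a b) : False := by
  have hU : ∀ t, U a t = 2 * E := by
    intro t
    have := abs_nonpos_iff.1 (h.hU t)
    linarith
  have hr0 : ∀ i t, 0 < ‖a i t‖ := fun i t => norm_pos_iff.2 (h.hne i t)
  set T : Fin 3 → ℝ → ℝ := fun i t => dt (a i t) (b i t) with hTdef
  have hr : ∀ i t, HasDerivAt (fun t => ‖a i t‖) (T i t / ‖a i t‖) t := fun i t =>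
    hasDerivAt_norm _ _ _ (h.ha i t) (h.hne i t)
  have hT : ∀ i t, HasDerivAt (T i) (‖b i t‖ ^ 2 + dt (a i t) (Fo a i t)) t := by
    intro i t
    refine (hasDerivAt_dt _ _ _ _ t (h.ha i t) (h.hb i t)).congr_deriv ?_
    rw [dt_self]; rfl
  set Z : ℝ → ℂ := fun t => G (a 0 t) + G (a 1 t) + G (a 2 t) with hZ
  have hFo : ∀ i t, dt (a i t) (Fo a i t) = dt (a i t) (Z t) - 3 / ‖a i t‖ := by
    intro i t
    unfold Fo
    rw [dt_sub, dt_smul, dt_G, dt_self]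
    have := (hr0 i t).ne'
    rw [hZ]
    simp only
    field_simp
  have hsumZ : ∀ t (z : ℂ), dt (a 0 t) z + dt (a 1 t) z + dt (a 2 t) z = 0 := by
    intro t z
    have := h.sa t
    have h1 := congrArg Complex.re this
    have h2 := congrArg Complex.im this
    simp only [Complex.add_re, Complex.add_im, Complex.zero_re, Complex.zero_im] at h1 h2
    unfold dt
    linear_combination z.re * h1 + z.im * h2
  have hb2 : ∀ t, ‖b 0 t‖ ^ 2 + ‖b 1 t‖ ^ 2 + ‖b 2 t‖ ^ 2 = 6 * E := by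
    intro t
    have := h.hE t
    rw [hU t] at this
    linarith
  have hT0 : ∀ t, HasDerivAt (fun t => T 0 t + T 1 t + T 2 t) 0 t := by
    intro t
    refine (((hT 0 t).add (hT 1 t)).add (hT 2 t)).congr_deriv ?_
    rw [hFo, hFo, hFo]
    have h1 := hsumZ t (Z t)
    have h2 := hb2 t
    have h3 := hU t
    unfold U at h3
    have e : ∀ i, 3 / ‖a i t‖ = 3 * (1 / ‖a i t‖) := fun i => by ring
    rw [e, e, e]
    linarith
  have hTc : ∀ t, T 0 t + T 1 t + T 2 t = T 0 0 + T 1 0 + T 2 0 := by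
    intro t
    exact is_const_of_deriv_eq_zero (fun t => (hT0 t).differentiableAt) (fun t => (hT0 t).deriv) t 0
  set τ := T 0 0 + T 1 0 + T 2 0 with hτ
  set S : ℝ → ℝ := fun t => ‖a 0 t‖ ^ 2 + ‖a 1 t‖ ^ 2 + ‖a 2 t‖ ^ 2 with hS
  have hSd : ∀ t, HasDerivAt S (2 * τ) t := by
    intro t
    refine ((((hr 0 t).pow 2).add ((hr 1 t).pow 2)).add ((hr 2 t).pow 2)).congr_deriv ?_
    rw [← hTc t]
    have h0 := (hr0 0 t).ne'
    have h1 := (hr0 1 t).ne'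
    have h2 := (hr0 2 t).ne'
    push_cast
    field_simp
  have hSlin : ∀ t, S t - 2 * τ * t = S 0 := by
    intro t
    have hd : ∀ t, HasDerivAt (fun t => S t - 2 * τ * t) 0 t := by
      intro t
      refine ((hSd t).sub ((hasDerivAt_id t).const_mul (2 * τ))).congr_deriv ?_
      ring
    have := is_const_of_deriv_eq_zero (fun t => (hd t).differentiableAt) (fun t => (hd t).deriv) t 0
    simpa using this
  have hSpos : ∀ t, 0 < S t := fun t => by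
    have := hr0 0 t
    rw [hS]
    positivity
  have hτ0 : τ = 0 := by
    by_contra hne
    have h1 := hSlin (-(S 0) / (2 * τ))
    have h2 : 2 * τ * (-(S 0) / (2 * τ)) = - S 0 := by field_simp
    rw [h2] at h1
    have := hSpos (-(S 0) / (2 * τ))
    linarith
  have hSc : ∀ t, S t = S 0 := by
    intro t
    have := hSlin t
    rw [hτ0] at this
    linarith
  have hTsum : ∀ t, T 0 t + T 1 t + T 2 t = 0 := fun t => by rw [hTc t, hτ0]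
  -- first derivative of U
  have hV : ∀ t, T 0 t / ‖a 0 t‖ ^ 3 + T 1 t / ‖a 1 t‖ ^ 3 + T 2 t / ‖a 2 t‖ ^ 3 = 0 := by
    intro t
    have hd : ∀ i, HasDerivAt (fun t => 1 / ‖a i t‖) (-(T i t / ‖a i t‖ ^ 3)) t := by
      intro i
      refine ((hasDerivAt_const t (1 : ℝ)).div (hr i t) (hr0 i t).ne').congr_deriv ?_
      have := (hr0 i t).ne'
      field_simp
      ring
    have h1 : HasDerivAt (U a) (-(T 0 t / ‖a 0 t‖ ^ 3) + -(T 1 t / ‖a 1 t‖ ^ 3) +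
        -(T 2 t / ‖a 2 t‖ ^ 3)) t := ((hd 0).add (hd 1)).add (hd 2)
    have h2 : HasDerivAt (U a) 0 t := by
      have : U a = fun _ => 2 * E := funext hU
      rw [this]
      exact hasDerivAt_const t _
    have := h1.unique h2
    linarith
  -- second derivative
  have hV2 : ∀ t, (‖b 0 t‖ ^ 2 / ‖a 0 t‖ ^ 3 + ‖b 1 t‖ ^ 2 / ‖a 1 t‖ ^ 3 + ‖b 2 t‖ ^ 2 / ‖a 2 t‖ ^ 3) +
      (ZZ ‖a 0 t‖ ‖a 1 t‖ ‖a 2 t‖ - 3 * (1 / ‖a 0 t‖ ^ 4 + 1 / ‖a 1 t‖ ^ 4 + 1 / ‖a 2 t‖ ^ 4)) -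
      3 * (T 0 t ^ 2 / ‖a 0 t‖ ^ 5 + T 1 t ^ 2 / ‖a 1 t‖ ^ 5 + T 2 t ^ 2 / ‖a 2 t‖ ^ 5) = 0 := by
    intro t
    have hd : ∀ i, HasDerivAt (fun t => T i t / ‖a i t‖ ^ 3) (‖b i t‖ ^ 2 / ‖a i t‖ ^ 3 +
        dt (a i t) (Z t) / ‖a i t‖ ^ 3 - 3 * (1 / ‖a i t‖ ^ 4) - 3 * (T i t ^ 2 / ‖a i t‖ ^ 5)) t := by
      intro i
      have hne := (hr0 i t).ne'
      refine ((hT i t).div ((hr i t).pow 3) (pow_ne_zero 3 hne)).congr_deriv ?_
      rw [hFo]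
      simp only [Pi.pow_apply]
      push_cast
      field_simp
      ring
    have h1 := ((hd 0).add (hd 1)).add (hd 2)
    have h2 : HasDerivAt (((fun t => T 0 t / ‖a 0 t‖ ^ 3) + (fun t => T 1 t / ‖a 1 t‖ ^ 3)) +
        (fun t => T 2 t / ‖a 2 t‖ ^ 3)) 0 t := by
      have : (((fun t => T 0 t / ‖a 0 t‖ ^ 3) + (fun t => T 1 t / ‖a 1 t‖ ^ 3)) +
        (fun t => T 2 t / ‖a 2 t‖ ^ 3)) = fun _ => 0 := funext hV
      rw [this]
      exact hasDerivAt_const t _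
    have h3 := h1.unique h2
    have h4 := ZZ_eq (a 0 t) (a 1 t) (a 2 t) (h.sa t) (h.hne 0 t) (h.hne 1 t) (h.hne 2 t)
    rw [← h4]
    linear_combination h3
  -- the polynomial equation
  have hG : ∀ t, Gs (‖a 0 t‖ + ‖a 1 t‖ + ‖a 2 t‖) (S 0) (2 * E) = 0 := by
    intro t
    obtain ⟨m, n, ⟨q1, q2⟩, ⟨q3, q4⟩, ⟨q5, q6⟩⟩ := mu_exists (a 0 t) (a 1 t) (a 2 t) (b 0 t) (b 1 t)
      (b 2 t) (h.sa t) (h.sb t) (hTsum t) (h.hJ t) (h.hne 0 t)
    have hre := congrArg Complex.re (h.sa t)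
    have him := congrArg Complex.im (h.sa t)
    simp only [Complex.add_re, Complex.add_im, Complex.zero_re, Complex.zero_im] at hre him
    refine point1 _ _ _ _ _ _ _ _ _ _ _ _ m n ‖a 0 t‖ ‖a 1 t‖ ‖a 2 t‖ (S 0) (2 * E) hre him
      (hr0 0 t) (hr0 1 t) (hr0 2 t) (norm_sq _) (norm_sq _) (norm_sq _) (hSc t).symm (hU t)
      q1 q2 q3 q4 q5 q6 ?_ (hV t) ?_
    · rw [← norm_sq, ← norm_sq, ← norm_sq, hb2 t]; ring
    · rw [← norm_sq, ← norm_sq, ← norm_sq]; exact hV2 t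
  -- all distances are constant
  have hcont : ∀ i, Continuous (fun t => ‖a i t‖) := fun i =>
    continuous_iff_continuousAt.2 fun t => (hr i t).continuousAt
  have he1 : ∀ s t, ‖a 0 s‖ + ‖a 1 s‖ + ‖a 2 s‖ = ‖a 0 t‖ + ‖a 1 t‖ + ‖a 2 t‖ :=
    const_of_finite (fun t => ‖a 0 t‖ + ‖a 1 t‖ + ‖a 2 t‖) (((hcont 0).add (hcont 1)).add (hcont 2))
      _ (Gs_finite (S 0) (2 * E) (hSpos 0) (by linarith)) hG
  set e1 := ‖a 0 0‖ + ‖a 1 0‖ + ‖a 2 0‖ with he1def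
  set e2 := (e1 ^ 2 - S 0) / 2 with he2def
  set e3 := e2 / (2 * E) with he3def
  have hrc : ∀ i t, ‖a i t‖ ∈ {x : ℝ | x ^ 3 - e1 * x ^ 2 + e2 * x - e3 = 0} := by
    intro i t
    show ‖a i t‖ ^ 3 - e1 * ‖a i t‖ ^ 2 + e2 * ‖a i t‖ - e3 = 0
    have f1 : e1 = ‖a 0 t‖ + ‖a 1 t‖ + ‖a 2 t‖ := he1 0 t
    have f2 : e2 = ‖a 0 t‖ * ‖a 1 t‖ + ‖a 0 t‖ * ‖a 2 t‖ + ‖a 1 t‖ * ‖a 2 t‖ := by
      rw [he2def, f1, ← hSc t, hS]; ring
    have f3 : e3 = ‖a 0 t‖ * ‖a 1 t‖ * ‖a 2 t‖ := by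
      rw [he3def, f2, ← hU t]
      unfold U
      have h0 := (hr0 0 t).ne'
      have h1 := (hr0 1 t).ne'
      have h2 := (hr0 2 t).ne'
      have h3 : ‖a 1 t‖ * ‖a 2 t‖ + ‖a 0 t‖ * ‖a 2 t‖ + ‖a 0 t‖ * ‖a 1 t‖ ≠ 0 := by
        have := hr0 0 t
        have := hr0 1 t
        have := hr0 2 t
        positivity
      rw [div_eq_iff (by
        have := hr0 0 t
        have := hr0 1 t
        have := hr0 2 t
        positivity)]
      field_simp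
      ring
    rw [f1, f2, f3]
    fin_cases i
    · show ‖a 0 t‖ ^ 3 - _ * ‖a 0 t‖ ^ 2 + _ * ‖a 0 t‖ - _ = 0
      ring
    · show ‖a 1 t‖ ^ 3 - _ * ‖a 1 t‖ ^ 2 + _ * ‖a 1 t‖ - _ = 0
      ring
    · show ‖a 2 t‖ ^ 3 - _ * ‖a 2 t‖ ^ 2 + _ * ‖a 2 t‖ - _ = 0
      ring
  have hrconst : ∀ i s t, ‖a i s‖ = ‖a i t‖ := fun i =>
    const_of_finite (fun t => ‖a i t‖) (hcont i) _ (cubic_finite _ _ _) (hrc i)
  have hTzero : ∀ i t, T i t = 0 := by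
    intro i t
    have h1 : HasDerivAt (fun t => ‖a i t‖) 0 t := by
      have : (fun t => ‖a i t‖) = fun _ => ‖a i 0‖ := funext fun t => hrconst i t 0
      rw [this]
      exact hasDerivAt_const t _
    have h2 := (hr i t).unique h1
    rw [div_eq_zero_iff] at h2
    rcases h2 with h2 | h2
    · exact h2
    · exact absurd h2 (hr0 i t).ne'
  -- cross products constant
  have hX : ∀ i j k : Fin 3, (∀ t, a i t + a j t + a k t = 0) → ∀ t,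
      cr (b i t) (a j t) + cr (a i t) (b j t) = 0 := by
    intro i j k hsum t
    set X : ℝ → ℝ := fun t => cr (a i t) (a j t) with hXdef
    have hXd : ∀ t, HasDerivAt X (cr (b i t) (a j t) + cr (a i t) (b j t)) t := fun t =>
      hasDerivAt_cr _ _ _ _ t (h.ha i t) (h.ha j t)
    have hXc : Continuous X := continuous_iff_continuousAt.2 fun t => (hXd t).continuousAt
    have hsq : ∀ t, X t ^ 2 = ‖a i 0‖ ^ 2 * ‖a j 0‖ ^ 2 -
        ((‖a k 0‖ ^ 2 - ‖a i 0‖ ^ 2 - ‖a j 0‖ ^ 2) / 2) ^ 2 := by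
      intro t
      have h1 := dt_cr (a i t) (a j t)
      rw [dt_pair _ _ _ (hsum t), hrconst i t 0, hrconst j t 0, hrconst k t 0] at h1
      show cr (a i t) (a j t) ^ 2 = _
      linarith
    have hfin : ∀ s t, X s = X t := by
      apply const_of_finite X hXc ({X 0, -X 0} : Set ℝ) (by simp)
      intro t
      have h1 : X t ^ 2 = X 0 ^ 2 := by rw [hsq t, hsq 0]
      rcases sq_eq_sq_iff_eq_or_eq_neg.1 h1 with h2 | h2
      · left; exact h2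
      · right; exact h2
    have h1 : HasDerivAt X 0 t := by
      have : X = fun _ => X 0 := funext fun t => hfin t 0
      rw [this]
      exact hasDerivAt_const t _
    exact (hXd t).unique h1
  -- algebra at time 0
  have hω : ∀ i, ∃ ω : ℝ, (b i 0).re = -(ω * (a i 0).im) ∧ (b i 0).im = ω * (a i 0).re := by
    intro i
    have h1 := hTzero i 0
    have h2 : dt (a i 0) (b i 0) = 0 := h1
    have hn := norm_sq (a i 0)
    have hp := hr0 i 0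
    have hne : (a i 0).re ^ 2 + (a i 0).im ^ 2 ≠ 0 := by rw [← hn]; positivity
    refine ⟨cr (a i 0) (b i 0) / ((a i 0).re ^ 2 + (a i 0).im ^ 2), ?_, ?_⟩
    · rw [div_mul_eq_mul_div, ← neg_div, eq_div_iff hne]
      unfold cr
      unfold dt at h2
      linear_combination (a i 0).re * h2
    · rw [div_mul_eq_mul_div, eq_div_iff hne]
      unfold cr
      unfold dt at h2
      linear_combination (a i 0).im * h2
  choose ω hω1 hω2 using hω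
  have hre := congrArg Complex.re (h.sa 0)
  have him := congrArg Complex.im (h.sa 0)
  have hreb := congrArg Complex.re (h.sb 0)
  have himb := congrArg Complex.im (h.sb 0)
  simp only [Complex.add_re, Complex.add_im, Complex.zero_re, Complex.zero_im] at hre him hreb himb
  rw [hω1 0, hω1 1, hω1 2] at hreb
  rw [hω2 0, hω2 1, hω2 2] at himb
  have hX01 := hX 0 1 2 (fun t => h.sa t) 0
  have hX12 := hX 1 2 0 (fun t => by have := h.sa t; linear_combination this) 0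
  have hJ0 := h.hJ 0
  have hb0 := hb2 0
  unfold cr at hX01 hX12 hJ0
  rw [norm_sq, norm_sq, norm_sq] at hb0
  rw [hω1 0, hω1 1, hω1 2, hω2 0, hω2 1, hω2 2] at hb0 hJ0
  rw [hω1 0, hω1 1, hω2 0, hω2 1] at hX01
  rw [hω1 1, hω1 2, hω2 1, hω2 2] at hX12
  have n0 := norm_sq (a 0 0)
  have n1 := norm_sq (a 1 0)
  have n2 := norm_sq (a 2 0)
  have r0 := hr0 0 0
  have r1 := hr0 1 0
  have r2 := hr0 2 0
  generalize (a 0 0).re = x0 at *
  generalize (a 0 0).im = y0 at *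
  generalize (a 1 0).re = x1 at *
  generalize (a 1 0).im = y1 at *
  generalize (a 2 0).re = x2 at *
  generalize (a 2 0).im = y2 at *
  generalize ω 0 = w0 at *
  generalize ω 1 = w1 at *
  generalize ω 2 = w2 at *
  have hx2 : x2 = -x0 - x1 := by linarith
  have hy2 : y2 = -y0 - y1 := by linarith
  subst hx2
  subst hy2
  have c01 : (w1 - w0) * (x0 * y1 - y0 * x1) = 0 := by
    linear_combination (-y0 - y1) * himb + (-x0 - x1) * hreb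
  have d01 : (w1 - w0) * (x0 * x1 + y0 * y1) = 0 := by linear_combination hX01
  have z01 : w1 = w0 := by
    have h1 : (w1 - w0) ^ 2 * (‖a 0 0‖ ^ 2 * ‖a 1 0‖ ^ 2) = 0 := by
      rw [n0, n1]
      linear_combination (w1 - w0) * (x0 * y1 - y0 * x1) * c01 + (w1 - w0) * (x0 * x1 + y0 * y1) * d01
    have h2 : 0 < ‖a 0 0‖ ^ 2 * ‖a 1 0‖ ^ 2 := by positivity
    rcases mul_eq_zero.1 h1 with h3 | h3
    · have := pow_eq_zero_iff (two_ne_zero) |>.1 h3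
      linarith
    · linarith
  have c12 : (w2 - w1) * (x1 * (-y0 - y1) - y1 * (-x0 - x1)) = 0 := by
    linear_combination y0 * himb + x0 * hreb
  have d12 : (w2 - w1) * (x1 * (-x0 - x1) + y1 * (-y0 - y1)) = 0 := by linear_combination hX12
  have z12 : w2 = w1 := by
    have h1 : (w2 - w1) ^ 2 * (‖a 1 0‖ ^ 2 * ‖a 2 0‖ ^ 2) = 0 := by
      rw [n1, n2]
      linear_combination (w2 - w1) * (x1 * (-y0 - y1) - y1 * (-x0 - x1)) * c12 +
        (w2 - w1) * (x1 * (-x0 - x1) + y1 * (-y0 - y1)) * d12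
    have h2 : 0 < ‖a 1 0‖ ^ 2 * ‖a 2 0‖ ^ 2 := by positivity
    rcases mul_eq_zero.1 h1 with h3 | h3
    · have := pow_eq_zero_iff (two_ne_zero) |>.1 h3
      linarith
    · linarith
  subst z12
  subst z01
  have hw : w2 * (‖a 0 0‖ ^ 2 + ‖a 1 0‖ ^ 2 + ‖a 2 0‖ ^ 2) = 0 := by
    rw [n0, n1, n2]
    linear_combination hJ0
  have hw0 : w2 = 0 := by
    rcases mul_eq_zero.1 hw with h3 | h3
    · exact h3
    · have : 0 < ‖a 0 0‖ ^ 2 + ‖a 1 0‖ ^ 2 + ‖a 2 0‖ ^ 2 := by positivity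
      linarith
  rw [hw0] at hb0
  have : (0 : ℝ) = 6 * E := by linear_combination hb0
  linarith

end Pool.Agent.H3.TBody
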