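import Mathlib
import Pool.Agent.H3.TBodyG

set_option autoImplicit false

namespace Pool.Agent.H3.TBody

open Filter Topology

lemma G_re (z : ℂ) : (G z).re = z.re / ‖z‖ ^ 3 := by
  unfold G; rw [Complex.smul_re, smul_eq_mul]; ring

lemma G_im (z : ℂ) : (G z).im = z.im / ‖z‖ ^ 3 := by
  unfold G; rw [Complex.smul_im, smul_eq_mul]; ring

lemma G_neg (z : ℂ) : G (-z) = -G z := by
  unfold G; rw [norm_neg, smul_neg]

/-- complex position from coordinates -/
noncomputable def cq (x y : Fin 3 → ℝ → ℝ) (i : Fin 3) (t : ℝ) : ℂ := ⟨x i t, y i t⟩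

lemma hasDerivAt_mk (f g : ℝ → ℝ) (f' g' : ℝ) (t : ℝ) (hf : HasDerivAt f f' t)
    (hg : HasDerivAt g g' t) : HasDerivAt (fun t => (⟨f t, g t⟩ : ℂ)) ⟨f', g'⟩ t := by
  have h1 : HasDerivAt (fun t => ((f t : ℂ))) (f' : ℂ) t := hf.ofReal_comp
  have h2 : HasDerivAt (fun t => ((g t : ℂ))) (g' : ℂ) t := hg.ofReal_comp
  have h3 := h1.add (h2.mul_const Complex.I)
  have e1 : (fun t => (⟨f t, g t⟩ : ℂ)) = fun t => (f t : ℂ) + (g t : ℂ) * Complex.I := by
    funext t; exact Complex.mk_eq_add_mul_I _ _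
  rw [e1, Complex.mk_eq_add_mul_I]
  exact h3

lemma norm_diff (x y : Fin 3 → ℝ → ℝ) (i j : Fin 3) (t : ℝ) :
    Real.sqrt ((x j t - x i t) ^ 2 + (y j t - y i t) ^ 2) = ‖cq x y j t - cq x y i t‖ := by
  have h := norm_sq (cq x y j t - cq x y i t)
  have e : (x j t - x i t) ^ 2 + (y j t - y i t) ^ 2 = ‖cq x y j t - cq x y i t‖ ^ 2 := by
    rw [h]; rfl
  rw [e, Real.sqrt_sq (norm_nonneg _)]

theorem toSol (E ε : ℝ) (x y vx vy : Fin 3 → ℝ → ℝ)
    (h1 : ∀ t : ℝ, ∀ i j : Fin 3, i ≠ j → (x i t - x j t) ^ 2 + (y i t - y j t) ^ 2 ≠ 0)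
    (h2 : ∀ i : Fin 3, ∀ t : ℝ,
        HasDerivAt (x i) (vx i t) t ∧ HasDerivAt (y i) (vy i t) t ∧
        HasDerivAt (vx i)
          (∑ j ∈ Finset.univ.filter (fun j => j ≠ i),
            (x j t - x i t) / (Real.sqrt ((x j t - x i t) ^ 2 + (y j t - y i t) ^ 2)) ^ 3) t ∧
        HasDerivAt (vy i)
          (∑ j ∈ Finset.univ.filter (fun j => j ≠ i),
            (y j t - y i t) / (Real.sqrt ((x j t - x i t) ^ 2 + (y j t - y i t) ^ 2)) ^ 3) t)
    (h3 : ∃ R : ℝ, ∀ i : Fin 3, ∀ t : ℝ, |x i t| ≤ R ∧ |y i t| ≤ R)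
    (h4 : ∀ t : ℝ, ∑ i, (x i t * vy i t - y i t * vx i t) = 0)
    (h5 : ∀ t : ℝ, (1 / 2 : ℝ) * ∑ i, (vx i t ^ 2 + vy i t ^ 2)
          - ∑ i, ∑ j ∈ Finset.univ.filter (fun j => i < j),
              1 / Real.sqrt ((x i t - x j t) ^ 2 + (y i t - y j t) ^ 2) = -E)
    (h6 : ∀ t : ℝ,
        2 * (E - ε) < ∑ i, ∑ j ∈ Finset.univ.filter (fun j => i < j),
              1 / Real.sqrt ((x i t - x j t) ^ 2 + (y i t - y j t) ^ 2) ∧
        ∑ i, ∑ j ∈ Finset.univ.filter (fun j => i < j),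
              1 / Real.sqrt ((x i t - x j t) ^ 2 + (y i t - y j t) ^ 2) < 2 * (E + ε)) :
    Sol E (2 * ε) (fun i t => cq x y (i + 1) t - cq x y (i + 2) t)
      (fun i t => cq vx vy (i + 1) t - cq vx vy (i + 2) t) := by
  have hq : ∀ i t, HasDerivAt (cq x y i) (cq vx vy i t) t := fun i t =>
    hasDerivAt_mk _ _ _ _ t (h2 i t).1 (h2 i t).2.1
  have hv : ∀ i t, HasDerivAt (cq vx vy i)
      (∑ j ∈ Finset.univ.filter (fun j => j ≠ i), G (cq x y j t - cq x y i t)) t := by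
    intro i t
    refine (hasDerivAt_mk _ _ _ _ t (h2 i t).2.2.1 (h2 i t).2.2.2).congr_deriv ?_
    apply Complex.ext
    · rw [Complex.re_sum]
      show (∑ j ∈ Finset.univ.filter (fun j => j ≠ i),
            (x j t - x i t) / (Real.sqrt ((x j t - x i t) ^ 2 + (y j t - y i t) ^ 2)) ^ 3) = _
      apply Finset.sum_congr rfl
      intro j _
      rw [G_re, norm_diff]
      rfl
    · rw [Complex.im_sum]
      show (∑ j ∈ Finset.univ.filter (fun j => j ≠ i),
            (y j t - y i t) / (Real.sqrt ((x j t - x i t) ^ 2 + (y j t - y i t) ^ 2)) ^ 3) = _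
      apply Finset.sum_congr rfl
      intro j _
      rw [G_im, norm_diff]
      rfl
  set q := cq x y with hqdef
  set v := cq vx vy with hvdef
  have f0 : (Finset.univ.filter (fun j : Fin 3 => j ≠ 0)) = {1, 2} := by decide
  have f1 : (Finset.univ.filter (fun j : Fin 3 => j ≠ 1)) = {0, 2} := by decide
  have f2 : (Finset.univ.filter (fun j : Fin 3 => j ≠ 2)) = {0, 1} := by decide
  have hv0 : ∀ t, HasDerivAt (v 0) (G (q 2 t - q 0 t) - G (q 0 t - q 1 t)) t := by
    intro t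
    refine (hv 0 t).congr_deriv ?_
    rw [f0, Finset.sum_pair (by decide), show q 0 t - q 1 t = -(q 1 t - q 0 t) by ring, G_neg]
    ring
  have hv1 : ∀ t, HasDerivAt (v 1) (G (q 0 t - q 1 t) - G (q 1 t - q 2 t)) t := by
    intro t
    refine (hv 1 t).congr_deriv ?_
    rw [f1, Finset.sum_pair (by decide), show q 1 t - q 2 t = -(q 2 t - q 1 t) by ring, G_neg]
    ring
  have hv2 : ∀ t, HasDerivAt (v 2) (G (q 1 t - q 2 t) - G (q 2 t - q 0 t)) t := by
    intro t
    refine (hv 2 t).congr_deriv ?_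
    rw [f2, Finset.sum_pair (by decide), show q 2 t - q 0 t = -(q 0 t - q 2 t) by ring, G_neg]
    ring
  -- total momentum vanishes
  have hV : ∀ t, v 0 t + v 1 t + v 2 t = 0 := by
    have hd : ∀ t, HasDerivAt (fun t => v 0 t + v 1 t + v 2 t) 0 t := by
      intro t
      refine (((hv0 t).add (hv1 t)).add (hv2 t)).congr_deriv ?_
      ring
    have hc : ∀ t, v 0 t + v 1 t + v 2 t = v 0 0 + v 1 0 + v 2 0 := fun t =>
      is_const_of_deriv_eq_zero (fun t => (hd t).differentiableAt) (fun t => (hd t).deriv) t 0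
    set V := v 0 0 + v 1 0 + v 2 0 with hVdef
    have hd2 : ∀ t, HasDerivAt (fun t : ℝ => (q 0 t + q 1 t + q 2 t) - t • V) 0 t := by
      intro t
      refine ((((hq 0 t).add (hq 1 t)).add (hq 2 t)).sub
        ((hasDerivAt_id t).smul_const V)).congr_deriv ?_
      rw [hc t, one_smul, sub_self]
    have hc2 : ∀ t, (q 0 t + q 1 t + q 2 t) - t • V = (q 0 0 + q 1 0 + q 2 0) - (0 : ℝ) • V := fun t =>
      is_const_of_deriv_eq_zero (fun t => (hd2 t).differentiableAt) (fun t => (hd2 t).deriv) t 0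
    obtain ⟨R, hR⟩ := h3
    have hqb : ∀ i t, ‖q i t‖ ≤ 2 * R := by
      intro i t
      refine (Complex.norm_le_abs_re_add_abs_im _).trans ?_
      have := hR i t
      show |x i t| + |y i t| ≤ 2 * R
      linarith
    have hR0 : 0 ≤ R := (abs_nonneg _).trans (hR 0 0).1
    have hQ : ∀ t, ‖q 0 t + q 1 t + q 2 t‖ ≤ 6 * R := by
      intro t
      refine norm_add₃_le.trans ?_
      have := hqb 0 t
      have := hqb 1 t
      have := hqb 2 t
      linarith
    have hV0 : V = 0 := by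
      by_contra hne
      have hpos : 0 < ‖V‖ := norm_pos_iff.2 hne
      have h7 := hc2 ((12 * R + 1) / ‖V‖)
      rw [zero_smul, sub_zero] at h7
      have h8 : ((12 * R + 1) / ‖V‖) • V = (q 0 ((12 * R + 1) / ‖V‖) + q 1 ((12 * R + 1) / ‖V‖) +
          q 2 ((12 * R + 1) / ‖V‖)) - (q 0 0 + q 1 0 + q 2 0) := by
        rw [← h7]; abel
      have h9 : ‖((12 * R + 1) / ‖V‖) • V‖ = 12 * R + 1 := by
        rw [norm_smul, Real.norm_eq_abs, abs_of_nonneg (by positivity)]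
        field_simp
      have h10 : ‖((12 * R + 1) / ‖V‖) • V‖ ≤ 12 * R := by
        rw [h8]
        refine (norm_sub_le _ _).trans ?_
        have := hQ ((12 * R + 1) / ‖V‖)
        have := hQ 0
        linarith
      linarith
    intro t
    rw [hc t, hV0]
  have hVx : ∀ t, vx 0 t + vx 1 t + vx 2 t = 0 := fun t => by
    have := congrArg Complex.re (hV t)
    exact this
  have hVy : ∀ t, vy 0 t + vy 1 t + vy 2 t = 0 := fun t => by
    have := congrArg Complex.im (hV t)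
    exact this
  have g0 : (Finset.univ.filter (fun j : Fin 3 => 0 < j)) = {1, 2} := by decide
  have g1 : (Finset.univ.filter (fun j : Fin 3 => 1 < j)) = {2} := by decide
  have g2 : (Finset.univ.filter (fun j : Fin 3 => 2 < j)) = ∅ := by decide
  have hUU : ∀ t, ∑ i, ∑ j ∈ Finset.univ.filter (fun j => i < j),
              1 / Real.sqrt ((x i t - x j t) ^ 2 + (y i t - y j t) ^ 2) =
      U (fun i t => q (i + 1) t - q (i + 2) t) t := by
    intro t
    have e1 : q 2 t - q 0 t = -(q 0 t - q 2 t) := by ring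
    rw [Fin.sum_univ_three, g0, g1, g2, Finset.sum_pair (by decide), Finset.sum_singleton,
      Finset.sum_empty, norm_diff, norm_diff, norm_diff]
    show 1 / ‖q 0 t - q 1 t‖ + 1 / ‖q 0 t - q 2 t‖ + 1 / ‖q 1 t - q 2 t‖ + 0 =
      1 / ‖q 1 t - q 2 t‖ + 1 / ‖q 2 t - q 0 t‖ + 1 / ‖q 0 t - q 1 t‖
    rw [e1, norm_neg]
    ring
  refine ⟨?_, ?_, ?_, ?_, ?_, ?_, ?_, ?_⟩
  · intro i t
    exact (hq (i + 1) t).sub (hq (i + 2) t)
  · intro i t
    fin_cases i
    · show HasDerivAt (fun t => v 1 t - v 2 t) (G (q 1 t - q 2 t) + G (q 2 t - q 0 t) +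
        G (q 0 t - q 1 t) - (3 : ℝ) • G (q 1 t - q 2 t)) t
      refine ((hv1 t).sub (hv2 t)).congr_deriv ?_
      rw [Complex.real_smul]; push_cast; ring
    · show HasDerivAt (fun t => v 2 t - v 0 t) (G (q 1 t - q 2 t) + G (q 2 t - q 0 t) +
        G (q 0 t - q 1 t) - (3 : ℝ) • G (q 2 t - q 0 t)) t
      refine ((hv2 t).sub (hv0 t)).congr_deriv ?_
      rw [Complex.real_smul]; push_cast; ring
    · show HasDerivAt (fun t => v 0 t - v 1 t) (G (q 1 t - q 2 t) + G (q 2 t - q 0 t) +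
        G (q 0 t - q 1 t) - (3 : ℝ) • G (q 0 t - q 1 t)) t
      refine ((hv0 t).sub (hv1 t)).congr_deriv ?_
      rw [Complex.real_smul]; push_cast; ring
  · intro t
    show (q 1 t - q 2 t) + (q 2 t - q 0 t) + (q 0 t - q 1 t) = 0
    ring
  · intro t
    show (v 1 t - v 2 t) + (v 2 t - v 0 t) + (v 0 t - v 1 t) = 0
    ring
  · intro t
    show cr (q 1 t - q 2 t) (v 1 t - v 2 t) + cr (q 2 t - q 0 t) (v 2 t - v 0 t) +
      cr (q 0 t - q 1 t) (v 0 t - v 1 t) = 0
    have h7 := h4 t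
    rw [Fin.sum_univ_three] at h7
    have h8 := hVx t
    have h9 := hVy t
    unfold cr
    simp only [Complex.sub_re, Complex.sub_im, hqdef, hvdef, cq]
    linear_combination 3 * h7 - (x 0 t + x 1 t + x 2 t) * h9 + (y 0 t + y 1 t + y 2 t) * h8
  · intro t
    have h7 := h5 t
    rw [hUU t] at h7
    rw [Fin.sum_univ_three] at h7
    have h8 := hVx t
    have h9 := hVy t
    show (1 / 6 : ℝ) * (‖v 1 t - v 2 t‖ ^ 2 + ‖v 2 t - v 0 t‖ ^ 2 + ‖v 0 t - v 1 t‖ ^ 2) - _ = -E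
    rw [norm_sq, norm_sq, norm_sq]
    simp only [Complex.sub_re, Complex.sub_im]
    have k1 : ∀ i, (v i t).re = vx i t := fun i => rfl
    have k2 : ∀ i, (v i t).im = vy i t := fun i => rfl
    rw [k1, k1, k1, k2, k2, k2]
    linear_combination h7 - (1 / 6) * (vx 0 t + vx 1 t + vx 2 t) * h8 -
      (1 / 6) * (vy 0 t + vy 1 t + vy 2 t) * h9
  · intro t
    have h7 := h6 t
    rw [hUU t] at h7
    rw [abs_le]
    constructor <;> linarith [h7.1, h7.2]
  · intro i t
    have key : ∀ i j, i ≠ j → q i t - q j t ≠ 0 := by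
      intro i j hij h0
      apply h1 t i j hij
      have r1 := congrArg Complex.re h0
      have r2 := congrArg Complex.im h0
      have r1' : x i t - x j t = 0 := r1
      have r2' : y i t - y j t = 0 := r2
      rw [r1', r2']; norm_num
    apply key
    fin_cases i <;> decide

theorem main (E : ℝ) (hE : 0 < E) : ∃ ε : ℝ, 0 < ε ∧
    ∀ x y vx vy : Fin 3 → ℝ → ℝ,
      (∀ t : ℝ, ∀ i j : Fin 3, i ≠ j → (x i t - x j t) ^ 2 + (y i t - y j t) ^ 2 ≠ 0) →
      (∀ i : Fin 3, ∀ t : ℝ,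
        HasDerivAt (x i) (vx i t) t ∧ HasDerivAt (y i) (vy i t) t ∧
        HasDerivAt (vx i)
          (∑ j ∈ Finset.univ.filter (fun j => j ≠ i),
            (x j t - x i t) / (Real.sqrt ((x j t - x i t) ^ 2 + (y j t - y i t) ^ 2)) ^ 3) t ∧
        HasDerivAt (vy i)
          (∑ j ∈ Finset.univ.filter (fun j => j ≠ i),
            (y j t - y i t) / (Real.sqrt ((x j t - x i t) ^ 2 + (y j t - y i t) ^ 2)) ^ 3) t) →
      (∃ R : ℝ, ∀ i : Fin 3, ∀ t : ℝ, |x i t| ≤ R ∧ |y i t| ≤ R) →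
      (∀ t : ℝ, ∑ i, (x i t * vy i t - y i t * vx i t) = 0) →
      (∀ t : ℝ, (1 / 2 : ℝ) * ∑ i, (vx i t ^ 2 + vy i t ^ 2)
          - ∑ i, ∑ j ∈ Finset.univ.filter (fun j => i < j),
              1 / Real.sqrt ((x i t - x j t) ^ 2 + (y i t - y j t) ^ 2) = -E) →
      (∀ t : ℝ,
        2 * (E - ε) < ∑ i, ∑ j ∈ Finset.univ.filter (fun j => i < j),
              1 / Real.sqrt ((x i t - x j t) ^ 2 + (y i t - y j t) ^ 2) ∧
        ∑ i, ∑ j ∈ Finset.univ.filter (fun j => i < j),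
              1 / Real.sqrt ((x i t - x j t) ^ 2 + (y i t - y j t) ^ 2) < 2 * (E + ε)) →
      False := by
  by_contra hcon
  have key : ∀ n : ℕ, ∃ a b, Sol E (min (E / 2) (2 * (1 / ((n : ℝ) + 1)))) a b ∧
      ∀ i, ‖a i 0‖ ≤ R0 E := by
    intro n
    by_contra hn
    apply hcon
    have hn0 : 0 < 1 / ((n : ℝ) + 1) := by positivity
    refine ⟨min (E / 4) (1 / ((n : ℝ) + 1)), lt_min (by positivity) hn0, ?_⟩
    intro x y vx vy k1 k2 k3 k4 k5 k6
    have hS := toSol E _ x y vx vy k1 k2 k3 k4 k5 k6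
    have he : 2 * min (E / 4) (1 / ((n : ℝ) + 1)) = min (E / 2) (2 * (1 / ((n : ℝ) + 1))) := by
      rw [mul_min_of_nonneg _ _ (by norm_num)]
      congr 1
      ring
    rw [he] at hS
    obtain ⟨t, ht⟩ := exists_bounded hE hS (min_le_left _ _)
    apply hn
    refine ⟨_, _, hS.shift t, ?_⟩
    intro i
    have := ht i
    rw [zero_add]
    exact this
  choose A B hS hR using key
  obtain ⟨a, b, h⟩ := limit_sol hE A B _ hS (fun n => min_le_left _ _) (by
    have h1 : Tendsto (fun n : ℕ => 2 * (1 / ((n : ℝ) + 1))) atTop (𝓝 (2 * 0)) :=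
      tendsto_one_div_add_atTop_nhds_zero_nat.const_mul 2
    rw [mul_zero] at h1
    refine squeeze_zero (fun n => ?_) (fun n => min_le_right _ _) h1
    have : 0 < 1 / ((n : ℝ) + 1) := by positivity
    exact le_min (by positivity) (by positivity)) hR
  exact no_exact hE h

end Pool.Agent.H3.TBody
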