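import Mathlib

set_option autoImplicit false

open FirstOrder FirstOrder.Language

namespace Pool.Agent.H3.TR

/-- `ℚ^tr`, the field of totally real algebraic numbers: all `x ∈ ℚ̄` that every embedding
`ℚ̄ → ℂ` sends into `ℝ`. -/
def Qtr : IntermediateField ℚ (AlgebraicClosure ℚ) where
  carrier := {x | ∀ φ : AlgebraicClosure ℚ →+* ℂ, ∃ r : ℝ, φ x = (r : ℂ)}
  mul_mem' := by
    intro x y hx hy φ
    obtain ⟨a, ha⟩ := hx φ
    obtain ⟨b, hb⟩ := hy φ
    exact ⟨a * b, by rw [map_mul, ha, hb, Complex.ofReal_mul]⟩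
  one_mem' := fun φ => ⟨1, by simp⟩
  add_mem' := by
    intro x y hx hy φ
    obtain ⟨a, ha⟩ := hx φ
    obtain ⟨b, hb⟩ := hy φ
    exact ⟨a + b, by rw [map_add, ha, hb, Complex.ofReal_add]⟩
  zero_mem' := fun φ => ⟨0, by simp⟩
  algebraMap_mem' := fun q φ => ⟨q, by simp⟩
  inv_mem' := by
    intro x hx φ
    obtain ⟨a, ha⟩ := hx φ
    exact ⟨a⁻¹, by rw [map_inv₀, ha, Complex.ofReal_inv]⟩

/-- `ℚ^tr` as a type. -/
def K : Type := Qtr

noncomputable instance instFieldK : Field K := IntermediateField.toField Qtr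

instance instCharZeroK : CharZero K := IntermediateField.charZero Qtr

/-- `Gal(ℚ^tr/ℚ)`. -/
def G : Type := K ≃ₐ[ℚ] K

noncomputable instance instGroupG : Group G := (AlgEquiv.aut : Group (K ≃ₐ[ℚ] K))

/-- the Krull topology on `Gal(ℚ^tr/ℚ)` -/
noncomputable instance instTopG : TopologicalSpace G := krullTopology ℚ K

/-- an element of the Galois group as a ring homomorphism of `ℚ^tr` -/
noncomputable def act (σ : G) : K →+* K := ((show K ≃ₐ[ℚ] K from σ : K ≃ₐ[ℚ] K) : K →+* K)

/-- `ℤ^tr(σ)`: the ring of totally real algebraic integers fixed by `σ ∈ Gal(ℚ^tr/ℚ)`. -/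
noncomputable def ZtrFixed (σ : G) : Subring K :=
  (integralClosure ℤ K).toSubring ⊓ RingHom.eqLocus (act σ) (RingHom.id K)

/-- The first-order sentence `φ` of the language of rings holds in the ring `R`. -/
def Holds (R : Type) [CommRing R] (φ : Language.ring.Sentence) : Prop :=
  letI := FirstOrder.Ring.compatibleRingOfRing R
  R ⊨ φ

/-- The complete first-order theory of `R` is decidable, where sentences are presented to the
algorithm through the numbering `code`. -/
def DecidableTheory (code : Language.ring.Sentence → ℕ) (R : Type) [CommRing R] : Prop :=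
  ∃ f : ℕ → Bool, Computable f ∧ ∀ φ : Language.ring.Sentence, Holds R φ ↔ f (code φ) = true

end Pool.Agent.H3.TR
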