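import Mathlib
import Pool.Agent.H3.TRDefs

set_option autoImplicit false

open FirstOrder FirstOrder.Language MeasureTheory

namespace Pool.Agent.H3.TR

noncomputable def ZF (σ : Qtr ≃ₐ[ℚ] Qtr) : Subring Qtr :=
  (integralClosure ℤ Qtr).toSubring ⊓ RingHom.eqLocus (σ : Qtr →+* Qtr) (RingHom.id Qtr)

/-! ### countably many algorithms -/

lemma countable_computable : {f : ℕ → Bool | Computable f}.Countable := by
  classical
  let F : Nat.Partrec.Code → (ℕ → Bool) := fun c =>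
    if h : ∃ f : ℕ → Bool, c.eval = fun n => Part.some (Encodable.encode (f n)) then h.choose else fun _ => true
  apply (Set.countable_range F).mono
  intro f hf
  have h1 : Nat.Partrec (fun n => Part.some (Encodable.encode (f n)) : ℕ →. ℕ) := by
    have h2 : Computable (fun n => Encodable.encode (f n)) := Computable.encode.comp hf
    have h3 : Partrec (fun n => Part.some (Encodable.encode (f n)) : ℕ →. ℕ) := h2
    exact Partrec.nat_iff.mp h3
  obtain ⟨c, hc⟩ := Nat.Partrec.Code.exists_code.mp h1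
  refine ⟨c, ?_⟩
  have h : ∃ f : ℕ → Bool, c.eval = fun n => Part.some (Encodable.encode (f n)) := ⟨f, hc⟩
  have h4 := h.choose_spec
  simp only [F]
  rw [dif_pos h]
  funext n
  have h5 := (congrFun hc n).symm.trans (congrFun h4 n)
  simp only [Part.some_inj] at h5
  exact (Encodable.encode_injective h5).symm

/-! ### square roots -/

lemma sqrt_mem {x : AlgebraicClosure ℚ} {m : ℕ} (hx : x ^ 2 = (m : AlgebraicClosure ℚ)) : x ∈ Qtr := by
  intro φ
  have h1 : (φ x) ^ 2 = ((√(m:ℝ) : ℝ) : ℂ) ^ 2 := by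
    rw [← map_pow, hx, ← Complex.ofReal_pow, Real.sq_sqrt (Nat.cast_nonneg m)]
    simp
  rcases sq_eq_sq_iff_eq_or_eq_neg.mp h1 with h | h
  · exact ⟨_, h⟩
  · exact ⟨-√(m:ℝ), by rw [h]; simp⟩

lemma exists_sqrt (m : ℕ) : ∃ s : Qtr, s ^ 2 = (m : Qtr) := by
  obtain ⟨x, hx⟩ := IsAlgClosed.exists_pow_nat_eq (m : AlgebraicClosure ℚ) (n := 2) (by norm_num)
  exact ⟨⟨x, sqrt_mem hx⟩, by ext; simpa using hx⟩

noncomputable def sq (m : ℕ) : Qtr := (exists_sqrt m).choose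

lemma sq_sq (m : ℕ) : sq m ^ 2 = (m : Qtr) := (exists_sqrt m).choose_spec

lemma sq_integral (m : ℕ) : IsIntegral ℤ (sq m) := by
  apply IsIntegral.of_pow (n := 2) (by norm_num)
  rw [sq_sq]
  have h := isIntegral_algebraMap (R := ℤ) (A := Qtr) (x := (m : ℤ))
  simpa using h

lemma map_sq (σ : Qtr ≃ₐ[ℚ] Qtr) (m : ℕ) : σ (sq m) = sq m ∨ σ (sq m) = -sq m := by
  apply sq_eq_sq_iff_eq_or_eq_neg.mp
  rw [← map_pow, sq_sq, map_natCast]

/-! ### `Qtr` is Galois over `ℚ` -/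

instance normalAC : @Normal ℚ (AlgebraicClosure ℚ) _ _ DivisionRing.toRatAlgebra := by
  have e : (DivisionRing.toRatAlgebra : Algebra ℚ (AlgebraicClosure ℚ)) =
      AlgebraicClosure.instAlgebra ℚ := Subsingleton.elim _ _
  rw [e]
  infer_instance

instance normalQtr : Normal ℚ Qtr := by
  have h : @Normal ℚ Qtr _ _ (IntermediateField.algebra' Qtr) := by
    rw [IntermediateField.normal_iff_forall_map_le']
    rintro σ _ ⟨x, hx, rfl⟩ φ
    exact hx (φ.comp (σ : AlgebraicClosure ℚ ≃ₐ[ℚ] AlgebraicClosure ℚ).toRingEquiv.toRingHom)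
  have e : (DivisionRing.toRatAlgebra : Algebra ℚ Qtr) = IntermediateField.algebra' Qtr :=
    Subsingleton.elim _ _
  rw [e]
  exact h

instance : IsGalois ℚ Qtr := ⟨⟩

lemma exists_move {m : ℕ} (hm : ¬ IsSquare (m : ℚ)) {s : Qtr} (hs : s ^ 2 = (m : Qtr)) :
    ∃ σ : Qtr ≃ₐ[ℚ] Qtr, σ s ≠ s := by
  by_contra h
  push Not at h
  have h1 := (InfiniteGalois.mem_bot_iff_fixed s).mpr h
  rw [IntermediateField.mem_bot] at h1
  obtain ⟨q, hq⟩ := h1
  apply hm
  refine ⟨q, ?_⟩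
  rw [← hq, ← map_pow] at hs
  have h2 : algebraMap ℚ Qtr (q ^ 2) = algebraMap ℚ Qtr (m : ℚ) := by rw [hs]; simp
  have h3 := (algebraMap ℚ Qtr).injective h2
  rw [← h3]; ring

/-! ### the subgroup fixing all `√p` -/

def H : Subgroup (Qtr ≃ₐ[ℚ] Qtr) where
  carrier := {σ | ∀ p : Nat.Primes, σ (sq p) = sq p}
  mul_mem' := by
    intro σ τ hσ hτ p
    rw [AlgEquiv.mul_apply, hτ p, hσ p]
  one_mem' := fun p => rfl
  inv_mem' := by
    intro σ hσ p
    have h := hσ p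
    change σ.symm (sq p) = sq p
    rw [AlgEquiv.symm_apply_eq, h]

lemma not_square_mul {p q : ℕ} (hp : p.Prime) (hq : q.Prime) (hpq : p ≠ q) : ¬ IsSquare ((p * q : ℕ) : ℚ) := by
  rw [Rat.isSquare_natCast_iff]
  rintro ⟨r, hr⟩
  have h1 : p ∣ r * r := hr ▸ Dvd.intro _ rfl
  have h2 : p ∣ r := (hp.dvd_mul.mp h1).elim id id
  obtain ⟨k, rfl⟩ := h2
  have h3 : q = p * (k * k) := by
    have h4 : p * q = p * (p * (k * k)) := by rw [hr]; ring
    exact Nat.eq_of_mul_eq_mul_left hp.pos h4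
  have h5 : p ∣ q := ⟨_, h3⟩
  exact hpq ((Nat.prime_dvd_prime_iff_eq hp hq).mp h5)

lemma exists_sep {p q : Nat.Primes} (hpq : p ≠ q) :
    ∃ σ : Qtr ≃ₐ[ℚ] Qtr, ¬ (σ (sq p) = sq p ↔ σ (sq q) = sq q) := by
  have h1 : (sq p * sq q) ^ 2 = ((p * q : ℕ) : Qtr) := by
    rw [mul_pow, sq_sq, sq_sq]; push_cast; rfl
  obtain ⟨σ, hσ⟩ := exists_move (not_square_mul p.2 q.2 (fun h => hpq (Subtype.ext h))) h1
  refine ⟨σ, fun h => hσ ?_⟩
  rw [map_mul]
  by_cases hp : σ (sq p) = sq p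
  · rw [hp, h.mp hp]
  · have hq : ¬ σ (sq q) = sq q := fun h2 => hp (h.mpr h2)
    rw [(map_sq σ p).resolve_left hp, (map_sq σ q).resolve_left hq, neg_mul_neg]

lemma infinite_quot : Infinite ((Qtr ≃ₐ[ℚ] Qtr) ⧸ H) := by
  by_contra hfin
  rw [not_infinite_iff_finite] at hfin
  let T : Nat.Primes → Set ((Qtr ≃ₐ[ℚ] Qtr) ⧸ H) := fun p =>
    {c | ∀ g : Qtr ≃ₐ[ℚ] Qtr, (QuotientGroup.mk g : (Qtr ≃ₐ[ℚ] Qtr) ⧸ H) = c → g (sq p) = sq p}
  have hT : ∀ (p : Nat.Primes) (g : Qtr ≃ₐ[ℚ] Qtr),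
      (QuotientGroup.mk g : (Qtr ≃ₐ[ℚ] Qtr) ⧸ H) ∈ T p ↔ g (sq p) = sq p := by
    intro p g
    constructor
    · intro h; exact h g rfl
    · intro h g' hg'
      have h1 : g'⁻¹ * g ∈ H := QuotientGroup.eq.mp hg'
      have h2 := h1 p
      rw [AlgEquiv.mul_apply, h] at h2
      have h3 : g'.symm (sq p) = sq p := h2
      rw [AlgEquiv.symm_apply_eq] at h3
      exact h3.symm
  have hinj : Function.Injective T := by
    intro p q hpq
    by_contra hne
    obtain ⟨σ, hσ⟩ := exists_sep hne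
    apply hσ
    rw [← hT p σ, ← hT q σ, hpq]
  have : Finite Nat.Primes := Finite.of_injective T hinj
  exact Infinite.not_finite this

lemma isClosed_H : IsClosed (H : Set (Qtr ≃ₐ[ℚ] Qtr)) := by
  have h1 : (H : Set (Qtr ≃ₐ[ℚ] Qtr)) =
      ⋂ p : Nat.Primes, ((IntermediateField.adjoin ℚ {sq p}).fixingSubgroup : Set (Qtr ≃ₐ[ℚ] Qtr)) := by
    ext σ
    simp only [Set.mem_iInter, SetLike.mem_coe]
    constructor
    · intro h p
      rw [IntermediateField.mem_fixingSubgroup_iff]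
      have h2 : IntermediateField.adjoin ℚ {sq p} ≤ IntermediateField.fixedField (Subgroup.zpowers σ) := by
        rw [IntermediateField.adjoin_le_iff, Set.singleton_subset_iff]
        intro τ
        obtain ⟨τ, k, rfl⟩ := τ
        have : σ ^ k ∈ H := H.zpow_mem h k
        exact this p
      intro x hx
      exact h2 hx ⟨σ, Subgroup.mem_zpowers σ⟩
    · intro h p
      have := h p
      rw [IntermediateField.mem_fixingSubgroup_iff] at this
      exact this _ (IntermediateField.mem_adjoin_simple_self ℚ _)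
  rw [h1]
  apply isClosed_iInter
  intro p
  have : FiniteDimensional ℚ (IntermediateField.adjoin ℚ {sq (p : ℕ)}) :=
    IntermediateField.adjoin.finiteDimensional (IsIntegral.tower_top (A := ℚ) (sq_integral p))
  exact IntermediateField.fixingSubgroup_isClosed _

/-! ### measure zero -/

instance : ContinuousMul (Qtr ≃ₐ[ℚ] Qtr) := inferInstance

lemma measure_H [MeasurableSpace (Qtr ≃ₐ[ℚ] Qtr)] [BorelSpace (Qtr ≃ₐ[ℚ] Qtr)]
    (μ : Measure (Qtr ≃ₐ[ℚ] Qtr)) [IsProbabilityMeasure μ] [μ.IsMulLeftInvariant] :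
    μ (H : Set (Qtr ≃ₐ[ℚ] Qtr)) = 0 := by
  by_contra hne
  have hinf := infinite_quot
  let g : ((Qtr ≃ₐ[ℚ] Qtr) ⧸ H) → (Qtr ≃ₐ[ℚ] Qtr) := Quotient.out
  let s : ((Qtr ≃ₐ[ℚ] Qtr) ⧸ H) → Set (Qtr ≃ₐ[ℚ] Qtr) := fun c => (fun x => (g c)⁻¹ * x) ⁻¹' H
  have hm : MeasurableSet (H : Set (Qtr ≃ₐ[ℚ] Qtr)) := isClosed_H.measurableSet
  have hs : ∀ c, μ (s c) = μ (H : Set (Qtr ≃ₐ[ℚ] Qtr)) := fun c => measure_preimage_mul μ _ _
  have hsm : ∀ c, NullMeasurableSet (s c) μ := fun c =>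
    (hm.preimage ((continuous_const_mul (g c)⁻¹).measurable)).nullMeasurableSet
  obtain ⟨c, d, hcd, x, hxc, hxd⟩ := exists_nonempty_inter_of_measure_univ_lt_tsum_measure μ hsm (by
    simp only [hs]
    rw [ENNReal.tsum_const_eq_top_of_ne_zero hne, measure_univ]
    exact ENNReal.one_lt_top)
  apply hcd
  have h1 : (QuotientGroup.mk (g c) : (Qtr ≃ₐ[ℚ] Qtr) ⧸ H) = QuotientGroup.mk x := QuotientGroup.eq.mpr hxc
  have h2 : (QuotientGroup.mk (g d) : (Qtr ≃ₐ[ℚ] Qtr) ⧸ H) = QuotientGroup.mk x := QuotientGroup.eq.mpr hxd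
  have h3 : (QuotientGroup.mk (g c) : (Qtr ≃ₐ[ℚ] Qtr) ⧸ H) = c := Quotient.out_eq c
  have h4 : (QuotientGroup.mk (g d) : (Qtr ≃ₐ[ℚ] Qtr) ⧸ H) = d := Quotient.out_eq d
  rw [← h3, h1, ← h2, h4]

/-! ### the sentences -/

/-- the sentence `∃ x, x * x = p` -/
noncomputable def sent (p : ℕ) : Language.ring.Sentence :=
  ∃' ((FirstOrder.Ring.termOfFreeCommRing
      ((FreeCommRing.of (Sum.inr 0 : Empty ⊕ Fin 1)) * (FreeCommRing.of (Sum.inr 0 : Empty ⊕ Fin 1)))) =' 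
    (FirstOrder.Ring.termOfFreeCommRing ((p : FreeCommRing (Empty ⊕ Fin 1)))))

lemma holds_sent (R : Type) [CommRing R] (p : ℕ) : Holds R (sent p) ↔ ∃ x : R, x * x = (p : R) := by
  unfold Holds sent
  letI := FirstOrder.Ring.compatibleRingOfRing R
  simp only [Sentence.Realize, Formula.Realize, BoundedFormula.realize_ex,
    BoundedFormula.realize_bdEqual, FirstOrder.Ring.realize_termOfFreeCommRing, map_mul,
    FreeCommRing.lift_of, map_natCast, Sum.elim_inr, Fin.snoc]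
  simp

lemma holds_iff (σ : Qtr ≃ₐ[ℚ] Qtr) (p : ℕ) : Holds (ZF σ) (sent p) ↔ σ (sq p) = sq p := by
  rw [holds_sent]
  constructor
  · rintro ⟨⟨x, hx1, hx2⟩, hx⟩
    have h1 : x * x = (p : Qtr) := by
      have := congrArg (Subtype.val) hx
      simpa using this
    have h2 : x ^ 2 = sq p ^ 2 := by rw [sq_sq, pow_two, h1]
    rcases sq_eq_sq_iff_eq_or_eq_neg.mp h2 with h | h
    · rw [← h]; exact hx2
    · have hx3 : σ x = x := hx2
      rw [h, map_neg, neg_inj] at hx3; exact hx3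
  · intro h
    refine ⟨⟨sq p, sq_integral p, h⟩, ?_⟩
    apply Subtype.ext
    simpa [pow_two] using sq_sq p

theorem main (code : Language.ring.Sentence → ℕ) [MeasurableSpace (Qtr ≃ₐ[ℚ] Qtr)]
    [BorelSpace (Qtr ≃ₐ[ℚ] Qtr)] (μ : Measure (Qtr ≃ₐ[ℚ] Qtr)) [IsProbabilityMeasure μ]
    [μ.IsMulLeftInvariant] : ∀ᵐ σ ∂μ, ¬ DecidableTheory code (ZF σ) := by
  rw [ae_iff]
  simp only [not_not]
  have hsub : {σ | DecidableTheory code (ZF σ)} ⊆
      ⋃ f ∈ {f : ℕ → Bool | Computable f}, {σ | ∀ φ, Holds (ZF σ) φ ↔ f (code φ) = true} := by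
    rintro σ ⟨f, hf, h⟩
    exact Set.mem_iUnion₂.mpr ⟨f, hf, h⟩
  refine measure_mono_null hsub ?_
  rw [measure_biUnion_null_iff countable_computable]
  intro f _
  by_cases hne : ({σ : Qtr ≃ₐ[ℚ] Qtr | ∀ φ, Holds (ZF σ) φ ↔ f (code φ) = true}).Nonempty
  · obtain ⟨τ, hτ⟩ := hne
    have h1 : {σ : Qtr ≃ₐ[ℚ] Qtr | ∀ φ, Holds (ZF σ) φ ↔ f (code φ) = true} ⊆
        (fun x => τ⁻¹ * x) ⁻¹' H := by
      intro σ hσ p
      have h2 : σ (sq p) = sq p ↔ τ (sq p) = sq p := by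
        rw [← holds_iff, ← holds_iff, hσ, hτ]
      change τ.symm (σ (sq p)) = sq p
      rw [AlgEquiv.symm_apply_eq]
      by_cases h3 : σ (sq p) = sq p
      · rw [h3, h2.mp h3]
      · have h4 : ¬ τ (sq p) = sq p := fun h => h3 (h2.mpr h)
        rw [(map_sq σ p).resolve_left h3, (map_sq τ p).resolve_left h4]
    refine measure_mono_null h1 ?_
    rw [measure_preimage_mul]
    exact measure_H μ
  · rw [Set.not_nonempty_iff_eq_empty] at hne
    rw [hne, measure_empty]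

theorem final [mG : MeasurableSpace G] [bG : BorelSpace G] :
    (∃ μ : Measure G, μ.IsHaarMeasure ∧ IsProbabilityMeasure μ) ∧
    ∀ (μ : Measure G) [μ.IsHaarMeasure] [IsProbabilityMeasure μ] (code : Language.ring.Sentence → ℕ),
      ∀ᵐ σ ∂μ, ¬ DecidableTheory code (ZtrFixed σ) := by
  refine ⟨?_, fun μ _ hp code => ?_⟩
  · have : IsTopologicalGroup G := inferInstanceAs (IsTopologicalGroup (Qtr ≃ₐ[ℚ] Qtr))
    have : CompactSpace G := inferInstanceAs (CompactSpace (Qtr ≃ₐ[ℚ] Qtr))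
    have : T2Space G := inferInstanceAs (T2Space (Qtr ≃ₐ[ℚ] Qtr))
    let K₀ : TopologicalSpace.PositiveCompacts G := ⊤
    refine ⟨Measure.haarMeasure K₀, inferInstance, ⟨?_⟩⟩
    exact Measure.haarMeasure_self (K₀ := K₀)
  · have h1 : μ.IsMulLeftInvariant := inferInstance
    exact @main code mG bG μ hp h1

end Pool.Agent.H3.TR
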