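import Mathlib

set_option autoImplicit false

namespace Pool.Agent.H3.Toric

open MvPolynomial

/-- weights of the source -/
abbrev W : Fin 3 ⊕ Fin 3 → ℕ × ℕ :=
  Sum.elim (fun _ : Fin 3 => ((1, 0) : ℕ × ℕ)) (fun _ : Fin 3 => ((0, 1) : ℕ × ℕ))

/-- weights of the target -/
def W' : Fin 4 → ℕ × ℕ := ![(1, 0), (0, 1), (0, 0), (0, 0)]

variable (e : Fin 3 ⊕ Fin 3 → (Fin 4 →₀ ℕ))

noncomputable def phi : MvPolynomial (Fin 3 ⊕ Fin 3) ℂ →ₐ[ℂ] MvPolynomial (Fin 4) ℂ :=
  aeval (fun i => monomial (e i) (1:ℂ))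

noncomputable def EE (α : Fin 3 ⊕ Fin 3 →₀ ℕ) : Fin 4 →₀ ℕ := ∑ i, α i • e i

lemma phi_monomial (α : Fin 3 ⊕ Fin 3 →₀ ℕ) (c : ℂ) :
    phi e (monomial α c) = monomial (EE e α) c := by
  rw [phi, aeval_monomial, Finsupp.prod_fintype _ _ (fun i => pow_zero _)]
  simp only [monomial_pow, one_pow]
  rw [← monomial_sum_one, EE, algebraMap_eq, C_mul_monomial, mul_one]

lemma weight_EE (he : ∀ i, Finsupp.weight W' (e i) = W i) (α : Fin 3 ⊕ Fin 3 →₀ ℕ) :
    Finsupp.weight W' (EE e α) = Finsupp.weight W α := by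
  rw [EE, map_sum, Finsupp.weight_apply, Finsupp.sum_fintype _ _ (fun i => zero_smul ℕ (W i))]
  refine Finset.sum_congr rfl fun i _ => ?_
  rw [map_nsmul, he]

lemma phi_comp (he : ∀ i, Finsupp.weight W' (e i) = W i) (f : MvPolynomial (Fin 3 ⊕ Fin 3) ℂ)
    (d : ℕ × ℕ) : phi e (weightedHomogeneousComponent W d f) =
      weightedHomogeneousComponent W' d (phi e f) := by
  classical
  induction f using MvPolynomial.induction_on' with
  | monomial α c =>
    rw [phi_monomial, weightedHomogeneousComponent_of_mem (isWeightedHomogeneous_monomial W α c rfl),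
      weightedHomogeneousComponent_of_mem (isWeightedHomogeneous_monomial W' (EE e α) c
        (weight_EE e he α))]
    split_ifs with h
    · rw [phi_monomial]
    · rw [map_zero]
  | add p q hp hq => rw [map_add, map_add, hp, hq, map_add, map_add]

noncomputable def PP : Ideal (MvPolynomial (Fin 3 ⊕ Fin 3) ℂ) := RingHom.ker (phi e)

lemma mem_PP {f : MvPolynomial (Fin 3 ⊕ Fin 3) ℂ} : f ∈ PP e ↔ phi e f = 0 := Iff.rfl

lemma prime_PP : (PP e).IsPrime := RingHom.ker_isPrime _

lemma bihom_PP (he : ∀ i, Finsupp.weight W' (e i) = W i) :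
    ∀ f ∈ PP e, ∀ d : ℕ × ℕ, weightedHomogeneousComponent W d f ∈ PP e := by
  intro f hf d
  rw [mem_PP] at hf ⊢
  rw [phi_comp e he, hf, map_zero]

lemma finrank_eq (s t : ℕ) : Module.finrank ℂ
    (↥(weightedHomogeneousSubmodule ℂ W (s, t)) ⧸
      Submodule.comap (weightedHomogeneousSubmodule ℂ W (s, t)).subtype
        ((PP e).restrictScalars ℂ)) =
    Nat.card (EE e '' {α | Finsupp.weight W α = (s, t)}) := by
  set Wst := weightedHomogeneousSubmodule ℂ W (s, t) with hWst
  set L : Wst →ₗ[ℂ] MvPolynomial (Fin 4) ℂ := (phi e).toLinearMap.comp Wst.subtype with hL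
  have hker : Submodule.comap Wst.subtype ((PP e).restrictScalars ℂ) = LinearMap.ker L := by
    ext x
    rfl
  rw [hker, L.quotKerEquivRange.finrank_eq]
  have hrange : LinearMap.range L = restrictSupport ℂ (EE e '' {α | Finsupp.weight W α = (s, t)}) := by
    have h1 : Wst = restrictSupport ℂ {α | Finsupp.weight W α = (s, t)} :=
      weightedHomogeneousSubmodule_eq_finsupp_supported ℂ W (s, t)
    rw [hL, LinearMap.range_comp, Submodule.range_subtype, h1, restrictSupport_eq_span,
      restrictSupport_eq_span, Submodule.map_span, Set.image_image, Set.image_image]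
    congr 1
    apply Set.image_congr
    intro α _
    exact phi_monomial e α 1
  rw [hrange]
  exact Module.finrank_eq_nat_card_basis (basisRestrictSupport ℂ _)

end Pool.Agent.H3.Toric
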