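import Mathlib
import Pool.Agent.H3.ToricA

set_option autoImplicit false

namespace Pool.Agent.H3.Toric

open MvPolynomial

noncomputable def vec (a b c d : ℕ) : Fin 4 →₀ ℕ :=
  Finsupp.equivFunOnFinite.symm ![a, b, c, d]

lemma vec_inj {a b c d a' b' c' d' : ℕ} (h : vec a b c d = vec a' b' c' d') :
    c = c' ∧ d = d' := by
  have h2 := DFunLike.congr_fun h 2
  have h3 := DFunLike.congr_fun h 3
  exact ⟨h2, h3⟩

noncomputable def ee (m : ℕ) : Fin 3 ⊕ Fin 3 → (Fin 4 →₀ ℕ) :=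
  Sum.elim ![vec 1 0 0 0, vec 1 0 1 0, vec 1 0 0 2] ![vec 0 1 0 0, vec 0 1 2 m, vec 0 1 2 (m + 1)]

lemma weight_vec (a b c d : ℕ) : Finsupp.weight W' (vec a b c d) = (a, b) := by
  rw [Finsupp.weight_apply, Finsupp.sum_fintype _ _ (fun i => zero_smul ℕ (W' i)),
    Fin.sum_univ_four]
  simp [vec, W']

lemma weight_ee (m : ℕ) : ∀ i, Finsupp.weight W' (ee m i) = W i := by
  intro i
  rcases i with i | i <;> fin_cases i <;> exact weight_vec _ _ _ _

lemma weight_W (α : Fin 3 ⊕ Fin 3 →₀ ℕ) : Finsupp.weight W α =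
    (α (Sum.inl 0) + α (Sum.inl 1) + α (Sum.inl 2), α (Sum.inr 0) + α (Sum.inr 1) + α (Sum.inr 2)) := by
  rw [Finsupp.weight_apply, Finsupp.sum_fintype _ _ (fun i => zero_smul ℕ (W i)),
    Fintype.sum_sum_type, Fin.sum_univ_three, Fin.sum_univ_three]
  simp

lemma EE_ee (m : ℕ) (α : Fin 3 ⊕ Fin 3 →₀ ℕ) : EE (ee m) α =
    vec (α (Sum.inl 0) + α (Sum.inl 1) + α (Sum.inl 2))
      (α (Sum.inr 0) + α (Sum.inr 1) + α (Sum.inr 2))
      (α (Sum.inl 1) + 2 * (α (Sum.inr 1) + α (Sum.inr 2)))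
      (m * (α (Sum.inr 1) + α (Sum.inr 2)) + (2 * α (Sum.inl 2) + α (Sum.inr 2))) := by
  rw [EE, Fintype.sum_sum_type, Fin.sum_univ_three, Fin.sum_univ_three]
  ext i
  fin_cases i
  · simp [ee, vec]
  · simp [ee, vec]
  · simp [ee, vec]; ring
  · simp [ee, vec]; ring

def Dm (s t i w v : ℕ) : Prop := i ≤ s ∧ w ≤ t ∧ v ≤ w + 2 * (s - i) ∧ (w = 0 → Even v)

lemma canon (m s t : ℕ) : ∀ i w v, Dm s t i w v → ∃ i' w' v', Dm s t i' w' v' ∧
    (v' < m ∨ i' < 2 ∨ w' = t) ∧ i' + 2 * w' = i + 2 * w ∧ m * w' + v' = m * w + v := by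
  intro i
  induction i using Nat.strong_induction_on with
  | _ i ih =>
    intro w v hD
    by_cases hc : v < m ∨ i < 2 ∨ w = t
    · exact ⟨i, w, v, hD, hc, rfl, rfl⟩
    · push Not at hc
      obtain ⟨h1, h2, h3⟩ := hc
      obtain ⟨d1, d2, d3, d4⟩ := hD
      obtain ⟨i', w', v', hD', hc', e1, e2⟩ := ih (i - 2) (by omega) (w + 1) (v - m)
        ⟨by omega, by omega, by omega, by omega⟩
      refine ⟨i', w', v', hD', hc', by omega, ?_⟩
      rw [e2, Nat.mul_add, mul_one]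
      omega

lemma canon_unique {m s t i w v i' w' v' : ℕ} (hD : Dm s t i w v) (hD' : Dm s t i' w' v')
    (hc : v < m ∨ i < 2 ∨ w = t) (hc' : v' < m ∨ i' < 2 ∨ w' = t)
    (e1 : i + 2 * w = i' + 2 * w') (e2 : m * w + v = m * w' + v') :
    i = i' ∧ w = w' ∧ v = v' := by
  obtain ⟨d1, d2, d3, d4⟩ := hD
  obtain ⟨d1', d2', d3', d4'⟩ := hD'
  rcases lt_trichotomy w w' with h | h | h
  · exfalso
    obtain ⟨k, rfl⟩ : ∃ k, w' = w + 1 + k := ⟨w' - w - 1, by omega⟩
    have : m * (w + 1 + k) = m * w + m + m * k := by ring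
    rw [this] at e2
    rcases hc with hc | hc | hc
    · omega
    · omega
    · omega
  · subst h
    refine ⟨by omega, rfl, by omega⟩
  · exfalso
    obtain ⟨k, rfl⟩ : ∃ k, w = w' + 1 + k := ⟨w - w' - 1, by omega⟩
    have : m * (w' + 1 + k) = m * w' + m + m * k := by ring
    rw [this] at e2
    rcases hc' with hc | hc | hc
    · omega
    · omega
    · omega

open Classical in
noncomputable def VV (m s t i w : ℕ) : Finset ℕ :=
  (Finset.range (w + 2 * (s - i) + 1)).filter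
    (fun v => (w = 0 → Even v) ∧ (v < m ∨ i < 2 ∨ w = t))

noncomputable def CC (m s t : ℕ) : Finset (Σ _ : ℕ × ℕ, ℕ) :=
  (Finset.range (s + 1) ×ˢ Finset.range (t + 1)).sigma (fun p => VV m s t p.1 p.2)

lemma mem_CC {m s t : ℕ} {x : Σ _ : ℕ × ℕ, ℕ} : x ∈ CC m s t ↔
    Dm s t x.1.1 x.1.2 x.2 ∧ (x.2 < m ∨ x.1.1 < 2 ∨ x.1.2 = t) := by
  rw [CC, Finset.mem_sigma, Finset.mem_product, Finset.mem_range, Finset.mem_range, VV,
    Finset.mem_filter, Finset.mem_range, Dm]
  constructor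
  · rintro ⟨⟨h1, h2⟩, h3, h4, h5⟩
    exact ⟨⟨by omega, by omega, by omega, h4⟩, h5⟩
  · rintro ⟨⟨h1, h2, h3, h4⟩, h5⟩
    exact ⟨⟨by omega, by omega⟩, by omega, h4, h5⟩

lemma image_eq (m s t : ℕ) : EE (ee m) '' {α | Finsupp.weight W α = (s, t)} =
    (fun x : Σ _ : ℕ × ℕ, ℕ => vec s t (x.1.1 + 2 * x.1.2) (m * x.1.2 + x.2)) ''
      (CC m s t : Set (Σ _ : ℕ × ℕ, ℕ)) := by
  ext y
  constructor
  · rintro ⟨α, hα, rfl⟩
    rw [Set.mem_ofPred_eq, weight_W, Prod.mk.injEq] at hα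
    obtain ⟨hs, ht⟩ := hα
    obtain ⟨i', w', v', hD', hc', e1, e2⟩ := canon m s t (α (Sum.inl 1))
      (α (Sum.inr 1) + α (Sum.inr 2)) (2 * α (Sum.inl 2) + α (Sum.inr 2))
      ⟨by omega, by omega, by omega, by
        intro h
        have : α (Sum.inr 2) = 0 := by omega
        rw [this]; exact ⟨α (Sum.inl 2), by ring⟩⟩
    refine ⟨⟨(i', w'), v'⟩, ?_, ?_⟩
    · rw [Finset.mem_coe, mem_CC]
      exact ⟨hD', hc'⟩
    · rw [EE_ee, hs, ht]
      show vec s t (i' + 2 * w') (m * w' + v') = _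
      rw [e1, e2]
  · rintro ⟨⟨⟨i, w⟩, v⟩, hx, rfl⟩
    rw [Finset.mem_coe, mem_CC] at hx
    obtain ⟨⟨d1, d2, d3, d4⟩, _⟩ := hx
    simp only at d1 d2 d3 d4
    obtain ⟨i', k, h1, h2, h3⟩ : ∃ i' k, i' ≤ s - i ∧ k ≤ w ∧ v = 2 * i' + k := by
      rcases Nat.eq_zero_or_pos w with h0 | h0
      · obtain ⟨r, hr⟩ := d4 h0
        exact ⟨r, 0, by omega, by omega, by omega⟩
      · by_cases h : v / 2 ≤ s - i
        · exact ⟨v / 2, v % 2, h, by omega, by omega⟩
        · exact ⟨s - i, v - 2 * (s - i), le_rfl, by omega, by omega⟩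
    refine ⟨Finsupp.equivFunOnFinite.symm (Sum.elim ![s - i - i', i, i'] ![t - w, w - k, k]), ?_, ?_⟩
    · rw [Set.mem_ofPred_eq, weight_W]
      show (s - i - i' + i + i', t - w + (w - k) + k) = (s, t)
      rw [Prod.mk.injEq]
      omega
    · rw [EE_ee]
      show vec (s - i - i' + i + i') (t - w + (w - k) + k) (i + 2 * (w - k + k))
        (m * (w - k + k) + (2 * i' + k)) = vec s t (i + 2 * w) (m * w + v)
      rw [show s - i - i' + i + i' = s by omega, show t - w + (w - k) + k = t by omega,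
        show w - k + k = w by omega, h3]

lemma card_image (m s t : ℕ) :
    Nat.card (EE (ee m) '' {α | Finsupp.weight W α = (s, t)}) = (CC m s t).card := by
  rw [image_eq, Nat.card_image_of_injOn, Nat.card_coe_set_eq, Set.ncard_coe_finset]
  rintro ⟨⟨i, w⟩, v⟩ hx ⟨⟨i', w'⟩, v'⟩ hx' h
  rw [Finset.mem_coe, mem_CC] at hx hx'
  obtain ⟨e1, e2⟩ := vec_inj h
  obtain ⟨h1, h2, h3⟩ := canon_unique hx.1 hx'.1 hx.2 hx'.2 e1 e2
  simp only at h1 h2 h3
  rw [h1, h2, h3]

/-! ### counting -/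

open Classical in
lemma evens (n : ℕ) : ((Finset.range n).filter (fun v => Even v)).card = (n + 1) / 2 := by
  induction n with
  | zero => simp
  | succ n ih =>
    rw [Finset.range_add_one, Finset.filter_insert]
    split_ifs with h
    · rw [Finset.card_insert_of_notMem (by simp), ih]
      obtain ⟨r, hr⟩ := h
      omega
    · rw [ih]
      rw [Nat.not_even_iff_odd] at h
      obtain ⟨r, hr⟩ := h
      omega

/-- full count -/
def full (j w : ℕ) : ℕ := if w = 0 then j + 1 else w + 2 * j + 1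

/-- truncated count -/
def gm (m j w : ℕ) : ℕ := if w = 0 then (min (2 * j + 1) m + 1) / 2 else min (w + 2 * j + 1) m

lemma card_VV_full (m s t i w : ℕ) (h : i < 2 ∨ w = t) : (VV m s t i w).card = full (s - i) w := by
  classical
  rw [VV, full]
  split_ifs with hw
  · subst hw
    rw [show (Finset.range (0 + 2 * (s - i) + 1)).filter
      (fun v => (0 = 0 → Even v) ∧ (v < m ∨ i < 2 ∨ 0 = t)) =
      (Finset.range (0 + 2 * (s - i) + 1)).filter (fun v => Even v) by
        apply Finset.filter_congr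
        intro v _
        constructor
        · intro hv; exact hv.1 rfl
        · intro hv; exact ⟨fun _ => hv, Or.inr h⟩]
    rw [evens]
    omega
  · rw [Finset.filter_true_of_mem, Finset.card_range]
    intro v _
    exact ⟨fun h0 => absurd h0 hw, Or.inr h⟩

lemma card_VV_gm (m s t i w : ℕ) (h : ¬ (i < 2 ∨ w = t)) :
    (VV m s t i w).card = gm m (s - i) w := by
  classical
  rw [VV, gm]
  split_ifs with hw
  · subst hw
    rw [show (Finset.range (0 + 2 * (s - i) + 1)).filter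
      (fun v => (0 = 0 → Even v) ∧ (v < m ∨ i < 2 ∨ 0 = t)) =
      (Finset.range (min (2 * (s - i) + 1) m)).filter (fun v => Even v) by
        ext v
        rw [Finset.mem_filter, Finset.mem_filter, Finset.mem_range, Finset.mem_range, lt_min_iff]
        constructor
        · rintro ⟨h1, h2, h3⟩
          refine ⟨⟨by omega, ?_⟩, h2 rfl⟩
          rcases h3 with h3 | h3
          · exact h3
          · exact absurd h3 h
        · rintro ⟨⟨h1, h2⟩, h3⟩
          exact ⟨by omega, fun _ => h3, Or.inl h2⟩]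
    rw [evens]
  · rw [show (Finset.range (w + 2 * (s - i) + 1)).filter
      (fun v => (w = 0 → Even v) ∧ (v < m ∨ i < 2 ∨ w = t)) =
      Finset.range (min (w + 2 * (s - i) + 1) m) by
        ext v
        rw [Finset.mem_filter, Finset.mem_range, Finset.mem_range, lt_min_iff]
        constructor
        · rintro ⟨h1, h2, h3⟩
          refine ⟨by omega, ?_⟩
          rcases h3 with h3 | h3
          · exact h3
          · exact absurd h3 h
        · rintro ⟨h1, h2⟩
          exact ⟨by omega, fun h0 => absurd h0 hw, Or.inl h2⟩]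
    rw [Finset.card_range]

lemma card_CC (m s t : ℕ) : (CC m (s + 2) t).card =
    ∑ w ∈ Finset.range (t + 1), (full (s + 2) w + full (s + 1) w) +
    ∑ j ∈ Finset.range (s + 1), full j t +
    ∑ j ∈ Finset.range (s + 1), ∑ w ∈ Finset.range t, gm m j w := by
  rw [CC, Finset.card_sigma, Finset.sum_product, Finset.sum_range_succ', Finset.sum_range_succ',
    ← Finset.sum_range_reflect (fun j => full j t), ← Finset.sum_range_reflect
      (fun j => ∑ w ∈ Finset.range t, gm m j w)]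
  have h0 : ∑ w ∈ Finset.range (t + 1), (VV m (s + 2) t 0 w).card =
      ∑ w ∈ Finset.range (t + 1), full (s + 2) w :=
    Finset.sum_congr rfl fun w _ => card_VV_full m (s + 2) t 0 w (Or.inl (by norm_num))
  have h1 : ∑ w ∈ Finset.range (t + 1), (VV m (s + 2) t (0 + 1) w).card =
      ∑ w ∈ Finset.range (t + 1), full (s + 1) w :=
    Finset.sum_congr rfl fun w _ => card_VV_full m (s + 2) t 1 w (Or.inl (by norm_num))
  have h2 : ∑ i ∈ Finset.range (s + 1), ∑ w ∈ Finset.range (t + 1),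
      (VV m (s + 2) t (i + 1 + 1) w).card =
      ∑ i ∈ Finset.range (s + 1), full (s + 1 - 1 - i) t +
      ∑ i ∈ Finset.range (s + 1), ∑ w ∈ Finset.range t, gm m (s + 1 - 1 - i) w := by
    rw [← Finset.sum_add_distrib]
    refine Finset.sum_congr rfl fun i hi => ?_
    rw [Finset.mem_range] at hi
    rw [Finset.sum_range_succ, add_comm]
    congr 1
    · rw [card_VV_full m (s + 2) t (i + 1 + 1) t (Or.inr rfl)]
      congr 1
      omega
    · refine Finset.sum_congr rfl fun w hw => ?_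
      rw [Finset.mem_range] at hw
      rw [card_VV_gm m (s + 2) t (i + 1 + 1) w (by omega)]
      congr 1
      omega
  rw [h0, h1, h2, Finset.sum_add_distrib]
  ring

/-- closed forms -/
lemma sum_full_w (j t : ℕ) : ((∑ w ∈ Finset.range (t + 1), full j w : ℕ) : ℚ) =
    (j + 1) + t * (t + 1) / 2 + (2 * j + 1) * t := by
  induction t with
  | zero => simp [full]
  | succ t ih =>
    rw [Finset.sum_range_succ, Nat.cast_add, ih, full, if_neg (by omega)]
    push_cast
    ring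

lemma sum_full_j (s t : ℕ) (ht : 1 ≤ t) : ((∑ j ∈ Finset.range (s + 1), full j t : ℕ) : ℚ) =
    (s + 1) * (t + 1) + s * (s + 1) := by
  induction s with
  | zero =>
    rw [Finset.sum_range_one, full, if_neg (by omega)]
    push_cast
    ring
  | succ s ih =>
    rw [Finset.sum_range_succ, Nat.cast_add, ih, full, if_neg (by omega)]
    push_cast
    ring

/-- limiting value -/
def mu (m w : ℕ) : ℕ := if w = 0 then (m + 1) / 2 else m

/-- deficit -/
def dfc (m j w : ℕ) : ℚ := (mu m w : ℚ) - gm m j w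

lemma dfc_zero {m j w : ℕ} (h : m ≤ j ∨ m ≤ w) : dfc m j w = 0 := by
  rw [dfc, mu, gm]
  split_ifs with hw
  · subst hw
    rcases h with h | h
    · rw [min_eq_right (by omega), sub_self]
    · rw [min_eq_right (by omega), sub_self]
  · rw [min_eq_right (by omega), sub_self]

lemma sum_mu (m t : ℕ) (ht : 1 ≤ t) : ((∑ w ∈ Finset.range t, mu m w : ℕ) : ℚ) =
    (mu m 0 : ℚ) + m * (t - 1) := by
  obtain ⟨t, rfl⟩ : ∃ t', t = t' + 1 := ⟨t - 1, by omega⟩
  induction t with
  | zero => simp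
  | succ t ih =>
    rw [Finset.sum_range_succ, Nat.cast_add, ih (by omega), mu, mu, if_pos rfl, if_neg (by omega)]
    push_cast
    ring

lemma sum_dfc (m s t : ℕ) (hs : m ≤ s) (ht : m ≤ t) :
    ∑ j ∈ Finset.range (s + 1), ∑ w ∈ Finset.range t, dfc m j w =
    ∑ j ∈ Finset.range m, ∑ w ∈ Finset.range m, dfc m j w := by
  symm
  rw [← Finset.sum_subset (Finset.range_subset_range.2 (by omega : m ≤ s + 1))]
  · refine Finset.sum_congr rfl fun j _ => ?_
    apply Finset.sum_subset (Finset.range_subset_range.2 ht)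
    intro w _ hw
    rw [Finset.mem_range, not_lt] at hw
    exact dfc_zero (Or.inr hw)
  · intro j _ hj
    rw [Finset.mem_range, not_lt] at hj
    exact Finset.sum_eq_zero fun w _ => dfc_zero (Or.inl hj)

lemma sum_gm (m s t : ℕ) (hs : m ≤ s) (ht : m ≤ t) (ht1 : 1 ≤ t) :
    ((∑ j ∈ Finset.range (s + 1), ∑ w ∈ Finset.range t, gm m j w : ℕ) : ℚ) =
    (s + 1) * ((mu m 0 : ℚ) + m * (t - 1)) -
      ∑ j ∈ Finset.range m, ∑ w ∈ Finset.range m, dfc m j w := by
  rw [← sum_dfc m s t hs ht, ← sum_mu m t ht1]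
  have : ∀ j w, (gm m j w : ℚ) = mu m w - dfc m j w := by
    intro j w; rw [dfc]; ring
  push_cast
  simp_rw [this, Finset.sum_sub_distrib]
  rw [Finset.sum_const, Finset.card_range]
  simp

lemma final_count (m s t : ℕ) (hs : m + 2 ≤ s) (ht : m + 1 ≤ t) :
    ((CC m s t).card : ℚ) = (s : ℚ) ^ 2 + ((m : ℚ) + 5) * s * t + (t : ℚ) ^ 2 +
      ((mu m 0 : ℚ) - m) * s + (-(m : ℚ)) * t +
      (m - mu m 0 + 2 - ∑ j ∈ Finset.range m, ∑ w ∈ Finset.range m, dfc m j w) := by
  obtain ⟨s, rfl⟩ : ∃ s', s = s' + 2 := ⟨s - 2, by omega⟩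
  rw [card_CC, Nat.cast_add, Nat.cast_add, Finset.sum_add_distrib, Nat.cast_add, sum_full_w,
    sum_full_w, sum_full_j s t (by omega), sum_gm m s t (by omega) (by omega) (by omega)]
  push_cast
  ring

end Pool.Agent.H3.Toric
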