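import Mathlib

/-! Power series (in the spectral parameter `w`) of the solutions of a linear system
`α' = w y2 (y1 α + y2 β)`, `β' = - w y1 (y1 α + y2 β)`. -/

set_option autoImplicit false
open MeasureTheory intervalIntegral Set Filter Topology

namespace Pool.Agent.H3.Volt

noncomputable def ab (y1 y2 : ℝ → ℂ) (x₀ : ℝ) (v : ℂ × ℂ) : ℕ → ℝ → ℂ × ℂ
  | 0 => fun _ => v
  | n + 1 => fun x => (∫ t in x₀..x, y2 t * (y1 t * (ab y1 y2 x₀ v n t).1 + y2 t * (ab y1 y2 x₀ v n t).2),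
      -∫ t in x₀..x, y1 t * (y1 t * (ab y1 y2 x₀ v n t).1 + y2 t * (ab y1 y2 x₀ v n t).2))

variable {y1 y2 : ℝ → ℂ} {x₀ : ℝ} {v : ℂ × ℂ}

lemma ab_cont (h1 : Continuous y1) (h2 : Continuous y2) (n : ℕ) :
    Continuous (fun x => (ab y1 y2 x₀ v n x).1) ∧ Continuous (fun x => (ab y1 y2 x₀ v n x).2) := by
  induction n with
  | zero => exact ⟨by simp only [ab]; exact continuous_const, by simp only [ab]; exact continuous_const⟩
  | succ n ih =>
    obtain ⟨i1, i2⟩ := ih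
    constructor
    · refine intervalIntegral.continuous_primitive (f := fun t => y2 t * (y1 t * (ab y1 y2 x₀ v n t).1 + y2 t * (ab y1 y2 x₀ v n t).2)) ?_ x₀
      intro a b
      exact (by fun_prop : Continuous fun t => y2 t * (y1 t * (ab y1 y2 x₀ v n t).1 + y2 t * (ab y1 y2 x₀ v n t).2)).intervalIntegrable _ _
    · refine (intervalIntegral.continuous_primitive (f := fun t => y1 t * (y1 t * (ab y1 y2 x₀ v n t).1 + y2 t * (ab y1 y2 x₀ v n t).2)) ?_ x₀).neg
      intro a b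
      exact (by fun_prop : Continuous fun t => y1 t * (y1 t * (ab y1 y2 x₀ v n t).1 + y2 t * (ab y1 y2 x₀ v n t).2)).intervalIntegrable _ _

lemma ab_deriv (h1 : Continuous y1) (h2 : Continuous y2) (n : ℕ) (x : ℝ) :
    HasDerivAt (fun x => (ab y1 y2 x₀ v (n+1) x).1)
      (y2 x * (y1 x * (ab y1 y2 x₀ v n x).1 + y2 x * (ab y1 y2 x₀ v n x).2)) x ∧
    HasDerivAt (fun x => (ab y1 y2 x₀ v (n+1) x).2)
      (-(y1 x * (y1 x * (ab y1 y2 x₀ v n x).1 + y2 x * (ab y1 y2 x₀ v n x).2))) x := by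
  obtain ⟨i1, i2⟩ := ab_cont (x₀ := x₀) (v := v) h1 h2 n
  have c1 : Continuous fun t => y2 t * (y1 t * (ab y1 y2 x₀ v n t).1 + y2 t * (ab y1 y2 x₀ v n t).2) := by fun_prop
  have c2 : Continuous fun t => y1 t * (y1 t * (ab y1 y2 x₀ v n t).1 + y2 t * (ab y1 y2 x₀ v n t).2) := by fun_prop
  constructor
  · exact intervalIntegral.integral_hasDerivAt_right (c1.intervalIntegrable _ _)
      (c1.stronglyMeasurableAtFilter _ _) c1.continuousAt
  · exact (intervalIntegral.integral_hasDerivAt_right (c2.intervalIntegrable _ _)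
      (c2.stronglyMeasurableAtFilter _ _) c2.continuousAt).neg

lemma ab_bound (h1 : Continuous y1) (h2 : Continuous y2) {M C : ℝ} (hM : 0 ≤ M) (hC : 0 ≤ C)
    (b1 : ∀ x, ‖y1 x‖ ≤ M) (b2 : ∀ x, ‖y2 x‖ ≤ M) (hv1 : ‖v.1‖ ≤ C) (hv2 : ‖v.2‖ ≤ C) (n : ℕ) (x : ℝ) :
    ‖(ab y1 y2 x₀ v n x).1‖ ≤ C * (2 * M ^ 2 * |x - x₀|) ^ n / n.factorial ∧
    ‖(ab y1 y2 x₀ v n x).2‖ ≤ C * (2 * M ^ 2 * |x - x₀|) ^ n / n.factorial := by
  induction n generalizing x with
  | zero => simp [ab, hv1, hv2]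
  | succ n ih =>
    have key : ∀ z : ℝ → ℂ, (∀ x, ‖z x‖ ≤ M) → Continuous z →
        ‖∫ t in x₀..x, z t * (y1 t * (ab y1 y2 x₀ v n t).1 + y2 t * (ab y1 y2 x₀ v n t).2)‖
        ≤ C * (2 * M ^ 2 * |x - x₀|) ^ (n+1) / (n+1).factorial := by
      intro z hz hzc
      obtain ⟨i1, i2⟩ := ab_cont (x₀ := x₀) (v := v) h1 h2 n
      refine (intervalIntegral.norm_integral_le_integral_norm_uIoc).trans ?_
      have hle : ∀ t, ‖z t * (y1 t * (ab y1 y2 x₀ v n t).1 + y2 t * (ab y1 y2 x₀ v n t).2)‖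
          ≤ (C * (2 * M ^ 2) ^ (n+1) / n.factorial) * |t - x₀| ^ n := by
        intro t
        obtain ⟨j1, j2⟩ := ih t
        have hB : 0 ≤ C * (2 * M ^ 2 * |t - x₀|) ^ n / n.factorial := by positivity
        calc ‖z t * (y1 t * (ab y1 y2 x₀ v n t).1 + y2 t * (ab y1 y2 x₀ v n t).2)‖
            ≤ M * (M * (C * (2 * M ^ 2 * |t - x₀|) ^ n / n.factorial) + M * (C * (2 * M ^ 2 * |t - x₀|) ^ n / n.factorial)) := by
              rw [norm_mul]
              apply mul_le_mul (hz t) _ (norm_nonneg _) hM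
              refine (norm_add_le _ _).trans ?_
              rw [norm_mul, norm_mul]
              exact add_le_add (mul_le_mul (b1 t) j1 (norm_nonneg _) hM) (mul_le_mul (b2 t) j2 (norm_nonneg _) hM)
          _ = (C * (2 * M ^ 2) ^ (n+1) / n.factorial) * |t - x₀| ^ n := by
              rw [mul_pow, pow_succ]; ring
      have hint : (∫ t in Set.uIoc x₀ x, ‖z t * (y1 t * (ab y1 y2 x₀ v n t).1 + y2 t * (ab y1 y2 x₀ v n t).2)‖)
          ≤ ∫ t in Set.uIoc x₀ x, (C * (2 * M ^ 2) ^ (n+1) / n.factorial) * |t - x₀| ^ n := by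
        apply MeasureTheory.integral_mono
        · have : Continuous fun t => ‖z t * (y1 t * (ab y1 y2 x₀ v n t).1 + y2 t * (ab y1 y2 x₀ v n t).2)‖ := by fun_prop
          exact (this.integrableOn_uIcc (a := x₀) (b := x)).mono_set uIoc_subset_uIcc
        · have : Continuous fun t : ℝ => (C * (2 * M ^ 2) ^ (n+1) / n.factorial) * |t - x₀| ^ n := by fun_prop
          exact (this.integrableOn_uIcc (a := x₀) (b := x)).mono_set uIoc_subset_uIcc
        · exact fun t => hle t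
      refine hint.trans (le_of_eq ?_)
      rw [MeasureTheory.integral_const_mul, integral_pow_abs_sub_uIoc, mul_pow (2 * M ^ 2) (|x - x₀|),
        Nat.factorial_succ]
      push_cast
      field_simp
    constructor
    · exact key y2 b2 h2
    · simp only [ab, norm_neg]
      exact key y1 b1 h1

/-- entire functions given by coefficient bounds -/
lemma summ {a : ℕ → ℂ} {C κ : ℝ} (h : ∀ n, ‖a n‖ ≤ C * κ ^ n / n.factorial) (w : ℂ) :
    Summable fun n => w ^ n * a n := by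
  apply Summable.of_norm_bounded (g := fun n => C * ((‖w‖ * κ) ^ n / n.factorial))
    ((Real.summable_pow_div_factorial _).mul_left C)
  intro n
  rw [norm_mul, norm_pow, mul_pow]
  calc ‖w‖ ^ n * ‖a n‖ ≤ ‖w‖ ^ n * (C * κ ^ n / n.factorial) :=
        mul_le_mul_of_nonneg_left (h n) (by positivity)
    _ = C * (‖w‖ ^ n * κ ^ n / n.factorial) := by ring

lemma entire {a : ℕ → ℂ} {C κ : ℝ} (hC : 0 ≤ C) (hκ : 0 ≤ κ) (h : ∀ n, ‖a n‖ ≤ C * κ ^ n / n.factorial) (z : ℂ) :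
    AnalyticAt ℂ (fun w : ℂ => ∑' n, w ^ n * a n) z := by
  have hd : DifferentiableOn ℂ (fun w : ℂ => ∑' n, w ^ n * a n) (Metric.ball 0 (‖z‖ + 1)) := by
    apply Complex.differentiableOn_tsum_of_summable_norm
      (u := fun n => C * (((‖z‖ + 1) * κ) ^ n / n.factorial))
      ((Real.summable_pow_div_factorial _).mul_left C)
    · intro n; fun_prop
    · exact Metric.isOpen_ball
    · intro n w hw
      rw [Metric.mem_ball, dist_zero_right] at hw
      rw [norm_mul, norm_pow, mul_pow]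
      calc ‖w‖ ^ n * ‖a n‖ ≤ (‖z‖ + 1) ^ n * (C * κ ^ n / n.factorial) :=
            mul_le_mul (pow_le_pow_left₀ (norm_nonneg _) hw.le n) (h n) (norm_nonneg _) (by positivity)
        _ = C * ((‖z‖ + 1) ^ n * κ ^ n / n.factorial) := by ring
  exact hd.analyticAt (Metric.isOpen_ball.mem_nhds (by simp))

lemma shift {a : ℕ → ℂ} {C κ : ℝ} (h : ∀ n, ‖a n‖ ≤ C * κ ^ n / n.factorial) (w : ℂ) :
    ∑' n, w ^ n * a n = a 0 + w * ∑' n, w ^ n * a (n+1) := by
  rw [(summ h w).tsum_eq_zero_add, ← tsum_mul_left]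
  congr 1
  · simp
  · congr 1; ext n; ring

lemma shift_bound {a : ℕ → ℂ} {C κ : ℝ} (hC : 0 ≤ C) (hκ : 0 ≤ κ) (h : ∀ n, ‖a n‖ ≤ C * κ ^ n / n.factorial) (n : ℕ) :
    ‖a (n+1)‖ ≤ (C * κ) * κ ^ n / n.factorial := by
  refine (h (n+1)).trans ?_
  rw [pow_succ, Nat.factorial_succ]
  push_cast
  have h1 : (0 : ℝ) < n.factorial := by exact_mod_cast n.factorial_pos
  rw [div_le_div_iff₀ (by positivity) h1]
  have : 0 ≤ C * κ * κ ^ n * n.factorial := by positivity
  nlinarith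

/-- the solution -/
noncomputable def α (y1 y2 : ℝ → ℂ) (x₀ : ℝ) (v : ℂ × ℂ) (w : ℂ) (x : ℝ) : ℂ :=
  ∑' n, w ^ n * (ab y1 y2 x₀ v n x).1

noncomputable def β (y1 y2 : ℝ → ℂ) (x₀ : ℝ) (v : ℂ × ℂ) (w : ℂ) (x : ℝ) : ℂ :=
  ∑' n, w ^ n * (ab y1 y2 x₀ v n x).2

lemma αβ_deriv (h1 : Continuous y1) (h2 : Continuous y2) {M : ℝ}
    (b1 : ∀ x, ‖y1 x‖ ≤ M) (b2 : ∀ x, ‖y2 x‖ ≤ M) (w : ℂ) (x : ℝ) :
    HasDerivAt (α y1 y2 x₀ v w) (w * (y2 x * (y1 x * α y1 y2 x₀ v w x + y2 x * β y1 y2 x₀ v w x))) x ∧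
    HasDerivAt (β y1 y2 x₀ v w) (-(w * (y1 x * (y1 x * α y1 y2 x₀ v w x + y2 x * β y1 y2 x₀ v w x)))) x := by
  have hM : 0 ≤ M := (norm_nonneg _).trans (b1 0)
  set C : ℝ := max ‖v.1‖ ‖v.2‖ with hCd
  have hC : 0 ≤ C := (norm_nonneg _).trans (le_max_left _ _)
  have hb := fun n x => ab_bound (x₀ := x₀) (v := v) h1 h2 hM hC b1 b2 (le_max_left _ _) (le_max_right _ _) n x
  set R : ℝ := |x - x₀| + 1 with hR
  have hR0 : 0 ≤ R := by positivity
  have hball : ∀ y ∈ Metric.ball x₀ R, |y - x₀| ≤ R := by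
    intro y hy; rw [Metric.mem_ball, Real.dist_eq] at hy; exact hy.le
  have hxb : x ∈ Metric.ball x₀ R := by rw [Metric.mem_ball, Real.dist_eq]; linarith
  have hS1 := fun y => summ (fun n => (hb n y).1) w
  have hS2 := fun y => summ (fun n => (hb n y).2) w
  have gen : ∀ (z : ℝ → ℂ) (c : ℕ → ℝ → ℂ), (∀ x, ‖z x‖ ≤ M) →
      (∀ n y, HasDerivAt (c (n+1)) (z y * (y1 y * (ab y1 y2 x₀ v n y).1 + y2 y * (ab y1 y2 x₀ v n y).2)) y) →
      (∀ y, HasDerivAt (c 0) 0 y) → (Summable fun n => w ^ n * c n x₀) →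
      HasDerivAt (fun y => ∑' n, w ^ n * c n y)
        (w * (z x * (y1 x * α y1 y2 x₀ v w x + y2 x * β y1 y2 x₀ v w x))) x := by
    intro z c hz hc hc0 hsum
    set g' : ℕ → ℝ → ℂ := fun n y => match n with
      | 0 => 0
      | n + 1 => w ^ (n+1) * (z y * (y1 y * (ab y1 y2 x₀ v n y).1 + y2 y * (ab y1 y2 x₀ v n y).2)) with hg'
    set u : ℕ → ℝ := fun n => match n with
      | 0 => 0
      | n + 1 => (‖w‖ * (2 * M ^ 2) * C) * ((‖w‖ * (2 * M ^ 2 * R)) ^ n / n.factorial) with hu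
    have husum : Summable u := by
      rw [← summable_nat_add_iff 1]
      exact (Real.summable_pow_div_factorial _).mul_left _
    have hbg : ∀ n y, y ∈ Metric.ball x₀ R → ‖g' n y‖ ≤ u n := by
      intro n y hy
      cases n with
      | zero => simp [hg', hu]
      | succ n =>
        simp only [hg', hu]
        obtain ⟨j1, j2⟩ := hb n y
        have hyR := hball y hy
        have e1 : C * (2 * M ^ 2 * |y - x₀|) ^ n / n.factorial ≤ C * (2 * M ^ 2 * R) ^ n / n.factorial := by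
          gcongr
        calc ‖w ^ (n+1) * (z y * (y1 y * (ab y1 y2 x₀ v n y).1 + y2 y * (ab y1 y2 x₀ v n y).2))‖
            = ‖w‖ ^ (n+1) * (‖z y‖ * ‖y1 y * (ab y1 y2 x₀ v n y).1 + y2 y * (ab y1 y2 x₀ v n y).2‖) := by
              rw [norm_mul, norm_pow, norm_mul]
          _ ≤ ‖w‖ ^ (n+1) * (M * (M * (C * (2 * M ^ 2 * R) ^ n / n.factorial) + M * (C * (2 * M ^ 2 * R) ^ n / n.factorial))) := by
              apply mul_le_mul_of_nonneg_left _ (by positivity)
              apply mul_le_mul (hz y) _ (norm_nonneg _) hM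
              refine (norm_add_le _ _).trans ?_
              rw [norm_mul, norm_mul]
              exact add_le_add (mul_le_mul (b1 y) (j1.trans e1) (norm_nonneg _) hM) (mul_le_mul (b2 y) (j2.trans e1) (norm_nonneg _) hM)
          _ = _ := by rw [mul_pow ‖w‖, pow_succ]; ring
    have hder : ∀ n y, y ∈ Metric.ball x₀ R → HasDerivAt (fun y => w ^ n * c n y) (g' n y) y := by
      intro n y _
      cases n with
      | zero => simpa [hg'] using hc0 y
      | succ n => simp only [hg']; exact (hc n y).const_mul _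
    have := hasDerivAt_tsum_of_isPreconnected husum Metric.isOpen_ball
      (convex_ball x₀ R).isPreconnected hder hbg (Metric.mem_ball_self (by positivity)) hsum hxb
    refine this.congr_deriv ?_
    have hsg : Summable fun n => g' n x := by
      apply Summable.of_norm_bounded husum
      intro n; exact hbg n x hxb
    rw [hsg.tsum_eq_zero_add]
    simp only [hg', zero_add]
    unfold α β
    have e2 : ∀ n : ℕ, w ^ (n+1) * (z x * (y1 x * (ab y1 y2 x₀ v n x).1 + y2 x * (ab y1 y2 x₀ v n x).2))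
        = w * (z x * (y1 x * (w ^ n * (ab y1 y2 x₀ v n x).1) + y2 x * (w ^ n * (ab y1 y2 x₀ v n x).2))) := by
      intro n; ring
    simp_rw [e2]
    rw [tsum_mul_left, tsum_mul_left, Summable.tsum_add ((hS1 x).mul_left _) ((hS2 x).mul_left _),
      tsum_mul_left, tsum_mul_left]
  constructor
  · exact gen y2 (fun n y => (ab y1 y2 x₀ v n y).1) b2 (fun n y => (ab_deriv h1 h2 n y).1)
      (fun y => by simpa [ab] using hasDerivAt_const y v.1) (hS1 x₀)
  · have := gen (fun y => - y1 y) (fun n y => (ab y1 y2 x₀ v n y).2) (fun x => by rw [norm_neg]; exact b1 x)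
      (fun n y => (ab_deriv (x₀ := x₀) (v := v) h1 h2 n y).2.congr_deriv (by ring))
      (fun y => by simpa [ab] using hasDerivAt_const y v.2) (hS2 x₀)
    exact this.congr_deriv (by ring)

lemma ab_x0 (n : ℕ) : ab y1 y2 x₀ v (n+1) x₀ = 0 := by
  simp [ab]

lemma α_x0 (w : ℂ) : α y1 y2 x₀ v w x₀ = v.1 := by
  unfold α
  rw [tsum_eq_single 0]
  · simp [ab]
  · intro n hn
    obtain ⟨m, rfl⟩ := Nat.exists_eq_succ_of_ne_zero hn
    simp [ab_x0]

lemma β_x0 (w : ℂ) : β y1 y2 x₀ v w x₀ = v.2 := by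
  unfold β
  rw [tsum_eq_single 0]
  · simp [ab]
  · intro n hn
    obtain ⟨m, rfl⟩ := Nat.exists_eq_succ_of_ne_zero hn
    simp [ab_x0]

end Pool.Agent.H3.Volt
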