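import Mathlib

set_option autoImplicit false

open MeasureTheory
open scoped ContDiff

namespace Pool.Agent.H3.WH

/-- `∫ (1+|x|²)^α |∇u|² ≥ c ∫ (1+|x|²)^(α-1) u²` for all real-valued `u ∈ C_c^∞(ℝⁿ)`
(`∞` is `C^∞`-smoothness; `‖fderiv ℝ u x‖` is the operator norm of the differential, which is `|∇u(x)|`). -/
def Hardy (n : ℕ) (α c : ℝ) : Prop :=
  ∀ u : EuclideanSpace ℝ (Fin n) → ℝ, ContDiff ℝ ∞ u → HasCompactSupport u →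
    c * ∫ x, (1 + ‖x‖ ^ 2) ^ (α - 1) * u x ^ 2 ≤ ∫ x, (1 + ‖x‖ ^ 2) ^ α * ‖fderiv ℝ u x‖ ^ 2

end Pool.Agent.H3.WH
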