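import Mathlib
import Pool.Agent.H3.WHDefs

set_option autoImplicit false

open MeasureTheory Set Filter Topology

namespace Pool.Agent.H3.WH

variable {n : ℕ}


lemma q_pos (x : (EuclideanSpace ℝ (Fin n))) : 0 < 1 + ‖x‖ ^ 2 := by positivity

lemma hasF_q (s : ℝ) (x : (EuclideanSpace ℝ (Fin n))) : HasFDerivAt (fun x : (EuclideanSpace ℝ (Fin n)) => (1 + ‖x‖ ^ 2) ^ s)
    ((s * (1 + ‖x‖ ^ 2) ^ (s - 1)) • (2 • (innerSL ℝ x))) x := by
  have h1 : HasFDerivAt (fun x : (EuclideanSpace ℝ (Fin n)) => 1 + ‖x‖ ^ 2) (2 • (innerSL ℝ x)) x :=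
    (hasStrictFDerivAt_norm_sq x).hasFDerivAt.const_add 1
  exact h1.rpow_const (Or.inl (q_pos x).ne')

lemma cont_q (s : ℝ) : Continuous (fun x : (EuclideanSpace ℝ (Fin n)) => (1 + ‖x‖ ^ 2) ^ s) :=
  (continuous_const.add (continuous_norm.pow 2)).rpow_const fun x => Or.inl (q_pos x).ne'

noncomputable def g (s : ℝ) (i : Fin n) (x : (EuclideanSpace ℝ (Fin n))) : ℝ := x i * (1 + ‖x‖ ^ 2) ^ s

lemma hasF_coord (i : Fin n) (x : (EuclideanSpace ℝ (Fin n))) : HasFDerivAt (fun x : (EuclideanSpace ℝ (Fin n)) => x i) (EuclideanSpace.proj i : (EuclideanSpace ℝ (Fin n)) →L[ℝ] ℝ) x :=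
  (EuclideanSpace.proj i : (EuclideanSpace ℝ (Fin n)) →L[ℝ] ℝ).hasFDerivAt

lemma hasF_g (s : ℝ) (i : Fin n) (x : (EuclideanSpace ℝ (Fin n))) : HasFDerivAt (g s i)
    (x i • ((s * (1 + ‖x‖ ^ 2) ^ (s - 1)) • (2 • (innerSL ℝ x))) +
      (1 + ‖x‖ ^ 2) ^ s • (EuclideanSpace.proj i : (EuclideanSpace ℝ (Fin n)) →L[ℝ] ℝ)) x :=
  (hasF_coord i x).mul (hasF_q s x)

lemma fderiv_g (s : ℝ) (i : Fin n) (x : (EuclideanSpace ℝ (Fin n))) :
    fderiv ℝ (g s i) x (EuclideanSpace.single i 1) =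
      (1 + ‖x‖ ^ 2) ^ s + 2 * s * (1 + ‖x‖ ^ 2) ^ (s - 1) * x i ^ 2 := by
  rw [(hasF_g s i x).fderiv]
  simp [EuclideanSpace.inner_single_right]
  ring

lemma sum_sq (x : (EuclideanSpace ℝ (Fin n))) : ∑ i, x i ^ 2 = ‖x‖ ^ 2 := by
  rw [EuclideanSpace.norm_sq_eq]
  simp

lemma lin_sum (L : (EuclideanSpace ℝ (Fin n)) →L[ℝ] ℝ) (x : (EuclideanSpace ℝ (Fin n))) : ∑ i, x i * L (EuclideanSpace.single i 1) = L x := by
  have h := (EuclideanSpace.basisFun (Fin n) ℝ).sum_repr x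
  conv_rhs => rw [← h]
  rw [map_sum]
  refine Finset.sum_congr rfl fun i _ => ?_
  simp

lemma ibp {v : (EuclideanSpace ℝ (Fin n)) → ℝ} (hv : ContDiff ℝ 1 v) (hc : HasCompactSupport v) (s : ℝ) :
    ∫ x, (fderiv ℝ v x x) * (1 + ‖x‖ ^ 2) ^ s =
      - ∫ x, v x * ((n:ℝ) * (1 + ‖x‖ ^ 2) ^ s + 2 * s * ‖x‖ ^ 2 * (1 + ‖x‖ ^ 2) ^ (s - 1)) := by
  have hd : Differentiable ℝ v := hv.differentiable one_ne_zero
  have hfc : Continuous (fderiv ℝ v) := hv.continuous_fderiv one_ne_zero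
  have hcx : ∀ i : Fin n, Continuous (fun x : (EuclideanSpace ℝ (Fin n)) => x i) := fun i => (EuclideanSpace.proj i : (EuclideanSpace ℝ (Fin n)) →L[ℝ] ℝ).continuous
  have hgc : ∀ i, Continuous (g s i) := fun i => (hcx i).mul (cont_q s)
  have hfg : ∀ i, Continuous (fun x : (EuclideanSpace ℝ (Fin n)) => fderiv ℝ (g s i) x (EuclideanSpace.single i 1)) := by
    intro i
    simp only [fderiv_g]
    exact (cont_q s).add ((continuous_const.mul (cont_q (s-1))).mul ((hcx i).pow 2))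
  have hfv : ∀ i : Fin n, Continuous (fun x : (EuclideanSpace ℝ (Fin n)) => fderiv ℝ v x (EuclideanSpace.single i 1)) := fun i =>
    hfc.clm_apply continuous_const
  have i1 : ∀ i, Integrable (fun x : (EuclideanSpace ℝ (Fin n)) => fderiv ℝ (g s i) x (EuclideanSpace.single i 1) * v x) := fun i =>
    ((hfg i).mul hd.continuous).integrable_of_hasCompactSupport hc.mul_left
  have i2 : ∀ i, Integrable (fun x : (EuclideanSpace ℝ (Fin n)) => g s i x * fderiv ℝ v x (EuclideanSpace.single i 1)) := fun i =>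
    ((hgc i).mul (hfv i)).integrable_of_hasCompactSupport
      ((hc.fderiv_apply (𝕜 := ℝ) (EuclideanSpace.single i (1:ℝ))).mul_left)
  have i3 : ∀ i, Integrable (fun x : (EuclideanSpace ℝ (Fin n)) => g s i x * v x) := fun i =>
    ((hgc i).mul hd.continuous).integrable_of_hasCompactSupport hc.mul_left
  have key : ∀ i, ∫ x : (EuclideanSpace ℝ (Fin n)), g s i x * fderiv ℝ v x (EuclideanSpace.single i 1) =
      - ∫ x : (EuclideanSpace ℝ (Fin n)), fderiv ℝ (g s i) x (EuclideanSpace.single i 1) * v x := fun i =>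
    integral_mul_fderiv_eq_neg_fderiv_mul_of_integrable (i1 i) (i2 i) (i3 i)
      (fun x _ => (hasF_g s i x).differentiableAt) (fun x _ => hd x)
  have l1 : ∫ x, (fderiv ℝ v x x) * (1 + ‖x‖ ^ 2) ^ s =
      ∑ i, ∫ x : (EuclideanSpace ℝ (Fin n)), g s i x * fderiv ℝ v x (EuclideanSpace.single i 1) := by
    rw [← integral_finsetSum _ fun i _ => i2 i]
    refine integral_congr_ae (Eventually.of_forall fun x => ?_)
    simp only [g]
    rw [← lin_sum (fderiv ℝ v x) x, Finset.sum_mul]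
    exact Finset.sum_congr rfl fun i _ => by ring
  have l2 : ∫ x, v x * ((n:ℝ) * (1 + ‖x‖ ^ 2) ^ s + 2 * s * ‖x‖ ^ 2 * (1 + ‖x‖ ^ 2) ^ (s - 1)) =
      ∑ i, ∫ x : (EuclideanSpace ℝ (Fin n)), fderiv ℝ (g s i) x (EuclideanSpace.single i 1) * v x := by
    rw [← integral_finsetSum _ fun i _ => i1 i]
    refine integral_congr_ae (Eventually.of_forall fun x => ?_)
    simp only [fderiv_g]
    rw [← Finset.sum_mul, Finset.sum_add_distrib, Finset.sum_const, ← Finset.mul_sum, sum_sq]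
    simp only [Finset.card_univ, Fintype.card_fin, nsmul_eq_mul]
    ring
  rw [l1, l2, ← Finset.sum_neg_distrib]
  exact Finset.sum_congr rfl fun i _ => key i

/-! ### lower bound -/

lemma hardy_of {α γ c : ℝ} (hγ : 0 ≤ γ) (h1 : c ≤ 2 * γ * n) (h2 : c ≤ 2 * γ * (n + 2 * (α - 1) - 2 * γ)) :
    Hardy n α c := by
  intro u hu hcu
  have hu1 : ContDiff ℝ 1 u := hu.of_le (by simp)
  have hd : Differentiable ℝ u := hu1.differentiable one_ne_zero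
  have hfc : Continuous (fderiv ℝ u) := hu1.continuous_fderiv one_ne_zero
  have hsq : ContDiff ℝ 1 (fun x => u x ^ 2) := hu1.pow 2
  have hcsq : HasCompactSupport (fun x => u x ^ 2) := by
    have : (fun x => u x ^ 2) = u * u := by funext x; simp [pow_two]
    rw [this]; exact hcu.mul_left
  have hfs : ∀ x, fderiv ℝ (fun x => u x ^ 2) x = (2 * u x) • fderiv ℝ u x := by
    intro x
    have := ((hd x).hasFDerivAt.pow 2).fderiv
    rw [this]; simp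
  have hib := ibp hsq hcsq (α - 1)
  simp only [hfs, smul_apply, smul_eq_mul] at hib
  set q : (EuclideanSpace ℝ (Fin n)) → ℝ := fun x => 1 + ‖x‖ ^ 2 with hq
  have hcx : Continuous (fun x : (EuclideanSpace ℝ (Fin n)) => fderiv ℝ u x x) := hfc.clm_apply continuous_id
  have iA : Integrable (fun x : (EuclideanSpace ℝ (Fin n)) => (1 + ‖x‖ ^ 2) ^ α * ‖fderiv ℝ u x‖ ^ 2) := by
    apply ((cont_q α).mul (hfc.norm.pow 2)).integrable_of_hasCompactSupport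
    have h3 : HasCompactSupport (fun x => ‖fderiv ℝ u x‖ ^ 2) := by
      have := (hcu.fderiv (𝕜 := ℝ)).norm
      exact this.comp_left (g := fun t : ℝ => t ^ 2) (by simp)
    exact h3.mul_left
  have iB : Integrable (fun x : (EuclideanSpace ℝ (Fin n)) => 2 * u x * (fderiv ℝ u x x) * (1 + ‖x‖ ^ 2) ^ (α - 1)) := by
    apply (((continuous_const.mul hd.continuous).mul hcx).mul (cont_q (α-1))).integrable_of_hasCompactSupport
    exact ((hcu.mul_left (f := fun _ => (2:ℝ))).mul_right).mul_right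
  have iC : Integrable (fun x : (EuclideanSpace ℝ (Fin n)) => ‖x‖ ^ 2 * (1 + ‖x‖ ^ 2) ^ (α - 2) * u x ^ 2) := by
    apply (((continuous_norm.pow 2).mul (cont_q (α-2))).mul (hd.continuous.pow 2)).integrable_of_hasCompactSupport
    exact hcsq.mul_left
  have iD : Integrable (fun x : (EuclideanSpace ℝ (Fin n)) => u x ^ 2 * ((n:ℝ) * (1 + ‖x‖ ^ 2) ^ (α - 1) +
      2 * (α - 1) * ‖x‖ ^ 2 * (1 + ‖x‖ ^ 2) ^ (α - 1 - 1))) := by
    apply ((hd.continuous.pow 2).mul ((continuous_const.mul (cont_q (α-1))).add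
      ((continuous_const.mul (continuous_norm.pow 2)).mul (cont_q (α-1-1))))).integrable_of_hasCompactSupport
    exact hcsq.mul_right
  have iE : Integrable (fun x : (EuclideanSpace ℝ (Fin n)) => (1 + ‖x‖ ^ 2) ^ (α - 1) * u x ^ 2) := by
    apply ((cont_q (α-1)).mul (hd.continuous.pow 2)).integrable_of_hasCompactSupport
    exact hcsq.mul_left
  have pw : ∀ x : (EuclideanSpace ℝ (Fin n)), -(2 * γ) * (2 * u x * (fderiv ℝ u x x) * (1 + ‖x‖ ^ 2) ^ (α - 1)) -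
      4 * γ ^ 2 * (‖x‖ ^ 2 * (1 + ‖x‖ ^ 2) ^ (α - 2) * u x ^ 2) ≤ (1 + ‖x‖ ^ 2) ^ α * ‖fderiv ℝ u x‖ ^ 2 := by
    intro x
    have hq0 := q_pos x
    have e1 : (1 + ‖x‖ ^ 2) ^ (α - 1) = (1 + ‖x‖ ^ 2) ^ (α - 2) * (1 + ‖x‖ ^ 2) := by
      rw [← Real.rpow_add_one hq0.ne']; congr 1; ring
    have e2 : (1 + ‖x‖ ^ 2) ^ α = (1 + ‖x‖ ^ 2) ^ (α - 2) * (1 + ‖x‖ ^ 2) ^ 2 := by
      have h := Real.rpow_add hq0 (α - 2) 2
      rw [show α - 2 + 2 = α by ring, Real.rpow_two] at h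
      exact h
    rw [e1, e2]
    have hw : 0 < (1 + ‖x‖ ^ 2) ^ (α - 2) := Real.rpow_pos_of_pos hq0 _
    set w := (1 + ‖x‖ ^ 2) ^ (α - 2)
    set Q := 1 + ‖x‖ ^ 2
    have hD : |fderiv ℝ u x x| ≤ ‖fderiv ℝ u x‖ * ‖x‖ := by
      have := (fderiv ℝ u x).le_opNorm x
      rwa [Real.norm_eq_abs] at this
    set Dn := ‖fderiv ℝ u x‖
    have hDn : 0 ≤ Dn := norm_nonneg _
    have h5 : -(u x * (fderiv ℝ u x x)) ≤ |u x| * (Dn * ‖x‖) := by
      calc -(u x * (fderiv ℝ u x x)) ≤ |u x * (fderiv ℝ u x x)| := neg_le_abs _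
        _ = |u x| * |fderiv ℝ u x x| := abs_mul _ _
        _ ≤ |u x| * (Dn * ‖x‖) := mul_le_mul_of_nonneg_left hD (abs_nonneg _)
    have h6 : 0 ≤ w * (Q * Dn - 2 * γ * |u x| * ‖x‖) ^ 2 := by positivity
    have h7 : |u x| ^ 2 = u x ^ 2 := sq_abs _
    have h8 : 0 ≤ 4 * γ * w * Q := by positivity
    have h9 := mul_le_mul_of_nonneg_left h5 h8
    have h10 : w * (Q * Dn - 2 * γ * |u x| * ‖x‖) ^ 2 = w * Q ^ 2 * Dn ^ 2 -
        4 * γ * w * Q * (|u x| * (Dn * ‖x‖)) + 4 * γ ^ 2 * (‖x‖ ^ 2 * w * |u x| ^ 2) := by ring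
    rw [h10, h7] at h6
    linarith
  have hint := integral_mono ((iB.const_mul (-(2 * γ))).sub (iC.const_mul (4 * γ ^ 2))) iA pw
  simp only [Pi.sub_apply] at hint
  rw [integral_sub (iB.const_mul (-(2 * γ))) (iC.const_mul (4 * γ ^ 2)), integral_const_mul,
    integral_const_mul, hib] at hint
  refine le_trans ?_ hint
  rw [← integral_const_mul c, mul_neg, neg_mul, neg_neg, ← integral_const_mul (2 * γ),
    ← integral_const_mul (4 * γ ^ 2), ← integral_sub (iD.const_mul _) (iC.const_mul _)]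
  apply integral_mono (iE.const_mul c) ((iD.const_mul _).sub (iC.const_mul _))
  intro x
  have hq0 := q_pos x
  have e1 : (1 + ‖x‖ ^ 2) ^ (α - 1) = (1 + ‖x‖ ^ 2) ^ (α - 2) * (1 + ‖x‖ ^ 2) := by
    rw [← Real.rpow_add_one hq0.ne']; congr 1; ring
  have e3 : α - 1 - 1 = α - 2 := by ring
  show c * ((1 + ‖x‖ ^ 2) ^ (α - 1) * u x ^ 2) ≤
    2 * γ * (u x ^ 2 * ((n:ℝ) * (1 + ‖x‖ ^ 2) ^ (α - 1) + 2 * (α - 1) * ‖x‖ ^ 2 * (1 + ‖x‖ ^ 2) ^ (α - 1 - 1))) -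
      4 * γ ^ 2 * (‖x‖ ^ 2 * (1 + ‖x‖ ^ 2) ^ (α - 2) * u x ^ 2)
  rw [e3, e1]
  have hw : 0 < (1 + ‖x‖ ^ 2) ^ (α - 2) := Real.rpow_pos_of_pos hq0 _
  set w := (1 + ‖x‖ ^ 2) ^ (α - 2)
  have h3 : 0 ≤ w * u x ^ 2 := by positivity
  have h4 : c * (1 + ‖x‖ ^ 2) ≤ 2 * γ * n * 1 + 2 * γ * (n + 2 * (α - 1) - 2 * γ) * ‖x‖ ^ 2 := by
    have h0 : 0 ≤ ‖x‖ ^ 2 := by positivity
    have := mul_le_mul_of_nonneg_right h2 h0
    linarith
  have h5 := mul_le_mul_of_nonneg_left h4 h3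
  have h6 : 2 * γ * (u x ^ 2 * ((n:ℝ) * (w * (1 + ‖x‖ ^ 2)) + 2 * (α - 1) * ‖x‖ ^ 2 * w)) -
      4 * γ ^ 2 * (‖x‖ ^ 2 * w * u x ^ 2) =
      w * u x ^ 2 * (2 * γ * n * 1 + 2 * γ * (n + 2 * (α - 1) - 2 * γ) * ‖x‖ ^ 2) := by ring
  rw [h6]
  calc c * (w * (1 + ‖x‖ ^ 2) * u x ^ 2) = w * u x ^ 2 * (c * (1 + ‖x‖ ^ 2)) := by ring
    _ ≤ _ := h5

end Pool.Agent.H3.WH
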