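import Mathlib
import Pool.Agent.H3.WHProof

set_option autoImplicit false

open MeasureTheory Set Filter Topology
open scoped ContDiff

namespace Pool.Agent.H3.WH

variable {n : ℕ}


/-! ### sharpness -/

noncomputable def bmp : ContDiffBump (0 : (EuclideanSpace ℝ (Fin n))) := ⟨1, 2, by norm_num, by norm_num⟩

noncomputable def chi (R : ℝ) (x : (EuclideanSpace ℝ (Fin n))) : ℝ := (bmp : ContDiffBump (0:(EuclideanSpace ℝ (Fin n)))) (R⁻¹ • x)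

lemma chi_smooth (R : ℝ) : ContDiff ℝ ∞ (chi (n := n) R) :=
  (bmp : ContDiffBump (0:(EuclideanSpace ℝ (Fin n)))).contDiff.comp (contDiff_const_smul R⁻¹)

lemma chi_nonneg (R : ℝ) (x : (EuclideanSpace ℝ (Fin n))) : 0 ≤ chi R x := (bmp : ContDiffBump (0:(EuclideanSpace ℝ (Fin n)))).nonneg
lemma chi_le_one (R : ℝ) (x : (EuclideanSpace ℝ (Fin n))) : chi R x ≤ 1 := (bmp : ContDiffBump (0:(EuclideanSpace ℝ (Fin n)))).le_one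

lemma chi_compact {R : ℝ} (hR : 0 < R) : HasCompactSupport (chi (n := n) R) := by
  apply HasCompactSupport.intro (isCompact_closedBall (0:(EuclideanSpace ℝ (Fin n))) (2 * R))
  intro x hx
  apply (bmp : ContDiffBump (0:(EuclideanSpace ℝ (Fin n)))).zero_of_le_dist
  simp only [Metric.mem_closedBall, dist_zero_right, not_le] at hx
  rw [dist_zero_right, norm_smul, norm_inv, Real.norm_of_nonneg hR.le]
  show 2 ≤ R⁻¹ * ‖x‖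
  rw [inv_mul_eq_div, le_div_iff₀ hR]
  exact hx.le

lemma chi_eventually {R : ℝ} (hR : 0 < R) {x : (EuclideanSpace ℝ (Fin n))} (hx : ‖x‖ < R) : chi R =ᶠ[𝓝 x] fun _ => (1:ℝ) := by
  have : ∀ᶠ y in 𝓝 x, ‖y‖ < R := (isOpen_lt continuous_norm continuous_const).mem_nhds hx
  filter_upwards [this] with y hy
  apply (bmp : ContDiffBump (0:(EuclideanSpace ℝ (Fin n)))).one_of_mem_closedBall
  rw [Metric.mem_closedBall, dist_zero_right, norm_smul, norm_inv, Real.norm_of_nonneg hR.le]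
  show R⁻¹ * ‖y‖ ≤ 1
  rw [inv_mul_eq_div, div_le_one hR]
  exact hy.le

lemma chi_one {R : ℝ} (hR : 0 < R) {x : (EuclideanSpace ℝ (Fin n))} (hx : ‖x‖ < R) : chi R x = 1 := (chi_eventually hR hx).self_of_nhds

lemma fchi_zero {R : ℝ} (hR : 0 < R) {x : (EuclideanSpace ℝ (Fin n))} (hx : ‖x‖ < R) : fderiv ℝ (chi R) x = 0 := by
  rw [(chi_eventually hR hx).fderiv_eq]; simp

lemma fchi (R : ℝ) (x : (EuclideanSpace ℝ (Fin n))) : fderiv ℝ (chi R) x = R⁻¹ • fderiv ℝ (bmp : ContDiffBump (0:(EuclideanSpace ℝ (Fin n)))) (R⁻¹ • x) := by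
  have h1 : HasFDerivAt (bmp : ContDiffBump (0:(EuclideanSpace ℝ (Fin n)))) (fderiv ℝ (bmp : ContDiffBump (0:(EuclideanSpace ℝ (Fin n)))) (R⁻¹ • x)) (R⁻¹ • x) :=
    (((bmp : ContDiffBump (0:(EuclideanSpace ℝ (Fin n)))).contDiff (n := 1)).differentiable one_ne_zero _).hasFDerivAt
  have h2 : HasFDerivAt (fun x : (EuclideanSpace ℝ (Fin n)) => R⁻¹ • x) (R⁻¹ • ContinuousLinearMap.id ℝ (EuclideanSpace ℝ (Fin n))) x :=
    (hasFDerivAt_id x).const_smul R⁻¹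
  have h3 := (h1.comp x h2).fderiv
  have h4 : fderiv ℝ (chi R) x = _ := h3
  rw [h4]
  ext v
  simp

/-- `|∇χ_R|² ≤ K / (1+|x|²)` uniformly in `R ≥ 1`. -/
lemma fchi_bound : ∃ K : ℝ, 0 ≤ K ∧ ∀ R : ℝ, 1 ≤ R → ∀ x : (EuclideanSpace ℝ (Fin n)),
    ‖fderiv ℝ (chi R) x‖ ^ 2 * (1 + ‖x‖ ^ 2) ≤ K := by
  have hcd : ContDiff ℝ 1 (bmp : ContDiffBump (0:(EuclideanSpace ℝ (Fin n)))) := (bmp : ContDiffBump (0:(EuclideanSpace ℝ (Fin n)))).contDiff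
  obtain ⟨M, hM⟩ := ((bmp : ContDiffBump (0:(EuclideanSpace ℝ (Fin n)))).hasCompactSupport.fderiv (𝕜 := ℝ)).exists_bound_of_continuous
    (hcd.continuous_fderiv one_ne_zero)
  refine ⟨5 * M ^ 2, by positivity, fun R hR x => ?_⟩
  have hR0 : 0 < R := by linarith
  by_cases hx : ‖x‖ ≤ 2 * R
  · rw [fchi, norm_smul, norm_inv, Real.norm_of_nonneg hR0.le]
    have h1 := hM (R⁻¹ • x)
    have h2 : ‖fderiv ℝ (bmp : ContDiffBump (0:(EuclideanSpace ℝ (Fin n)))) (R⁻¹ • x)‖ ^ 2 ≤ M ^ 2 := by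
      gcongr
    have h3 : 1 + ‖x‖ ^ 2 ≤ 5 * R ^ 2 := by
      have : ‖x‖ ^ 2 ≤ (2 * R) ^ 2 := by gcongr
      nlinarith
    rw [mul_pow]
    calc R⁻¹ ^ 2 * ‖fderiv ℝ (bmp : ContDiffBump (0:(EuclideanSpace ℝ (Fin n)))) (R⁻¹ • x)‖ ^ 2 * (1 + ‖x‖ ^ 2)
        ≤ R⁻¹ ^ 2 * M ^ 2 * (5 * R ^ 2) := by gcongr
      _ = 5 * M ^ 2 := by field_simp
  · push Not at hx
    have h0 : chi R =ᶠ[𝓝 x] fun _ => (0:ℝ) := by
      have : ∀ᶠ y in 𝓝 x, 2 * R < ‖y‖ := (isOpen_lt continuous_const continuous_norm).mem_nhds hx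
      filter_upwards [this] with y hy
      apply (bmp : ContDiffBump (0:(EuclideanSpace ℝ (Fin n)))).zero_of_le_dist
      rw [dist_zero_right, norm_smul, norm_inv, Real.norm_of_nonneg hR0.le]
      show 2 ≤ R⁻¹ * ‖y‖
      rw [inv_mul_eq_div, le_div_iff₀ hR0]
      exact hy.le
    rw [h0.fderiv_eq]
    simp
    positivity

lemma int_q {s : ℝ} (hs : (n:ℝ) < -2 * s) : Integrable (fun x : (EuclideanSpace ℝ (Fin n)) => (1 + ‖x‖ ^ 2) ^ s) := by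
  have h := integrable_rpow_neg_one_add_norm_sq (E := (EuclideanSpace ℝ (Fin n))) (μ := volume) (r := -2 * s) (by simpa using hs)
  have e : -(-2 * s) / 2 = s := by ring
  rw [e] at h
  exact h

lemma cs_q (s : ℝ) : ContDiff ℝ ∞ (fun x : (EuclideanSpace ℝ (Fin n)) => (1 + ‖x‖ ^ 2) ^ s) := by
  apply ContDiff.rpow_const_of_ne
  · exact contDiff_const.add (contDiff_norm_sq ℝ)
  · intro x; exact (q_pos x).ne'

/-- test functions -/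
noncomputable def tf (γ R : ℝ) (x : (EuclideanSpace ℝ (Fin n))) : ℝ := (1 + ‖x‖ ^ 2) ^ (-γ) * chi R x

lemma tf_smooth (γ R : ℝ) : ContDiff ℝ ∞ (tf (n := n) γ R) := (cs_q (-γ)).mul (chi_smooth R)

lemma tf_compact (γ : ℝ) {R : ℝ} (hR : 0 < R) : HasCompactSupport (tf (n := n) γ R) :=
  (chi_compact hR).mul_left

lemma chi_hasF (R : ℝ) (x : (EuclideanSpace ℝ (Fin n))) : HasFDerivAt (chi R) (fderiv ℝ (chi R) x) x :=
  ((chi_smooth R).differentiable (by simp) x).hasFDerivAt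

lemma tf_f (γ R : ℝ) (x : (EuclideanSpace ℝ (Fin n))) : fderiv ℝ (tf γ R) x =
    (1 + ‖x‖ ^ 2) ^ (-γ) • fderiv ℝ (chi R) x +
      chi R x • ((-γ * (1 + ‖x‖ ^ 2) ^ (-γ - 1)) • (2 • (innerSL ℝ x))) :=
  ((hasF_q (-γ) x).mul (chi_hasF R x)).fderiv

lemma norm_tf (γ R : ℝ) (x : (EuclideanSpace ℝ (Fin n))) : ‖fderiv ℝ (tf γ R) x‖ ^ 2 ≤
    2 * ((1 + ‖x‖ ^ 2) ^ (-γ)) ^ 2 * ‖fderiv ℝ (chi R) x‖ ^ 2 +
      8 * γ ^ 2 * ((1 + ‖x‖ ^ 2) ^ (-γ - 1)) ^ 2 * ‖x‖ ^ 2 := by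
  rw [tf_f]
  have h1 : ‖(1 + ‖x‖ ^ 2) ^ (-γ) • fderiv ℝ (chi R) x‖ = (1 + ‖x‖ ^ 2) ^ (-γ) * ‖fderiv ℝ (chi R) x‖ := by
    rw [norm_smul, Real.norm_of_nonneg (Real.rpow_nonneg (q_pos x).le _)]
  have h2 : ‖chi R x • ((-γ * (1 + ‖x‖ ^ 2) ^ (-γ - 1)) • (2 • (innerSL ℝ x)))‖ =
      chi R x * (|γ| * (1 + ‖x‖ ^ 2) ^ (-γ - 1)) * (2 * ‖x‖) := by
    rw [norm_smul, norm_smul, Real.norm_of_nonneg (chi_nonneg R x), norm_mul, norm_neg,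
      Real.norm_of_nonneg (Real.rpow_nonneg (q_pos x).le _), Real.norm_eq_abs]
    have : ‖(2:ℕ) • (innerSL ℝ x)‖ = 2 * ‖x‖ := by
      rw [← Nat.cast_smul_eq_nsmul ℝ, norm_smul, innerSL_apply_norm]; simp
    rw [this]; ring
  have h3 := norm_add_le ((1 + ‖x‖ ^ 2) ^ (-γ) • fderiv ℝ (chi R) x)
    (chi R x • ((-γ * (1 + ‖x‖ ^ 2) ^ (-γ - 1)) • (2 • (innerSL ℝ x))))
  rw [h1, h2] at h3
  have h4 : chi R x * (|γ| * (1 + ‖x‖ ^ 2) ^ (-γ - 1)) * (2 * ‖x‖) ≤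
      (|γ| * (1 + ‖x‖ ^ 2) ^ (-γ - 1)) * (2 * ‖x‖) := by
    have := chi_le_one R x
    have h5 : 0 ≤ (|γ| * (1 + ‖x‖ ^ 2) ^ (-γ - 1)) * (2 * ‖x‖) := by positivity
    nlinarith
  set A := (1 + ‖x‖ ^ 2) ^ (-γ) * ‖fderiv ℝ (chi R) x‖ with hA
  set B := (|γ| * (1 + ‖x‖ ^ 2) ^ (-γ - 1)) * (2 * ‖x‖) with hB
  have h6 : ‖(1 + ‖x‖ ^ 2) ^ (-γ) • fderiv ℝ (chi R) x +
    chi R x • ((-γ * (1 + ‖x‖ ^ 2) ^ (-γ - 1)) • (2 • (innerSL ℝ x)))‖ ^ 2 ≤ (A + B) ^ 2 := by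
    gcongr; linarith
  have h7 : (A + B) ^ 2 ≤ 2 * A ^ 2 + 2 * B ^ 2 := by nlinarith [sq_nonneg (A - B)]
  have h8 : 2 * A ^ 2 + 2 * B ^ 2 = 2 * ((1 + ‖x‖ ^ 2) ^ (-γ)) ^ 2 * ‖fderiv ℝ (chi R) x‖ ^ 2 +
      8 * γ ^ 2 * ((1 + ‖x‖ ^ 2) ^ (-γ - 1)) ^ 2 * ‖x‖ ^ 2 := by
    rw [hA, hB]
    have : |γ| ^ 2 = γ ^ 2 := sq_abs γ
    rw [← this]; ring
  linarith

lemma sq_rpow (s : ℝ) (x : (EuclideanSpace ℝ (Fin n))) : ((1 + ‖x‖ ^ 2) ^ s) ^ 2 = (1 + ‖x‖ ^ 2) ^ (2 * s) := by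
  rw [mul_comm 2 s, Real.rpow_mul (q_pos x).le, Real.rpow_two]

lemma qpow_a (α γ : ℝ) (x : (EuclideanSpace ℝ (Fin n))) :
    (1 + ‖x‖ ^ 2) ^ (α - 1) * ((1 + ‖x‖ ^ 2) ^ (-γ)) ^ 2 = (1 + ‖x‖ ^ 2) ^ (α - 1 - 2 * γ) := by
  rw [sq_rpow, ← Real.rpow_add (q_pos x)]
  congr 1; ring

lemma qpow_b (α γ : ℝ) (x : (EuclideanSpace ℝ (Fin n))) :
    (1 + ‖x‖ ^ 2) ^ α * ((1 + ‖x‖ ^ 2) ^ (-γ - 1)) ^ 2 = (1 + ‖x‖ ^ 2) ^ (α - 2 * γ - 2) := by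
  rw [sq_rpow, ← Real.rpow_add (q_pos x)]
  congr 1; ring

lemma qpow_c (α γ : ℝ) (x : (EuclideanSpace ℝ (Fin n))) :
    (1 + ‖x‖ ^ 2) ^ α * ((1 + ‖x‖ ^ 2) ^ (-γ)) ^ 2 = (1 + ‖x‖ ^ 2) ^ (α - 1 - 2 * γ) * (1 + ‖x‖ ^ 2) := by
  rw [sq_rpow, ← Real.rpow_add (q_pos x), ← Real.rpow_add_one (q_pos x).ne']
  congr 1; ring

lemma qpow_d (s : ℝ) (x : (EuclideanSpace ℝ (Fin n))) : ‖x‖ ^ 2 * (1 + ‖x‖ ^ 2) ^ (s - 1) ≤ (1 + ‖x‖ ^ 2) ^ s := by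
  have e : (1 + ‖x‖ ^ 2) ^ s = (1 + ‖x‖ ^ 2) ^ (s - 1) * (1 + ‖x‖ ^ 2) := by
    rw [← Real.rpow_add_one (q_pos x).ne']; congr 1; ring
  rw [e]
  have hw : 0 < (1 + ‖x‖ ^ 2) ^ (s - 1) := Real.rpow_pos_of_pos (q_pos x) _
  nlinarith

lemma ev_norm (x : (EuclideanSpace ℝ (Fin n))) : ∀ᶠ k : ℕ in atTop, ‖x‖ < (k:ℝ) + 1 := by
  obtain ⟨m, hm⟩ := exists_nat_gt ‖x‖
  filter_upwards [eventually_ge_atTop m] with k hk
  have : (m:ℝ) ≤ k := by exact_mod_cast hk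
  linarith

lemma kpos (k : ℕ) : (0:ℝ) < (k:ℝ) + 1 := by positivity

lemma limit_ineq {α γ c : ℝ} (h : Hardy n α c) (hγ : (n:ℝ) < -2 * (α - 1 - 2 * γ)) :
    c * ∫ x : (EuclideanSpace ℝ (Fin n)), (1 + ‖x‖ ^ 2) ^ (α - 1 - 2 * γ) ≤
      ∫ x : (EuclideanSpace ℝ (Fin n)), 4 * γ ^ 2 * (‖x‖ ^ 2 * (1 + ‖x‖ ^ 2) ^ (α - 2 * γ - 2)) := by
  obtain ⟨K, hK0, hK⟩ := fchi_bound (n := n)
  have hint := int_q hγ
  have hcf : ∀ R, Continuous (fderiv ℝ (tf (n := n) γ R)) := fun R =>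
    ((tf_smooth γ R).of_le (by simp : (1 : WithTop ℕ∞) ≤ ∞)).continuous_fderiv one_ne_zero
  have hL : Tendsto (fun k : ℕ => ∫ x : (EuclideanSpace ℝ (Fin n)), (1 + ‖x‖ ^ 2) ^ (α - 1) * (tf γ ((k:ℝ) + 1) x) ^ 2) atTop
      (𝓝 (∫ x : (EuclideanSpace ℝ (Fin n)), (1 + ‖x‖ ^ 2) ^ (α - 1 - 2 * γ))) := by
    apply tendsto_integral_of_dominated_convergence (fun x : (EuclideanSpace ℝ (Fin n)) => (1 + ‖x‖ ^ 2) ^ (α - 1 - 2 * γ))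
    · intro k
      exact ((cont_q _).mul ((tf_smooth γ _).continuous.pow 2)).aestronglyMeasurable
    · exact hint
    · intro k
      refine Eventually.of_forall fun x => ?_
      have hw : 0 < (1 + ‖x‖ ^ 2) ^ (α - 1 - 2 * γ) := Real.rpow_pos_of_pos (q_pos x) _
      have e : (1 + ‖x‖ ^ 2) ^ (α - 1) * (tf γ ((k:ℝ) + 1) x) ^ 2 =
          (1 + ‖x‖ ^ 2) ^ (α - 1 - 2 * γ) * (chi ((k:ℝ) + 1) x) ^ 2 := by
        rw [← qpow_a α γ x]; simp only [tf]; ring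
      rw [e, Real.norm_of_nonneg (by positivity)]
      have h1 : (chi ((k:ℝ) + 1) x) ^ 2 ≤ 1 := pow_le_one₀ (chi_nonneg _ _) (chi_le_one _ _)
      nlinarith
    · refine Eventually.of_forall fun x => ?_
      apply tendsto_const_nhds.congr'
      filter_upwards [ev_norm x] with k hk
      simp only [tf, chi_one (kpos k) hk, mul_one]
      exact (qpow_a α γ x).symm
  have hR : Tendsto (fun k : ℕ => ∫ x : (EuclideanSpace ℝ (Fin n)), (1 + ‖x‖ ^ 2) ^ α * ‖fderiv ℝ (tf γ ((k:ℝ) + 1)) x‖ ^ 2) atTop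
      (𝓝 (∫ x : (EuclideanSpace ℝ (Fin n)), 4 * γ ^ 2 * (‖x‖ ^ 2 * (1 + ‖x‖ ^ 2) ^ (α - 2 * γ - 2)))) := by
    apply tendsto_integral_of_dominated_convergence
      (fun x : (EuclideanSpace ℝ (Fin n)) => (2 * K + 8 * γ ^ 2) * (1 + ‖x‖ ^ 2) ^ (α - 1 - 2 * γ))
    · intro k
      exact ((cont_q _).mul ((hcf _).norm.pow 2)).aestronglyMeasurable
    · exact hint.const_mul _
    · intro k
      refine Eventually.of_forall fun x => ?_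
      have hq0 := q_pos x
      have hw : 0 < (1 + ‖x‖ ^ 2) ^ (α - 1 - 2 * γ) := Real.rpow_pos_of_pos (q_pos x) _
      have hqa : 0 < (1 + ‖x‖ ^ 2) ^ α := Real.rpow_pos_of_pos (q_pos x) _
      rw [Real.norm_of_nonneg (by positivity)]
      have h1 := mul_le_mul_of_nonneg_left (norm_tf γ ((k:ℝ) + 1) x) hqa.le
      have e : (1 + ‖x‖ ^ 2) ^ α * (2 * ((1 + ‖x‖ ^ 2) ^ (-γ)) ^ 2 * ‖fderiv ℝ (chi ((k:ℝ) + 1)) x‖ ^ 2 +
          8 * γ ^ 2 * ((1 + ‖x‖ ^ 2) ^ (-γ - 1)) ^ 2 * ‖x‖ ^ 2) =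
          2 * ((1 + ‖x‖ ^ 2) ^ (α - 1 - 2 * γ) * (‖fderiv ℝ (chi ((k:ℝ) + 1)) x‖ ^ 2 * (1 + ‖x‖ ^ 2))) +
          8 * γ ^ 2 * (‖x‖ ^ 2 * (1 + ‖x‖ ^ 2) ^ (α - 2 * γ - 2)) := by
        have e1 := qpow_c α γ x
        have e2 := qpow_b α γ x
        rw [← e2]
        linear_combination (2 * ‖fderiv ℝ (chi ((k:ℝ) + 1)) x‖ ^ 2) * e1
      rw [e] at h1
      have h2 := mul_le_mul_of_nonneg_left (hK ((k:ℝ) + 1) (by linarith [kpos k, (Nat.cast_nonneg k : (0:ℝ) ≤ k)]) x) hw.le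
      have h3 : ‖x‖ ^ 2 * (1 + ‖x‖ ^ 2) ^ (α - 2 * γ - 2) ≤ (1 + ‖x‖ ^ 2) ^ (α - 1 - 2 * γ) := by
        have := qpow_d (α - 1 - 2 * γ) x
        rwa [show α - 1 - 2 * γ - 1 = α - 2 * γ - 2 by ring] at this
      have h4 := mul_le_mul_of_nonneg_left h3 (by positivity : (0:ℝ) ≤ 8 * γ ^ 2)
      calc _ ≤ _ := h1
        _ ≤ 2 * ((1 + ‖x‖ ^ 2) ^ (α - 1 - 2 * γ) * K) + 8 * γ ^ 2 * (1 + ‖x‖ ^ 2) ^ (α - 1 - 2 * γ) := by
            linarith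
        _ = _ := by ring
    · refine Eventually.of_forall fun x => ?_
      apply tendsto_const_nhds.congr'
      filter_upwards [ev_norm x] with k hk
      rw [tf_f, fchi_zero (kpos k) hk, chi_one (kpos k) hk, smul_zero, zero_add, one_smul]
      have : ‖(2:ℕ) • (innerSL ℝ x)‖ = 2 * ‖x‖ := by
        rw [← Nat.cast_smul_eq_nsmul ℝ, norm_smul, innerSL_apply_norm]; simp
      rw [norm_smul, norm_mul, norm_neg, Real.norm_of_nonneg (Real.rpow_nonneg (q_pos x).le _), this,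
        Real.norm_eq_abs, ← qpow_b α γ x]
      have : |γ| ^ 2 = γ ^ 2 := sq_abs γ
      rw [← this]; ring
  exact le_of_tendsto_of_tendsto' (hL.const_mul c) hR fun k => h _ (tf_smooth _ _) (tf_compact _ (kpos k))

lemma ident {α : ℝ} (hα : (n:ℝ) < -2 * (1 - α)) :
    (n:ℝ) * ∫ x : (EuclideanSpace ℝ (Fin n)), (1 + ‖x‖ ^ 2) ^ (1 - α) = 2 * (α - 1) * ∫ x : (EuclideanSpace ℝ (Fin n)), ‖x‖ ^ 2 * (1 + ‖x‖ ^ 2) ^ (-α) := by
  obtain ⟨K, hK0, hK⟩ := fchi_bound (n := n)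
  have hint := int_q hα
  have hint2 : Integrable (fun x : (EuclideanSpace ℝ (Fin n)) => ‖x‖ ^ 2 * (1 + ‖x‖ ^ 2) ^ (-α)) := by
    apply hint.mono' ((continuous_norm.pow 2).mul (cont_q _)).aestronglyMeasurable
    refine Eventually.of_forall fun x => ?_
    have hw : 0 < (1 + ‖x‖ ^ 2) ^ (-α) := Real.rpow_pos_of_pos (q_pos x) _
    have h0 : 0 ≤ ‖x‖ ^ 2 * (1 + ‖x‖ ^ 2) ^ (-α) := by positivity
    show ‖‖x‖ ^ 2 * (1 + ‖x‖ ^ 2) ^ (-α)‖ ≤ (1 + ‖x‖ ^ 2) ^ (1 - α)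
    rw [Real.norm_of_nonneg h0]
    have := qpow_d (1 - α) x
    rwa [show 1 - α - 1 = -α by ring] at this
  have hc1 : ∀ R, ContDiff ℝ 1 (chi (n := n) R) := fun R =>
    (chi_smooth R).of_le (by simp : (1 : WithTop ℕ∞) ≤ ∞)
  have hcf : ∀ R, Continuous (fderiv ℝ (chi (n := n) R)) := fun R => (hc1 R).continuous_fderiv one_ne_zero
  have hL : Tendsto (fun k : ℕ => ∫ x : (EuclideanSpace ℝ (Fin n)), (fderiv ℝ (chi ((k:ℝ) + 1)) x x) * (1 + ‖x‖ ^ 2) ^ (1 - α)) atTop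
      (𝓝 (∫ x : (EuclideanSpace ℝ (Fin n)), (0:ℝ))) := by
    apply tendsto_integral_of_dominated_convergence (fun x : (EuclideanSpace ℝ (Fin n)) => (K + 1) * (1 + ‖x‖ ^ 2) ^ (1 - α))
    · intro k
      exact (((hcf _).clm_apply continuous_id).mul (cont_q _)).aestronglyMeasurable
    · exact hint.const_mul _
    · intro k
      refine Eventually.of_forall fun x => ?_
      have hw : 0 < (1 + ‖x‖ ^ 2) ^ (1 - α) := Real.rpow_pos_of_pos (q_pos x) _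
      rw [norm_mul, Real.norm_of_nonneg hw.le]
      apply mul_le_mul_of_nonneg_right _ hw.le
      have h1 := (fderiv ℝ (chi ((k:ℝ) + 1)) x).le_opNorm x
      have h2 := hK ((k:ℝ) + 1) (by linarith [(Nat.cast_nonneg k : (0:ℝ) ≤ k)]) x
      nlinarith [sq_nonneg (‖fderiv ℝ (chi ((k:ℝ) + 1)) x‖ * ‖x‖ - 1), sq_nonneg ‖fderiv ℝ (chi ((k:ℝ) + 1)) x‖]
    · refine Eventually.of_forall fun x => ?_
      apply tendsto_const_nhds.congr'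
      filter_upwards [ev_norm x] with k hk
      rw [fchi_zero (kpos k) hk]; simp
  have hR : Tendsto (fun k : ℕ => ∫ x : (EuclideanSpace ℝ (Fin n)), chi ((k:ℝ) + 1) x *
      ((n:ℝ) * (1 + ‖x‖ ^ 2) ^ (1 - α) + 2 * (1 - α) * ‖x‖ ^ 2 * (1 + ‖x‖ ^ 2) ^ (1 - α - 1))) atTop
      (𝓝 (∫ x : (EuclideanSpace ℝ (Fin n)), ((n:ℝ) * (1 + ‖x‖ ^ 2) ^ (1 - α) + 2 * (1 - α) * (‖x‖ ^ 2 * (1 + ‖x‖ ^ 2) ^ (-α))))) := by
    apply tendsto_integral_of_dominated_convergence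
      (fun x : (EuclideanSpace ℝ (Fin n)) => ((n:ℝ) + 2 * |1 - α|) * (1 + ‖x‖ ^ 2) ^ (1 - α))
    · intro k
      exact ((hc1 _).continuous.mul ((continuous_const.mul (cont_q _)).add
        ((continuous_const.mul (continuous_norm.pow 2)).mul (cont_q _)))).aestronglyMeasurable
    · exact hint.const_mul _
    · intro k
      refine Eventually.of_forall fun x => ?_
      have hw : 0 < (1 + ‖x‖ ^ 2) ^ (1 - α) := Real.rpow_pos_of_pos (q_pos x) _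
      have hw2 : 0 < (1 + ‖x‖ ^ 2) ^ (1 - α - 1) := Real.rpow_pos_of_pos (q_pos x) _
      rw [norm_mul, Real.norm_of_nonneg (chi_nonneg _ _)]
      have h1 : ‖(n:ℝ) * (1 + ‖x‖ ^ 2) ^ (1 - α) + 2 * (1 - α) * ‖x‖ ^ 2 * (1 + ‖x‖ ^ 2) ^ (1 - α - 1)‖ ≤
          (n:ℝ) * (1 + ‖x‖ ^ 2) ^ (1 - α) + 2 * |1 - α| * (‖x‖ ^ 2 * (1 + ‖x‖ ^ 2) ^ (1 - α - 1)) := by
        refine (norm_add_le _ _).trans (le_of_eq ?_)
        congr 1
        · rw [Real.norm_of_nonneg (by positivity)]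
        · simp only [norm_mul, norm_pow, norm_norm, Real.norm_of_nonneg hw2.le, Real.norm_eq_abs (1 - α)]
          norm_num
          ring
      have h2 := qpow_d (1 - α) x
      have h3 := mul_le_mul_of_nonneg_left h2 (by positivity : (0:ℝ) ≤ 2 * |1 - α|)
      have h4 := chi_le_one ((k:ℝ) + 1) x
      calc chi ((k:ℝ) + 1) x * ‖(n:ℝ) * (1 + ‖x‖ ^ 2) ^ (1 - α) + 2 * (1 - α) * ‖x‖ ^ 2 * (1 + ‖x‖ ^ 2) ^ (1 - α - 1)‖
          ≤ 1 * ‖(n:ℝ) * (1 + ‖x‖ ^ 2) ^ (1 - α) + 2 * (1 - α) * ‖x‖ ^ 2 * (1 + ‖x‖ ^ 2) ^ (1 - α - 1)‖ :=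
            mul_le_mul_of_nonneg_right h4 (norm_nonneg _)
        _ ≤ _ := by linarith
    · refine Eventually.of_forall fun x => ?_
      apply tendsto_const_nhds.congr'
      filter_upwards [ev_norm x] with k hk
      rw [chi_one (kpos k) hk, show 1 - α - 1 = -α by ring]; ring
  have he : ∀ k : ℕ, ∫ x : (EuclideanSpace ℝ (Fin n)), (fderiv ℝ (chi ((k:ℝ) + 1)) x x) * (1 + ‖x‖ ^ 2) ^ (1 - α) =
      - ∫ x : (EuclideanSpace ℝ (Fin n)), chi ((k:ℝ) + 1) x *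
      ((n:ℝ) * (1 + ‖x‖ ^ 2) ^ (1 - α) + 2 * (1 - α) * ‖x‖ ^ 2 * (1 + ‖x‖ ^ 2) ^ (1 - α - 1)) := fun k =>
    ibp (hc1 _) (chi_compact (kpos k)) (1 - α)
  have hu := tendsto_nhds_unique (hL.congr he) hR.neg
  rw [integral_add (hint.const_mul _) (hint2.const_mul _), integral_const_mul, integral_const_mul] at hu
  simp only [integral_zero] at hu
  linarith

lemma int_pos {s : ℝ} (hs : (n:ℝ) < -2 * s) : 0 < ∫ x : (EuclideanSpace ℝ (Fin n)), (1 + ‖x‖ ^ 2) ^ s := by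
  rw [integral_pos_iff_support_of_nonneg (fun x => Real.rpow_nonneg (q_pos x).le _) (int_q hs)]
  have : Function.support (fun x : (EuclideanSpace ℝ (Fin n)) => (1 + ‖x‖ ^ 2) ^ s) = univ := by
    ext x
    simp only [Function.mem_support, mem_univ, iff_true]
    exact (Real.rpow_pos_of_pos (q_pos x) _).ne'
  rw [this]
  exact Measure.measure_univ_pos.2 (NeZero.ne _)

lemma upper_gamma {α γ c : ℝ} (h : Hardy n α c) (hγ : (n:ℝ) < -2 * (α - 1 - 2 * γ)) : c ≤ 4 * γ ^ 2 := by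
  have h1 := limit_ineq h hγ
  have h2 : ∫ x : (EuclideanSpace ℝ (Fin n)), 4 * γ ^ 2 * (‖x‖ ^ 2 * (1 + ‖x‖ ^ 2) ^ (α - 2 * γ - 2)) ≤
      ∫ x : (EuclideanSpace ℝ (Fin n)), 4 * γ ^ 2 * (1 + ‖x‖ ^ 2) ^ (α - 1 - 2 * γ) := by
    have hb : ∀ x : (EuclideanSpace ℝ (Fin n)), 4 * γ ^ 2 * (‖x‖ ^ 2 * (1 + ‖x‖ ^ 2) ^ (α - 2 * γ - 2)) ≤
        4 * γ ^ 2 * (1 + ‖x‖ ^ 2) ^ (α - 1 - 2 * γ) := by
      intro x
      have := qpow_d (α - 1 - 2 * γ) x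
      rw [show α - 1 - 2 * γ - 1 = α - 2 * γ - 2 by ring] at this
      exact mul_le_mul_of_nonneg_left this (by positivity)
    have i2 := (int_q hγ).const_mul (4 * γ ^ 2)
    refine integral_mono (i2.mono' ?_ ?_) i2 hb
    · exact (continuous_const.mul ((continuous_norm.pow 2).mul (cont_q _))).aestronglyMeasurable
    · refine Eventually.of_forall fun x => ?_
      have hw : 0 < (1 + ‖x‖ ^ 2) ^ (α - 2 * γ - 2) := Real.rpow_pos_of_pos (q_pos x) _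
      have h0 : 0 ≤ 4 * γ ^ 2 * (‖x‖ ^ 2 * (1 + ‖x‖ ^ 2) ^ (α - 2 * γ - 2)) := by positivity
      show ‖4 * γ ^ 2 * (‖x‖ ^ 2 * (1 + ‖x‖ ^ 2) ^ (α - 2 * γ - 2))‖ ≤ _
      rw [Real.norm_of_nonneg h0]
      exact hb x
  have h3 := int_pos hγ
  have h4 := (h1.trans h2).trans_eq (integral_const_mul (4 * γ ^ 2) _)
  exact le_of_mul_le_mul_right h4 h3

lemma upper_one {α c : ℝ} (h : Hardy n α c) : c ≤ ((n:ℝ) + 2 * α - 2) ^ 2 / 4 := by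
  have hlim : Tendsto (fun k : ℕ => 4 * (((n:ℝ) + 2 * α - 2) / 4 + 1 / ((k:ℝ) + 1)) ^ 2) atTop
      (𝓝 (4 * (((n:ℝ) + 2 * α - 2) / 4 + 0) ^ 2)) :=
    ((tendsto_const_nhds.add tendsto_one_div_add_atTop_nhds_zero_nat).pow 2).const_mul 4
  have h1 : c ≤ 4 * (((n:ℝ) + 2 * α - 2) / 4 + 0) ^ 2 := by
    apply ge_of_tendsto' hlim
    intro k
    apply upper_gamma h
    have : (0:ℝ) < 1 / ((k:ℝ) + 1) := by positivity
    linarith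
  linarith [show 4 * (((n:ℝ) + 2 * α - 2) / 4 + 0) ^ 2 = ((n:ℝ) + 2 * α - 2) ^ 2 / 4 by ring]

lemma upper_two {α c : ℝ} (h : Hardy n α c) (hα : ((n:ℝ) + 2) / 2 < α) : c ≤ 2 * n * (α - 1) := by
  have hn : (0:ℝ) ≤ n := Nat.cast_nonneg n
  have hs : (n:ℝ) < -2 * (1 - α) := by linarith
  have h1 := limit_ineq (γ := α - 1) h (by linarith)
  rw [show α - 1 - 2 * (α - 1) = 1 - α by ring, show α - 2 * (α - 1) - 2 = -α by ring,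
    integral_const_mul] at h1
  have h2 := ident (n := n) hs
  have h3 := int_pos (n := n) hs
  have h4 : 4 * (α - 1) ^ 2 * ∫ x : (EuclideanSpace ℝ (Fin n)), ‖x‖ ^ 2 * (1 + ‖x‖ ^ 2) ^ (-α) =
      (2 * n * (α - 1)) * ∫ x : (EuclideanSpace ℝ (Fin n)), (1 + ‖x‖ ^ 2) ^ (1 - α) := by
    linear_combination (-2 * (α - 1)) * h2
  rw [h4] at h1
  exact le_of_mul_le_mul_right h1 h3

theorem main (n : ℕ) (α : ℝ) (hα : 1 < α) :
    IsGreatest {c : ℝ | Hardy n α c}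
      (if α ≤ ((n:ℝ) + 2) / 2 then ((n:ℝ) + 2 * α - 2) ^ 2 / 4 else 2 * n * (α - 1)) := by
  have hn : (0:ℝ) ≤ n := Nat.cast_nonneg n
  split_ifs with h
  · constructor
    · show Hardy n α _
      apply hardy_of (γ := ((n:ℝ) - 2 + 2 * α) / 4) (by linarith)
      · nlinarith
      · nlinarith
    · intro c hc
      exact upper_one hc
  · push Not at h
    constructor
    · show Hardy n α _
      apply hardy_of (γ := α - 1) (by linarith)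
      · nlinarith
      · nlinarith
    · intro c hc
      exact upper_two hc h

end Pool.Agent.H3.WH
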